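import Mathlib.RingTheory.Depth.Rees
import Mathlib.RingTheory.Regular.Flat
import Mathlib.RingTheory.Nullstellensatz
import Mathlib.RingTheory.KrullDimension.Polynomial
import Mathlib.RingTheory.KrullDimension.Field
import Mathlib.RingTheory.Ideal.KrullsHeightTheorem
import Mathlib.RingTheory.MvPolynomial.Ideal

/-! MP_462b8b_ag, module CM: unmixedness in polynomial rings (Cohen-Macaulay property). -/

open MvPolynomial IsLocalRing RingTheory.Sequence Pointwise CategoryTheory Abelian Limits

namespace Pool.Agent.Lib.MP_462b8b_ag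

/-- Lemma D: associated primes of a module with a regular sequence of length `t`. -/
lemma cm_height_assoc {R : Type} [CommRing R] [IsLocalRing R] [IsNoetherianRing R] :
    ∀ (rs : List R) (M : Type) [AddCommGroup M] [Module R M] [Module.Finite R M] (P : Ideal R),
      IsAssociatedPrime P M → (∀ r ∈ rs, r ∈ maximalIdeal R) → IsRegular M rs →
      P.height + rs.length ≤ (maximalIdeal R).height
  | [], M, _, _, _, P, hP, _, _ => by
      have := hP.isPrime
      simpa using Ideal.height_mono (le_maximalIdeal hP.isPrime.ne_top)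
  | x :: rs, M, _, _, _, P, hP, hm, hreg => by
      have hPp := hP.isPrime
      obtain ⟨-, z, hz⟩ := isAssociatedPrime_iff.mp hP
      rw [isRegular_cons_iff] at hreg
      obtain ⟨hx, hrs⟩ := hreg
      have hxm : x ∈ maximalIdeal R := hm x (by simp)
      have hxP : x ∉ P := by
        intro hxP
        rw [hz, Submodule.mem_colon_singleton, Submodule.mem_bot] at hxP
        have hz0 : z = 0 := by
          apply hx
          simpa using hxP
        apply hPp.ne_top
        rw [hz, hz0]
        rw [Ideal.eq_top_iff_one, Submodule.mem_colon_singleton]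
        simp
      -- the submodule killed by `P`
      let N : Submodule R M := Submodule.torsionBySet R M (P : Set R)
      have hN : ∀ w, w ∈ N ↔ ∀ p ∈ P, p • w = 0 := by
        intro w
        simp [N, Submodule.mem_torsionBySet_iff]
      have hzN : z ∈ N := by
        rw [hN]
        intro p hp
        rw [hz, Submodule.mem_colon_singleton, Submodule.mem_bot] at hp
        exact hp
      have hz0 : z ≠ 0 := by
        intro h0
        apply hPp.ne_top
        rw [hz, h0]
        rw [Ideal.eq_top_iff_one, Submodule.mem_colon_singleton]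
        simp
      have hNx : ∃ w ∈ N, w ∉ x • (⊤ : Submodule R M) := by
        by_contra hcon
        push Not at hcon
        have hle : N ≤ maximalIdeal R • N := by
          intro w hw
          obtain ⟨u, -, hu⟩ := hcon w hw
          have huN : u ∈ N := by
            rw [hN]
            intro p hp
            apply hx
            have h1 : p • w = 0 := (hN w).1 hw p hp
            have h2 : x • u = w := hu
            simp only [smul_zero]
            rw [smul_comm, h2, h1]
          rw [← show x • u = w from hu]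
          exact Submodule.smul_mem_smul hxm huN
        have hbot : N = ⊥ := by
          refine Submodule.eq_bot_of_le_smul_of_le_jacobson_bot (maximalIdeal R) N
            (IsNoetherian.noetherian N) hle ?_
          exact maximalIdeal_le_jacobson ⊥
        rw [hbot] at hzN
        exact hz0 ((Submodule.mem_bot R).1 hzN)
      obtain ⟨w, hwN, hwx⟩ := hNx
      let wb : QuotSMulTop x M := Submodule.Quotient.mk w
      have hwb : wb ≠ 0 := by
        intro h0
        exact hwx ((Submodule.Quotient.mk_eq_zero _).1 h0)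
      obtain ⟨Q, hQ, hQle⟩ := exists_le_isAssociatedPrime_of_isNoetherianRing R wb hwb
      have hQp := hQ.isPrime
      have hPQ : P < Q := by
        refine lt_of_le_of_ne ?_ ?_
        · intro p hp
          apply hQle
          rw [Submodule.mem_colon_singleton, Submodule.mem_bot]
          have : p • w = 0 := (hN w).1 hwN p hp
          change (Submodule.Quotient.mk (p • w) : QuotSMulTop x M) = 0
          rw [this]; rfl
        · rintro rfl
          apply hxP
          apply hQle
          rw [Submodule.mem_colon_singleton, Submodule.mem_bot]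
          change (Submodule.Quotient.mk (x • w) : QuotSMulTop x M) = 0
          rw [Submodule.Quotient.mk_eq_zero]
          exact Submodule.smul_mem_pointwise_smul _ _ _ trivial
      have h1 := Ideal.height_add_one_le_of_lt_of_isPrime hPQ
      have h2 := cm_height_assoc rs (QuotSMulTop x M) Q hQ (fun r hr => hm r (by simp [hr])) hrs
      calc P.height + ((x :: rs).length : ℕ) = (P.height + 1) + rs.length := by
            simp only [List.length_cons]
            push_cast
            ring
        _ ≤ Q.height + rs.length := by gcongr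
        _ ≤ _ := h2

/-- `M` has a regular sequence of length `n` in the maximal ideal. -/
def cmDepth (R : Type) [CommRing R] [IsLocalRing R] (M : Type) [AddCommGroup M] [Module R M]
    (n : ℕ) : Prop :=
  ∃ rs : List R, rs.length = n ∧ (∀ r ∈ rs, r ∈ maximalIdeal R) ∧ IsRegular M rs

/-- Lemma E: the depth drops at most by one. -/
lemma cm_depth_quot {R : Type} [CommRing R] [IsLocalRing R] [IsNoetherianRing R]
    (M : Type) [AddCommGroup M] [Module R M] [Module.Finite R M] (t : ℕ)
    (hM : cmDepth R M (t + 1)) (x : R) (hxm : x ∈ maximalIdeal R) (hx : IsSMulRegular M x) :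
    cmDepth R (QuotSMulTop x M) t := by
  obtain ⟨rs0, hlen, hmem, hreg⟩ := hM
  have hnt : Nontrivial M := hreg.nontrivial
  have hsm : maximalIdeal R • (⊤ : Submodule R M) < ⊤ := by
    rw [lt_top_iff_ne_top]
    exact (Submodule.top_ne_ideal_smul_of_le_jacobson_annihilator
      (maximalIdeal_le_jacobson _)).symm
  have hnt2 : Nontrivial (QuotSMulTop x M) := nontrivial_quotSMulTop_of_mem_maximalIdeal M hxm
  have hsm2 : maximalIdeal R • (⊤ : Submodule R (QuotSMulTop x M)) < ⊤ := by
    rw [lt_top_iff_ne_top]
    exact (Submodule.top_ne_ideal_smul_of_le_jacobson_annihilator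
      (maximalIdeal_le_jacobson _)).symm
  have h4 := (ModuleCat.exists_isRegular_tfae (maximalIdeal R) (t + 1) (ModuleCat.of R M) hsm).out
    3 1
  have hext := h4.1 ⟨rs0, hlen, hmem, hreg⟩
  have h2 := (ModuleCat.exists_isRegular_tfae (maximalIdeal R) t
    (ModuleCat.of R (QuotSMulTop x M)) hsm2).out 1 3
  refine h2.1 ?_
  intro i hi
  have zero1 := AddCommGrpCat.isZero_of_iff_subsingleton.mpr (hext i (by omega))
  have zero2 := AddCommGrpCat.isZero_of_iff_subsingleton.mpr (hext (i + 1) (by omega))
  exact AddCommGrpCat.subsingleton_of_isZero <| ShortComplex.Exact.isZero_of_both_zeros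
    ((Ext.covariant_sequence_exact₃' _
      (IsSMulRegular.smulShortComplex_shortExact (M := ModuleCat.of R M) hx)) i (i + 1) rfl)
    (zero1.eq_zero_of_src _) (zero2.eq_zero_of_tgt _)

/-- iterate Lemma E -/
lemma cm_depth_quot_list {R : Type} [CommRing R] [IsLocalRing R] [IsNoetherianRing R] :
    ∀ (gs : List R) (M : Type) [AddCommGroup M] [Module R M] [Module.Finite R M] (t : ℕ),
      cmDepth R M (gs.length + t) → (∀ g ∈ gs, g ∈ maximalIdeal R) → IsWeaklyRegular M gs →
      cmDepth R (M ⧸ (Ideal.ofList gs • ⊤ : Submodule R M)) t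
  | [], M, _, _, _, t, hM, _, _ => by
      obtain ⟨rs, h1, h2, h3⟩ := hM
      refine ⟨rs, by simpa using h1, h2, ?_⟩
      have hb : (Ideal.ofList ([] : List R) • ⊤ : Submodule R M) = ⊥ := by
        rw [Ideal.ofList_nil, Submodule.bot_smul]
      exact ((Submodule.quotEquivOfEqBot _ hb).symm.isRegular_congr rs).1 h3
  | g :: gs, M, _, _, _, t, hM, hm, hw => by
      rw [isWeaklyRegular_cons_iff] at hw
      have h1 : cmDepth R (QuotSMulTop g M) (gs.length + t) := by
        refine cm_depth_quot M _ ?_ g (hm g (by simp)) hw.1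
        have : (g :: gs).length + t = gs.length + t + 1 := by simp; omega
        rwa [this] at hM
      obtain ⟨rs, h2, h3, h4⟩ := cm_depth_quot_list gs (QuotSMulTop g M) t h1
        (fun r hr => hm r (by simp [hr])) hw.2
      refine ⟨rs, h2, h3, ?_⟩
      exact ((Submodule.quotOfListConsSMulTopEquivQuotSMulTopInner M g gs).symm.isRegular_congr
        rs).1 h4

/-- the variables form a weakly regular sequence -/
lemma cm_X_weaklyRegular {σ : Type} {k : Type} [Field k] (l : List σ) (hl : l.Nodup) :
    IsWeaklyRegular (MvPolynomial σ k) (l.map (X : σ → MvPolynomial σ k)) := by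
  constructor
  intro i hi
  rw [isSMulRegular_quotient_iff_mem_of_smul_mem]
  have hset : (Ideal.ofList ((l.map (X : σ → MvPolynomial σ k)).take i) • ⊤ :
      Submodule (MvPolynomial σ k) (MvPolynomial σ k)) =
      Ideal.span ((X : σ → MvPolynomial σ k) '' {s | s ∈ l.take i}) := by
    rw [smul_eq_mul, Ideal.mul_top, ← List.map_take]
    unfold Ideal.ofList
    congr 1
    ext p
    rw [Set.mem_ofPred_eq, List.mem_map]
    rfl
  rw [hset]
  intro p hp
  rw [List.getElem_map, smul_eq_mul] at hp
  have hi' : i < l.length := by simpa using hi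
  rw [mem_ideal_span_X_image] at hp ⊢
  intro m hm
  obtain ⟨j, hj, hne⟩ := hp (m + Finsupp.single l[i] 1) (by
    rw [mem_support_iff, add_comm, coeff_X_mul] 
    exact mem_support_iff.1 hm)
  refine ⟨j, hj, ?_⟩
  have hji : l[i] ≠ j := by
    intro h
    have h1 : j ∈ l.take i := hj
    rw [List.mem_take_iff_getElem] at h1
    obtain ⟨a, ha, hja⟩ := h1
    have h2 : l[a]'(by omega) = l[i] := by rw [hja, h]
    have := (hl.getElem_inj_iff).1 h2
    omega
  simpa [Finsupp.single_apply, hji] using hne

/-- in the local ring at a maximal ideal the depth is the number of variables -/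
lemma cm_depth_atPrime {σ : Type} [Fintype σ] {k : Type} [Field k] [IsAlgClosed k]
    (m : Ideal (MvPolynomial σ k)) [hm : m.IsMaximal] :
    cmDepth (Localization.AtPrime m) (Localization.AtPrime m) (Fintype.card σ) := by
  obtain ⟨a, ha⟩ := isMaximal_iff_eq_vanishingIdeal_singleton.1 hm
  -- translation
  let τ : MvPolynomial σ k →ₐ[k] MvPolynomial σ k := aeval (fun i => X i - C (a i))
  let τ' : MvPolynomial σ k →ₐ[k] MvPolynomial σ k := aeval (fun i => X i + C (a i))
  have h1 : τ.comp τ' = AlgHom.id k _ := by
    apply MvPolynomial.algHom_ext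
    intro i
    simp [τ, τ']
  have h2 : τ'.comp τ = AlgHom.id k _ := by
    apply MvPolynomial.algHom_ext
    intro i
    simp [τ, τ']
  let e : MvPolynomial σ k ≃ₐ[k] MvPolynomial σ k := AlgEquiv.ofAlgHom τ τ' h1 h2
  have heX : ∀ i, e (X i) = X i - C (a i) := by
    intro i
    simp [e, τ]
  let l : List σ := Finset.univ.toList
  have hl : l.Nodup := Finset.nodup_toList _
  have hX := cm_X_weaklyRegular (k := k) l hl
  have hY : IsWeaklyRegular (MvPolynomial σ k) (l.map (fun i => X i - C (a i))) := by
    refine ((AddEquiv.isWeaklyRegular_congr (e := e.toRingEquiv.toAddEquiv) (as := l.map X)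
      (bs := l.map (fun i => X i - C (a i))) ?_).1 hX)
    rw [List.forall₂_map_left_iff, List.forall₂_map_right_iff, List.forall₂_same]
    intro i _ x
    change e (X i * x) = (X i - C (a i)) * e x
    rw [map_mul, heX]
  have hmem : ∀ r ∈ l.map (fun i => X i - C (a i)), r ∈ m := by
    intro r hr
    obtain ⟨i, -, rfl⟩ := List.mem_map.1 hr
    rw [ha, mem_vanishingIdeal_singleton_iff]
    simp
  refine ⟨(l.map (fun i => X i - C (a i))).map (algebraMap _ (Localization.AtPrime m)), ?_, ?_, ?_⟩
  · simp [l]
  · intro r hr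
    obtain ⟨p, hp, rfl⟩ := List.mem_map.1 hr
    exact (IsLocalization.AtPrime.to_map_mem_maximal_iff (Localization.AtPrime m) m p).2 (hmem p hp)
  · exact hY.isRegular_of_isLocalization_of_mem (Localization.AtPrime m) m hmem

/-- the key step: unmixedness for a weakly regular sequence -/
lemma cm_key {σ : Type} [Fintype σ] {k : Type} [Field k] [IsAlgClosed k]
    (gs : List (MvPolynomial σ k)) (hgs : IsWeaklyRegular (MvPolynomial σ k) gs)
    (hht : ∀ P : Ideal (MvPolynomial σ k), P.IsPrime → (∀ g ∈ gs, g ∈ P) →
      (gs.length : ℕ∞) ≤ P.height)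
    (a : MvPolynomial σ k)
    (ha : ∀ P : Ideal (MvPolynomial σ k), P.IsPrime → (∀ g ∈ gs, g ∈ P) → a ∈ P →
      ((gs.length + 1 : ℕ) : ℕ∞) ≤ P.height)
    (b : MvPolynomial σ k) (hab : a * b ∈ Ideal.ofList gs) : b ∈ Ideal.ofList gs := by
  by_contra hb
  -- the colon ideal
  let J : Ideal (MvPolynomial σ k) := (Ideal.ofList gs).colon {b}
  have hJ : ∀ r, r ∈ J ↔ r * b ∈ Ideal.ofList gs := by
    intro r
    simp [J, Submodule.mem_colon_singleton]
  have hJtop : J ≠ ⊤ := by
    intro h
    apply hb
    have : (1 : MvPolynomial σ k) ∈ J := by rw [h]; trivial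
    simpa using (hJ 1).1 this
  obtain ⟨m, hm, hJm⟩ := Ideal.exists_le_maximal J hJtop
  have hgsJ : ∀ g ∈ gs, g ∈ J := by
    intro g hg
    rw [hJ]
    exact Ideal.mul_mem_right _ _ (Ideal.subset_span hg)
  have hgsm : ∀ g ∈ gs, g ∈ m := fun g hg => hJm (hgsJ g hg)
  let A := Localization.AtPrime m
  let φ : MvPolynomial σ k →+* A := algebraMap _ A
  have hw : IsWeaklyRegular A (gs.map φ) :=
    hgs.of_isLocalization A m.primeCompl
  have hmm : (m.height : ℕ∞) ≤ Fintype.card σ := by
    have h1 : ringKrullDim (MvPolynomial σ k) = Fintype.card σ := by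
      rw [MvPolynomial.ringKrullDim_of_isNoetherianRing]
      simp
    have h2 := Ideal.height_le_ringKrullDim_of_ne_top (I := m) hm.ne_top
    rw [h1] at h2
    exact_mod_cast h2
  have hlen : gs.length ≤ Fintype.card σ := by
    have := (hht m hm.isPrime hgsm).trans hmm
    exact_mod_cast this
  obtain ⟨t, ht⟩ := Nat.exists_eq_add_of_le hlen
  have hd := cm_depth_atPrime m
  rw [ht] at hd
  have hgm : ∀ g ∈ gs.map φ, g ∈ maximalIdeal A := by
    intro r hr
    obtain ⟨p, hp, rfl⟩ := List.mem_map.1 hr
    exact (IsLocalization.AtPrime.to_map_mem_maximal_iff A m p).2 (hgsm p hp)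
  obtain ⟨rs, hrs1, hrs2, hrs3⟩ := cm_depth_quot_list (gs.map φ) A t
    (by rw [List.length_map]; exact hd) hgm hw
  have hId : (Ideal.ofList (gs.map φ) • ⊤ : Submodule A A) = (Ideal.ofList gs).map φ := by
    rw [smul_eq_mul, Ideal.mul_top, Ideal.map_ofList]
  let bb : A ⧸ (Ideal.ofList (gs.map φ) • ⊤ : Submodule A A) := Submodule.Quotient.mk (φ b)
  have hbb : bb ≠ 0 := by
    intro h0
    have h1 : φ b ∈ (Ideal.ofList (gs.map φ) • ⊤ : Submodule A A) :=
      (Submodule.Quotient.mk_eq_zero _).1 h0
    rw [hId, IsLocalization.algebraMap_mem_map_algebraMap_iff m.primeCompl] at h1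
    obtain ⟨s, hs, hsb⟩ := h1
    exact hs (hJm ((hJ s).2 hsb))
  obtain ⟨Q, hQ, hQle⟩ := exists_le_isAssociatedPrime_of_isNoetherianRing A bb hbb
  have hQp := hQ.isPrime
  have h3 := cm_height_assoc rs _ Q hQ hrs2 hrs3
  have h4 : (maximalIdeal A).height = m.height := by
    rw [← IsLocalization.height_under m.primeCompl, IsLocalization.AtPrime.under_maximalIdeal A m]
  have h5 : (Q.comap φ).height = Q.height := IsLocalization.height_under m.primeCompl Q
  have hmemQ : ∀ r ∈ J, r ∈ Q.comap φ := by
    intro r hr
    rw [Ideal.mem_comap]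
    apply hQle
    rw [Submodule.mem_colon_singleton, Submodule.mem_bot]
    change (Submodule.Quotient.mk (φ r * φ b) :
      A ⧸ (Ideal.ofList (gs.map φ) • ⊤ : Submodule A A)) = 0
    rw [Submodule.Quotient.mk_eq_zero, hId, ← map_mul]
    exact Ideal.mem_map_of_mem _ ((hJ r).1 hr)
  have h6 := ha (Q.comap φ) (Ideal.comap_isPrime φ Q) (fun g hg => hmemQ g (hgsJ g hg))
    (hmemQ a ((hJ a).2 hab))
  rw [h5] at h6
  rw [h4, hrs1] at h3
  have h7 : ((gs.length + 1 : ℕ) : ℕ∞) + (t : ℕ∞) ≤ ((gs.length + t : ℕ) : ℕ∞) := by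
    calc ((gs.length + 1 : ℕ) : ℕ∞) + (t : ℕ∞) ≤ Q.height + t := by gcongr
      _ ≤ m.height := h3
      _ ≤ Fintype.card σ := hmm
      _ = _ := by rw [ht]
  have h8 : gs.length + 1 + t ≤ gs.length + t := by exact_mod_cast h7
  omega

theorem mem_span_of_mul_mem_span {σ : Type} [Finite σ] {k : Type} [Field k] [IsAlgClosed k]
    (f : ℕ → MvPolynomial σ k) (c : ℕ)
    (hf : ∀ i ≤ c, ∀ P : Ideal (MvPolynomial σ k), P.IsPrime → (∀ j < i, f j ∈ P) →
      (i : ℕ∞) ≤ P.height)
    (a : MvPolynomial σ k)
    (ha : ∀ P : Ideal (MvPolynomial σ k), P.IsPrime → (∀ j < c, f j ∈ P) → a ∈ P →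
      ((c + 1 : ℕ) : ℕ∞) ≤ P.height)
    (b : MvPolynomial σ k) (hab : a * b ∈ Ideal.span (f '' {j | j < c})) :
    b ∈ Ideal.span (f '' {j | j < c}) := by
  cases nonempty_fintype σ
  have hspan : ∀ i, Ideal.ofList ((List.range i).map f) = Ideal.span (f '' {j | j < i}) := by
    intro i
    unfold Ideal.ofList
    congr 1
    ext p
    rw [Set.mem_ofPred_eq, List.mem_map]
    simp
  have hmemi : ∀ (i : ℕ) (P : Ideal (MvPolynomial σ k)),
      (∀ g ∈ (List.range i).map f, g ∈ P) ↔ ∀ j < i, f j ∈ P := by
    intro i P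
    simp
  have hreg : ∀ i ≤ c, IsWeaklyRegular (MvPolynomial σ k) ((List.range i).map f) := by
    intro i
    induction i with
    | zero => intro _; simp
    | succ i ih =>
      intro hi
      rw [List.range_succ, List.map_append, isWeaklyRegular_append_iff]
      refine ⟨ih (by omega), ?_⟩
      rw [List.map_singleton, isWeaklyRegular_singleton_iff,
        isSMulRegular_quotient_iff_mem_of_smul_mem]
      rw [smul_eq_mul, Ideal.mul_top]
      intro b hb
      refine cm_key _ (ih (by omega)) ?_ (f i) ?_ b hb
      · intro P hP hP2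
        simpa using hf i (by omega) P hP ((hmemi i P).1 hP2)
      · intro P hP hP2 hP3
        have := hf (i + 1) hi P hP (by
          intro j hj
          rcases Nat.lt_succ_iff_lt_or_eq.1 hj with h | rfl
          · exact (hmemi i P).1 hP2 j h
          · exact hP3)
        simpa using this
  rw [← hspan] at hab ⊢
  refine cm_key _ (hreg c le_rfl) ?_ a ?_ b hab
  · intro P hP hP2
    simpa using hf c le_rfl P hP ((hmemi c P).1 hP2)
  · intro P hP hP2 hP3
    simpa using ha P hP ((hmemi c P).1 hP2) hP3

end Pool.Agent.Lib.MP_462b8b_ag
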