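import Pool.Agent.Lib.MP_462b8b_ag.Defs
import Mathlib.RingTheory.Localization.FractionRing
import Mathlib.Tactic.LinearCombination

/-!
The local rings of `N //_θ G` as rings of fractions of semi-invariants.
-/

open Matrix MvPolynomial AlgebraicGeometry HomogeneousLocalization

set_option linter.unusedSectionVars false

namespace Pool.Agent.Lib.MP_462b8b_ag

variable {n : Type} [Fintype n] [DecidableEq n] {G : Subgroup (GL n ℂ)}
variable {ι : Type} [Fintype ι] [DecidableEq ι]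
variable {ρ : RatRep G ι} {N : Set (ι → ℂ)} {θ : G →* ℂˣ}

lemma gitRing_coeff_mem (P : gitRing ρ N θ) (k : ℕ) : P.1.coeff k ∈ polyFun N := (P.2 k).1

/-- The homogeneous element `f t^k`. -/
noncomputable def homog (k : ℕ) (f : N → ℂ) (hf : f ∈ semiInv ρ N (θ ^ k)) : gitRing ρ N θ :=
  ⟨Polynomial.monomial k f, fun j => by
    rw [Polynomial.coeff_monomial]
    split_ifs with h
    · subst h; exact hf
    · exact Submodule.zero_mem _⟩

lemma homog_mem (k : ℕ) (f : N → ℂ) (hf : f ∈ semiInv ρ N (θ ^ k)) :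
    homog k f hf ∈ gitGr ρ N θ k := by
  intro j hj
  simp [homog, Polynomial.coeff_monomial, hj.symm]

lemma homog_coeff (k : ℕ) (f : N → ℂ) (hf : f ∈ semiInv ρ N (θ ^ k)) :
    (homog k f hf).1.coeff k = f := by
  simp [homog]

lemma eq_homog {k : ℕ} {P : gitRing ρ N θ} (hP : P ∈ gitGr ρ N θ k) :
    P = homog k (P.1.coeff k) (P.2 k) := by
  apply Subtype.ext
  ext j : 1
  simp only [homog, Polynomial.coeff_monomial]
  split_ifs with h
  · exact congrArg P.1.coeff h.symm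
  · exact hP j (Ne.symm h)

lemma homog_mul {j k : ℕ} {a b : N → ℂ} (ha : a ∈ semiInv ρ N (θ ^ j))
    (hb : b ∈ semiInv ρ N (θ ^ k)) (hab : a * b ∈ semiInv ρ N (θ ^ (j + k))) :
    homog j a ha * homog k b hb = homog (j + k) (a * b) hab := by
  apply Subtype.ext
  simp [homog, Polynomial.monomial_mul_monomial]

lemma homog_injective {k : ℕ} {a b : N → ℂ} {ha : a ∈ semiInv ρ N (θ ^ k)}
    {hb : b ∈ semiInv ρ N (θ ^ k)} (h : homog k a ha = homog k b hb) : a = b := by
  rw [← homog_coeff k a ha, h, homog_coeff]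

lemma homog_eq_zero {k : ℕ} {a : N → ℂ} {ha : a ∈ semiInv ρ N (θ ^ k)} :
    homog k a ha = 0 ↔ a = 0 := by
  constructor
  · intro h
    rw [← homog_coeff k a ha, h]; rfl
  · intro h
    subst h
    apply Subtype.ext
    simp [homog]

lemma coeff_mul_of_mem {i j : ℕ} {P Q : gitRing ρ N θ} (hP : P ∈ gitGr ρ N θ i)
    (hQ : Q ∈ gitGr ρ N θ j) : (P * Q).1.coeff (i + j) = P.1.coeff i * Q.1.coeff j := by
  conv_lhs => rw [eq_homog hP, eq_homog hQ]
  rw [Subring.coe_mul]
  simp [homog, Polynomial.monomial_mul_monomial]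

/-- The inclusion into polynomials over `ℂ[N]`, as a function. -/
noncomputable def toPolyFun (P : gitRing ρ N θ) : Polynomial (polyFun N) :=
  ∑ k ∈ P.1.support, Polynomial.monomial k ⟨P.1.coeff k, gitRing_coeff_mem P k⟩

lemma toPolyFun_coeff (P : gitRing ρ N θ) (k : ℕ) :
    (toPolyFun P).coeff k = ⟨P.1.coeff k, gitRing_coeff_mem P k⟩ := by
  rw [toPolyFun, Polynomial.finsetSum_coeff]
  by_cases h : k ∈ P.1.support
  · rw [Finset.sum_eq_single k]
    · simp
    · intro j _ hj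
      rw [Polynomial.coeff_monomial, if_neg hj]
    · intro h'; exact absurd h h'
  · rw [Finset.sum_eq_zero]
    · apply Subtype.ext
      exact (Polynomial.notMem_support_iff.mp h).symm
    · intro j hj
      rw [Polynomial.coeff_monomial, if_neg]
      rintro rfl; exact h hj

/-- The inclusion into polynomials over `ℂ[N]`. -/
noncomputable def toPolyB : gitRing ρ N θ →+* Polynomial (polyFun N) where
  toFun := toPolyFun
  map_zero' := by
    ext k : 1
    rw [toPolyFun_coeff]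
    rfl
  map_one' := by
    ext k : 1
    rw [toPolyFun_coeff]
    apply Subtype.ext
    change (1 : Polynomial (N → ℂ)).coeff k = _
    rw [Polynomial.coeff_one, Polynomial.coeff_one]
    split_ifs <;> rfl
  map_add' P Q := by
    ext k : 1
    rw [Polynomial.coeff_add, toPolyFun_coeff, toPolyFun_coeff, toPolyFun_coeff]
    apply Subtype.ext
    change (P.1 + Q.1).coeff k = _
    rw [Polynomial.coeff_add]; rfl
  map_mul' P Q := by
    ext k : 1
    rw [Polynomial.coeff_mul, toPolyFun_coeff]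
    apply Subtype.ext
    change (P.1 * Q.1).coeff k = _
    rw [Polynomial.coeff_mul, AddSubmonoidClass.coe_finsetSum]
    refine Finset.sum_congr rfl fun x _ => ?_
    rw [toPolyFun_coeff, toPolyFun_coeff]; rfl

lemma toPolyB_coeff (P : gitRing ρ N θ) (k : ℕ) :
    (toPolyB P).coeff k = ⟨P.1.coeff k, gitRing_coeff_mem P k⟩ := toPolyFun_coeff P k

lemma toPolyB_injective : Function.Injective (toPolyB (ρ := ρ) (N := N) (θ := θ)) := by
  intro P Q h
  apply Subtype.ext
  ext k : 1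
  have := congrArg (fun R => (R.coeff k).1) h
  simpa [toPolyB_coeff] using this

instance gitRing_isDomain [IsDomain (polyFun N)] : IsDomain (gitRing ρ N θ) :=
  toPolyB_injective.isDomain toPolyB

section frac

variable [IsDomain (polyFun N)]
variable (x : ProjectiveSpectrum (gitGr ρ N θ))

/-- `b` is an admissible denominator of degree `k` at `x`. -/
def Den (k : ℕ) (b : N → ℂ) : Prop :=
  ∃ hb : b ∈ semiInv ρ N (θ ^ k), homog k b hb ∉ x.asHomogeneousIdeal

/-- The fraction `a / b` in the local ring at `x`. -/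
noncomputable def fr (k : ℕ) (a b : N → ℂ) (ha : a ∈ semiInv ρ N (θ ^ k)) (hb : Den x k b) :
    AtPrime (gitGr ρ N θ) x.asHomogeneousIdeal.toIdeal :=
  HomogeneousLocalization.mk
    ⟨k, ⟨homog k a ha, homog_mem k a ha⟩, ⟨homog k b hb.1, homog_mem k b hb.1⟩, hb.2⟩

variable {x}

lemma Den.ne_zero {k : ℕ} {b : N → ℂ} (hb : Den x k b) : b ≠ 0 := by
  rintro rfl
  obtain ⟨h1, h2⟩ := hb
  apply h2
  rw [homog_eq_zero.mpr rfl]
  exact zero_mem _

lemma Den.mul {j k : ℕ} {a b : N → ℂ} (ha : Den x j a) (hb : Den x k b) :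
    Den x (j + k) (a * b) := by
  obtain ⟨ha1, ha2⟩ := ha
  obtain ⟨hb1, hb2⟩ := hb
  have h : a * b ∈ semiInv ρ N (θ ^ (j + k)) := by
    rw [char_pow_add]; exact semiInv_mul_mem ha1 hb1
  refine ⟨h, ?_⟩
  rw [← homog_mul ha1 hb1 h]
  intro h'
  rcases x.isPrime.mem_or_mem h' with h'' | h''
  · exact ha2 h''
  · exact hb2 h''

lemma Den.one : Den x 0 (1 : N → ℂ) := by
  have h : (1 : N → ℂ) ∈ semiInv ρ N (θ ^ 0) := by
    rw [char_pow_zero]; exact semiInv_one_mem ρ N
  refine ⟨h, ?_⟩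
  have h1 : homog 0 1 h = 1 := by
    apply Subtype.ext
    simp [homog]
  rw [h1]
  exact (Ideal.ne_top_iff_one _).mp x.isPrime.ne_top

lemma Den.pow {k : ℕ} {b : N → ℂ} (hb : Den x k b) (m : ℕ) : Den x (m * k) (b ^ m) := by
  induction m with
  | zero => simpa using Den.one
  | succ m ih =>
    rw [pow_succ, Nat.succ_mul]
    exact ih.mul hb

lemma semiInv_mul_mem' {j k : ℕ} {a b : N → ℂ} (ha : a ∈ semiInv ρ N (θ ^ j))
    (hb : b ∈ semiInv ρ N (θ ^ k)) : a * b ∈ semiInv ρ N (θ ^ (j + k)) := by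
  rw [char_pow_add]; exact semiInv_mul_mem ha hb

lemma fr_surj (β : AtPrime (gitGr ρ N θ) x.asHomogeneousIdeal.toIdeal) :
    ∃ (k : ℕ) (a b : N → ℂ) (ha : a ∈ semiInv ρ N (θ ^ k)) (hb : Den x k b),
      β = fr x k a b ha hb := by
  obtain ⟨f, rfl⟩ := HomogeneousLocalization.mk_surjective β
  refine ⟨f.deg, f.num.1.1.coeff f.deg, f.den.1.1.coeff f.deg, f.num.1.2 _,
    ⟨f.den.1.2 _, ?_⟩, ?_⟩
  · rw [← eq_homog f.den.2]
    exact f.den_mem
  · rw [fr]
    congr 1
    exact HomogeneousLocalization.NumDenSameDeg.ext _ rfl (eq_homog f.num.2) (eq_homog f.den.2)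

lemma polyFun_mul_eq_zero {a b : N → ℂ} (ha : a ∈ polyFun N) (hb : b ∈ polyFun N)
    (h : a * b = 0) : a = 0 ∨ b = 0 := by
  have h' : (⟨a, ha⟩ : polyFun N) * ⟨b, hb⟩ = 0 := Subtype.ext h
  rcases mul_eq_zero.mp h' with h'' | h''
  · left; exact congrArg Subtype.val h''
  · right; exact congrArg Subtype.val h''

lemma polyFun_mul_left_cancel {a b c : N → ℂ} (ha : a ∈ polyFun N) (hb : b ∈ polyFun N)
    (hc : c ∈ polyFun N) (h0 : a ≠ 0) (h : a * b = a * c) : b = c := by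
  have := polyFun_mul_eq_zero ha (sub_mem hb hc) (by rw [mul_sub, h, sub_self])
  rcases this with h1 | h1
  · exact absurd h1 h0
  · exact sub_eq_zero.mp h1

lemma fr_eq_iff {k l : ℕ} {a b a' b' : N → ℂ} {ha : a ∈ semiInv ρ N (θ ^ k)} {hb : Den x k b}
    {ha' : a' ∈ semiInv ρ N (θ ^ l)} {hb' : Den x l b'} :
    fr x k a b ha hb = fr x l a' b' ha' hb' ↔ a * b' = a' * b := by
  rw [← (HomogeneousLocalization.val_injective _).eq_iff, fr, fr,
    HomogeneousLocalization.val_mk, HomogeneousLocalization.val_mk, Localization.mk_eq_mk_iff,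
    Localization.r_iff_exists]
  constructor
  · rintro ⟨⟨c, hc⟩, h⟩
    simp only at h
    have hc0 : c ≠ 0 := by
      rintro rfl; exact hc (zero_mem _)
    have h2 := mul_left_cancel₀ hc0 h
    have h3 : homog l b' hb'.1 * homog k a ha = homog k b hb.1 * homog l a' ha' := h2
    rw [homog_mul hb'.1 ha (semiInv_mul_mem' hb'.1 ha),
      homog_mul hb.1 ha' (semiInv_mul_mem' hb.1 ha')] at h3
    have h4 := congrArg (fun P : gitRing ρ N θ => P.1.coeff (l + k)) h3
    simp only [homog, Polynomial.coeff_monomial, if_true, add_comm k l] at h4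
    rw [mul_comm a, h4, mul_comm b]
  · intro h
    refine ⟨1, ?_⟩
    have h3 : homog l b' hb'.1 * homog k a ha = homog k b hb.1 * homog l a' ha' := by
      rw [homog_mul hb'.1 ha (semiInv_mul_mem' hb'.1 ha),
        homog_mul hb.1 ha' (semiInv_mul_mem' hb.1 ha')]
      apply Subtype.ext
      simp only [homog, add_comm k l]
      rw [mul_comm b', h, mul_comm b]
    simp only [OneMemClass.coe_one, one_mul]
    exact h3

lemma fr_mul {k l : ℕ} {a b a' b' : N → ℂ} {ha : a ∈ semiInv ρ N (θ ^ k)} {hb : Den x k b}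
    {ha' : a' ∈ semiInv ρ N (θ ^ l)} {hb' : Den x l b'} :
    fr x k a b ha hb * fr x l a' b' ha' hb' =
      fr x (k + l) (a * a') (b * b') (semiInv_mul_mem' ha ha') (hb.mul hb') := by
  rw [fr, fr, fr, ← HomogeneousLocalization.mk_mul]
  congr 1
  refine HomogeneousLocalization.NumDenSameDeg.ext _ rfl ?_ ?_
  · exact homog_mul ha ha' (semiInv_mul_mem' ha ha')
  · exact homog_mul hb.1 hb'.1 (semiInv_mul_mem' hb.1 hb'.1)

lemma fr_add {k l : ℕ} {a b a' b' : N → ℂ} {ha : a ∈ semiInv ρ N (θ ^ k)} {hb : Den x k b}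
    {ha' : a' ∈ semiInv ρ N (θ ^ l)} {hb' : Den x l b'}
    (h : b * a' + b' * a ∈ semiInv ρ N (θ ^ (k + l))) :
    fr x k a b ha hb + fr x l a' b' ha' hb' =
      fr x (k + l) (b * a' + b' * a) (b * b') h (hb.mul hb') := by
  rw [fr, fr, fr, ← HomogeneousLocalization.mk_add]
  congr 1
  refine HomogeneousLocalization.NumDenSameDeg.ext _ rfl ?_ ?_
  · apply Subtype.ext
    simp [homog, Polynomial.monomial_mul_monomial, add_comm l k]
  · exact homog_mul hb.1 hb'.1 (semiInv_mul_mem' hb.1 hb'.1)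

lemma fr_one {k : ℕ} {a : N → ℂ} (ha : Den x k a) : fr x k a a ha.1 ha = 1 := by
  have : (1 : AtPrime (gitGr ρ N θ) x.asHomogeneousIdeal.toIdeal) =
      fr x 0 1 1 (Den.one (x := x)).1 Den.one := by
    rw [fr, ← HomogeneousLocalization.mk_one]
    congr 1
  rw [this, fr_eq_iff, mul_one, one_mul]

lemma fr_zero_iff {k : ℕ} {a b : N → ℂ} {ha : a ∈ semiInv ρ N (θ ^ k)} {hb : Den x k b} :
    fr x k a b ha hb = 0 ↔ a = 0 := by
  have : (0 : AtPrime (gitGr ρ N θ) x.asHomogeneousIdeal.toIdeal) =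
      fr x 0 0 1 (Submodule.zero_mem _) (Den.one (x := x)) := by
    rw [fr, ← HomogeneousLocalization.mk_zero]
    congr 1
    refine HomogeneousLocalization.NumDenSameDeg.ext _ rfl ?_ ?_ <;>
    · apply Subtype.ext
      simp [homog]
  rw [this, fr_eq_iff]
  simp

lemma fr_isUnit_iff {k : ℕ} {a b : N → ℂ} {ha : a ∈ semiInv ρ N (θ ^ k)} {hb : Den x k b} :
    IsUnit (fr x k a b ha hb) ↔ Den x k a := by
  constructor
  · intro h
    obtain ⟨v, hv⟩ := h.exists_right_inv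
    obtain ⟨l, c, d, hc, hd, rfl⟩ := fr_surj v
    rw [fr_mul, ← fr_one (Den.one (x := x)), fr_eq_iff, mul_one, one_mul] at hv
    refine ⟨ha, fun h' => ?_⟩
    obtain ⟨hbd, hbd2⟩ := hb.mul hd
    apply hbd2
    have e : homog (k + l) (b * d) hbd = homog k a ha * homog l c hc := by
      rw [homog_mul ha hc (semiInv_mul_mem' ha hc)]
      apply Subtype.ext
      simp only [homog]
      rw [hv]
    rw [e]
    exact Ideal.mul_mem_right _ _ h'
  · intro h
    refine IsUnit.of_mul_eq_one (fr x k b a hb.1 h) ?_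
    rw [fr_mul, ← fr_one (Den.one (x := x)), fr_eq_iff, mul_one, one_mul, mul_comm]

lemma Den.mono {z : ProjectiveSpectrum (gitGr ρ N θ)}
    (h : z.asHomogeneousIdeal ≤ x.asHomogeneousIdeal) {k : ℕ} {b : N → ℂ} (hb : Den x k b) :
    Den z k b :=
  ⟨hb.1, fun h' => hb.2 (h h')⟩

lemma mapId_fr {z : ProjectiveSpectrum (gitGr ρ N θ)}
    (h : z.asHomogeneousIdeal ≤ x.asHomogeneousIdeal)
    (hle : x.asHomogeneousIdeal.toIdeal.primeCompl ≤ z.asHomogeneousIdeal.toIdeal.primeCompl)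
    {k : ℕ} {a b : N → ℂ} {ha : a ∈ semiInv ρ N (θ ^ k)} {hb : Den x k b} :
    mapId (gitGr ρ N θ) hle (fr x k a b ha hb) = fr z k a b ha (hb.mono h) := rfl

end frac

section translate

omit [DecidableEq n] [Fintype n] in
lemma polyFun_mem_iff {f : N → ℂ} :
    f ∈ polyFun N ↔ ∃ p : MvPolynomial ι ℂ, ∀ y : N, f y = eval y.1 p := by
  constructor
  · rintro ⟨p, rfl⟩
    refine ⟨p, fun y => ?_⟩
    have : (Pi.evalAlgHom ℂ (fun _ : N => ℂ) y).comp
        (aeval (fun i (y : N) => y.1 i) : MvPolynomial ι ℂ →ₐ[ℂ] (N → ℂ)) = aeval y.1 := by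
      apply MvPolynomial.algHom_ext
      intro i; simp
    have h2 := DFunLike.congr_fun this p
    simpa [MvPolynomial.aeval_eq_eval] using h2
  · rintro ⟨p, hp⟩
    refine ⟨p, ?_⟩
    funext y
    have : (Pi.evalAlgHom ℂ (fun _ : N => ℂ) y).comp
        (aeval (fun i (y : N) => y.1 i) : MvPolynomial ι ℂ →ₐ[ℂ] (N → ℂ)) = aeval y.1 := by
      apply MvPolynomial.algHom_ext
      intro i; simp
    have h2 := DFunLike.congr_fun this p
    rw [hp]
    simpa [MvPolynomial.aeval_eq_eval] using h2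

/-- The translate `y ↦ f (g y)`. -/
def translate (hst : ∀ g : G, ∀ y ∈ N, ρ.toHom g *ᵥ y ∈ N) (g : G) (f : N → ℂ) : N → ℂ :=
  fun y => f ⟨ρ.toHom g *ᵥ y.1, hst g y.1 y.2⟩

lemma translate_mem (hst : ∀ g : G, ∀ y ∈ N, ρ.toHom g *ᵥ y ∈ N) (g : G) {f : N → ℂ}
    (hf : f ∈ polyFun N) : translate hst g f ∈ polyFun N := by
  rw [polyFun_mem_iff] at hf ⊢
  obtain ⟨p, hp⟩ := hf
  refine ⟨aeval (fun i => ∑ j, C (ρ.toHom g i j) * X j) p, fun y => ?_⟩
  rw [translate, hp]
  rw [← MvPolynomial.aeval_eq_eval, ← MvPolynomial.aeval_eq_eval]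
  have : (aeval y.1 : MvPolynomial ι ℂ →ₐ[ℂ] ℂ).comp
      (aeval (fun i => ∑ j, C (ρ.toHom g i j) * X j)) = aeval (ρ.toHom g *ᵥ y.1) := by
    apply MvPolynomial.algHom_ext
    intro i
    simp [Matrix.mulVec, dotProduct]
  exact (DFunLike.congr_fun this p).symm

lemma mem_semiInv_iff_translate (hst : ∀ g : G, ∀ y ∈ N, ρ.toHom g *ᵥ y ∈ N) {χ : G →* ℂˣ}
    {f : N → ℂ} : f ∈ semiInv ρ N χ ↔ f ∈ polyFun N ∧
      ∀ g, translate hst g f = (χ g : ℂ) • f := by
  constructor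
  · rintro ⟨h1, h2⟩
    refine ⟨h1, fun g => ?_⟩
    funext y
    exact h2 g y ⟨_, hst g y.1 y.2⟩ rfl
  · rintro ⟨h1, h2⟩
    refine ⟨h1, fun g y z hz => ?_⟩
    have h3 := congrFun (h2 g) y
    have h4 : z = ⟨ρ.toHom g *ᵥ y.1, hst g y.1 y.2⟩ := Subtype.ext hz
    rw [h4]
    exact h3

lemma semiInv_of_mul [IsDomain (polyFun N)] (hst : ∀ g : G, ∀ y ∈ N, ρ.toHom g *ᵥ y ∈ N)
    {χ ψ : G →* ℂˣ} {c u : N → ℂ} (hc : c ∈ polyFun N) (hu : u ∈ semiInv ρ N χ) (hu0 : u ≠ 0)
    (h : c * u ∈ semiInv ρ N (χ * ψ)) : c ∈ semiInv ρ N ψ := by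
  rw [mem_semiInv_iff_translate hst]
  refine ⟨hc, fun g => ?_⟩
  refine polyFun_mul_left_cancel hu.1 (translate_mem hst g hc) (Subalgebra.smul_mem _ hc _) hu0 ?_
  funext y
  have h1 := h.2 g y ⟨_, hst g y.1 y.2⟩ rfl
  have h2 := hu.2 g y ⟨_, hst g y.1 y.2⟩ rfl
  simp only [Pi.mul_apply, Pi.smul_apply, smul_eq_mul, translate, MonoidHom.mul_apply,
    Units.val_mul] at *
  rw [h2] at h1
  have h3 : (χ g : ℂ) ≠ 0 := Units.ne_zero _
  apply mul_left_cancel₀ h3
  linear_combination h1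

end translate

end Pool.Agent.Lib.MP_462b8b_ag
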