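import Pool.Agent.Lib.MP_462b8b_ag.Hilbert
import Pool.Agent.Lib.MP_462b8b_ag.Frac

open Matrix MvPolynomial

namespace Pool.Agent.Lib.MP_462b8b_ag

theorem exists_ratChar {n : Type} [Fintype n] [DecidableEq n] {G : Subgroup (GL n ℂ)}
    {ι : Type} [Fintype ι] [DecidableEq ι] {ρ : RatRep G ι} {N : Set (ι → ℂ)}
    (hst : ∀ g : G, ∀ y ∈ N, ρ.toHom g *ᵥ y ∈ N) (F : N → ℂ) (hF : F ∈ polyFun N) (hF0 : F ≠ 0)
    (h : ∀ g : G, ∃ c : ℂ, translate hst g F = c • F) :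
    ∃ χ : ratChar G, F ∈ semiInv ρ N χ := by
  obtain ⟨y0, hy0⟩ : ∃ y0, F y0 ≠ 0 := by
    by_contra hcon
    push Not at hcon
    exact hF0 (funext hcon)
  choose c hc using h
  have hc' : ∀ g y, F ⟨ρ.toHom g *ᵥ y.1, hst g y.1 y.2⟩ = c g * F y := fun g y =>
    congrFun (hc g) y
  have hc1 : c 1 = 1 := by
    have h1 := hc' 1 y0
    have e : (⟨ρ.toHom 1 *ᵥ y0.1, hst 1 y0.1 y0.2⟩ : N) = y0 := Subtype.ext (by simp)
    rw [e] at h1
    exact (mul_right_cancel₀ hy0 (by rw [one_mul]; exact h1)).symm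
  have hcm : ∀ g k, c (g * k) = c g * c k := by
    intro g k
    have h1 := hc' (g * k) y0
    have e : (⟨ρ.toHom (g * k) *ᵥ y0.1, hst (g * k) y0.1 y0.2⟩ : N) =
        ⟨ρ.toHom g *ᵥ (ρ.toHom k *ᵥ y0.1), hst g _ (hst k y0.1 y0.2)⟩ :=
      Subtype.ext (by simp [mulVec_mulVec])
    rw [e] at h1
    have h2 := hc' g ⟨ρ.toHom k *ᵥ y0.1, hst k y0.1 y0.2⟩
    rw [h2, hc' k y0, ← mul_assoc] at h1
    exact (mul_right_cancel₀ hy0 h1).symm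
  let χ₀ : G →* ℂ := ⟨⟨c, hc1⟩, hcm⟩
  let χ : G →* ℂˣ := χ₀.toHomUnits
  have hχ : ∀ g, (χ g : ℂ) = c g := fun g => rfl
  obtain ⟨p, hp⟩ := polyFun_mem_iff.mp hF
  have hreg : IsRegularFun G (fun g => (χ g : ℂ)) := by
    rw [← hilb_mem_reg]
    have e : (fun g => (χ g : ℂ)) = fun g => (F y0)⁻¹ * eval (ρ.toHom g *ᵥ y0.1) p := by
      funext g
      rw [hχ, ← hp ⟨ρ.toHom g *ᵥ y0.1, hst g y0.1 y0.2⟩, hc' g y0]
      field_simp
    rw [e]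
    have hE : ∀ i, (fun g : G => (ρ.toHom g *ᵥ y0.1) i) ∈ hilbReg G := by
      intro i
      have e2 : (fun g : G => (ρ.toHom g *ᵥ y0.1) i) =
          ∑ j, y0.1 j • (fun g : G => ρ.toHom g i j) := by
        funext g
        simp [Matrix.mulVec, dotProduct, mul_comm]
      rw [e2]
      exact sum_mem fun j _ => Subalgebra.smul_mem _ ((hilb_mem_reg _).mpr (ρ.regular i j)) _
    exact Subalgebra.smul_mem _ (hilb_reg_aeval _ hE p) (F y0)⁻¹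
  refine ⟨⟨χ, hreg⟩, hF, fun g y z hz => ?_⟩
  have : z = ⟨ρ.toHom g *ᵥ y.1, hst g y.1 y.2⟩ := Subtype.ext hz
  rw [this]
  exact hc' g y

end Pool.Agent.Lib.MP_462b8b_ag
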