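import Pool.Agent.Lib.MP_462b8b_ag.Q2Defs
import Mathlib.Analysis.SpecialFunctions.Exponential
import Mathlib.Analysis.Calculus.MeanValue
import Mathlib.LinearAlgebra.Matrix.SpecialLinearGroup

/-!
`SL_2(ℂ)`: it is an algebraic group, its Lie algebra is the space of traceless matrices, and it
has no characters.
-/

set_option autoImplicit false

open Matrix MvPolynomial

namespace Pool.Agent.Lib.MP_462b8b_ag

theorem isAlgGroup_SL2 : IsAlgGroup SL2 := by
  refine ⟨{X (0, 0) * X (1, 1) - X (0, 1) * X (1, 0) - 1}, fun g => ?_⟩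
  rw [mem_SL2, Matrix.det_fin_two]
  simp only [Set.mem_singleton_iff, forall_eq, map_sub, map_mul, eval_X, map_one, sub_eq_zero]

namespace SLaux

section

attribute [local instance] Matrix.linftyOpNormedRing Matrix.linftyOpNormedAlgebra

theorem hasDerivAt_entry (X : Matrix (Fin 2) (Fin 2) ℂ) (i j : Fin 2) (t : ℂ) :
    HasDerivAt (fun u : ℂ => (NormedSpace.exp (u • X)) i j)
      ((NormedSpace.exp (t • X) * X) i j) t := by
  have h := hasDerivAt_exp_smul_const (𝕂 := ℂ) X t
  exact (LinearMap.toContinuousLinearMap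
    (Matrix.entryLinearMap ℂ ℂ i j)).hasFDerivAt.comp_hasDerivAt t h

end

theorem hasDerivAt_det (X : Matrix (Fin 2) (Fin 2) ℂ) (t : ℂ) :
    HasDerivAt (fun u : ℂ => (NormedSpace.exp (u • X)).det)
      ((NormedSpace.exp (t • X)).det * X.trace) t := by
  have h := ((hasDerivAt_entry X 0 0 t).mul (hasDerivAt_entry X 1 1 t)).sub
    ((hasDerivAt_entry X 0 1 t).mul (hasDerivAt_entry X 1 0 t))
  have e : (fun u : ℂ => (NormedSpace.exp (u • X)).det) = fun u : ℂ =>
      (NormedSpace.exp (u • X)) 0 0 * (NormedSpace.exp (u • X)) 1 1 -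
        (NormedSpace.exp (u • X)) 0 1 * (NormedSpace.exp (u • X)) 1 0 := by
    funext u
    rw [Matrix.det_fin_two]
  rw [e]
  refine h.congr_deriv ?_
  rw [Matrix.det_fin_two, Matrix.trace_fin_two]
  simp only [Matrix.mul_apply, Fin.sum_univ_two]
  ring

end SLaux

theorem mem_lieSet_SL2 (X : Matrix (Fin 2) (Fin 2) ℂ) : X ∈ lieSet SL2 ↔ X.trace = 0 := by
  have h0 : (NormedSpace.exp ((0 : ℂ) • X)).det = 1 := by
    rw [zero_smul, NormedSpace.exp_zero, Matrix.det_one]
  constructor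
  · intro hX
    have h1 : ∀ t : ℂ, (NormedSpace.exp (t • X)).det = 1 := fun t => by
      obtain ⟨g, hg, hg'⟩ := hX t
      rw [← hg']
      exact (mem_SL2 g).1 hg
    have h2 := SLaux.hasDerivAt_det X 0
    have h3 : (fun u : ℂ => (NormedSpace.exp (u • X)).det) = fun _ => 1 := funext h1
    rw [h3, h1, one_mul] at h2
    exact h2.unique (hasDerivAt_const 0 1)
  · intro hX t
    have h1 : ∀ u : ℂ, deriv (fun u : ℂ => (NormedSpace.exp (u • X)).det) u = 0 := fun u => by
      rw [(SLaux.hasDerivAt_det X u).deriv, hX, mul_zero]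
    have h2 : Differentiable ℂ (fun u : ℂ => (NormedSpace.exp (u • X)).det) := fun u =>
      (SLaux.hasDerivAt_det X u).differentiableAt
    have h3 : (NormedSpace.exp (t • X)).det = 1 := by
      rw [← h0]
      exact is_const_of_deriv_eq_zero h2 h1 t 0
    refine ⟨Matrix.GeneralLinearGroup.mkOfDetNeZero (NormedSpace.exp (t • X)) (by
      rw [h3]
      exact one_ne_zero), ?_, rfl⟩
    rw [mem_SL2]
    exact h3

theorem char_SL2 (χ : SL2 →* ℂˣ) : χ = 1 := by
  have hmem : ∀ A : Matrix.SpecialLinearGroup (Fin 2) ℂ,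
      (Matrix.SpecialLinearGroup.toGL A : GL (Fin 2) ℂ) ∈ SL2 := fun A => by
    rw [mem_SL2]
    exact A.2
  let f : Matrix.SpecialLinearGroup (Fin 2) ℂ →* SL2 :=
    (Matrix.SpecialLinearGroup.toGL).codRestrict SL2 hmem
  have h1 : (χ.comp f).ker = ⊤ := by
    rw [eq_top_iff, ← SL2.commutator_eq_top (F := ℂ) (a := 2) (by norm_num) (by norm_num)]
    exact Abelianization.commutator_subset_ker _
  ext g
  have hg : (g : GL (Fin 2) ℂ).1.det = 1 := (mem_SL2 _).1 g.2
  have h2 : f ⟨(g : GL (Fin 2) ℂ).1, hg⟩ = g := by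
    apply Subtype.ext
    apply Units.ext
    rfl
  let A : Matrix.SpecialLinearGroup (Fin 2) ℂ := ⟨(g : GL (Fin 2) ℂ).1, hg⟩
  have h3 : A ∈ (χ.comp f).ker := by
    rw [h1]
    trivial
  have h4 : χ (f A) = 1 := (MonoidHom.mem_ker).1 h3
  have h5 : f A = g := h2
  rw [← h5, h4]
  rfl

end Pool.Agent.Lib.MP_462b8b_ag
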