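import Pool.Agent.Lib.MP_462b8b_ag.Q2Defs
import Pool.Agent.Lib.MP_462b8b_ag.SL
import Mathlib.Analysis.SpecialFunctions.Exponential
import Mathlib.Analysis.Calculus.Deriv.Comp
import Mathlib.Topology.Algebra.Module.FiniteDimension
import Mathlib.Analysis.Normed.Algebra.MatrixExponential
import Mathlib.LinearAlgebra.Matrix.Kronecker

/-!
MP_462b8b_ag, module FIBRE: the moment map of the example.
-/

open Matrix MvPolynomial

namespace Pool.Agent.Lib.MP_462b8b_ag

/-- The derivative at `0` of the entries of `exp (t X)`. -/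
theorem fib_hasDerivAt {n : Type} [Fintype n] [DecidableEq n] (X : Matrix n n ℂ) (i j : n) :
    HasDerivAt (fun t : ℂ => NormedSpace.exp (t • X) i j) (X i j) 0 := by
  open scoped Norms.Operator in
  have h1 : HasDerivAt (fun t : ℂ => NormedSpace.exp (t • X))
      (NormedSpace.exp ((0 : ℂ) • X) * X) 0 := hasDerivAt_exp_smul_const X 0
  rw [zero_smul, NormedSpace.exp_zero, one_mul] at h1
  have h2 := ((Matrix.entryLinearMap ℂ ℂ i j).toContinuousLinearMap.hasFDerivAt
    (x := NormedSpace.exp ((0 : ℂ) • X))).comp_hasDerivAt (0 : ℂ) h1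
  exact h2

theorem fib_diff {X : Matrix (Fin 2) (Fin 2) ℂ} (hX : X ∈ lieSet SL2) (p q : Fin 2 × Fin 6) :
    rep6.diff hX p q = if p.2 = q.2 then X p.1 q.1 else 0 := by
  unfold RatRep.diff
  rw [Matrix.of_apply]
  have h1 : (fun t : ℂ => rep6.toHom (oneParam hX t) p q) =
      fun t : ℂ => if p.2 = q.2 then NormedSpace.exp (t • X) p.1 q.1 else 0 := by
    funext t
    show (if p.2 = q.2 then
      ((oneParam hX t : GL (Fin 2) ℂ) : Matrix (Fin 2) (Fin 2) ℂ) p.1 q.1 else 0) = _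
    rw [oneParam_val]
  rw [h1]
  by_cases h : p.2 = q.2
  · simp only [if_pos h]
    exact (fib_hasDerivAt X p.1 q.1).deriv
  · simp only [if_neg h]
    exact deriv_const _ _

theorem diff_rep6 {X : Matrix (Fin 2) (Fin 2) ℂ} (hX : X ∈ lieSet SL2) (u : Fin 2 × Fin 6 → ℂ)
    (i : Fin 2) (a : Fin 6) : (rep6.diff hX *ᵥ u) (i, a) = X i 0 * u (0, a) + X i 1 * u (1, a) := by
  rw [Matrix.mulVec, dotProduct, Fintype.sum_prod_type, Fin.sum_univ_two]
  simp only [fib_diff, ite_mul, zero_mul, Finset.sum_ite_eq, Finset.mem_univ, if_true]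

open scoped Kronecker in
theorem fib_toHom (g : SL2) :
    rep6.toHom g = ((g : GL (Fin 2) ℂ) : Matrix (Fin 2) (Fin 2) ℂ) ⊗ₖ
      (1 : Matrix (Fin 6) (Fin 6) ℂ) := by
  ext p q
  rw [Matrix.kroneckerMap_apply, Matrix.one_apply]
  show (if p.2 = q.2 then
      ((g : GL (Fin 2) ℂ) : Matrix (Fin 2) (Fin 2) ℂ) p.1 q.1 else 0) = _
  split_ifs <;> simp

open scoped Kronecker in
theorem fib_omega :
    Omega = (!![0, 1; -1, 0] : Matrix (Fin 2) (Fin 2) ℂ) ⊗ₖ wedgeMat := rfl

theorem fib_eps_sq : (!![0, 1; -1, 0] : Matrix (Fin 2) (Fin 2) ℂ) * !![0, 1; -1, 0] = -1 := by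
  ext i j
  fin_cases i <;> fin_cases j <;> simp [Matrix.mul_apply, Fin.sum_univ_two]

theorem fib_wedge_sq : wedgeMat * wedgeMat = 1 := by
  ext i j
  fin_cases i <;> fin_cases j <;> simp [wedgeMat, Matrix.mul_apply, Fin.sum_univ_six]

theorem fib_wedge_symm : wedgeMatᵀ = wedgeMat := by
  ext i j
  fin_cases i <;> fin_cases j <;> simp [wedgeMat]

theorem fib_eps_alt : (!![0, 1; -1, 0] : Matrix (Fin 2) (Fin 2) ℂ)ᵀ = -!![0, 1; -1, 0] := by
  ext i j
  fin_cases i <;> fin_cases j <;> simp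

theorem fib_eps_inv (g : Matrix (Fin 2) (Fin 2) ℂ) (hg : g.det = 1) :
    gᵀ * !![0, 1; -1, 0] * g = !![0, 1; -1, 0] := by
  rw [Matrix.det_fin_two] at hg
  ext i j
  fin_cases i <;> fin_cases j <;>
    simp [Matrix.mul_apply, Fin.sum_univ_two] <;> first | ring1 | linear_combination hg |
      linear_combination -hg

open scoped Kronecker in
theorem isSymplectic_rep6 : rep6.IsSymplectic Omega := by
  refine ⟨?_, ?_, fun g => ?_⟩
  · rw [fib_omega, ← Matrix.kroneckerMap_transpose, fib_wedge_symm, fib_eps_alt]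
    ext p q
    simp only [Matrix.kroneckerMap_apply, Matrix.neg_apply, neg_mul]
  · have h1 : Omega * (-Omega) = 1 := by
      rw [mul_neg, fib_omega, ← Matrix.mul_kronecker_mul, fib_eps_sq, fib_wedge_sq]
      ext p q
      simp [Matrix.kroneckerMap_apply, Matrix.one_apply, Prod.ext_iff]
      split_ifs <;> simp_all
    exact IsUnit.of_mul_eq_one _ h1
  · have hdet : ((g : GL (Fin 2) ℂ) : Matrix (Fin 2) (Fin 2) ℂ).det = 1 := (mem_SL2 _).mp g.2
    rw [fib_toHom, fib_omega, ← Matrix.kroneckerMap_transpose, ← Matrix.mul_kronecker_mul,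
      ← Matrix.mul_kronecker_mul, fib_eps_inv _ hdet, Matrix.transpose_one, Matrix.one_mul,
      Matrix.mul_one]

theorem fib_pairing (v u : Fin 2 × Fin 6 → ℂ) :
    v ⬝ᵥ (Omega *ᵥ u) = wedge (fun a => v (0, a)) (fun a => u (1, a)) -
      wedge (fun a => v (1, a)) (fun a => u (0, a)) := by
  simp only [dotProduct, Matrix.mulVec, Fintype.sum_prod_type, Fin.sum_univ_two, Fin.sum_univ_six,
    Omega, Matrix.of_apply, wedge, wedgeMat]
  simp
  ring

theorem fib_wedge_comm (r s : Fin 6 → ℂ) : wedge r s = wedge s r := by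
  unfold wedge
  ring

theorem fib_moment {X : Matrix (Fin 2) (Fin 2) ℂ} (hX : X ∈ lieSet SL2) (u : Fin 2 × Fin 6 → ℂ) :
    (rep6.diff hX *ᵥ u) ⬝ᵥ (Omega *ᵥ u) =
      (X 0 0 - X 1 1) * wedge (fun a => u (0, a)) (fun a => u (1, a)) +
      X 0 1 * wedge (fun a => u (1, a)) (fun a => u (1, a)) -
      X 1 0 * wedge (fun a => u (0, a)) (fun a => u (0, a)) := by
  rw [fib_pairing]
  simp only [diff_rep6]
  unfold wedge
  ring

theorem fib_mem_N6 (hsl : ∀ X : Matrix (Fin 2) (Fin 2) ℂ, X ∈ lieSet SL2 ↔ X.trace = 0)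
    (u : Fin 2 × Fin 6 → ℂ) : u ∈ N6 ↔
    ∀ i j : Fin 2, wedge (fun a => u (i, a)) (fun a => u (j, a)) = 0 := by
  constructor
  · intro h
    have key : ∀ X : Matrix (Fin 2) (Fin 2) ℂ, X.trace = 0 →
        (X 0 0 - X 1 1) * wedge (fun a => u (0, a)) (fun a => u (1, a)) +
        X 0 1 * wedge (fun a => u (1, a)) (fun a => u (1, a)) -
        X 1 0 * wedge (fun a => u (0, a)) (fun a => u (0, a)) = 0 := by
      intro X hX
      rw [← fib_moment ((hsl X).mpr hX)]
      exact h X ((hsl X).mpr hX)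
    have h01 : wedge (fun a => u (0, a)) (fun a => u (1, a)) = 0 := by
      have := key !![1, 0; 0, -1] (by simp [Matrix.trace_fin_two])
      simp only [Matrix.of_apply, Matrix.cons_val', Matrix.cons_val_zero, Matrix.cons_val_one,
        Matrix.cons_val_fin_one] at this
      linear_combination (1 / 2 : ℂ) * this
    have h11 : wedge (fun a => u (1, a)) (fun a => u (1, a)) = 0 := by
      have := key !![0, 1; 0, 0] (by simp [Matrix.trace_fin_two])
      simpa using this
    have h00 : wedge (fun a => u (0, a)) (fun a => u (0, a)) = 0 := by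
      have := key !![0, 0; 1, 0] (by simp [Matrix.trace_fin_two])
      simpa using this
    intro i j
    fin_cases i <;> fin_cases j
    · exact h00
    · exact h01
    · exact (fib_wedge_comm _ _).trans h01
    · exact h11
  · intro h X hX
    rw [fib_moment, h, h, h, mul_zero, mul_zero, mul_zero, add_zero, sub_zero]

theorem mem_N6 (u : Fin 2 × Fin 6 → ℂ) : u ∈ N6 ↔
    ∀ i j : Fin 2, wedge (fun a => u (i, a)) (fun a => u (j, a)) = 0 :=
  fib_mem_N6 mem_lieSet_SL2 u

end Pool.Agent.Lib.MP_462b8b_ag
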