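import Pool.Agent.Lib.MP_462b8b_ag.Q2Defs
import Pool.Agent.Lib.MP_462b8b_ag.Fibre
import Mathlib.Topology.Algebra.MvPolynomial
import Mathlib.Tactic

/-!
# MP_462b8b_ag, module CHART: the null fibre of the example is the closure of a chart
-/

open Matrix MvPolynomial

namespace Pool.Agent.Lib.MP_462b8b_ag

theorem chart_mem (e : Fin 9 → ℂ) : chart e ∈ N6 := by
  rw [mem_N6]
  intro i j
  fin_cases i <;> fin_cases j <;> simp [wedge, chart] <;> ring

/-- The skew matrix of a bivector. -/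
def chA (r : Fin 6 → ℂ) : Matrix (Fin 4) (Fin 4) ℂ :=
  !![0, r 0, r 1, r 2; -r 0, 0, r 3, r 4; -r 1, -r 3, 0, r 5; -r 2, -r 4, -r 5, 0]

/-- The dual skew matrix of a bivector. -/
def chS (r : Fin 6 → ℂ) : Matrix (Fin 4) (Fin 4) ℂ :=
  !![0, r 5, -r 4, r 3; -r 5, 0, r 2, -r 1; r 4, -r 2, 0, r 0; -r 3, r 1, -r 0, 0]

lemma chSA (r s : Fin 6 → ℂ) : chS r * chA s + chS s * chA r = (-wedge r s) • 1 := by
  ext i j
  fin_cases i <;> fin_cases j <;>
    simp [chS, chA, wedge] <;> ring

lemma chAS (r s : Fin 6 → ℂ) : chA r * chS s + chA s * chS r = (-wedge r s) • 1 := by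
  ext i j
  fin_cases i <;> fin_cases j <;>
    simp [chS, chA, wedge] <;> ring

lemma chA_transpose (r : Fin 6 → ℂ) : (chA r)ᵀ = - chA r := by
  ext i j
  fin_cases i <;> fin_cases j <;> simp [chA]

lemma chS_transpose (r : Fin 6 → ℂ) : (chS r)ᵀ = - chS r := by
  ext i j
  fin_cases i <;> fin_cases j <;> simp [chS]

lemma chA_eq_zero {r : Fin 6 → ℂ} (h : chA r = 0) : r = 0 := by
  have h0 := congrFun (congrFun h 0) 1
  have h1 := congrFun (congrFun h 0) 2
  have h2 := congrFun (congrFun h 0) 3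
  have h3 := congrFun (congrFun h 1) 2
  have h4 := congrFun (congrFun h 1) 3
  have h5 := congrFun (congrFun h 2) 3
  simp [chA] at h0 h1 h2 h3 h4 h5
  funext i
  fin_cases i <;> simp [h0, h1, h2, h3, h4, h5]

lemma chS_zero : chS 0 = 0 := by
  ext i j
  fin_cases i <;> fin_cases j <;> simp [chS]

lemma ch_mat_zero {M : Matrix (Fin 4) (Fin 4) ℂ} (h : ∀ v, M *ᵥ v = 0) : M = 0 := by
  ext i j
  have := congrFun (h (Pi.single j 1)) i
  simpa using this

lemma ch_exists_p (r s : Fin 6 → ℂ) (hrr : wedge r r = 0) (hrs : wedge r s = 0)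
    (hss : wedge s s = 0) : ∃ p : Fin 4 → ℂ, p ≠ 0 ∧ chS r *ᵥ p = 0 ∧ chS s *ᵥ p = 0 := by
  by_contra hcon
  have H : ∀ p : Fin 4 → ℂ, chS r *ᵥ p = 0 → chS s *ᵥ p = 0 → p = 0 := by
    intro p h1 h2
    by_contra h3
    exact hcon ⟨p, h3, h1, h2⟩
  have two : ∀ M : Matrix (Fin 4) (Fin 4) ℂ, M + M = 0 → M = 0 := by
    intro M hM
    ext i j
    have := congrFun (congrFun hM i) j
    simp only [Matrix.add_apply, Matrix.zero_apply] at this ⊢
    linear_combination this / 2
  have hSAr : chS r * chA r = 0 := two _ (by rw [chSA, hrr]; simp)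
  have hSAs : chS s * chA s = 0 := two _ (by rw [chSA, hss]; simp)
  have hASs : chA s * chS s = 0 := two _ (by rw [chAS, hss]; simp)
  have hmix : chS s * chA r = - (chS r * chA s) := by
    have h := chSA r s
    rw [hrs, neg_zero, zero_smul] at h
    rw [eq_neg_iff_add_eq_zero, add_comm]
    exact h
  have step1 : chA r * chS s = 0 := by
    refine ch_mat_zero fun v => H _ ?_ ?_
    · rw [mulVec_mulVec, ← Matrix.mul_assoc, hSAr, Matrix.zero_mul, zero_mulVec]
    · rw [mulVec_mulVec, ← Matrix.mul_assoc, hmix, Matrix.neg_mul, Matrix.mul_assoc, hASs,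
        Matrix.mul_zero, neg_zero, zero_mulVec]
  have step1' : chS s * chA r = 0 := by
    have h := congrArg Matrix.transpose step1
    rw [Matrix.transpose_mul, chA_transpose, chS_transpose, Matrix.neg_mul, Matrix.mul_neg,
      neg_neg, Matrix.transpose_zero] at h
    exact h
  have hAr : chA r = 0 := by
    refine ch_mat_zero fun v => H _ ?_ ?_
    · rw [mulVec_mulVec, hSAr, zero_mulVec]
    · rw [mulVec_mulVec, step1', zero_mulVec]
  have hr := chA_eq_zero hAr
  have hAs : chA s = 0 := by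
    refine ch_mat_zero fun v => H _ ?_ ?_
    · rw [hr, chS_zero, zero_mulVec]
    · rw [mulVec_mulVec, hSAs, zero_mulVec]
  have hs := chA_eq_zero hAs
  have := H (Pi.single 0 1) (by rw [hr, chS_zero, zero_mulVec]) (by rw [hs, chS_zero, zero_mulVec])
  have h0 := congrFun this 0
  simp at h0

/-- The bivector `p ∧ q`. -/
def chPsi (p q : Fin 4 → ℂ) : Fin 6 → ℂ :=
  ![p 0 * q 1 - p 1 * q 0, p 0 * q 2 - p 2 * q 0, p 0 * q 3 - p 3 * q 0,
    p 1 * q 2 - p 2 * q 1, p 1 * q 3 - p 3 * q 1, p 2 * q 3 - p 3 * q 2]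

lemma ch_exists_q (r : Fin 6 → ℂ) (p : Fin 4 → ℂ) (hp : p ≠ 0) (h : chS r *ᵥ p = 0) :
    ∃ q, r = chPsi p q := by
  obtain ⟨a, ha⟩ : ∃ a, p a ≠ 0 := by
    by_contra hcon
    push Not at hcon
    exact hp (funext hcon)
  have h0 := congrFun h 0
  have h1 := congrFun h 1
  have h2 := congrFun h 2
  have h3 := congrFun h 3
  simp [chS, Matrix.mulVec, dotProduct, Fin.sum_univ_four] at h0 h1 h2 h3
  refine ⟨fun b => chA r a b / p a, ?_⟩
  funext i
  fin_cases a <;> fin_cases i <;> simp [chPsi, chA] at ha ⊢ <;> field_simp <;>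
    first
    | done
    | ring1
    | linear_combination h0
    | linear_combination -h0
    | linear_combination h1
    | linear_combination -h1
    | linear_combination h2
    | linear_combination -h2
    | linear_combination h3
    | linear_combination -h3

lemma ch_psi_chart (p q₀ q₁ : Fin 4 → ℂ) (hp : p 0 ≠ 0) :
    (fun x : Fin 2 × Fin 6 => if x.1 = 0 then chPsi p q₀ x.2 else chPsi p q₁ x.2) =
      chart ![p 1 / p 0, p 2 / p 0, p 3 / p 0, chPsi p q₀ 0, chPsi p q₀ 1, chPsi p q₀ 2,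
        chPsi p q₁ 0, chPsi p q₁ 1, chPsi p q₁ 2] := by
  funext ⟨i, a⟩
  fin_cases i <;> fin_cases a <;> simp [chart, chPsi] <;> field_simp <;> ring

/-- a polynomial function on `N6` that vanishes on the image of the chart is zero -/
theorem eq_zero_of_chart (p : MvPolynomial (Fin 2 × Fin 6) ℂ) (hp : ∀ e, eval (chart e) p = 0) :
    ∀ u ∈ N6, eval u p = 0 := by
  intro u hu
  rw [mem_N6] at hu
  obtain ⟨x, hx, hr, hs⟩ := ch_exists_p (fun a => u (0, a)) (fun a => u (1, a)) (hu 0 0) (hu 0 1)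
    (hu 1 1)
  obtain ⟨q₀, hq₀⟩ := ch_exists_q _ x hx hr
  obtain ⟨q₁, hq₁⟩ := ch_exists_q _ x hx hs
  have hu' : u = fun y : Fin 2 × Fin 6 => if y.1 = 0 then chPsi x q₀ y.2 else chPsi x q₁ y.2 := by
    funext ⟨i, a⟩
    fin_cases i
    · simpa using congrFun hq₀ a
    · simpa using congrFun hq₁ a
  set F : ℂ → ℂ := fun t => eval (fun y : Fin 2 × Fin 6 =>
    if y.1 = 0 then chPsi (Function.update x 0 (x 0 + t)) q₀ y.2
      else chPsi (Function.update x 0 (x 0 + t)) q₁ y.2) p with hF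
  have hcont : Continuous F := by
    apply (MvPolynomial.continuous_eval p).comp
    refine continuous_pi fun y => ?_
    rcases y with ⟨i, a⟩
    fin_cases i <;> fin_cases a <;> simp [chPsi, Function.update] <;> fun_prop
  have hzero : ∀ t, t ≠ - x 0 → F t = 0 := by
    intro t ht
    have h0 : (Function.update x 0 (x 0 + t)) 0 ≠ 0 := by
      rw [Function.update_self]
      intro h
      exact ht (by linear_combination h)
    rw [hF]
    simp only
    rw [ch_psi_chart _ _ _ h0]
    exact hp _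
  have hF0 : F = fun _ => 0 := by
    refine Continuous.ext_on (dense_compl_singleton (- x 0)) hcont continuous_const ?_
    intro t ht
    exact hzero t ht
  have h1 : F 0 = 0 := by rw [hF0]
  rw [hF] at h1
  simp only [add_zero, Function.update_eq_self] at h1
  rw [hu']
  exact h1

end Pool.Agent.Lib.MP_462b8b_ag
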