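import Pool.Agent.Lib.MP_462b8b_ag.Q2Defs
import Mathlib.Topology.Algebra.MvPolynomial
import Mathlib.Analysis.Complex.Basic

/-!
Codimension of the rank at most one `2 × 6` matrices and of the origin.
-/

set_option autoImplicit false

open Matrix MvPolynomial

namespace Pool.Agent.Lib.MP_462b8b_ag

namespace Codim

variable {σ : Type}

/-- The kernel of a substitution, a prime ideal. -/
noncomputable def ker (g : σ → MvPolynomial σ ℂ) : Ideal (MvPolynomial σ ℂ) :=
  RingHom.ker (aeval g : MvPolynomial σ ℂ →ₐ[ℂ] MvPolynomial σ ℂ)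

theorem mem_ker {g : σ → MvPolynomial σ ℂ} {f : MvPolynomial σ ℂ} :
    f ∈ ker g ↔ aeval g f = 0 := RingHom.mem_ker

instance isPrime_ker (g : σ → MvPolynomial σ ℂ) : (ker g).IsPrime :=
  RingHom.ker_isPrime _

/-- A chain of kernels. -/
theorem height_ker (g : ℕ → σ → MvPolynomial σ ℂ) (h : ℕ → σ → MvPolynomial σ ℂ)
    (w : ℕ → MvPolynomial σ ℂ) (m : ℕ)
    (hgh : ∀ k < m, ∀ p, aeval (h k) (g k p) = g (k + 1) p)
    (hw : ∀ k < m, aeval (g (k + 1)) (w k) = 0) (hw' : ∀ k < m, aeval (g k) (w k) ≠ 0) :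
    (m : ℕ∞) ≤ (ker (g m)).height := by
  induction m with
  | zero => simp
  | succ m ih =>
    have h1 := ih (fun k hk => hgh k (by omega)) (fun k hk => hw k (by omega))
      (fun k hk => hw' k (by omega))
    have hle : ker (g m) ≤ ker (g (m + 1)) := by
      intro f hf
      rw [mem_ker] at hf ⊢
      have e : (aeval (g (m + 1)) : MvPolynomial σ ℂ →ₐ[ℂ] MvPolynomial σ ℂ) =
          (aeval (h m)).comp (aeval (g m)) := by
        ext p
        rw [aeval_X, AlgHom.comp_apply, aeval_X, hgh m (by omega)]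
      rw [e, AlgHom.comp_apply, hf, map_zero]
    have hlt : ker (g m) < ker (g (m + 1)) := by
      refine lt_of_le_of_ne hle fun heq => ?_
      have h2 : w m ∈ ker (g (m + 1)) := mem_ker.2 (hw m (by omega))
      rw [← heq] at h2
      exact hw' m (by omega) (mem_ker.1 h2)
    have h3 := Ideal.height_add_one_le_of_lt_of_isPrime hlt
    push_cast
    exact (add_le_add_left h1 1).trans h3

theorem aeval_eq (u : σ → ℂ) (f : MvPolynomial σ ℂ) : aeval u f = eval u f :=
  DFunLike.congr_fun (MvPolynomial.coe_aeval_eq_eval u) f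

/-- Evaluation through a substitution. -/
theorem eval_eq_zero {g : σ → MvPolynomial σ ℂ} {f : MvPolynomial σ ℂ} (hf : f ∈ ker g)
    (u v : σ → ℂ) (huv : ∀ p, eval v (g p) = u p) : eval u f = 0 := by
  have h1 : eval v (aeval g f) = 0 := by rw [mem_ker.1 hf, map_zero]
  have h2 : (eval v).comp (aeval g : MvPolynomial σ ℂ →ₐ[ℂ] MvPolynomial σ ℂ).toRingHom =
      eval u := by
    apply MvPolynomial.ringHom_ext
    · intro r
      simp
    · intro p
      simp [huv]
  rw [← h2]
  exact h1

/-- The substitution for the rank one matrices. -/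
noncomputable def g1 (k : ℕ) (p : Fin 2 × Fin 6) : MvPolynomial (Fin 2 × Fin 6) ℂ :=
  if p.1 = 1 ∧ (p.2 : ℕ) ≤ k then X (1, 0) * X (0, p.2) else X p

/-- The step. -/
noncomputable def h1 (k : ℕ) (p : Fin 2 × Fin 6) : MvPolynomial (Fin 2 × Fin 6) ℂ :=
  if p.1 = 1 ∧ (p.2 : ℕ) = k + 1 then X (1, 0) * X (0, p.2) else X p

theorem g1_top (p : Fin 2 × Fin 6) : g1 5 p = if p.1 = 1 then X (1, 0) * X (0, p.2) else X p := by
  unfold g1
  have h : (p.2 : ℕ) ≤ 5 := by have := p.2.isLt; omega
  simp only [h, and_true]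

theorem height_g1 : (5 : ℕ∞) ≤ (ker (g1 5)).height := by
  have key := height_ker g1 h1 (fun k => if hk : k < 5 then
    X (0, 0) * X (1, ⟨k + 1, by omega⟩) - X (0, ⟨k + 1, by omega⟩) * X (1, 0) else 0) 5 ?_ ?_ ?_
  · exact_mod_cast key
  · rintro k hk ⟨i, a⟩
    unfold g1
    by_cases hi : i = 1
    · subst hi
      by_cases ha : (a : ℕ) ≤ k
      · have ha2 : (a : ℕ) ≤ k + 1 := by omega
        simp [h1, ha, ha2]
      · by_cases hb : (a : ℕ) = k + 1
        · have ha2 : (a : ℕ) ≤ k + 1 := by omega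
          simp [h1, hb]
        · have ha2 : ¬ (a : ℕ) ≤ k + 1 := by omega
          simp [h1, ha, hb, ha2]
    · simp [h1, hi]
  · intro k hk
    rw [dif_pos hk]
    simp [g1]
    ring
  · intro k hk h0
    rw [dif_pos hk] at h0
    have := congrArg (eval (fun p : Fin 2 × Fin 6 =>
      if p = (0, 0) ∨ p = (1, ⟨k + 1, by omega⟩) then (1 : ℂ) else 0)) h0
    simp [g1] at this

end Codim

theorem codim_rankOne :
    CodimGE {u : Fin 2 × Fin 6 → ℂ | ∀ a b, u (0, a) * u (1, b) = u (0, b) * u (1, a)} 5 := by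
  unfold CodimGE
  refine Codim.height_g1.trans (Ideal.height_mono ?_)
  intro f hf
  rw [mem_vanishingIdeal_iff]
  intro u hu
  rw [Set.mem_ofPred_eq] at hu
  rw [Codim.aeval_eq]
  -- the case of a nonzero first row
  have hmain : ∀ (r : Fin 6 → ℂ) (l : ℂ),
      eval (fun p : Fin 2 × Fin 6 => if p.1 = 1 then l * r p.2 else r p.2) f = 0 := by
    intro r l
    refine Codim.eval_eq_zero hf _ (fun p => if p.1 = 1 then l else r p.2) fun p => ?_
    rw [Codim.g1_top]
    obtain ⟨i, a⟩ := p
    by_cases hi : i = 1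
    · simp [hi]
    · have hi' : i = 0 := by omega
      simp [hi']
  by_cases h0 : ∃ a, u (0, a) ≠ 0
  · obtain ⟨a, ha⟩ := h0
    have e : u = fun p : Fin 2 × Fin 6 =>
        if p.1 = 1 then (u (1, a) / u (0, a)) * u (0, p.2) else u (0, p.2) := by
      funext p
      obtain ⟨i, b⟩ := p
      by_cases hi : i = 1
      · subst hi
        have := hu a b
        simp only [if_true]
        field_simp
        linear_combination this
      · have hi' : i = 0 := by omega
        simp [hi']
    rw [e]
    exact hmain (fun a => u (0, a)) _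
  · push Not at h0
    -- a limit
    have hc : Continuous fun e : ℂ =>
        eval (fun p : Fin 2 × Fin 6 => if p.1 = 1 then u (1, p.2) else e * u (1, p.2)) f := by
      refine (MvPolynomial.continuous_eval f).comp (continuous_pi fun p => ?_)
      by_cases hp : p.1 = 1
      · simp only [hp, if_true]
        exact continuous_const
      · simp only [hp, if_false]
        exact continuous_id.mul continuous_const
    have hz : ∀ e : ℂ, e ≠ 0 →
        eval (fun p : Fin 2 × Fin 6 => if p.1 = 1 then u (1, p.2) else e * u (1, p.2)) f = 0 := by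
      intro e he
      have := hmain (fun a => e * u (1, a)) e⁻¹
      rw [← this]
      congr 2
      funext p
      by_cases hp : p.1 = 1
      · simp only [hp, if_true]
        field_simp
      · simp only [hp, if_false]
    have hz0 := Continuous.ext_on (dense_compl_singleton (0 : ℂ)) hc continuous_const
      (fun e he => hz e he)
    have := congrFun hz0 0
    simp only [zero_mul] at this
    rw [← this]
    congr 2
    funext p
    obtain ⟨i, b⟩ := p
    by_cases hi : i = 1
    · simp [hi]
    · have hi' : i = 0 := by omega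
      simp [hi', h0]

namespace Codim

/-- The substitution for the origin. -/
noncomputable def g2 (k : ℕ) (p : Fin 2 × Fin 6) : MvPolynomial (Fin 2 × Fin 6) ℂ :=
  if 6 * (p.1 : ℕ) + (p.2 : ℕ) < k then 0 else X p

/-- The variable number `k`. -/
def var (k : ℕ) : Fin 2 × Fin 6 := (Fin.ofNat 2 (k / 6), Fin.ofNat 6 (k % 6))

theorem var_index {k : ℕ} (hk : k < 12) :
    6 * ((var k).1 : ℕ) + ((var k).2 : ℕ) = k := by
  simp only [var, Fin.val_ofNat]
  omega

theorem height_g2 : (8 : ℕ∞) ≤ (ker (g2 8)).height := by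
  have key := height_ker g2 (fun k => g2 (k + 1)) (fun k => X (var k)) 8 ?_ ?_ ?_
  · exact_mod_cast key
  · intro k hk p
    simp only [g2]
    by_cases h1 : 6 * (p.1 : ℕ) + (p.2 : ℕ) < k
    · have h2 : 6 * (p.1 : ℕ) + (p.2 : ℕ) < k + 1 := by omega
      simp [h1, h2]
    · simp [h1, g2]
  · intro k hk
    have h1 : 6 * ((var k).1 : ℕ) + ((var k).2 : ℕ) < k + 1 := by
      rw [var_index (by omega)]
      omega
    simp only [aeval_X, g2, h1, if_true]
  · intro k hk
    have h1 : ¬ 6 * ((var k).1 : ℕ) + ((var k).2 : ℕ) < k := by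
      rw [var_index (by omega)]
      omega
    simp only [aeval_X, g2, h1, if_false]
    exact X_ne_zero _

end Codim

theorem codim_zero : CodimGE ({0} : Set (Fin 2 × Fin 6 → ℂ)) 8 := by
  unfold CodimGE
  refine Codim.height_g2.trans (Ideal.height_mono ?_)
  intro f hf
  rw [mem_vanishingIdeal_iff]
  intro u hu
  rw [Set.mem_singleton_iff] at hu
  subst hu
  rw [Codim.aeval_eq]
  refine Codim.eval_eq_zero hf _ 0 fun p => ?_
  unfold Codim.g2
  split_ifs <;> simp

end Pool.Agent.Lib.MP_462b8b_ag
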