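import Pool.Agent.Lib.MP_462b8b_ag.Lie

/-!
The zero fibre of the moment map of `V × V*` is a `G`-stable cone.
-/

open Matrix MvPolynomial

namespace Pool.Agent.Lib.MP_462b8b_ag

variable {n : Type} [Fintype n] [DecidableEq n] {G : Subgroup (GL n ℂ)}
variable {ι : Type} [Fintype ι] [DecidableEq ι]

lemma conj_val (g : G) {X : Matrix n n ℂ} (hX : X ∈ lieSet G) (t : ℂ) :
    (((g⁻¹ * oneParam hX t * g : G) : GL n ℂ) : Matrix n n ℂ) =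
      NormedSpace.exp (t • (((g⁻¹ : G) : GL n ℂ).val * X * (g : GL n ℂ).val)) := by
  have h := Matrix.exp_units_conj' (g : GL n ℂ) (t • X)
  rw [Subgroup.coe_mul, Subgroup.coe_mul, Units.val_mul, Units.val_mul, oneParam_val]
  rw [Subgroup.coe_inv]
  rw [← h]
  congr 1
  rw [Matrix.mul_smul, Matrix.smul_mul]

lemma conj_mem_lieSet (g : G) {X : Matrix n n ℂ} (hX : X ∈ lieSet G) :
    ((g⁻¹ : G) : GL n ℂ).val * X * (g : GL n ℂ).val ∈ lieSet G := by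
  intro t
  exact ⟨((g⁻¹ * oneParam hX t * g : G) : GL n ℂ), SetLike.coe_mem _, conj_val g hX t⟩

lemma oneParam_conj (g : G) {X : Matrix n n ℂ} (hX : X ∈ lieSet G) (t : ℂ) :
    oneParam (conj_mem_lieSet g hX) t = g⁻¹ * oneParam hX t * g := by
  apply Subtype.ext
  apply Units.ext
  rw [oneParam_val, conj_val]

theorem cotangent_cone (ρ : RatRep G ι) (t : ℂ) (y : ι ⊕ ι → ℂ)
    (hy : y ∈ ρ.cotangentZeroFibre) : t • y ∈ ρ.cotangentZeroFibre := by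
  intro X hX
  have h := hy X hX
  have e1 : (fun i => (t • y) (Sum.inr i)) = t • fun i => y (Sum.inr i) := rfl
  have e2 : (fun i => (t • y) (Sum.inl i)) = t • fun i => y (Sum.inl i) := rfl
  rw [e1, e2, Matrix.mulVec_smul, dotProduct_smul, smul_dotProduct, h, smul_zero, smul_zero]

theorem cotangent_stable (ρ : RatRep G ι) (g : G) (y : ι ⊕ ι → ℂ)
    (hy : y ∈ ρ.cotangentZeroFibre) : ρ.cotangent.toHom g *ᵥ y ∈ ρ.cotangentZeroFibre := by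
  intro X hX
  set v : ι → ℂ := fun i => y (Sum.inl i) with hv
  set l : ι → ℂ := fun i => y (Sum.inr i) with hl
  have hy' : y = Sum.elim v l := by
    funext i
    rcases i with i | i <;> rfl
  have e : ρ.cotangent.toHom g *ᵥ y = Sum.elim (ρ.toHom g *ᵥ v) ((ρ.toHom g⁻¹)ᵀ *ᵥ l) := by
    have : ρ.cotangent.toHom g = Matrix.fromBlocks (ρ.toHom g) 0 0 (ρ.toHom g⁻¹)ᵀ := rfl
    rw [this, hy', Matrix.fromBlocks_mulVec]
    simp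
  rw [e]
  change ((ρ.toHom g⁻¹)ᵀ *ᵥ l) ⬝ᵥ (ρ.diff hX *ᵥ (ρ.toHom g *ᵥ v)) = 0
  have h1 : HasDerivAt (fun t : ℂ => ((ρ.toHom g⁻¹)ᵀ *ᵥ l) ⬝ᵥ
      (ρ.toHom (oneParam hX t) *ᵥ (ρ.toHom g *ᵥ v)))
      (((ρ.toHom g⁻¹)ᵀ *ᵥ l) ⬝ᵥ (ρ.diff hX *ᵥ (ρ.toHom g *ᵥ v))) 0 :=
    HasDerivAt.fun_sum fun i _ =>
      (lie_hasDerivAt_mulVec ρ hX (ρ.toHom g *ᵥ v) i).const_mul (((ρ.toHom g⁻¹)ᵀ *ᵥ l) i)
  have h2 : HasDerivAt (fun t : ℂ => l ⬝ᵥ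
      (ρ.toHom (oneParam (conj_mem_lieSet g hX) t) *ᵥ v))
      (l ⬝ᵥ (ρ.diff (conj_mem_lieSet g hX) *ᵥ v)) 0 :=
    HasDerivAt.fun_sum fun i _ =>
      (lie_hasDerivAt_mulVec ρ (conj_mem_lieSet g hX) v i).const_mul (l i)
  have h3 : (fun t : ℂ => ((ρ.toHom g⁻¹)ᵀ *ᵥ l) ⬝ᵥ
      (ρ.toHom (oneParam hX t) *ᵥ (ρ.toHom g *ᵥ v))) = fun t : ℂ => l ⬝ᵥ
      (ρ.toHom (oneParam (conj_mem_lieSet g hX) t) *ᵥ v) := by
    funext t
    rw [oneParam_conj, map_mul, map_mul, ← mulVec_mulVec, ← mulVec_mulVec, Matrix.mulVec_transpose,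
      ← Matrix.dotProduct_mulVec]
  rw [h3] at h1
  rw [h1.unique h2]
  exact hy _ (conj_mem_lieSet g hX)

end Pool.Agent.Lib.MP_462b8b_ag
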