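import Pool.Agent.Lib.MP_462b8b_ag.Defs
import Mathlib.Analysis.SpecialFunctions.Exponential
import Mathlib.Analysis.Complex.TaylorSeries
import Mathlib.Algebra.MvPolynomial.PDeriv
import Mathlib.Algebra.MvPolynomial.Monad
import Mathlib.Topology.Algebra.Module.FiniteDimension

/-!
MP_462b8b_ag, module LIE: the Lie algebra of a linear algebraic group is a linear subspace, the
infinitesimal action is linear in the Lie algebra element, and the Lie algebra of a stabiliser.
-/

open Matrix MvPolynomial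

namespace Pool.Agent.Lib.MP_462b8b_ag

section lieaux

/-- chain rule for polynomials -/
theorem lie_hasDerivAt_eval {σ : Type} [Fintype σ] [DecidableEq σ] (p : MvPolynomial σ ℂ)
    (f : ℂ → σ → ℂ) (f' : σ → ℂ) (t : ℂ) (h : ∀ s, HasDerivAt (fun t => f t s) (f' s) t) :
    HasDerivAt (fun t => eval (f t) p) (∑ s, eval (f t) (pderiv s p) * f' s) t := by
  induction p using MvPolynomial.induction_on with
  | C a => simpa using hasDerivAt_const t a
  | add p q hp hq =>
    simp only [map_add, add_mul, Finset.sum_add_distrib]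
    exact hp.add hq
  | mul_X p s hp =>
    have h1 := hp.mul (h s)
    simp only [map_mul, eval_X]
    refine HasDerivAt.congr_deriv h1 ?_
    have h2 : ∀ s', eval (f t) (pderiv s' (p * X s)) * f' s' =
        eval (f t) (pderiv s' p) * f' s' * f t s +
          (if s' = s then eval (f t) p * f' s else 0) := by
      intro s'
      rw [Derivation.leibniz, pderiv_X]
      simp only [smul_eq_mul, map_add, map_mul, eval_X]
      by_cases hs : s' = s
      · subst hs
        simp
        ring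
      · rw [Pi.single_apply, if_neg (Ne.symm hs), if_neg hs]
        simp
        ring
    simp only [h2]
    rw [Finset.sum_add_distrib, Finset.sum_ite_eq' Finset.univ s, ← Finset.sum_mul]
    simp

variable {n : Type} [Fintype n] [DecidableEq n]

set_option backward.isDefEq.respectTransparency false in
open scoped Matrix.Norms.Operator in
theorem lie_hasDerivAt_exp (X : Matrix n n ℂ) (t : ℂ) (i j : n) :
    HasDerivAt (fun t : ℂ => (NormedSpace.exp (t • X) : Matrix n n ℂ) i j)
      ((NormedSpace.exp (t • X) * X : Matrix n n ℂ) i j) t := by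
  have h := hasDerivAt_exp_smul_const (𝕂 := ℂ) X t
  exact ((LinearMap.toContinuousLinearMap (Matrix.entryLinearMap ℂ ℂ i j)).hasFDerivAt).comp_hasDerivAt
    t h

/-- the entries of a matrix, as a point -/
def lieE (M : Matrix n n ℂ) : n × n → ℂ := fun ij => M ij.1 ij.2

/-- the derivation of the coordinate ring of matrices given by right translation -/
noncomputable def lieD (M : Matrix n n ℂ) (p : MvPolynomial (n × n) ℂ) :
    MvPolynomial (n × n) ℂ :=
  ∑ ij : n × n, pderiv ij p * ∑ k, X (ij.1, k) * C (M k ij.2)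

omit [DecidableEq n] in
theorem lie_eval_lieD (M A : Matrix n n ℂ) (p : MvPolynomial (n × n) ℂ) :
    eval (lieE A) (lieD M p) = ∑ ij : n × n, eval (lieE A) (pderiv ij p) * (A * M) ij.1 ij.2 := by
  unfold lieD
  rw [map_sum]
  refine Finset.sum_congr rfl fun ij _ => ?_
  rw [map_mul, map_sum, Matrix.mul_apply]
  congr 1
  refine Finset.sum_congr rfl fun k _ => ?_
  rw [map_mul, eval_X, eval_C]
  rfl

theorem lie_hasDerivAt_F (X : Matrix n n ℂ) (p : MvPolynomial (n × n) ℂ) (t : ℂ) :
    HasDerivAt (fun t : ℂ => eval (lieE (NormedSpace.exp (t • X))) p)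
      (eval (lieE (NormedSpace.exp (t • X))) (lieD X p)) t := by
  rw [lie_eval_lieD]
  exact lie_hasDerivAt_eval p (fun t => lieE (NormedSpace.exp (t • X))) _ t
    (fun ij => lie_hasDerivAt_exp X t ij.1 ij.2)

/-- polynomials that vanish on `G` -/
def lieI (G : Subgroup (GL n ℂ)) : Set (MvPolynomial (n × n) ℂ) :=
  {p | ∀ g ∈ G, eval (lieE (g : Matrix n n ℂ)) p = 0}

/-- the tangent space of `G` at the identity -/
def lieT (G : Subgroup (GL n ℂ)) : Submodule ℂ (Matrix n n ℂ) where
  carrier := {X | ∀ p ∈ lieI G, ∑ ij : n × n, eval (lieE 1) (pderiv ij p) * X ij.1 ij.2 = 0}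
  add_mem' := by
    intro X Y hX hY p hp
    simp only [Matrix.add_apply, mul_add, Finset.sum_add_distrib, hX p hp, hY p hp, add_zero]
  zero_mem' := by
    intro p hp
    simp
  smul_mem' := by
    intro c X hX p hp
    have h := hX p hp
    simp only [Matrix.smul_apply, smul_eq_mul]
    have h2 : ∀ ij : n × n, eval (lieE 1) (pderiv ij p) * (c * X ij.1 ij.2) =
        c * (eval (lieE 1) (pderiv ij p) * X ij.1 ij.2) := fun ij => by ring
    simp only [h2]
    rw [← Finset.mul_sum, h, mul_zero]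

theorem lie_mem_lieT {G : Subgroup (GL n ℂ)} {X : Matrix n n ℂ} : X ∈ lieT G ↔
    ∀ p ∈ lieI G, ∑ ij : n × n, eval (lieE 1) (pderiv ij p) * X ij.1 ij.2 = 0 := Iff.rfl

theorem lie_D_mem {G : Subgroup (GL n ℂ)} {M : Matrix n n ℂ} (hM : M ∈ lieT G)
    {p : MvPolynomial (n × n) ℂ} (hp : p ∈ lieI G) : lieD M p ∈ lieI G := by
  intro g hg
  set pg : MvPolynomial (n × n) ℂ :=
    aeval (fun ij : n × n => ∑ k, C ((g : Matrix n n ℂ) ij.1 k) * X (k, ij.2)) p with hpg
  have heval : ∀ A : Matrix n n ℂ, eval (lieE A) pg = eval (lieE ((g : Matrix n n ℂ) * A)) p := by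
    intro A
    rw [hpg, ← MvPolynomial.coe_aeval_eq_eval, ← MvPolynomial.coe_aeval_eq_eval]
    change (aeval (lieE A) : MvPolynomial (n × n) ℂ →ₐ[ℂ] ℂ) _ =
      (aeval (lieE ((g : Matrix n n ℂ) * A)) : MvPolynomial (n × n) ℂ →ₐ[ℂ] ℂ) _
    rw [← AlgHom.comp_apply, MvPolynomial.comp_aeval]
    congr 2
    funext ij
    rw [map_sum]
    change _ = ((g : Matrix n n ℂ) * A) ij.1 ij.2
    rw [Matrix.mul_apply]
    refine Finset.sum_congr rfl fun k _ => ?_
    rw [map_mul, aeval_X]
    congr 1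
    exact MvPolynomial.aeval_C _ _
  have hpgI : pg ∈ lieI G := by
    intro h hh
    rw [heval]
    exact hp (g * h) (mul_mem hg hh)
  have h1 := lie_mem_lieT.1 hM pg hpgI
  -- two derivatives
  have hA : ∀ ij : n × n, HasDerivAt (fun s : ℂ => lieE (1 + s • M) ij) (M ij.1 ij.2) 0 := by
    intro ij
    have h2 : HasDerivAt (fun s : ℂ => (1 : Matrix n n ℂ) ij.1 ij.2 + s * M ij.1 ij.2)
        (M ij.1 ij.2) 0 := by
      have := ((hasDerivAt_id (0 : ℂ)).mul_const (M ij.1 ij.2)).const_add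
        ((1 : Matrix n n ℂ) ij.1 ij.2)
      simpa using this
    exact h2
  have hB : ∀ ij : n × n, HasDerivAt (fun s : ℂ => lieE ((g : Matrix n n ℂ) * (1 + s • M)) ij)
      (((g : Matrix n n ℂ) * M) ij.1 ij.2) 0 := by
    intro ij
    have h2 : HasDerivAt (fun s : ℂ => (g : Matrix n n ℂ) ij.1 ij.2 +
        s * ((g : Matrix n n ℂ) * M) ij.1 ij.2) (((g : Matrix n n ℂ) * M) ij.1 ij.2) 0 := by
      have := ((hasDerivAt_id (0 : ℂ)).mul_const (((g : Matrix n n ℂ) * M) ij.1 ij.2)).const_add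
        ((g : Matrix n n ℂ) ij.1 ij.2)
      simpa using this
    refine h2.congr_of_eventuallyEq (Filter.Eventually.of_forall fun s => ?_)
    change ((g : Matrix n n ℂ) * (1 + s • M)) ij.1 ij.2 = _
    rw [mul_add, mul_one, Matrix.mul_smul, Matrix.add_apply, Matrix.smul_apply, smul_eq_mul]
  have d1 := lie_hasDerivAt_eval pg (fun s => lieE (1 + s • M)) _ 0 hA
  have d2 := lie_hasDerivAt_eval p (fun s => lieE ((g : Matrix n n ℂ) * (1 + s • M))) _ 0 hB
  simp only [heval] at d1
  have h3 := d1.unique d2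
  simp only [zero_smul, add_zero, mul_one] at h3
  rw [h1] at h3
  rw [lie_eval_lieD]
  exact h3.symm

theorem lie_iterate_mem {G : Subgroup (GL n ℂ)} {M : Matrix n n ℂ} (hM : M ∈ lieT G)
    {p : MvPolynomial (n × n) ℂ} (hp : p ∈ lieI G) (k : ℕ) : (lieD M)^[k] p ∈ lieI G := by
  induction k with
  | zero => exact hp
  | succ k ih =>
    rw [Function.iterate_succ_apply']
    exact lie_D_mem hM ih

theorem lie_iteratedDeriv (M : Matrix n n ℂ) (p : MvPolynomial (n × n) ℂ) (k : ℕ) :
    iteratedDeriv k (fun t : ℂ => eval (lieE (NormedSpace.exp (t • M))) p) =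
      fun t : ℂ => eval (lieE (NormedSpace.exp (t • M))) ((lieD M)^[k] p) := by
  induction k with
  | zero => simp
  | succ k ih =>
    rw [iteratedDeriv_succ, ih]
    funext t
    rw [Function.iterate_succ_apply']
    exact (lie_hasDerivAt_F M _ t).deriv

theorem lie_exp_zero (M : Matrix n n ℂ) : (NormedSpace.exp ((0 : ℂ) • M) : Matrix n n ℂ) = 1 := by
  rw [zero_smul]
  exact NormedSpace.exp_zero

theorem lie_eval_exp_eq_zero {G : Subgroup (GL n ℂ)} {M : Matrix n n ℂ} (hM : M ∈ lieT G)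
    {p : MvPolynomial (n × n) ℂ} (hp : p ∈ lieI G) (t : ℂ) :
    eval (lieE (NormedSpace.exp (t • M))) p = 0 := by
  have hd : Differentiable ℂ (fun t : ℂ => eval (lieE (NormedSpace.exp (t • M))) p) :=
    fun t => (lie_hasDerivAt_F M p t).differentiableAt
  have h1 := Complex.hasSum_taylorSeries_of_entire hd 0 t
  have h2 : (fun k : ℕ => ((k.factorial : ℂ))⁻¹ • (t - 0) ^ k •
      iteratedDeriv k (fun t : ℂ => eval (lieE (NormedSpace.exp (t • M))) p) 0) = fun _ => 0 := by
    funext k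
    rw [lie_iteratedDeriv]
    have h3 := lie_iterate_mem hM hp k 1 (one_mem G)
    have h4 : eval (lieE (NormedSpace.exp ((0 : ℂ) • M))) ((lieD M)^[k] p) = 0 := by
      rw [lie_exp_zero]
      exact h3
    simp only [h4, smul_zero]
  rw [h2] at h1
  exact h1.unique hasSum_zero

end lieaux

section lie
variable {n : Type} [Fintype n] [DecidableEq n] {G : Subgroup (GL n ℂ)}
variable {ι : Type} [Fintype ι] [DecidableEq ι]

theorem exists_lieSubmodule (hG : IsAlgGroup G) :
    ∃ 𝔤 : Submodule ℂ (Matrix n n ℂ), (𝔤 : Set (Matrix n n ℂ)) = lieSet G := by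
  obtain ⟨S, hS⟩ := hG
  refine ⟨lieT G, ?_⟩
  ext M
  constructor
  · intro hM t
    refine ⟨(Matrix.isUnit_exp (t • M)).unit, ?_, IsUnit.unit_spec _⟩
    rw [hS]
    intro p hp
    rw [IsUnit.unit_spec]
    exact lie_eval_exp_eq_zero hM (fun g hg => (hS g).1 hg p hp) t
  · intro hM p hp
    have h1 := lie_hasDerivAt_F M p 0
    have h2 : (fun t : ℂ => eval (lieE (NormedSpace.exp (t • M))) p) = fun _ => 0 := by
      funext t
      obtain ⟨g, hg, hgt⟩ := hM t
      rw [← hgt]
      exact hp g hg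
    rw [h2] at h1
    have h3 := h1.unique (hasDerivAt_const (0 : ℂ) (0 : ℂ))
    rw [lie_exp_zero, lie_eval_lieD] at h3
    simpa using h3

theorem lie_oneParam_inv {X : Matrix n n ℂ} (hX : X ∈ lieSet G) (t : ℂ) :
    (((oneParam hX t : GL n ℂ)⁻¹ : GL n ℂ) : Matrix n n ℂ) = NormedSpace.exp (t • (-X)) := by
  rw [smul_neg, Matrix.exp_neg, ← oneParam_val hX t, Matrix.coe_units_inv]

theorem lie_hasDerivAt_rep (ρ : RatRep G ι) {X : Matrix n n ℂ} (hX : X ∈ lieSet G) (i j : ι)
    (P : MvPolynomial ((n × n) ⊕ (n × n)) ℂ)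
    (hP : ∀ g : G, ρ.toHom g i j = eval (Sum.elim (fun ij => (g : GL n ℂ).val ij.1 ij.2)
      (fun ij => ((g : GL n ℂ)⁻¹).val ij.1 ij.2)) P) (t : ℂ) :
    HasDerivAt (fun t : ℂ => ρ.toHom (oneParam hX t) i j)
      (∑ s : (n × n) ⊕ (n × n), eval (Sum.elim (lieE (NormedSpace.exp (t • X)))
        (lieE (NormedSpace.exp (t • (-X))))) (pderiv s P) *
          (Sum.elim (lieE (NormedSpace.exp (t • X) * X))
            (lieE (NormedSpace.exp (t • (-X)) * (-X))) s)) t := by
  have h1 : (fun t : ℂ => ρ.toHom (oneParam hX t) i j) = fun t : ℂ =>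
      eval (Sum.elim (lieE (NormedSpace.exp (t • X)))
        (lieE (NormedSpace.exp (t • (-X))))) P := by
    funext t
    rw [hP]
    congr 2
    funext s
    rcases s with s | s
    · exact congrFun (congrFun (oneParam_val hX t) s.1) s.2
    · exact congrFun (congrFun (lie_oneParam_inv hX t) s.1) s.2
  rw [h1]
  refine lie_hasDerivAt_eval P (fun t => Sum.elim (lieE (NormedSpace.exp (t • X)))
        (lieE (NormedSpace.exp (t • (-X))))) _ t ?_
  rintro (s | s)
  · exact lie_hasDerivAt_exp X t s.1 s.2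
  · exact lie_hasDerivAt_exp (-X) t s.1 s.2

theorem lie_differentiableAt_rep (ρ : RatRep G ι) {X : Matrix n n ℂ} (hX : X ∈ lieSet G)
    (i j : ι) (t : ℂ) : DifferentiableAt ℂ (fun t : ℂ => ρ.toHom (oneParam hX t) i j) t := by
  obtain ⟨P, hP⟩ := ρ.regular i j
  exact (lie_hasDerivAt_rep ρ hX i j P hP t).differentiableAt

theorem lie_hasDerivAt_diff (ρ : RatRep G ι) {X : Matrix n n ℂ} (hX : X ∈ lieSet G)
    (i j : ι) : HasDerivAt (fun t : ℂ => ρ.toHom (oneParam hX t) i j) (ρ.diff hX i j) 0 :=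
  (lie_differentiableAt_rep ρ hX i j 0).hasDerivAt

theorem exists_diff_linear (hG : IsAlgGroup G) (ρ : RatRep G ι) :
    ∃ L : Matrix n n ℂ →ₗ[ℂ] Matrix ι ι ℂ, ∀ X (hX : X ∈ lieSet G), ρ.diff hX = L X := by
  choose P hP using ρ.regular
  refine ⟨IsLinearMap.mk' (fun X => Matrix.of fun i j => ∑ s : (n × n) ⊕ (n × n),
      eval (Sum.elim (lieE 1) (lieE 1)) (pderiv s (P i j)) *
        (Sum.elim (lieE X) (lieE (-X)) s)) ⟨?_, ?_⟩, ?_⟩
  · intro X Y
    ext i j
    simp only [Matrix.of_apply, Matrix.add_apply]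
    rw [← Finset.sum_add_distrib]
    refine Finset.sum_congr rfl fun s _ => ?_
    rcases s with s | s
    · simp only [Sum.elim_inl, lieE, Matrix.add_apply]
      ring
    · simp only [Sum.elim_inr, lieE, Matrix.add_apply, Matrix.neg_apply]
      ring
  · intro c X
    ext i j
    simp only [Matrix.of_apply, Matrix.smul_apply, smul_eq_mul]
    rw [Finset.mul_sum]
    refine Finset.sum_congr rfl fun s _ => ?_
    rcases s with s | s
    · simp only [Sum.elim_inl, lieE, Matrix.smul_apply, smul_eq_mul]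
      ring
    · simp only [Sum.elim_inr, lieE, Matrix.smul_apply, Matrix.neg_apply, smul_eq_mul]
      ring
  · intro X hX
    ext i j
    have h1 := lie_hasDerivAt_rep ρ hX i j (P i j) (hP i j) 0
    rw [lie_exp_zero, lie_exp_zero, one_mul, one_mul] at h1
    exact (lie_hasDerivAt_diff ρ hX i j).unique h1

theorem lie_oneParam_add {X : Matrix n n ℂ} (hX : X ∈ lieSet G) (t s : ℂ) :
    oneParam hX (t + s) = oneParam hX t * oneParam hX s := by
  apply Subtype.ext
  apply Units.ext
  rw [oneParam_val, Subgroup.coe_mul, Units.val_mul, oneParam_val, oneParam_val, add_smul]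
  apply Matrix.exp_add_of_commute
  exact ((Commute.refl X).smul_left t).smul_right s

theorem lie_oneParam_zero {X : Matrix n n ℂ} (hX : X ∈ lieSet G) : oneParam hX 0 = 1 := by
  apply Subtype.ext
  apply Units.ext
  rw [oneParam_val, lie_exp_zero]
  rfl

theorem lie_hasDerivAt_mulVec (ρ : RatRep G ι) {X : Matrix n n ℂ} (hX : X ∈ lieSet G)
    (v : ι → ℂ) (i : ι) :
    HasDerivAt (fun t : ℂ => (ρ.toHom (oneParam hX t) *ᵥ v) i) ((ρ.diff hX *ᵥ v) i) 0 := by
  have h : HasDerivAt (fun t : ℂ => ∑ j, ρ.toHom (oneParam hX t) i j * v j)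
      (∑ j, ρ.diff hX i j * v j) 0 :=
    HasDerivAt.fun_sum fun j _ => (lie_hasDerivAt_diff ρ hX i j).mul_const (v j)
  exact h

theorem mem_lieSet_stab (ρ : RatRep G ι) (v : ι → ℂ) (X : Matrix n n ℂ) :
    X ∈ lieSet (ρ.stab v) ↔ ∃ hX : X ∈ lieSet G, ρ.diff hX *ᵥ v = 0 := by
  constructor
  · intro h
    have hX : X ∈ lieSet G := by
      intro t
      obtain ⟨g, ⟨hg, _⟩, hgt⟩ := h t
      exact ⟨g, hg, hgt⟩
    refine ⟨hX, ?_⟩
    have hfix : ∀ t : ℂ, ρ.toHom (oneParam hX t) *ᵥ v = v := by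
      intro t
      obtain ⟨g, ⟨hg, hgv⟩, hgt⟩ := h t
      have : oneParam hX t = ⟨g, hg⟩ := by
        apply Subtype.ext
        apply Units.ext
        rw [oneParam_val, hgt]
      rw [this]
      exact hgv
    funext i
    have h1 := lie_hasDerivAt_mulVec ρ hX v i
    simp only [hfix] at h1
    exact h1.unique (hasDerivAt_const _ _)
  · rintro ⟨hX, hv⟩ t
    refine ⟨(oneParam hX t : GL n ℂ), ⟨(oneParam hX t).2, ?_⟩, oneParam_val hX t⟩
    have hderiv : ∀ (i : ι) (t : ℂ),
        HasDerivAt (fun t : ℂ => (ρ.toHom (oneParam hX t) *ᵥ v) i) 0 t := by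
      intro i t
      have h1 : HasDerivAt (fun s : ℂ => ∑ j, ρ.toHom (oneParam hX t) i j *
          (ρ.toHom (oneParam hX s) *ᵥ v) j)
          (∑ j, ρ.toHom (oneParam hX t) i j * (ρ.diff hX *ᵥ v) j) 0 :=
        HasDerivAt.fun_sum fun j _ => (lie_hasDerivAt_mulVec ρ hX v j).const_mul _
      rw [hv] at h1
      simp only [Pi.zero_apply, mul_zero, Finset.sum_const_zero] at h1
      have h2 : (fun s : ℂ => ∑ j, ρ.toHom (oneParam hX t) i j *
          (ρ.toHom (oneParam hX s) *ᵥ v) j) =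
          fun s : ℂ => (ρ.toHom (oneParam hX (t + s)) *ᵥ v) i := by
        funext s
        rw [lie_oneParam_add, map_mul, ← Matrix.mulVec_mulVec]
        rfl
      rw [h2] at h1
      have h3 : HasDerivAt (fun u : ℂ => (ρ.toHom (oneParam hX (t + (u - t))) *ᵥ v) i) 0 t := by
        have h5 : HasDerivAt (fun s : ℂ => (ρ.toHom (oneParam hX (t + s)) *ᵥ v) i) 0 (t - t) := by
          rw [sub_self]
          exact h1
        exact HasDerivAt.comp_sub_const t t h5
      simpa using h3
    have hconst : ρ.toHom (oneParam hX t) *ᵥ v = ρ.toHom (oneParam hX 0) *ᵥ v := by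
      funext i
      exact is_const_of_deriv_eq_zero
        (f := fun t : ℂ => (ρ.toHom (oneParam hX t) *ᵥ v) i)
        (fun t => (hderiv i t).differentiableAt) (fun t => (hderiv i t).deriv) t 0
    change ρ.toHom (oneParam hX t) *ᵥ v = v
    rw [hconst, lie_oneParam_zero, map_one, Matrix.one_mulVec]

end lie

end Pool.Agent.Lib.MP_462b8b_ag
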