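import Mathlib.RingTheory.Ideal.Height
import Mathlib.RingTheory.MvPolynomial.Basic
import Mathlib.RingTheory.Polynomial.Basic
import Mathlib.RingTheory.Localization.FractionRing
import Mathlib.RingTheory.Localization.Module
import Mathlib.LinearAlgebra.Basis.VectorSpace
import Mathlib.LinearAlgebra.LinearIndependent.Lemmas

/-!
Height of a prime of a polynomial ring that contains linear forms.
-/

set_option autoImplicit false

open MvPolynomial

namespace Pool.Agent.Lib.MP_462b8b_ag

namespace HtLin

section field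

variable {K ι : Type} [Field K] [Fintype ι]

/-- The linear form with coefficients `v`. -/
noncomputable def lf (v : ι → K) : MvPolynomial ι K := ∑ j, C (v j) * X j

theorem lf_zero : lf (0 : ι → K) = 0 := by simp [lf]

theorem lf_add (v w : ι → K) : lf (v + w) = lf v + lf w := by
  simp only [lf, Pi.add_apply, map_add, add_mul, Finset.sum_add_distrib]

theorem lf_smul (c : K) (v : ι → K) : lf (c • v) = C c * lf v := by
  simp only [lf, Pi.smul_apply, smul_eq_mul, map_mul, mul_assoc, Finset.mul_sum]

/-- `lf` as a linear map. -/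
noncomputable def lfL : (ι → K) →ₗ[K] MvPolynomial ι K where
  toFun := lf
  map_add' := lf_add
  map_smul' := fun c v => by rw [lf_smul, RingHom.id_apply, MvPolynomial.smul_eq_C_mul]

theorem lf_single [DecidableEq ι] (j : ι) : lf (Pi.single j (1 : K)) = X j := by
  unfold lf
  rw [Finset.sum_eq_single j]
  · simp
  · intro b _ hb
    simp [hb]
  · simp

theorem lf_injective : Function.Injective (lf : (ι → K) → MvPolynomial ι K) := by
  classical
  intro v w h
  have h2 : lfL (v - w) = (0 : MvPolynomial ι K) := by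
    rw [map_sub]
    exact sub_eq_zero.2 h
  funext j
  have h3 := congrArg (eval (Pi.single j (1 : K))) h2
  have h4 : eval (Pi.single j (1 : K)) (lf (v - w)) = v j - w j := by
    unfold lf
    rw [map_sum, Finset.sum_eq_single j]
    · simp
    · intro b _ hb
      simp [hb]
    · simp
  have h5 : v j - w j = 0 := by
    rw [← h4]
    exact h3.trans (map_zero _)
  exact sub_eq_zero.1 h5

/-- The ideal generated by the linear forms of a subspace. -/
noncomputable def J (U : Submodule K (ι → K)) : Ideal (MvPolynomial ι K) :=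
  Ideal.span (lf '' (U : Set (ι → K)))

theorem J_mono {U V : Submodule K (ι → K)} (h : U ≤ V) : J U ≤ J V :=
  Ideal.span_mono (Set.image_mono h)

theorem J_spec (U : Submodule K (ι → K)) : (J U).IsPrime ∧ ∀ v, lf v ∈ J U → v ∈ U := by
  classical
  obtain ⟨s, hs⟩ := U.mkQ.exists_rightInverse_of_surjective (Submodule.range_mkQ U)
  have hs' : ∀ q, U.mkQ (s q) = q := fun q => LinearMap.congr_fun hs q
  set π : (ι → K) →ₗ[K] (ι → K) := s.comp U.mkQ with hπ
  have h1 : ∀ v, v - π v ∈ U := fun v => by
    rw [← Submodule.Quotient.mk_eq_zero U, Submodule.Quotient.mk_sub]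
    have := hs' (U.mkQ v)
    simp only [Submodule.mkQ_apply] at this
    rw [hπ, LinearMap.comp_apply, Submodule.mkQ_apply, this, sub_self]
  have h2 : ∀ v ∈ U, π v = 0 := fun v hv => by
    have : U.mkQ v = 0 := by rwa [Submodule.mkQ_apply, Submodule.Quotient.mk_eq_zero]
    rw [hπ, LinearMap.comp_apply, this, map_zero]
  have h3 : ∀ v, π v = 0 → v ∈ U := fun v hv => by
    have := h1 v
    rwa [hv, sub_zero] at this
  let φ : MvPolynomial ι K →ₐ[K] MvPolynomial ι K := aeval fun j => lf (π (Pi.single j 1))
  have hφ : ∀ v, φ (lf v) = lf (π v) := by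
    intro v
    have e : v = ∑ j, v j • (Pi.single j (1 : K) : ι → K) := by
      funext i
      rw [Finset.sum_apply, Finset.sum_eq_single i]
      · simp
      · intro b _ hb
        simp [Ne.symm hb]
      · simp
    have e2 : lf (π v) = ∑ j, C (v j) * lf (π (Pi.single j 1)) := by
      conv_lhs => rw [e]
      rw [map_sum]
      change lfL (∑ j, π (v j • (Pi.single j (1 : K) : ι → K))) = _
      rw [map_sum]
      refine Finset.sum_congr rfl fun j _ => ?_
      rw [map_smul]
      exact lf_smul _ _
    rw [e2]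
    simp only [lf, φ, map_sum, map_mul, aeval_X]
    refine Finset.sum_congr rfl fun j _ => ?_
    rw [← MvPolynomial.algebraMap_eq, AlgHom.commutes]
  have hker : RingHom.ker φ = J U := by
    apply le_antisymm
    · intro f hf
      rw [RingHom.mem_ker] at hf
      have e : (Ideal.Quotient.mkₐ K (J U)).comp φ = Ideal.Quotient.mkₐ K (J U) := by
        ext j
        rw [AlgHom.comp_apply]
        simp only [φ, aeval_X, Ideal.Quotient.mkₐ_eq_mk]
        rw [← sub_eq_zero, ← map_sub, Ideal.Quotient.eq_zero_iff_mem]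
        have h4 : lf (π (Pi.single j 1)) - X j =
            lf (π (Pi.single j (1 : K)) - (Pi.single j (1 : K) : ι → K)) := by
          rw [← lf_single]
          exact (map_sub (lfL : (ι → K) →ₗ[K] MvPolynomial ι K) _ _).symm
        rw [h4]
        refine Ideal.subset_span ⟨_, ?_, rfl⟩
        have := U.neg_mem (h1 (Pi.single j (1 : K)))
        rwa [neg_sub] at this
      have h5 : Ideal.Quotient.mkₐ K (J U) f = 0 := by
        rw [← e, AlgHom.comp_apply, hf, map_zero]
      rwa [Ideal.Quotient.mkₐ_eq_mk, Ideal.Quotient.eq_zero_iff_mem] at h5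
    · refine Ideal.span_le.2 ?_
      rintro _ ⟨v, hv, rfl⟩
      rw [SetLike.mem_coe, RingHom.mem_ker, hφ, h2 v hv, lf_zero]
  refine ⟨hker ▸ RingHom.ker_isPrime _, fun v hv => ?_⟩
  rw [← hker, RingHom.mem_ker, hφ] at hv
  exact h3 v (lf_injective (hv.trans lf_zero.symm))

end field

section base

variable {R ι : Type} [CommRing R]

theorem ker_map_mk (P : Ideal R) :
    RingHom.ker (map (Ideal.Quotient.mk P) : MvPolynomial ι R →+* MvPolynomial ι (R ⧸ P)) =
      P.map C := by
  rw [MvPolynomial.ker_map, Ideal.mk_ker]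

theorem isPrime_map_C (P : Ideal R) [P.IsPrime] :
    (P.map (C : R →+* MvPolynomial ι R)).IsPrime := by
  rw [← ker_map_mk]
  exact RingHom.ker_isPrime _

theorem height_le_map_C (P : Ideal R) [hP : P.IsPrime] :
    P.height ≤ (P.map (C : R →+* MvPolynomial ι R)).height := by
  let E : PrimeSpectrum R → PrimeSpectrum (MvPolynomial ι R) := fun p =>
    ⟨p.asIdeal.map C, isPrime_map_C p.asIdeal⟩
  have hE : StrictMono E := by
    intro p q hpq
    rw [lt_iff_le_not_ge] at hpq ⊢
    obtain ⟨h1, h2⟩ := hpq
    refine ⟨Ideal.map_mono h1, fun h3 => h2 fun r hr => ?_⟩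
    have h4 : (C r : MvPolynomial ι R) ∈ q.asIdeal.map C := Ideal.mem_map_of_mem _ hr
    have h5 : (C r : MvPolynomial ι R) ∈ p.asIdeal.map C := h3 h4
    have h6 := MvPolynomial.mem_map_C_iff.1 h5 0
    rwa [MvPolynomial.coeff_zero_C] at h6
  have h := Order.height_le_height_apply_of_strictMono E hE ⟨P, hP⟩
  rwa [← PrimeSpectrum.height_eq_orderHeight, ← PrimeSpectrum.height_eq_orderHeight] at h

end base

end HtLin

open HtLin in
theorem height_add_card_le {R : Type} [CommRing R] [IsDomain R] [IsNoetherianRing R]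
    {κ ι : Type} [Fintype ι] (Φ : κ → ι → R) (Q : Ideal (MvPolynomial ι R)) [Q.IsPrime]
    (T : Finset κ)
    (hT : LinearIndependent (R ⧸ Q.comap C) (fun (i : T) (j : ι) =>
      Ideal.Quotient.mk (Q.comap C) (Φ i j)))
    (hQ : ∀ i ∈ T, ∑ j, C (Φ i j) * X j ∈ Q) :
    (Q.comap (C : R →+* MvPolynomial ι R)).height + T.card ≤ Q.height := by
  classical
  set P : Ideal R := Q.comap (C : R →+* MvPolynomial ι R) with hP
  have hPp : P.IsPrime := Ideal.comap_isPrime _ _
  let D := R ⧸ P
  let K := FractionRing D
  let F := FractionRing (MvPolynomial ι R ⧸ Q)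
  let i0 : D →+* MvPolynomial ι R ⧸ Q := Ideal.quotientMap Q C le_rfl
  have hi0 : Function.Injective i0 := Ideal.quotientMap_injective
  let i1 : D →+* F := (algebraMap (MvPolynomial ι R ⧸ Q) F).comp i0
  have hi1 : Function.Injective i1 := (IsFractionRing.injective (MvPolynomial ι R ⧸ Q) F).comp hi0
  let κ0 : K →+* F := IsFractionRing.lift (A := D) (K := K) hi1
  let θ : MvPolynomial ι K →+* F := eval₂Hom κ0 fun j =>
    algebraMap (MvPolynomial ι R ⧸ Q) F (Ideal.Quotient.mk Q (X j))
  let a0 : R →+* K := (algebraMap D K).comp (Ideal.Quotient.mk P)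
  let ψ : MvPolynomial ι R →+* MvPolynomial ι K := MvPolynomial.map a0
  have hκ : ∀ r : R, κ0 (a0 r) = algebraMap (MvPolynomial ι R ⧸ Q) F
      (Ideal.Quotient.mk Q (C r)) := by
    intro r
    have h1 : κ0 (algebraMap D K (Ideal.Quotient.mk P r)) = i1 (Ideal.Quotient.mk P r) :=
      IsFractionRing.lift_algebraMap hi1 _
    exact h1
  have hθψ : θ.comp ψ = (algebraMap (MvPolynomial ι R ⧸ Q) F).comp (Ideal.Quotient.mk Q) := by
    apply MvPolynomial.ringHom_ext
    · intro r
      simp only [RingHom.comp_apply, ψ, θ, map_C, coe_eval₂Hom, eval₂_C]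
      exact hκ r
    · intro j
      simp only [RingHom.comp_apply, ψ, θ, map_X, coe_eval₂Hom, eval₂_X]
  have hcomap : (RingHom.ker θ).comap ψ = Q := by
    ext f
    rw [Ideal.mem_comap, RingHom.mem_ker]
    have h1 : θ (ψ f) = algebraMap (MvPolynomial ι R ⧸ Q) F (Ideal.Quotient.mk Q f) :=
      RingHom.congr_fun hθψ f
    rw [h1, ← Ideal.Quotient.eq_zero_iff_mem]
    exact (injective_iff_map_eq_zero' _).1 (IsFractionRing.injective (MvPolynomial ι R ⧸ Q) F) _
  -- the vectors of coefficients
  let v : κ → ι → K := fun i j => a0 (Φ i j)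
  have hψ : ∀ i, ψ (∑ j, C (Φ i j) * X j) = lf (v i) := by
    intro i
    simp only [ψ, lf, v, map_sum, map_mul, map_C, map_X]
  have hv : LinearIndependent K (fun i : T => v i) := by
    rw [← LinearIndependent.iff_fractionRing D K]
    let m : (ι → D) →ₗ[D] (ι → K) :=
      LinearMap.compLeft (Algebra.linearMap D K) ι
    have hm : LinearMap.ker m = ⊥ := by
      rw [LinearMap.ker_eq_bot]
      intro x y hxy
      funext j
      exact IsFractionRing.injective D K (congrFun hxy j)
    exact hT.map' m hm
  -- the chain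
  let U : Finset κ → Submodule K (ι → K) := fun T' => Submodule.span K (v '' (T' : Set κ))
  have hstep : ∀ T' : Finset κ, T' ⊆ T → P.height + T'.card ≤ ((J (U T')).comap ψ).height := by
    intro T'
    induction T' using Finset.induction_on with
    | empty =>
      intro _
      have hU : U ∅ = ⊥ := by simp [U]
      have hJ : J (⊥ : Submodule K (ι → K)) = ⊥ := by
        rw [J, Submodule.bot_coe, Set.image_singleton, lf_zero, Ideal.span_singleton_eq_bot]
      have hker : (⊥ : Ideal (MvPolynomial ι K)).comap ψ = P.map C := by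
        have h1 : RingHom.ker a0 = P := by
          ext r
          rw [RingHom.mem_ker, ← Ideal.Quotient.eq_zero_iff_mem]
          exact (injective_iff_map_eq_zero' _).1 (IsFractionRing.injective D K) _
        have h2 : RingHom.ker ψ = P.map C :=
          (MvPolynomial.ker_map a0).trans (congrArg (Ideal.map C) h1)
        exact h2
      rw [hU, hJ, hker, Finset.card_empty, Nat.cast_zero, add_zero]
      exact height_le_map_C P
    | insert a T' ha ih =>
      intro hsub
      have hsub' : T' ⊆ T := (Finset.subset_insert a T').trans hsub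
      have haT : a ∈ T := hsub (Finset.mem_insert_self a T')
      have h1 := ih hsub'
      have hp1 : (J (U T')).IsPrime := (J_spec _).1
      have hp2 : (J (U (insert a T'))).IsPrime := (J_spec _).1
      have hp1' : ((J (U T')).comap ψ).IsPrime := Ideal.comap_isPrime _ _
      have hp2' : ((J (U (insert a T'))).comap ψ).IsPrime := Ideal.comap_isPrime _ _
      have hlt : (J (U T')).comap ψ < (J (U (insert a T'))).comap ψ := by
        refine lt_of_le_of_ne (Ideal.comap_mono (J_mono (Submodule.span_mono
          (Set.image_mono (by simp))))) fun heq => ?_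
        have h2 : ∑ j, C (Φ a j) * X j ∈ (J (U (insert a T'))).comap ψ := by
          rw [Ideal.mem_comap, hψ]
          refine Ideal.subset_span ⟨v a, Submodule.subset_span ⟨a, by simp, rfl⟩, rfl⟩
        rw [← heq, Ideal.mem_comap, hψ] at h2
        have h3 : v a ∈ U T' := (J_spec _).2 _ h2
        have h4 := hv.notMem_span_image (s := {i : T | (i : κ) ∈ T'}) (x := ⟨a, haT⟩)
          (by simpa using ha)
        apply h4
        have h5 : v '' (T' : Set κ) ⊆ (fun i : T => v i) '' {i : T | (i : κ) ∈ T'} := by
          rintro _ ⟨b, hb, rfl⟩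
          exact ⟨⟨b, hsub' hb⟩, hb, rfl⟩
        exact Submodule.span_mono h5 h3
      have h5 := Ideal.height_add_one_le_of_lt_of_isPrime hlt
      rw [Finset.card_insert_of_notMem ha]
      push_cast
      rw [← add_assoc]
      exact (add_le_add_left h1 1).trans h5
  refine (hstep T (Finset.Subset.refl T)).trans (Ideal.height_mono ?_)
  rw [← hcomap]
  refine Ideal.comap_mono (Ideal.span_le.2 ?_)
  rintro _ ⟨u, hu, rfl⟩
  rw [SetLike.mem_coe, RingHom.mem_ker]
  refine Submodule.span_induction ?_ ?_ ?_ ?_ hu
  · rintro _ ⟨a, ha, rfl⟩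
    rw [← hψ, ← RingHom.mem_ker, ← Ideal.mem_comap, hcomap]
    exact hQ a ha
  · rw [lf_zero, map_zero]
  · intro x y _ _ hx hy
    rw [lf_add, map_add, hx, hy, add_zero]
  · intro c x _ hx
    rw [lf_smul, map_mul, hx, mul_zero]

end Pool.Agent.Lib.MP_462b8b_ag
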