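import Mathlib.RingTheory.Localization.Basic
import Mathlib.RingTheory.UniqueFactorizationDomain.Basic
import Mathlib.RingTheory.Localization.FractionRing

/-!
# MP_462b8b_ag : Nagata's criterion for unique factorization
-/

namespace Pool.Agent.Lib.MP_462b8b_ag

/-- Primes not dividing `a` can be cancelled. -/
theorem nagata_cancel {S : Type} [CommRing S] [IsDomain S] (a : S) (s : Multiset S)
    (hs : ∀ p ∈ s, Prime p) (hsa : ∀ p ∈ s, ¬ p ∣ a) (b : S) (h : s.prod ∣ a * b) :
    s.prod ∣ b := by
  induction s using Multiset.induction_on generalizing b with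
  | empty => simp
  | cons p s ih =>
    rw [Multiset.prod_cons] at h ⊢
    have hp : Prime p := hs p (Multiset.mem_cons_self p s)
    have h1 : p ∣ a * b := dvd_trans (dvd_mul_right p s.prod) h
    have h2 : p ∣ b := (hp.dvd_or_dvd h1).resolve_left (hsa p (Multiset.mem_cons_self p s))
    obtain ⟨b', rfl⟩ := h2
    have h3 : s.prod ∣ a * b' := by
      have h4 : p * s.prod ∣ p * (a * b') := by
        have : a * (p * b') = p * (a * b') := by ring
        rwa [this] at h
      exact (mul_dvd_mul_iff_left hp.ne_zero).mp h4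
    exact mul_dvd_mul_left p (ih (fun q hq => hs q (Multiset.mem_cons_of_mem hq))
      (fun q hq => hsa q (Multiset.mem_cons_of_mem hq)) b' h3)

/-- Distribute a product of primes over the two factors of a product. -/
theorem nagata_split {S : Type} [CommRing S] [IsDomain S] (a : S) (s : Multiset S)
    (hs : ∀ p ∈ s, Prime p) (x y : S) (h : a * s.prod = x * y) :
    ∃ x' y' u v : S, a = x' * y' ∧ x = x' * u ∧ y = y' * v ∧ u ∣ s.prod ∧ v ∣ s.prod := by
  induction s using Multiset.induction_on generalizing x y with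
  | empty =>
    refine ⟨x, y, 1, 1, ?_, ?_, ?_, ?_, ?_⟩
    · simpa using h
    · simp
    · simp
    · simp
    · simp
  | cons p s ih =>
    rw [Multiset.prod_cons] at h ⊢
    have hp : Prime p := hs p (Multiset.mem_cons_self p s)
    have hs' : ∀ q ∈ s, Prime q := fun q hq => hs q (Multiset.mem_cons_of_mem hq)
    have h1 : p ∣ x * y := ⟨a * s.prod, by rw [← h]; ring⟩
    rcases hp.dvd_or_dvd h1 with ⟨x1, rfl⟩ | ⟨y1, rfl⟩
    · have h2 : a * s.prod = x1 * y := by
        apply mul_left_cancel₀ hp.ne_zero
        calc p * (a * s.prod) = a * (p * s.prod) := by ring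
          _ = p * x1 * y := h
          _ = p * (x1 * y) := by ring
      obtain ⟨x', y', u, v, e1, e2, e3, e4, e5⟩ := ih hs' x1 y h2
      refine ⟨x', y', p * u, v, e1, ?_, e3, mul_dvd_mul_left p e4, dvd_mul_of_dvd_right e5 p⟩
      rw [e2]; ring
    · have h2 : a * s.prod = x * y1 := by
        apply mul_left_cancel₀ hp.ne_zero
        calc p * (a * s.prod) = a * (p * s.prod) := by ring
          _ = x * (p * y1) := h
          _ = p * (x * y1) := by ring
      obtain ⟨x', y', u, v, e1, e2, e3, e4, e5⟩ := ih hs' x y1 h2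
      refine ⟨x', y', u, p * v, e1, e2, ?_, dvd_mul_of_dvd_right e4 p, mul_dvd_mul_left p e5⟩
      rw [e3]; ring

theorem nagata {S T : Type} [CommRing S] [IsDomain S] [WfDvdMonoid S] [CommRing T] [IsDomain T]
    [Algebra S T] (M : Submonoid S) [IsLocalization M T] (h0 : (0 : S) ∉ M)
    (hM : ∀ m ∈ M, ∃ s : Multiset S, (∀ p ∈ s, Prime p) ∧ Associated s.prod m)
    [UniqueFactorizationMonoid T] : UniqueFactorizationMonoid S := by
  have hle : M ≤ nonZeroDivisors S := le_nonZeroDivisors_of_noZeroDivisors h0
  have hinj : Function.Injective (algebraMap S T) := IsLocalization.injective T hle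
  have hunit : ∀ m ∈ M, IsUnit (algebraMap S T m) := fun m hm =>
    IsLocalization.map_units T ⟨m, hm⟩
  have hne : ∀ m ∈ M, m ≠ 0 := fun m hm h => h0 (h ▸ hm)
  refine ⟨fun {a} => ⟨fun ha => ?_, fun ha => ha.irreducible⟩⟩
  by_cases hcase : ∃ p : S, Prime p ∧ p ∣ a ∧ ∃ m ∈ M, p ∣ m
  · obtain ⟨p, hp, hpa, _⟩ := hcase
    exact (hp.irreducible.associated_of_dvd ha hpa).prime hp
  · push Not at hcase
    -- cancellation of elements of `M`
    have hcancel : ∀ m ∈ M, ∀ b : S, m ∣ a * b → m ∣ b := by
      intro m hm b hb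
      obtain ⟨s, hs, hsm⟩ := hM m hm
      have h1 : ∀ p ∈ s, ¬ p ∣ a := by
        intro p hp hpa
        exact hcase p (hs p hp) hpa m hm (dvd_trans (Multiset.dvd_prod hp) hsm.dvd)
      have h2 : s.prod ∣ b := nagata_cancel a s hs h1 b (dvd_trans hsm.dvd hb)
      exact dvd_trans hsm.symm.dvd h2
    have ha0 : a ≠ 0 := ha.ne_zero
    have hnu : ¬ IsUnit (algebraMap S T a) := by
      intro hu
      obtain ⟨t, ht⟩ := hu.exists_right_inv
      obtain ⟨⟨b, m⟩, hbm⟩ := IsLocalization.surj M t
      have h1 : algebraMap S T (a * b) = algebraMap S T m := by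
        rw [map_mul, ← hbm]
        calc algebraMap S T a * (t * algebraMap S T m)
            = (algebraMap S T a * t) * algebraMap S T m := by ring
          _ = algebraMap S T m := by rw [ht, one_mul]
      have h2 : a * b = m := hinj h1
      obtain ⟨c, hc⟩ := hcancel m m.2 b ⟨1, by rw [h2, mul_one]⟩
      apply ha.not_isUnit
      refine IsUnit.of_mul_eq_one c ?_
      apply mul_left_cancel₀ (hne m m.2)
      calc (m : S) * (a * c) = a * (m * c) := by ring
        _ = a * b := by rw [hc]
        _ = m := h2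
        _ = m * 1 := (mul_one _).symm
    have hdvdunit : ∀ m ∈ M, ∀ v : S, v ∣ m → IsUnit (algebraMap S T v) := by
      intro m hm v hv
      exact isUnit_of_dvd_unit (map_dvd (algebraMap S T) hv) (hunit m hm)
    have hirr : Irreducible (algebraMap S T a) := by
      refine ⟨hnu, ?_⟩
      intro x y hxy
      obtain ⟨⟨x', m1⟩, hx⟩ := IsLocalization.surj M x
      obtain ⟨⟨y', m2⟩, hy⟩ := IsLocalization.surj M y
      have h1 : a * (m1 * m2 : S) = x' * y' := by
        apply hinj
        rw [map_mul, map_mul, map_mul, ← hx, ← hy, hxy]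
        ring
      obtain ⟨s, hs, hsm⟩ := hM (m1 * m2 : S) (M.mul_mem m1.2 m2.2)
      obtain ⟨w, hw⟩ := hsm
      have h2 : a * s.prod = x' * (y' * (w⁻¹ : Sˣ)) := by
        have h3 : a * s.prod * w = x' * y' := by rw [mul_assoc, hw, h1]
        calc a * s.prod = a * s.prod * w * (w⁻¹ : Sˣ) := by
              rw [mul_assoc (a * s.prod), Units.mul_inv, mul_one]
          _ = x' * (y' * (w⁻¹ : Sˣ)) := by rw [h3]; ring
      obtain ⟨x2, y2, uu, vv, e1, e2, e3, e4, e5⟩ := nagata_split a s hs _ _ h2
      have hmm : s.prod ∣ (m1 * m2 : S) := ⟨w, hw.symm⟩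
      have hU : IsUnit (algebraMap S T uu) :=
        hdvdunit _ (M.mul_mem m1.2 m2.2) uu (dvd_trans e4 hmm)
      have hV : IsUnit (algebraMap S T vv) :=
        hdvdunit _ (M.mul_mem m1.2 m2.2) vv (dvd_trans e5 hmm)
      rcases ha.isUnit_or_isUnit e1 with h | h
      · left
        have h3 : IsUnit (x * algebraMap S T m1) := by
          rw [hx, e2, map_mul]
          exact (h.map (algebraMap S T)).mul hU
        exact isUnit_of_mul_isUnit_left h3
      · right
        have h3 : IsUnit (y * algebraMap S T m2) := by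
          rw [hy]
          have h4 : y' = y2 * vv * w := by
            rw [← e3, mul_assoc, Units.inv_mul, mul_one]
          rw [h4, map_mul, map_mul]
          exact ((h.map (algebraMap S T)).mul hV).mul (w.isUnit.map (algebraMap S T))
        exact isUnit_of_mul_isUnit_left h3
    have hprime : Prime (algebraMap S T a) := UniqueFactorizationMonoid.irreducible_iff_prime.mp hirr
    have hback : ∀ b : S, algebraMap S T a ∣ algebraMap S T b → a ∣ b := by
      intro b hb
      obtain ⟨t, ht⟩ := hb
      obtain ⟨⟨b', m⟩, hbm⟩ := IsLocalization.surj M t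
      have h1 : (m : S) * b = a * b' := by
        apply hinj
        rw [map_mul, map_mul, ht, ← hbm]
        ring
      obtain ⟨c, hc⟩ := hcancel m m.2 b' ⟨b, h1.symm⟩
      refine ⟨c, ?_⟩
      apply mul_left_cancel₀ (hne m m.2)
      rw [h1, hc]
      ring
    refine ⟨ha0, ha.not_isUnit, fun b c hbc => ?_⟩
    have h1 : algebraMap S T a ∣ algebraMap S T b * algebraMap S T c := by
      rw [← map_mul]
      exact map_dvd _ hbc
    rcases hprime.dvd_or_dvd h1 with h | h
    · exact Or.inl (hback b h)
    · exact Or.inr (hback c h)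

end Pool.Agent.Lib.MP_462b8b_ag
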