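import Pool.Agent.Lib.MP_462b8b_ag.CM
import Pool.Agent.Lib.MP_462b8b_ag.HtLin
import Pool.Agent.Lib.MP_462b8b_ag.Nagata
import Mathlib.RingTheory.MvPolynomial.Localization
import Mathlib.RingTheory.Polynomial.UniqueFactorization
import Mathlib.RingTheory.Localization.Module
import Mathlib.LinearAlgebra.Basis.VectorSpace
import Mathlib.Analysis.Complex.Polynomial.Basic
import Mathlib.Tactic

/-!
MP_462b8b_ag, module SYM: the symmetric algebra `R[X] / (μ_1, ..., μ_d)` of a matrix `Φ` of
polynomials satisfying the condition `F_2` is a unique factorisation domain.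
-/

open MvPolynomial

namespace Pool.Agent.Lib.MP_462b8b_ag

/-- `μ_i = ∑_j Φ_ij X_j` -/
noncomputable def linForm {R κ ι : Type} [CommRing R] [Fintype ι] (Φ : κ → ι → R) (i : κ) :
    MvPolynomial ι R := ∑ j, C (Φ i j) * X j

theorem sym_exists_basis {K V : Type} [Field K] [AddCommGroup V] [Module K V] {κ : Type} (Φ : κ → V)
    (h : LinearIndependent K Φ) :
    ∃ (τ : Type) (b : Module.Basis (κ ⊕ τ) K V), ∀ i, b (Sum.inl i) = Φ i := by
  refine ⟨_, Module.Basis.sumExtend h, fun i => ?_⟩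
  simp only [Module.Basis.sumExtend, Module.Basis.coe_reindex, Equiv.symm_symm,
    Function.comp_apply, Module.Basis.coe_extend]
  erw [Equiv.trans_apply, Equiv.sumCongr_apply, Sum.map_inl, Equiv.Set.sumDiffSubset_apply_inl]
  rfl

theorem sym_field {K : Type} [Field K] {κ ι : Type} [Fintype ι] (Φ : κ → ι → K)
    (h : LinearIndependent K Φ) :
    ∃ (τ : Type) (_ : Finite τ) (ψ : MvPolynomial ι K →ₐ[K] MvPolynomial τ K),
      Function.Surjective ψ ∧ RingHom.ker ψ = Ideal.span (Set.range (linForm Φ)) := by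
  classical
  obtain ⟨τ, b, hbl⟩ := sym_exists_basis Φ h
  have : Finite (κ ⊕ τ) := Module.Finite.finite_basis b
  have : Finite κ := Finite.of_injective (Sum.inl : κ → κ ⊕ τ) Sum.inl_injective
  have : Finite τ :=
    Finite.of_injective (Sum.inr : _ → κ ⊕ τ) Sum.inr_injective
  let : Fintype τ := Fintype.ofFinite _
  let : Fintype κ := Fintype.ofFinite κ
  let e : ι → (ι → K) := fun j => Pi.single j 1
  let ψ : MvPolynomial ι K →ₐ[K] MvPolynomial τ K :=
    aeval (fun j => ∑ t : τ, C (b.repr (e j) (Sum.inr t)) * X t)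
  let θ : MvPolynomial τ K →ₐ[K] MvPolynomial ι K :=
    aeval (fun t => ∑ j : ι, C (b (Sum.inr t) j) * X j)
  -- ψ of a linear form
  have hψ : ∀ v : ι → K, ψ (∑ j, C (v j) * X j) = ∑ t : τ, C (b.repr v (Sum.inr t)) * X t := by
    intro v
    have hv : v = ∑ j, v j • e j := by
      funext k
      simp [e, Pi.single_apply]
    have h2 : ∀ t : τ, b.repr v (Sum.inr t) = ∑ j, v j * b.repr (e j) (Sum.inr t) := by
      intro t
      conv_lhs => rw [hv]
      simp [map_sum, Finsupp.finsetSum_apply]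
    simp only [ψ, map_sum, map_mul, aeval_X, algHom_C, MvPolynomial.algebraMap_eq]
    simp_rw [Finset.mul_sum, h2, map_sum, Finset.sum_mul, map_mul]
    rw [Finset.sum_comm]
    simp [mul_assoc]
  have hψθ : ∀ x, ψ (θ x) = x := by
    intro x
    have : (ψ.comp θ) = AlgHom.id K _ := by
      apply MvPolynomial.algHom_ext
      intro t
      simp only [AlgHom.comp_apply, θ, aeval_X, AlgHom.id_apply]
      rw [hψ]
      simp [Finsupp.single_apply, Finset.sum_ite_eq]
    exact DFunLike.congr_fun this x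
  refine ⟨τ, inferInstance, ψ, fun y => ⟨θ y, hψθ y⟩, ?_⟩
  set I := Ideal.span (Set.range (linForm Φ)) with hI
  apply le_antisymm
  · -- θ ψ x ≡ x mod I
    intro x hx
    have key : ((Ideal.Quotient.mkₐ K I).comp (θ.comp ψ)) = Ideal.Quotient.mkₐ K I := by
      apply MvPolynomial.algHom_ext
      intro j
      simp only [AlgHom.comp_apply, Ideal.Quotient.mkₐ_eq_mk]
      rw [Ideal.Quotient.eq]
      have h3 : (X j : MvPolynomial ι K) = ∑ s, C (b.repr (e j) s) * ∑ k, C (b s k) * X k := by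
        have h4 : ∀ k, e j k = ∑ s, b.repr (e j) s * b s k := by
          intro k
          have := congrFun (b.sum_repr (e j)) k
          rw [← this]
          simp
        have h5 : (X j : MvPolynomial ι K) = ∑ k, C (e j k) * X k := by
          simp [e, Pi.single_apply]
        rw [h5]
        simp_rw [h4, map_sum, Finset.sum_mul, Finset.mul_sum, map_mul]
        rw [Finset.sum_comm]
        simp [mul_assoc]
      have h6 : θ (ψ (X j)) = ∑ t : τ, C (b.repr (e j) (Sum.inr t)) *
          ∑ k, C (b (Sum.inr t) k) * X k := by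
        simp [ψ, θ, MvPolynomial.algebraMap_eq]
      have h9 : θ (ψ (X j)) - X j = -∑ i : κ, C (b.repr (e j) (Sum.inl i)) * linForm Φ i := by
        rw [h6, h3, Fintype.sum_sum_type]
        simp only [linForm, hbl]
        ring
      rw [h9]
      apply I.neg_mem
      apply I.sum_mem
      intro i _
      apply I.mul_mem_left
      exact Ideal.subset_span ⟨i, rfl⟩
    have h7 := DFunLike.congr_fun key x
    simp only [AlgHom.comp_apply, Ideal.Quotient.mkₐ_eq_mk] at h7
    have h8 : ψ x = 0 := hx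
    rw [h8, map_zero, map_zero] at h7
    exact Ideal.Quotient.eq_zero_iff_mem.mp h7.symm
  · rw [hI, Ideal.span_le]
    rintro _ ⟨i, rfl⟩
    show ψ (linForm Φ i) = 0
    rw [linForm, hψ]
    apply Finset.sum_eq_zero
    intro t _
    rw [← hbl i]
    simp

theorem sym_map_span {R S : Type} [CommRing R] [CommRing S] {κ ι : Type} [Fintype ι]
    (g : R →+* S) (Φ : κ → ι → R) :
    (Ideal.span (Set.range (linForm Φ))).map (MvPolynomial.map (σ := ι) g) =
      Ideal.span (Set.range (linForm (fun i j => g (Φ i j)))) := by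
  rw [Ideal.map_span, ← Set.range_comp]
  congr 2
  funext i
  simp [linForm]

theorem sym_linearIndependent_frac {D K : Type} [CommRing D] [IsDomain D] [Field K] [Algebra D K]
    [IsFractionRing D K] {κ ι : Type} [Fintype ι] (Φ : κ → ι → D)
    (h : LinearIndependent D Φ) :
    LinearIndependent K (fun i j => algebraMap D K (Φ i j)) := by
  rw [← LinearIndependent.iff_fractionRing (R := D)]
  let g : (ι → D) →ₗ[D] (ι → K) := (Algebra.linearMap D K).compLeft ι
  have hg : Function.Injective g := by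
    intro x y hxy
    funext j
    exact IsFractionRing.injective D K (congrFun hxy j)
  exact h.map' g (LinearMap.ker_eq_bot.mpr hg)

theorem sym_isPrime_field {K : Type} [Field K] {κ ι : Type} [Fintype ι] (Φ : κ → ι → K)
    (h : LinearIndependent K Φ) : (Ideal.span (Set.range (linForm Φ))).IsPrime := by
  obtain ⟨τ, _, ψ, -, hker⟩ := sym_field Φ h
  rw [← hker]
  exact RingHom.ker_isPrime _

attribute [local instance] algebraMvPolynomial in
theorem sym_prime_domain {D : Type} [CommRing D] [IsDomain D] {κ ι : Type} [Fintype ι]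
    (Φ : κ → ι → D) (h : LinearIndependent D Φ)
    (hsat : ∀ a : D, a ≠ 0 → ∀ b, C a * b ∈ Ideal.span (Set.range (linForm Φ)) →
      b ∈ Ideal.span (Set.range (linForm Φ))) :
    (Ideal.span (Set.range (linForm Φ))).IsPrime := by
  have hP := sym_isPrime_field _ (sym_linearIndependent_frac (K := FractionRing D) Φ h)
  rw [← sym_map_span (algebraMap D (FractionRing D)) Φ] at hP
  have hloc : IsLocalization ((nonZeroDivisors D).map (C (σ := ι)))
    (MvPolynomial ι (FractionRing D)) := inferInstance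
  have hcomap : Ideal.comap (MvPolynomial.map (σ := ι) (algebraMap D (FractionRing D)))
      ((Ideal.span (Set.range (linForm Φ))).map
        (MvPolynomial.map (σ := ι) (algebraMap D (FractionRing D)))) =
      Ideal.span (Set.range (linForm Φ)) := by
    apply le_antisymm
    · intro x hx
      rw [Ideal.mem_comap] at hx
      have := (IsLocalization.algebraMap_mem_map_algebraMap_iff
        ((nonZeroDivisors D).map (C (σ := ι))) (MvPolynomial ι (FractionRing D))
        (Ideal.span (Set.range (linForm Φ))) x).mp hx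
      obtain ⟨m, ⟨a, ha, rfl⟩, hm⟩ := this
      exact hsat a (nonZeroDivisors.ne_zero ha) x hm
    · exact Ideal.le_comap_map
  rw [← hcomap]
  exact hP.comap _

theorem sym_prime_of_sat {R : Type} [CommRing R] {κ ι : Type} [Fintype ι] (Φ : κ → ι → R)
    (P : Ideal R) [P.IsPrime]
    (h : LinearIndependent (R ⧸ P) (fun i j => Ideal.Quotient.mk P (Φ i j)))
    (hsat : ∀ a, a ∉ P → ∀ b, C a * b ∈ Ideal.span (Set.range (linForm Φ)) ⊔ P.map C →
      b ∈ Ideal.span (Set.range (linForm Φ)) ⊔ P.map C) :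
    (Ideal.span (Set.range (linForm Φ)) ⊔ P.map C).IsPrime := by
  set π : MvPolynomial ι R →+* MvPolynomial ι (R ⧸ P) := MvPolynomial.map (Ideal.Quotient.mk P)
    with hπ
  have hsurj : Function.Surjective π := MvPolynomial.map_surjective _ Ideal.Quotient.mk_surjective
  have hker : RingHom.ker π = P.map C := by
    rw [hπ, MvPolynomial.ker_map, Ideal.mk_ker]
  set J := Ideal.span (Set.range (linForm Φ)) ⊔ P.map C with hJ
  have hmap : Ideal.map π J = Ideal.span (Set.range
      (linForm (fun i j => Ideal.Quotient.mk P (Φ i j)))) := by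
    have h0 : Ideal.map π (RingHom.ker π) = ⊥ := (Ideal.map_eq_bot_iff_le_ker π).mpr le_rfl
    rw [hJ, Ideal.map_sup, ← hker, h0, sup_bot_eq, hπ, sym_map_span]
  have hcomap : Ideal.comap π (Ideal.map π J) = J := by
    rw [Ideal.comap_map_of_surjective π hsurj]
    apply sup_eq_left.mpr
    rw [show Ideal.comap π ⊥ = RingHom.ker π from rfl, hker]
    exact le_sup_right
  have hprime : (Ideal.map π J).IsPrime := by
    rw [hmap]
    apply sym_prime_domain _ h
    intro a ha b hab
    obtain ⟨a, rfl⟩ := Ideal.Quotient.mk_surjective a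
    obtain ⟨b, rfl⟩ := hsurj b
    rw [← hmap] at hab ⊢
    have h1 : C a * b ∈ J := by
      rw [← hcomap, Ideal.mem_comap, map_mul]
      simpa [hπ] using hab
    have ha' : a ∉ P := fun hh => ha (Ideal.Quotient.eq_zero_iff_mem.mpr hh)
    have h2 := hsat a ha' b h1
    rw [← hcomap, Ideal.mem_comap] at h2
    exact h2
  rw [← hcomap]
  exact hprime.comap _

/-- the condition `F_2`: where the rank drops by `r ≥ 1` the height is at least `r + 2` -/
def CondF2 {R : Type} [CommRing R] {d : ℕ} {ι : Type} (Φ : Fin d → ι → R) : Prop :=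
  ∀ P : Ideal R, P.IsPrime → ∀ r : ℕ, 1 ≤ r →
    (∀ T : Finset (Fin d), LinearIndependent (R ⧸ P) (fun (i : T) (j : ι) =>
      Ideal.Quotient.mk P (Φ i j)) → T.card + r ≤ d) → ((r + 2 : ℕ) : ℕ∞) ≤ P.height


theorem sym_cm_equiv {τ : Type} [Finite τ] {A : Type} [CommRing A] (e : A ≃+* MvPolynomial τ ℂ)
    (f : ℕ → A) (c : ℕ)
    (hf : ∀ i ≤ c, ∀ P : Ideal A, P.IsPrime → (∀ j < i, f j ∈ P) → (i : ℕ∞) ≤ P.height)
    (a : A)
    (ha : ∀ P : Ideal A, P.IsPrime → (∀ j < c, f j ∈ P) →
      a ∈ P → ((c + 1 : ℕ) : ℕ∞) ≤ P.height)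
    (b : A) (hab : a * b ∈ Ideal.span (f '' {j | j < c})) :
    b ∈ Ideal.span (f '' {j | j < c}) := by
  have hspan : Ideal.span ((fun j => e (f j)) '' {j | j < c}) =
      Ideal.map (e : A →+* MvPolynomial τ ℂ) (Ideal.span (f '' {j | j < c})) := by
    rw [Ideal.map_span, Set.image_image]
    rfl
  have hmem : ∀ x, e x ∈ Ideal.span ((fun j => e (f j)) '' {j | j < c}) ↔
      x ∈ Ideal.span (f '' {j | j < c}) := by
    intro x
    rw [hspan]
    constructor
    · intro hx
      have := (Ideal.mem_map_iff_of_surjective (e : A →+* MvPolynomial τ ℂ) e.surjective).mp hx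
      obtain ⟨y, hy, hxy⟩ := this
      have : y = x := e.injective hxy
      rwa [← this]
    · intro hx
      exact Ideal.mem_map_of_mem (e : A →+* MvPolynomial τ ℂ) hx
  rw [← hmem]
  apply mem_span_of_mul_mem_span (fun j => e (f j)) c ?_ (e a) ?_ (e b)
  · rw [← map_mul, hmem]
    exact hab
  · intro i hi P hP hj
    have h1 := hf i hi (P.comap e) (hP.comap _) (fun j hji => hj j hji)
    rwa [RingEquiv.height_comap] at h1
  · intro P hP hj haP
    have h1 := ha (P.comap e) (hP.comap _) (fun j hji => hj j hji) haP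
    rwa [RingEquiv.height_comap] at h1

/-- `mem_span_of_mul_mem_span` for polynomial rings over polynomial rings -/
theorem sym_cm {σ ι : Type} [Finite σ] [Finite ι] (f : ℕ → MvPolynomial ι (MvPolynomial σ ℂ))
    (c : ℕ)
    (hf : ∀ i ≤ c, ∀ P : Ideal (MvPolynomial ι (MvPolynomial σ ℂ)), P.IsPrime →
      (∀ j < i, f j ∈ P) → (i : ℕ∞) ≤ P.height)
    (a : MvPolynomial ι (MvPolynomial σ ℂ))
    (ha : ∀ P : Ideal (MvPolynomial ι (MvPolynomial σ ℂ)), P.IsPrime → (∀ j < c, f j ∈ P) →
      a ∈ P → ((c + 1 : ℕ) : ℕ∞) ≤ P.height)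
    (b : MvPolynomial ι (MvPolynomial σ ℂ)) (hab : a * b ∈ Ideal.span (f '' {j | j < c})) :
    b ∈ Ideal.span (f '' {j | j < c}) :=
  sym_cm_equiv (MvPolynomial.sumAlgEquiv ℂ ι σ).symm.toRingEquiv f c hf a ha b hab

theorem sym_height {R : Type} [CommRing R] [IsDomain R] [IsNoetherianRing R] {d : ℕ} {ι : Type}
    [Fintype ι] (Φ : Fin d → ι → R) (h : CondF2 Φ) (Q : Ideal (MvPolynomial ι R)) [Q.IsPrime]
    (i : ℕ) (hi : i ≤ d) (hQ : ∀ j : Fin d, (j : ℕ) < i → linForm Φ j ∈ Q) :
    (Q.comap (C : R →+* MvPolynomial ι R)).height + i ≤ Q.height ∨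
      ((i + 2 : ℕ) : ℕ∞) ≤ Q.height := by
  classical
  set P := Q.comap (C : R →+* MvPolynomial ι R) with hP
  have hPp : P.IsPrime := Ideal.IsPrime.comap _
  let S : Finset (Finset (Fin d)) := Finset.univ.filter (fun T =>
    LinearIndependent (R ⧸ P) (fun (i : T) (j : ι) => Ideal.Quotient.mk P (Φ i j)))
  have hS0 : (∅ : Finset (Fin d)) ∈ S := by
    simp only [S, Finset.mem_filter, Finset.mem_univ, true_and]
    exact linearIndependent_empty_type
  obtain ⟨T, hTS, hTmax⟩ := Finset.exists_max_image S Finset.card ⟨∅, hS0⟩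
  have hTli : LinearIndependent (R ⧸ P) (fun (i : T) (j : ι) => Ideal.Quotient.mk P (Φ i j)) := by
    simpa [S] using hTS
  -- the part of T below i
  let T' := T.filter (fun j : Fin d => (j : ℕ) < i)
  have hT'li : LinearIndependent (R ⧸ P)
      (fun (i : T') (j : ι) => Ideal.Quotient.mk P (Φ i j)) := by
    have hsub : T' ⊆ T := Finset.filter_subset _ _
    exact hTli.comp (fun x : T' => (⟨x.1, hsub x.2⟩ : T)) (by
      intro x y hxy
      exact Subtype.ext (congrArg (fun z : T => z.1) hxy))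
  have hT'Q : ∀ j ∈ T', ∑ k, C (Φ j k) * X k ∈ Q := by
    intro j hj
    exact hQ j (Finset.mem_filter.mp hj).2
  have hht := height_add_card_le Φ Q T' hT'li hT'Q
  have hcard : T.card ≤ T'.card + (d - i) := by
    have h1 : T'.card + (T.filter (fun j : Fin d => ¬ (j : ℕ) < i)).card = T.card :=
      Finset.card_filter_add_card_filter_not _
    have h2 : (T.filter (fun j : Fin d => ¬ (j : ℕ) < i)).card ≤ d - i := by
      have h3 : (T.filter (fun j : Fin d => ¬ (j : ℕ) < i)).card ≤ (Finset.Ico i d).card := by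
        apply Finset.card_le_card_of_injOn (fun j : Fin d => (j : ℕ))
        · intro j hj
          have := (Finset.mem_filter.mp hj).2
          simp only [Finset.coe_Ico, Set.mem_Ico]
          exact ⟨not_lt.mp this, j.2⟩
        · intro x _ y _ hxy
          exact Fin.ext hxy
      simpa using h3
    omega
  by_cases hTd : T.card = d
  · left
    have h4 : i ≤ T'.card := by omega
    calc P.height + i ≤ P.height + T'.card := by gcongr
      _ ≤ Q.height := hht
  · right
    have hTle : T.card ≤ d := by simpa using T.card_le_univ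
    have hr := h P hPp (d - T.card) (by omega) (by
      intro U hU
      have := hTmax U (by simpa [S] using hU)
      omega)
    calc ((i + 2 : ℕ) : ℕ∞) ≤ (((d - T.card + 2) + T'.card : ℕ) : ℕ∞) := by
          apply Nat.cast_le.mpr; omega
      _ = ((d - T.card + 2 : ℕ) : ℕ∞) + (T'.card : ℕ∞) := by push_cast; rfl
      _ ≤ P.height + T'.card := by gcongr
      _ ≤ Q.height := hht

/-- the rows are independent modulo a prime of height at most one -/
theorem sym_li {R : Type} [CommRing R] {d : ℕ} {ι : Type}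
    (Φ : Fin d → ι → R) (h : CondF2 Φ) (P : Ideal R) [hP : P.IsPrime] (h1 : P.height ≤ 1) :
    LinearIndependent (R ⧸ P) (fun i j => Ideal.Quotient.mk P (Φ i j)) := by
  by_contra hcon
  have h3 := h P hP 1 le_rfl (by
    intro T hT
    by_contra hlt
    have hTle : T.card ≤ d := by simpa using T.card_le_univ
    have hTc : T.card = Fintype.card (Fin d) := by simp; omega
    have hTu : T = Finset.univ := Finset.eq_univ_of_card T hTc
    subst hTu
    apply hcon
    exact hT.comp (fun x : Fin d => (⟨x, Finset.mem_univ x⟩ : (Finset.univ : Finset (Fin d))))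
      (by intro x y hxy; simpa using hxy))
  have h5 : ((1 + 2 : ℕ) : ℕ∞) ≤ 1 := h3.trans h1
  exact absurd (Nat.cast_le.mp (h5 : ((1 + 2 : ℕ) : ℕ∞) ≤ ((1 : ℕ) : ℕ∞))) (by norm_num)

section main
variable {σ : Type} [Fintype σ] {d : ℕ} {ι : Type} [Fintype ι] (Φ : Fin d → ι → MvPolynomial σ ℂ)

/-- the sequence of linear forms, followed by `p` -/
noncomputable def symSeq (p : MvPolynomial σ ℂ) (j : ℕ) : MvPolynomial ι (MvPolynomial σ ℂ) :=
  if h : j < d then linForm Φ ⟨j, h⟩ else C p

omit [Fintype σ] in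
theorem symSeq_image_d (p : MvPolynomial σ ℂ) :
    symSeq Φ p '' {j | j < d} = Set.range (linForm Φ) := by
  ext x
  constructor
  · rintro ⟨j, hj, rfl⟩
    have hj' : j < d := hj
    exact ⟨⟨j, hj'⟩, by simp [symSeq, hj']⟩
  · rintro ⟨j, rfl⟩
    exact ⟨j, j.2, by simp [symSeq]⟩

omit [Fintype σ] in
theorem symSeq_image_succ (p : MvPolynomial σ ℂ) :
    Ideal.span (symSeq Φ p '' {j | j < d + 1}) =
      Ideal.span (Set.range (linForm Φ)) ⊔ (Ideal.span {p}).map C := by
  have h1 : {j | j < d + 1} = {j | j < d} ∪ {d} := by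
    ext j
    simp only [Set.mem_ofPred_eq, Set.union_singleton, Set.mem_insert_iff]
    omega
  have h2 : symSeq Φ p d = C p := by simp [symSeq]
  rw [h1, Set.image_union, Set.image_singleton, Ideal.span_union, symSeq_image_d, h2,
    Ideal.map_span, Set.image_singleton]

omit [Fintype σ] in
theorem sym_seq_mem {p : MvPolynomial σ ℂ} {Q : Ideal (MvPolynomial ι (MvPolynomial σ ℂ))}
    {i : ℕ} (hQ : ∀ j < i, symSeq Φ p j ∈ Q) (j : Fin d) (hj : (j : ℕ) < i) :
    linForm Φ j ∈ Q := by
  have := hQ j hj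
  simpa [symSeq] using this

theorem sym_h1 (h : CondF2 Φ) (Q : Ideal (MvPolynomial ι (MvPolynomial σ ℂ))) [Q.IsPrime]
    (i : ℕ) (hi : i ≤ d) (hQ : ∀ j : Fin d, (j : ℕ) < i → linForm Φ j ∈ Q) :
    (i : ℕ∞) ≤ Q.height := by
  rcases sym_height Φ h Q i hi hQ with h1 | h1
  · exact le_trans le_add_self h1
  · exact le_trans (Nat.cast_le.mpr (by omega)) h1

theorem sym_h2 (h : CondF2 Φ) (Q : Ideal (MvPolynomial ι (MvPolynomial σ ℂ))) [Q.IsPrime]
    (hQ : ∀ j : Fin d, linForm Φ j ∈ Q) (a : MvPolynomial σ ℂ) (ha : a ≠ 0) (haQ : C a ∈ Q) :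
    ((d + 1 : ℕ) : ℕ∞) ≤ Q.height := by
  rcases sym_height Φ h Q d le_rfl (fun j _ => hQ j) with h1 | h1
  · have h2 : (⊥ : Ideal (MvPolynomial σ ℂ)) < Q.comap C := by
      apply bot_lt_iff_ne_bot.mpr
      intro h3
      exact ha (Ideal.mem_bot.mp (h3 ▸ (show a ∈ Q.comap C from haQ)))
    have h3 := Ideal.height_add_one_le_of_lt_of_isPrime h2
    have h4 : (1 : ℕ∞) ≤ (Q.comap C).height := le_trans le_add_self h3
    calc ((d + 1 : ℕ) : ℕ∞) = 1 + (d : ℕ∞) := by push_cast; ring
      _ ≤ (Q.comap C).height + d := by gcongr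
      _ ≤ Q.height := h1
  · exact le_trans (Nat.cast_le.mpr (by omega)) h1

theorem sym_h3 (h : CondF2 Φ) (Q : Ideal (MvPolynomial ι (MvPolynomial σ ℂ))) [Q.IsPrime]
    (hQ : ∀ j : Fin d, linForm Φ j ∈ Q) (p : MvPolynomial σ ℂ) (hp : Prime p) (hpQ : C p ∈ Q)
    (a : MvPolynomial σ ℂ) (ha : a ∉ Ideal.span {p}) (haQ : C a ∈ Q) :
    ((d + 1 + 1 : ℕ) : ℕ∞) ≤ Q.height := by
  rcases sym_height Φ h Q d le_rfl (fun j _ => hQ j) with h1 | h1
  · have hpp : (Ideal.span {p}).IsPrime := (Ideal.span_singleton_prime hp.ne_zero).mpr hp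
    have h2 : (⊥ : Ideal (MvPolynomial σ ℂ)) < Ideal.span {p} := by
      apply bot_lt_iff_ne_bot.mpr
      intro h3
      exact hp.ne_zero (Ideal.span_singleton_eq_bot.mp h3)
    have h2' : Ideal.span {p} < Q.comap C := by
      refine lt_of_le_of_ne ?_ ?_
      · rw [Ideal.span_singleton_le_iff_mem]
        exact hpQ
      · intro h3
        exact ha (h3 ▸ (show a ∈ Q.comap C from haQ))
    have h3 := Ideal.height_add_one_le_of_lt_of_isPrime h2
    have h3' := Ideal.height_add_one_le_of_lt_of_isPrime h2'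
    have h4 : (1 : ℕ∞) ≤ (Ideal.span {p}).height := le_trans le_add_self h3
    calc ((d + 1 + 1 : ℕ) : ℕ∞) = (1 + 1) + (d : ℕ∞) := by push_cast; ring
      _ ≤ ((Ideal.span {p}).height + 1) + d := by gcongr
      _ ≤ (Q.comap C).height + d := by gcongr
      _ ≤ Q.height := h1
  · exact le_trans (Nat.cast_le.mpr (by omega)) h1

theorem sym_satA (h : CondF2 Φ) (a : MvPolynomial σ ℂ) (ha : a ≠ 0)
    (b : MvPolynomial ι (MvPolynomial σ ℂ))
    (hab : C a * b ∈ Ideal.span (Set.range (linForm Φ))) :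
    b ∈ Ideal.span (Set.range (linForm Φ)) := by
  rw [← symSeq_image_d Φ 0] at hab ⊢
  apply sym_cm (symSeq Φ 0) d ?_ (C a) ?_ b hab
  · intro i hi P hP hj
    exact sym_h1 Φ h P i hi (sym_seq_mem Φ hj)
  · intro P hP hj haP
    exact sym_h2 Φ h P (fun j => sym_seq_mem Φ hj j j.2) a ha haP

theorem sym_satB (h : CondF2 Φ) (p : MvPolynomial σ ℂ) (hp : Prime p)
    (a : MvPolynomial σ ℂ) (ha : a ∉ Ideal.span {p})
    (b : MvPolynomial ι (MvPolynomial σ ℂ))
    (hab : C a * b ∈ Ideal.span (Set.range (linForm Φ)) ⊔ (Ideal.span {p}).map C) :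
    b ∈ Ideal.span (Set.range (linForm Φ)) ⊔ (Ideal.span {p}).map C := by
  rw [← symSeq_image_succ Φ p] at hab ⊢
  have hlast : ∀ (Q : Ideal (MvPolynomial ι (MvPolynomial σ ℂ))),
      (∀ j < d + 1, symSeq Φ p j ∈ Q) → C p ∈ Q := by
    intro Q hQ
    have := hQ d (by omega)
    simpa [symSeq] using this
  apply sym_cm (symSeq Φ p) (d + 1) ?_ (C a) ?_ b hab
  · intro i hi P hP hj
    rcases Nat.lt_or_ge d i with hdi | hdi
    · have hid : i = d + 1 := by omega
      subst hid
      exact sym_h2 Φ h P (fun j => sym_seq_mem Φ hj j (by omega)) p hp.ne_zero (hlast P hj)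
    · exact sym_h1 Φ h P i hdi (sym_seq_mem Φ hj)
  · intro P hP hj haP
    exact sym_h3 Φ h P (fun j => sym_seq_mem Φ hj j (by omega)) p hp (hlast P hj) a ha haP

end main

theorem isPrime_span_linForm {σ : Type} [Fintype σ] {d : ℕ} {ι : Type} [Fintype ι]
    (Φ : Fin d → ι → MvPolynomial σ ℂ) (h : CondF2 Φ) :
    (Ideal.span (Set.range (linForm Φ))).IsPrime := by
  have h0 : (⊥ : Ideal (MvPolynomial σ ℂ)).height ≤ 1 := by simp
  have := sym_prime_of_sat Φ ⊥ (sym_li Φ h ⊥ h0) (by
    intro a ha b hab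
    rw [Ideal.map_bot, sup_bot_eq] at hab ⊢
    exact sym_satA Φ h a (by simpa using ha) b hab)
  rwa [Ideal.map_bot, sup_bot_eq] at this

theorem sym_isPrime_sup {σ : Type} [Fintype σ] {d : ℕ} {ι : Type} [Fintype ι]
    (Φ : Fin d → ι → MvPolynomial σ ℂ) (h : CondF2 Φ) (p : MvPolynomial σ ℂ) (hp : Prime p) :
    (Ideal.span (Set.range (linForm Φ)) ⊔ (Ideal.span {p}).map C).IsPrime := by
  have hpp : (Ideal.span {p}).IsPrime := (Ideal.span_singleton_prime hp.ne_zero).mpr hp
  have h1 : (Ideal.span {p}).height ≤ 1 := by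
    apply Ideal.height_le_one_of_isPrincipal_of_mem_minimalPrimes (Ideal.span {p})
    rw [Ideal.minimalPrimes_eq_subsingleton_self]
    rfl
  exact sym_prime_of_sat Φ _ (sym_li Φ h _ h1) (fun a ha b hab => sym_satB Φ h p hp a ha b hab)

theorem sym_prime_mk {σ : Type} [Fintype σ] {d : ℕ} {ι : Type} [Fintype ι]
    (Φ : Fin d → ι → MvPolynomial σ ℂ) (h : CondF2 Φ) (a : MvPolynomial σ ℂ) (ha : a ≠ 0) :
    Ideal.Quotient.mk (Ideal.span (Set.range (linForm Φ))) (C a) ≠ 0 := by
  intro h0
  have h1 := Ideal.Quotient.eq_zero_iff_mem.mp h0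
  have h2 := sym_satA Φ h a ha 1 (by simpa using h1)
  exact (isPrime_span_linForm Φ h).ne_top ((Ideal.eq_top_iff_one _).mpr h2)

theorem sym_prime {σ : Type} [Fintype σ] {d : ℕ} {ι : Type} [Fintype ι]
    (Φ : Fin d → ι → MvPolynomial σ ℂ) (h : CondF2 Φ) (p : MvPolynomial σ ℂ) (hp : Prime p) :
    Prime (Ideal.Quotient.mk (Ideal.span (Set.range (linForm Φ))) (C p)) := by
  rw [← Ideal.span_singleton_prime (sym_prime_mk Φ h p hp.ne_zero)]
  have h1 := sym_isPrime_sup Φ h p hp
  have h2 : Ideal.span {Ideal.Quotient.mk (Ideal.span (Set.range (linForm Φ))) (C p)} =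
      (Ideal.span (Set.range (linForm Φ)) ⊔ (Ideal.span {p}).map C).map
        (Ideal.Quotient.mk (Ideal.span (Set.range (linForm Φ)))) := by
    rw [Ideal.map_sup, Ideal.map_quotient_self, bot_sup_eq, Ideal.map_span, Ideal.map_span,
      Set.image_singleton, Set.image_singleton]
  rw [h2]
  apply Ideal.map_isPrime_of_surjective Ideal.Quotient.mk_surjective
  rw [Ideal.mk_ker]
  exact le_sup_left

attribute [local instance] algebraMvPolynomial in
theorem ufd_quotient_linForm {σ : Type} [Fintype σ] {d : ℕ} {ι : Type} [Fintype ι]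
    (Φ : Fin d → ι → MvPolynomial σ ℂ) (h : CondF2 Φ)
    [IsDomain (MvPolynomial ι (MvPolynomial σ ℂ) ⧸ Ideal.span (Set.range (linForm Φ)))] :
    UniqueFactorizationMonoid
      (MvPolynomial ι (MvPolynomial σ ℂ) ⧸ Ideal.span (Set.range (linForm Φ))) := by
  have h0 : (⊥ : Ideal (MvPolynomial σ ℂ)).height ≤ 1 := by simp
  have hli : LinearIndependent (MvPolynomial σ ℂ) Φ := by
    have h1 := sym_li Φ h ⊥ h0
    rw [Fintype.linearIndependent_iff] at h1 ⊢
    intro g hg i
    have h2 := h1 (fun i => Ideal.Quotient.mk ⊥ (g i)) (by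
      funext j
      have h3 := congrFun hg j
      simp only [Finset.sum_apply, Pi.smul_apply, smul_eq_mul, Pi.zero_apply] at h3 ⊢
      rw [← map_zero (Ideal.Quotient.mk ⊥), ← h3, map_sum]
      simp) i
    exact Ideal.mem_bot.mp (Ideal.Quotient.eq_zero_iff_mem.mp h2)
  set I := Ideal.span (Set.range (linForm Φ)) with hI
  obtain ⟨τ, _, ψ, hψs, hker⟩ := sym_field _
    (sym_linearIndependent_frac (K := FractionRing (MvPolynomial σ ℂ)) Φ hli)
  let φ : MvPolynomial ι (MvPolynomial σ ℂ) →+* MvPolynomial ι (FractionRing (MvPolynomial σ ℂ)) :=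
    algebraMap _ _
  have hkerI : RingHom.ker ψ = I.map φ := by
    rw [hker, ← sym_map_span]
    rfl
  let g : (MvPolynomial ι (MvPolynomial σ ℂ) ⧸ I) →+*
      MvPolynomial τ (FractionRing (MvPolynomial σ ℂ)) :=
    Ideal.Quotient.lift I (ψ.toRingHom.comp φ) (by
      intro x hx
      have : φ x ∈ RingHom.ker ψ := by
        rw [hkerI]
        exact Ideal.mem_map_of_mem _ hx
      exact this)
  let : Algebra (MvPolynomial ι (MvPolynomial σ ℂ) ⧸ I)
      (MvPolynomial τ (FractionRing (MvPolynomial σ ℂ))) := g.toAlgebra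
  have hloc : IsLocalization (((nonZeroDivisors (MvPolynomial σ ℂ)).map (C (σ := ι))).map
      (Ideal.Quotient.mk I)) (MvPolynomial τ (FractionRing (MvPolynomial σ ℂ))) := by
    apply IsLocalization.of_surjective ((nonZeroDivisors (MvPolynomial σ ℂ)).map (C (σ := ι)))
      (MvPolynomial ι (FractionRing (MvPolynomial σ ℂ))) (Ideal.Quotient.mk I)
      Ideal.Quotient.mk_surjective ψ.toRingHom hψs
    · rfl
    · rw [Ideal.mk_ker]
      exact hkerI.le
  have hnoeth : IsNoetherianRing (MvPolynomial ι (MvPolynomial σ ℂ)) := inferInstance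
  have hnoeth' : IsNoetherianRing (MvPolynomial ι (MvPolynomial σ ℂ) ⧸ I) := inferInstance
  have hwf : WfDvdMonoid (MvPolynomial ι (MvPolynomial σ ℂ) ⧸ I) := IsNoetherianRing.wfDvdMonoid
  apply nagata (T := MvPolynomial τ (FractionRing (MvPolynomial σ ℂ)))
    (((nonZeroDivisors (MvPolynomial σ ℂ)).map (C (σ := ι))).map (Ideal.Quotient.mk I))
  · rintro ⟨_, ⟨a, ha, rfl⟩, hm⟩
    exact sym_prime_mk Φ h a (nonZeroDivisors.ne_zero ha) hm
  · rintro _ ⟨_, ⟨a, ha, rfl⟩, rfl⟩
    obtain ⟨s, hs, hsa⟩ := UniqueFactorizationMonoid.exists_prime_factors a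
      (nonZeroDivisors.ne_zero ha)
    refine ⟨s.map ((Ideal.Quotient.mk I).comp C), ?_, ?_⟩
    · intro q hq
      obtain ⟨p, hp, rfl⟩ := Multiset.mem_map.mp hq
      exact sym_prime Φ h p (hs p hp)
    · rw [Multiset.prod_hom]
      exact hsa.map ((Ideal.Quotient.mk I).comp C)

end Pool.Agent.Lib.MP_462b8b_ag
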