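import Pool.Agent.Lib.MP_462b8b_ag.Defs
import Pool.Agent.Lib.MP_462b8b_ag.Lie
import Pool.Agent.Lib.MP_462b8b_ag.SymUFD
import Mathlib

/-!
The coordinate ring of the zero fibre of the moment map on `V × V*` is a factorial domain.
-/

open Matrix MvPolynomial AlgebraicGeometry TensorProduct

namespace Pool.Agent.Lib.MP_462b8b_ag

namespace CoordAux

/-! ### Linear independence can be tested at a point -/

/-- Independent rows over a field have a right inverse. -/
theorem exists_right_inverse {T ι : Type} [Fintype T] [Fintype ι] [DecidableEq T]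
    [DecidableEq ι] (A : T → ι → ℂ) (hA : LinearIndependent ℂ A) :
    ∃ B : ι → T → ℂ, ∀ s t, ∑ j, A s j * B j t = if s = t then 1 else 0 := by
  have hinj : LinearMap.ker (Fintype.linearCombination ℂ A) = ⊥ := by
    rw [LinearMap.ker_eq_bot']
    intro c hc
    have := Fintype.linearIndependent_iff.mp hA c (by simpa [Fintype.linearCombination_apply] using hc)
    funext i
    exact this i
  obtain ⟨g, hg⟩ := LinearMap.exists_leftInverse_of_injective _ hinj
  refine ⟨fun j t => g (Pi.single j 1) t, fun s t => ?_⟩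
  have h1 : g (A s) = Pi.single s 1 := by
    have h2 : Fintype.linearCombination ℂ A (Pi.single s 1) = A s := by
      rw [Fintype.linearCombination_apply_single, one_smul]
    have h3 := LinearMap.congr_fun hg (Pi.single s 1)
    rw [LinearMap.comp_apply, h2, LinearMap.id_apply] at h3
    exact h3
  have h4 : A s = ∑ j, A s j • (Pi.single j (1 : ℂ) : ι → ℂ) := by
    funext k
    rw [Finset.sum_apply]
    simp [Pi.single_apply]
  have h5 : ∑ j, A s j * g (Pi.single j 1) t = g (A s) t := by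
    conv_rhs => rw [h4]
    rw [map_sum, Finset.sum_apply]
    refine Finset.sum_congr rfl fun j _ => ?_
    rw [map_smul, Pi.smul_apply, smul_eq_mul]
  rw [h5, h1, Pi.single_apply]
  by_cases hst : s = t
  · subst hst; simp
  · rw [if_neg hst, if_neg (Ne.symm hst)]

/-- Rows of functions that are independent at a point are independent. -/
theorem li_of_eval {S : Type} [CommRing S] [IsDomain S] [Algebra ℂ S] (φ : S →ₐ[ℂ] ℂ)
    {T ι : Type} [Fintype T] [Fintype ι] [DecidableEq T] [DecidableEq ι]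
    (Ψ : T → ι → S) (h : LinearIndependent ℂ (fun i j => φ (Ψ i j))) :
    LinearIndependent S Ψ := by
  obtain ⟨B, hB⟩ := exists_right_inverse _ h
  rw [Fintype.linearIndependent_iff]
  intro c hc
  let A : Matrix T T S := Matrix.of fun s t => ∑ j, Ψ s j * algebraMap ℂ S (B j t)
  have hA : Matrix.vecMul c A = 0 := by
    funext t
    have h1 : ∀ j, ∑ s, c s * Ψ s j = 0 := by
      intro j
      have := congrFun hc j
      rw [Finset.sum_apply] at this
      simpa [smul_eq_mul] using this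
    show ∑ s, c s * ∑ j, Ψ s j * algebraMap ℂ S (B j t) = 0
    simp_rw [Finset.mul_sum]
    rw [Finset.sum_comm]
    refine Finset.sum_eq_zero fun j _ => ?_
    have h2 : ∀ s, c s * (Ψ s j * algebraMap ℂ S (B j t)) =
        (c s * Ψ s j) * algebraMap ℂ S (B j t) := fun s => by ring
    simp_rw [h2]
    rw [← Finset.sum_mul, h1, zero_mul]
  have hdet : φ A.det = 1 := by
    have h1 : φ A.det = (φ.toRingHom.mapMatrix A).det := by
      rw [← RingHom.map_det]
      rfl
    rw [h1]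
    have h2 : φ.toRingHom.mapMatrix A = 1 := by
      ext s t
      rw [RingHom.mapMatrix_apply, Matrix.map_apply]
      show φ (∑ j, Ψ s j * algebraMap ℂ S (B j t)) = _
      rw [map_sum, Matrix.one_apply]
      rw [← hB s t]
      refine Finset.sum_congr rfl fun j _ => ?_
      rw [map_mul, AlgHom.commutes]
      rfl
    rw [h2, Matrix.det_one]
  have hdet0 : A.det ≠ 0 := by
    intro h0
    rw [h0, map_zero] at hdet
    exact zero_ne_one hdet
  have h3 := Matrix.eq_zero_of_vecMul_eq_zero hdet0 hA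
  intro i
  exact congrFun h3 i

end CoordAux

open CoordAux

section coord
variable {n : Type} [Fintype n] [DecidableEq n] {G : Subgroup (GL n ℂ)}
variable {ι : Type} [Fintype ι] [DecidableEq ι]

namespace CoordAux

/-- The matrix of linear forms `(L(X_i) v)_j`. -/
noncomputable def coordPhi {d : ℕ} (M : Fin d → Matrix ι ι ℂ) (i : Fin d) (j : ι) :
    MvPolynomial ι ℂ := ∑ k, C (M i j k) * X k

omit [DecidableEq ι] in
theorem aeval_coordPhi {d : ℕ} (M : Fin d → Matrix ι ι ℂ) (v : ι → ℂ) (i : Fin d) (j : ι) :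
    aeval v (coordPhi M i j) = (M i *ᵥ v) j := by
  simp [coordPhi, Matrix.mulVec, dotProduct]

theorem algDim_eq {𝔤 : Submodule ℂ (Matrix n n ℂ)} {H : Subgroup (GL n ℂ)}
    (h : (𝔤 : Set (Matrix n n ℂ)) = lieSet H) : algDim H = Module.finrank ℂ 𝔤 := by
  unfold algDim
  rw [← h, Submodule.span_eq]

/-- Rank and nullity at `v`. -/
theorem exists_rank (𝔤 : Submodule ℂ (Matrix n n ℂ)) (h𝔤 : (𝔤 : Set (Matrix n n ℂ)) = lieSet G)
    (ρ : RatRep G ι) (L : Matrix n n ℂ →ₗ[ℂ] Matrix ι ι ℂ)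
    (hL : ∀ X (hX : X ∈ lieSet G), ρ.diff hX = L X) {d : ℕ}
    (b : Module.Basis (Fin d) ℂ 𝔤) (v : ι → ℂ) :
    algDim (ρ.stab v) ≤ d ∧ ∃ T : Finset (Fin d),
      LinearIndependent ℂ (fun (i : T) (j : ι) => (L (b i) *ᵥ v) j) ∧
      T.card + algDim (ρ.stab v) = d := by
  classical
  let f : 𝔤 →ₗ[ℂ] (ι → ℂ) :=
    { toFun := fun X => L X *ᵥ v
      map_add' := fun X Y => by simp [Matrix.add_mulVec]
      map_smul' := fun c X => by simp [Matrix.smul_mulVec] }
  have hd : Module.finrank ℂ 𝔤 = d := by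
    rw [Module.finrank_eq_card_basis b, Fintype.card_fin]
  have hker : algDim (ρ.stab v) = Module.finrank ℂ (LinearMap.ker f) := by
    have h1 : (((LinearMap.ker f).map 𝔤.subtype : Submodule ℂ (Matrix n n ℂ)) :
        Set (Matrix n n ℂ)) = lieSet (ρ.stab v) := by
      ext X
      rw [mem_lieSet_stab]
      constructor
      · rintro ⟨Y, hY, rfl⟩
        have hYG : (Y : Matrix n n ℂ) ∈ lieSet G := by rw [← h𝔤]; exact Y.2
        refine ⟨hYG, ?_⟩
        have h2 : ρ.diff hYG *ᵥ v = L (Y : Matrix n n ℂ) *ᵥ v := by rw [hL _ hYG]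
        exact h2.trans hY
      · rintro ⟨hX, hX'⟩
        have hX2 : X ∈ 𝔤 := by
          have : X ∈ (𝔤 : Set (Matrix n n ℂ)) := by rw [h𝔤]; exact hX
          exact this
        refine ⟨⟨X, hX2⟩, ?_, rfl⟩
        rw [hL _ hX] at hX'
        exact hX'
    rw [algDim_eq h1]
    exact (Submodule.equivMapOfInjective 𝔤.subtype 𝔤.injective_subtype
      (LinearMap.ker f)).finrank_eq.symm
  have hrn := LinearMap.finrank_range_add_finrank_ker f
  rw [hd, ← hker] at hrn
  refine ⟨by omega, ?_⟩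
  obtain ⟨κ, a, ha, hsp, hli⟩ := exists_linearIndependent' ℂ (fun i => f (b i))
  have : Finite κ := Finite.of_injective a ha
  have : Fintype κ := Fintype.ofFinite κ
  have hrange : Submodule.span ℂ (Set.range (fun i => f (b i))) = LinearMap.range f := by
    have h1 : (fun i => f (b i)) = f ∘ b := rfl
    rw [h1, Set.range_comp, Submodule.span_image, b.span_eq, LinearMap.range_eq_map]
  have hcard : Fintype.card κ = Module.finrank ℂ (LinearMap.range f) := by
    rw [← hrange, ← hsp, finrank_span_eq_card hli]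
  refine ⟨Finset.univ.image a, ?_, ?_⟩
  · have h2 : LinearIndependent ℂ (fun i : Set.range a => f (b i)) := by
      have h3 : (fun i : Set.range a => f (b i)) ∘ (Equiv.ofInjective a ha) =
          (fun i => f (b i)) ∘ a := rfl
      rw [← h3] at hli
      exact (linearIndependent_equiv (Equiv.ofInjective a ha)).mp hli
    have e : ((Finset.univ.image a : Finset (Fin d)) : Set (Fin d)) = Set.range a := by simp
    have h4 : LinearIndependent ℂ
        (fun i : ((Finset.univ.image a : Finset (Fin d)) : Set (Fin d)) => f (b i)) := by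
      rw [e]; exact h2
    exact h4
  · rw [Finset.card_image_of_injective _ ha, Finset.card_univ, hcard]
    exact hrn

theorem condF2_coordPhi (𝔤 : Submodule ℂ (Matrix n n ℂ))
    (h𝔤 : (𝔤 : Set (Matrix n n ℂ)) = lieSet G)
    (ρ : RatRep G ι) (L : Matrix n n ℂ →ₗ[ℂ] Matrix ι ι ℂ)
    (hL : ∀ X (hX : X ∈ lieSet G), ρ.diff hX = L X) {d : ℕ} (b : Module.Basis (Fin d) ℂ 𝔤)
    (h : ∀ r, 1 ≤ r → r ≤ algDim G → CodimGE {v | algDim (ρ.stab v) = r} (r + 2)) :
    CondF2 (coordPhi (fun i => L (b i))) := by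
  classical
  have hd : algDim G = d := by
    rw [algDim_eq h𝔤, Module.finrank_eq_card_basis b, Fintype.card_fin]
  intro P hP r hr hT
  -- points of the zero locus
  have hpt : ∀ v ∈ zeroLocus ℂ P, ∃ r' ∈ Finset.Icc r d, algDim (ρ.stab v) = r' := by
    intro v hv
    obtain ⟨h1, T, hT1, hT2⟩ := exists_rank 𝔤 h𝔤 ρ L hL b v
    refine ⟨_, ?_, rfl⟩
    rw [Finset.mem_Icc]
    refine ⟨?_, h1⟩
    let φ : (MvPolynomial ι ℂ ⧸ P) →ₐ[ℂ] ℂ := Ideal.Quotient.liftₐ P (aeval v) (fun p hp => hv p hp)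
    have h2 : LinearIndependent (MvPolynomial ι ℂ ⧸ P) (fun (i : T) (j : ι) =>
        Ideal.Quotient.mk P (coordPhi (fun i => L (b i)) i j)) := by
      refine li_of_eval φ _ ?_
      have h3 : (fun (i : T) (j : ι) =>
          φ (Ideal.Quotient.mk P (coordPhi (fun i => L (b i)) i j))) =
          fun (i : T) (j : ι) => (L (b i) *ᵥ v) j := by
        funext i j
        have h4 : φ (Ideal.Quotient.mk P (coordPhi (fun i => L (b i)) i j)) =
            aeval v (coordPhi (fun i => L (b i)) i j) := rfl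
        rw [h4, aeval_coordPhi]
      rw [h3]
      exact hT1
    have h5 := hT T h2
    omega
  have hinf : (Finset.Icc r d).inf
      (fun r' => vanishingIdeal ℂ {v : ι → ℂ | algDim (ρ.stab v) = r'}) ≤ P := by
    rw [← MvPolynomial.IsPrime.vanishingIdeal_zeroLocus (K := ℂ) P]
    intro p hp v hv
    obtain ⟨r', hr', hv'⟩ := hpt v hv
    have h7 : (Finset.Icc r d).inf
        (fun r' => vanishingIdeal ℂ {v : ι → ℂ | algDim (ρ.stab v) = r'}) ≤
        vanishingIdeal ℂ {v : ι → ℂ | algDim (ρ.stab v) = r'} := Finset.inf_le hr'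
    exact h7 hp v hv'
  obtain ⟨r', hr', hle⟩ := (Ideal.IsPrime.inf_le' hP).mp hinf
  rw [Finset.mem_Icc] at hr'
  have h6 := h r' (by omega) (by omega)
  unfold CodimGE at h6
  refine le_trans ?_ (h6.trans (Ideal.height_mono hle))
  exact_mod_cast (by omega : r + 2 ≤ r' + 2)

/-- The isomorphism of polynomial rings: outer variables are the coordinates of `l`. -/
noncomputable def coordE (ι : Type) :
    MvPolynomial ι (MvPolynomial ι ℂ) ≃ₐ[ℂ] MvPolynomial (ι ⊕ ι) ℂ :=
  (sumAlgEquiv ℂ ι ι).symm.trans (renameEquiv ℂ (Equiv.sumComm ι ι))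

omit [Fintype ι] [DecidableEq ι] in
theorem aeval_coordE (v l : ι → ℂ) (p : MvPolynomial ι (MvPolynomial ι ℂ)) :
    aeval (Sum.elim v l) (coordE ι p) = eval₂ (aeval v : MvPolynomial ι ℂ →ₐ[ℂ] ℂ).toRingHom l p := by
  have h1 : ((aeval (Sum.elim v l) : MvPolynomial (ι ⊕ ι) ℂ →ₐ[ℂ] ℂ).toRingHom.comp
      (coordE ι : MvPolynomial ι (MvPolynomial ι ℂ) ≃ₐ[ℂ] _).toAlgHom.toRingHom) =
      eval₂Hom (aeval v : MvPolynomial ι ℂ →ₐ[ℂ] ℂ).toRingHom l := by
    refine MvPolynomial.ringHom_ext' ?_ ?_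
    · refine MvPolynomial.ringHom_ext' ?_ ?_
      · ext c
        simp [coordE]
      · intro i
        simp [coordE]
    · intro i
      simp [coordE]
  exact RingHom.congr_fun h1 p

omit [DecidableEq ι] in
theorem aeval_coordE_linForm {d : ℕ} (M : Fin d → Matrix ι ι ℂ) (v l : ι → ℂ) (i : Fin d) :
    aeval (Sum.elim v l) (coordE ι (linForm (coordPhi M) i)) = l ⬝ᵥ (M i *ᵥ v) := by
  rw [aeval_coordE]
  unfold linForm
  rw [eval₂_sum]
  unfold dotProduct
  refine Finset.sum_congr rfl fun j _ => ?_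
  rw [eval₂_mul, eval₂_C, eval₂_X]
  have : (aeval v : MvPolynomial ι ℂ →ₐ[ℂ] ℂ).toRingHom (coordPhi M i j) =
      aeval v (coordPhi M i j) := rfl
  rw [this, aeval_coordPhi, mul_comm]

theorem mem_fibre_iff (𝔤 : Submodule ℂ (Matrix n n ℂ))
    (h𝔤 : (𝔤 : Set (Matrix n n ℂ)) = lieSet G)
    (ρ : RatRep G ι) (L : Matrix n n ℂ →ₗ[ℂ] Matrix ι ι ℂ)
    (hL : ∀ X (hX : X ∈ lieSet G), ρ.diff hX = L X) {d : ℕ} (b : Module.Basis (Fin d) ℂ 𝔤)
    (u : ι ⊕ ι → ℂ) : u ∈ ρ.cotangentZeroFibre ↔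
      ∀ i, (fun j => u (Sum.inr j)) ⬝ᵥ (L (b i) *ᵥ (fun j => u (Sum.inl j))) = 0 := by
  constructor
  · intro hu i
    have hbi : ((b i : 𝔤) : Matrix n n ℂ) ∈ lieSet G := by rw [← h𝔤]; exact (b i).2
    have := hu _ hbi
    rw [hL _ hbi] at this
    exact this
  · intro hu X hX
    rw [hL _ hX]
    have hX2 : X ∈ 𝔤 := by
      have : X ∈ (𝔤 : Set (Matrix n n ℂ)) := by rw [h𝔤]; exact hX
      exact this
    let f : 𝔤 →ₗ[ℂ] ℂ :=
      { toFun := fun X => (fun j => u (Sum.inr j)) ⬝ᵥ (L X *ᵥ (fun j => u (Sum.inl j)))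
        map_add' := fun X Y => by simp [Matrix.add_mulVec, dotProduct_add]
        map_smul' := fun c X => by simp [Matrix.smul_mulVec, dotProduct_smul] }
    have hf : f = 0 := b.ext fun i => by
      rw [LinearMap.zero_apply]
      exact hu i
    have := LinearMap.congr_fun hf ⟨X, hX2⟩
    exact this

/-- The coordinate ring as a quotient. -/
theorem exists_equiv (𝔤 : Submodule ℂ (Matrix n n ℂ))
    (h𝔤 : (𝔤 : Set (Matrix n n ℂ)) = lieSet G)
    (ρ : RatRep G ι) (L : Matrix n n ℂ →ₗ[ℂ] Matrix ι ι ℂ)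
    (hL : ∀ X (hX : X ∈ lieSet G), ρ.diff hX = L X) {d : ℕ} (b : Module.Basis (Fin d) ℂ 𝔤)
    (hI : (Ideal.span (Set.range (linForm (coordPhi (fun i => L (b i)))))).IsPrime) :
    Nonempty ((MvPolynomial ι (MvPolynomial ι ℂ) ⧸
      Ideal.span (Set.range (linForm (coordPhi (fun i => L (b i)))))) ≃+*
        polyFun ρ.cotangentZeroFibre) := by
  set I := Ideal.span (Set.range (linForm (coordPhi (fun i => L (b i))))) with hIdef
  let J : Ideal (MvPolynomial (ι ⊕ ι) ℂ) := I.comap (coordE ι).symm.toAlgHom.toRingHom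
  have hJ : J.IsPrime := Ideal.IsPrime.comap _
  have hmemJ : ∀ p, p ∈ J ↔ (coordE ι).symm p ∈ I := fun p => Iff.rfl
  -- the zero locus of `J`
  have hzero : ∀ u : ι ⊕ ι → ℂ, u ∈ ρ.cotangentZeroFibre ↔ u ∈ zeroLocus ℂ J := by
    intro u
    rw [mem_fibre_iff 𝔤 h𝔤 ρ L hL b u]
    have hu : u = Sum.elim (fun j => u (Sum.inl j)) (fun j => u (Sum.inr j)) := by
      funext j; rcases j with j | j <;> rfl
    constructor
    · intro h p hp
      rw [hmemJ] at hp
      have h1 : I ≤ RingHom.ker ((aeval u : MvPolynomial (ι ⊕ ι) ℂ →ₐ[ℂ] ℂ).toRingHom.comp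
          (coordE ι).toAlgHom.toRingHom) := by
        rw [hIdef, Ideal.span_le]
        rintro _ ⟨i, rfl⟩
        show aeval u (coordE ι (linForm (coordPhi (fun i => L (b i))) i)) = 0
        rw [hu, aeval_coordE_linForm]
        exact h i
      have h2 : aeval u (coordE ι ((coordE ι).symm p)) = 0 := h1 hp
      rw [AlgEquiv.apply_symm_apply] at h2
      exact h2
    · intro h i
      have h1 : coordE ι (linForm (coordPhi (fun i => L (b i))) i) ∈ J := by
        rw [hmemJ, AlgEquiv.symm_apply_apply]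
        exact Ideal.subset_span ⟨i, rfl⟩
      have h2 := h _ h1
      rw [hu, aeval_coordE_linForm] at h2
      exact h2
  let F : MvPolynomial (ι ⊕ ι) ℂ →ₐ[ℂ] (ρ.cotangentZeroFibre → ℂ) :=
    aeval (fun i (y : ρ.cotangentZeroFibre) => y.1 i)
  have hF : ∀ p y, F p y = aeval y.1 p := by
    intro p y
    have h1 : (Pi.evalAlgHom ℂ (fun _ : ρ.cotangentZeroFibre => ℂ) y).comp F =
        (aeval y.1 : MvPolynomial (ι ⊕ ι) ℂ →ₐ[ℂ] ℂ) := by
      refine MvPolynomial.algHom_ext fun i => ?_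
      simp [F]
    exact AlgHom.congr_fun h1 p
  have hkerF : RingHom.ker F.toRingHom = J := by
    rw [← MvPolynomial.IsPrime.vanishingIdeal_zeroLocus (K := ℂ) J]
    ext p
    rw [RingHom.mem_ker, mem_vanishingIdeal_iff]
    constructor
    · intro hp u hu
      have hp' : F p = 0 := hp
      have h1 := congrFun hp' ⟨u, (hzero u).mpr hu⟩
      rw [hF] at h1
      exact h1
    · intro hp
      show F p = 0
      funext y
      rw [hF]
      exact hp y.1 ((hzero y.1).mp y.2)
  have hJmap : J = I.map ((coordE ι).toRingEquiv :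
      MvPolynomial ι (MvPolynomial ι ℂ) →+* MvPolynomial (ι ⊕ ι) ℂ) := by
    rw [Ideal.map_comap_of_equiv]
    rfl
  let e1 : (MvPolynomial ι (MvPolynomial ι ℂ) ⧸ I) ≃+* (MvPolynomial (ι ⊕ ι) ℂ ⧸ J) :=
    Ideal.quotientEquiv I J (coordE ι).toRingEquiv hJmap
  let e2 : (MvPolynomial (ι ⊕ ι) ℂ ⧸ J) ≃+* (MvPolynomial (ι ⊕ ι) ℂ ⧸ RingHom.ker F.toRingHom) :=
    Ideal.quotEquivOfEq hkerF.symm
  let e3 : (MvPolynomial (ι ⊕ ι) ℂ ⧸ RingHom.ker F.toRingHom) ≃+* F.toRingHom.range :=
    RingHom.quotientKerEquivRange F.toRingHom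
  exact ⟨(e1.trans e2).trans e3⟩

end CoordAux

theorem isDomain_coord (hG : IsAlgGroup G) (ρ : RatRep G ι)
    (h : ∀ r, 1 ≤ r → r ≤ algDim G → CodimGE {v | algDim (ρ.stab v) = r} (r + 2)) :
    IsDomain (polyFun ρ.cotangentZeroFibre) := by
  obtain ⟨𝔤, h𝔤⟩ := exists_lieSubmodule hG
  obtain ⟨L, hL⟩ := exists_diff_linear hG ρ
  let b := Module.finBasis ℂ 𝔤
  have hF2 := condF2_coordPhi 𝔤 h𝔤 ρ L hL b h
  have hI := isPrime_span_linForm _ hF2
  obtain ⟨e⟩ := exists_equiv 𝔤 h𝔤 ρ L hL b hI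
  have : IsDomain (MvPolynomial ι (MvPolynomial ι ℂ) ⧸
      Ideal.span (Set.range (linForm (coordPhi (fun i => L (b i)))))) :=
    Ideal.Quotient.isDomain _
  exact e.symm.toMulEquiv.isDomain _

theorem ufd_coord (hG : IsAlgGroup G) (ρ : RatRep G ι)
    (h : ∀ r, 1 ≤ r → r ≤ algDim G → CodimGE {v | algDim (ρ.stab v) = r} (r + 2))
    [IsDomain (polyFun ρ.cotangentZeroFibre)] :
    UniqueFactorizationMonoid (polyFun ρ.cotangentZeroFibre) := by
  obtain ⟨𝔤, h𝔤⟩ := exists_lieSubmodule hG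
  obtain ⟨L, hL⟩ := exists_diff_linear hG ρ
  let b := Module.finBasis ℂ 𝔤
  have hF2 := condF2_coordPhi 𝔤 h𝔤 ρ L hL b h
  have hI := isPrime_span_linForm _ hF2
  obtain ⟨e⟩ := exists_equiv 𝔤 h𝔤 ρ L hL b hI
  have : IsDomain (MvPolynomial ι (MvPolynomial ι ℂ) ⧸
      Ideal.span (Set.range (linForm (coordPhi (fun i => L (b i)))))) :=
    Ideal.Quotient.isDomain _
  have := ufd_quotient_linForm _ hF2
  exact e.toMulEquiv.uniqueFactorizationMonoid this

end coord

end Pool.Agent.Lib.MP_462b8b_ag
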