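import Mathlib

/-!
# Powers of the maximal ideal from a valuation
-/

namespace Pool.Agent.Lib.MP_462b8b_ag

theorem exists_power_of_val {O : Type} [CommRing O] [IsDomain O] [IsLocalRing O]
    [IsIntegrallyClosed O] (v : O → ℕ)
    (hmul : ∀ a b, a ≠ 0 → b ≠ 0 → v (a * b) = v a + v b)
    (hunit : ∀ a, a ≠ 0 → (v a = 0 ↔ IsUnit a)) (n : ℕ) (hn : 1 ≤ n) (φ : O) (hφ0 : φ ≠ 0)
    (hφ : v φ = n) (hdiv : ∀ (j : ℕ) (γ : O), γ ≠ 0 → j * n ≤ v γ → φ ^ j ∣ γ) :
    ∃ N : ℕ, 1 ≤ N ∧ ∀ γ : O, γ ≠ 0 → (γ ∈ IsLocalRing.maximalIdeal O ^ N ↔ n ≤ v γ) := by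
  classical
  have hv1 : v 1 = 0 := (hunit 1 one_ne_zero).2 isUnit_one
  have hpow : ∀ a : O, a ≠ 0 → ∀ k : ℕ, v (a ^ k) = k * v a := by
    intro a ha k
    induction k with
    | zero => simp [hv1]
    | succ k ih => rw [pow_succ, hmul _ _ (pow_ne_zero _ ha) ha, ih]; ring
  have hφn : ¬ IsUnit φ := fun h => by
    have := (hunit φ hφ0).2 h
    omega
  -- an element of minimal positive value
  have hex : ∃ e : ℕ, ∃ a : O, a ≠ 0 ∧ ¬ IsUnit a ∧ v a = e := ⟨n, φ, hφ0, hφn, hφ⟩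
  obtain ⟨π, hπ0, hπn, hπe⟩ := Nat.find_spec hex
  set e : ℕ := Nat.find hex with he
  have hmin : ∀ a : O, a ≠ 0 → ¬ IsUnit a → e ≤ v a := fun a ha hna =>
    Nat.find_min' hex ⟨a, ha, hna, rfl⟩
  have he1 : 1 ≤ e := by
    by_contra h
    have h0 : v π = 0 := by omega
    exact hπn ((hunit π hπ0).1 h0)
  have hdvd : ∀ (j : ℕ) (γ : O), γ ≠ 0 → v γ = j * n → ∃ u : O, IsUnit u ∧ γ = φ ^ j * u := by
    intro j γ hγ hv
    obtain ⟨c, hc⟩ := hdiv j γ hγ hv.ge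
    have hc0 : c ≠ 0 := by
      rintro rfl
      exact hγ (by rw [hc, mul_zero])
    refine ⟨c, (hunit c hc0).1 ?_, hc⟩
    have h1 : v γ = j * v φ + v c := by
      rw [hc, hmul _ _ (pow_ne_zero _ hφ0) hc0, hpow φ hφ0]
    rw [hφ] at h1
    omega
  have hstruct : ∀ γ : O, γ ≠ 0 → ∃ (q : ℕ) (δ : O), IsUnit δ ∧ γ = π ^ q * δ ∧ v γ = q * e := by
    intro γ hγ
    obtain ⟨u1, hu1, h1⟩ := hdvd (v γ) (γ ^ n) (pow_ne_zero _ hγ) (by
      rw [hpow γ hγ]; ring)
    obtain ⟨u2, hu2, h2⟩ := hdvd (v γ / e * e) ((π ^ (v γ / e)) ^ n)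
      (pow_ne_zero _ (pow_ne_zero _ hπ0)) (by
        rw [hpow _ (pow_ne_zero _ hπ0), hpow _ hπ0, hπe]; ring)
    have hle : v γ / e * e ≤ v γ := Nat.div_mul_le_self _ _
    have h3 : (π ^ (v γ / e)) ^ n ∣ γ ^ n := by
      rw [h1, h2]
      have h4 : φ ^ (v γ / e * e) * u2 ∣ φ ^ (v γ / e * e) :=
        (hu2.mul_right_dvd).2 dvd_rfl
      exact h4.trans ((pow_dvd_pow _ hle).trans (dvd_mul_right _ _))
    have h5 : π ^ (v γ / e) ∣ γ := (IsIntegrallyClosed.pow_dvd_pow_iff (by omega)).1 h3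
    obtain ⟨δ, hδ⟩ := h5
    have hδ0 : δ ≠ 0 := by
      rintro rfl
      exact hγ (by rw [hδ, mul_zero])
    have h6 : v γ = v γ / e * e + v δ := by
      conv_lhs => rw [hδ, hmul _ _ (pow_ne_zero _ hπ0) hδ0, hpow π hπ0, hπe]
    have h7 : v γ % e < e := Nat.mod_lt _ he1
    have h8 : v δ = v γ % e := by
      have := Nat.div_add_mod (v γ) e
      rw [mul_comm] at this
      omega
    have h9 : IsUnit δ := by
      by_contra hno
      have := hmin δ hδ0 hno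
      omega
    refine ⟨v γ / e, δ, h9, hδ, ?_⟩
    have h10 := (hunit δ hδ0).2 h9
    omega
  have hmax : IsLocalRing.maximalIdeal O = Ideal.span {π} := by
    apply le_antisymm
    · intro γ hγ
      rw [Ideal.mem_span_singleton]
      rcases eq_or_ne γ 0 with rfl | hγ0
      · exact dvd_zero _
      · obtain ⟨q, δ, hδ, h1, h2⟩ := hstruct γ hγ0
        have hq : q ≠ 0 := by
          rintro rfl
          have h3 : IsUnit γ := by rw [h1, pow_zero, one_mul]; exact hδ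
          exact (IsLocalRing.mem_maximalIdeal γ).1 hγ h3
        rw [h1]
        exact (dvd_pow_self π hq).trans (dvd_mul_right _ _)
    · rw [Ideal.span_singleton_le_iff_mem, IsLocalRing.mem_maximalIdeal]
      exact hπn
  obtain ⟨N, u, hu, h1, h2⟩ := hstruct φ hφ0
  rw [hφ] at h2
  refine ⟨N, ?_, fun γ hγ => ?_⟩
  · by_contra h
    have : N = 0 := by omega
    rw [this] at h2
    omega
  · rw [hmax, Ideal.span_singleton_pow, Ideal.mem_span_singleton]
    constructor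
    · rintro ⟨c, hc⟩
      have hc0 : c ≠ 0 := by
        rintro rfl
        exact hγ (by rw [hc, mul_zero])
      rw [hc, hmul _ _ (pow_ne_zero _ hπ0) hc0, hpow π hπ0, hπe]
      omega
    · intro hle
      obtain ⟨q, δ, hδ, h3, h4⟩ := hstruct γ hγ
      have hNq : N ≤ q := by
        rw [h2, h4] at hle
        exact Nat.le_of_mul_le_mul_right hle (by omega)
      rw [h3]
      exact (pow_dvd_pow π hNq).trans (dvd_mul_right _ _)

end Pool.Agent.Lib.MP_462b8b_ag
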