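import Pool.Agent.Lib.MP_462b8b_ag.Defs
import Mathlib.RingTheory.KrullDimension.Basic
import Mathlib.RingTheory.Localization.Integral
import Mathlib.RingTheory.PrincipalIdealDomain

/-!
# MP_462b8b_ag, module PROJ

Stalks of `Proj` and `ℚ`-Cartier divisors.
-/

open AlgebraicGeometry CategoryTheory TopologicalSpace Opposite

namespace Pool.Agent.Lib.MP_462b8b_ag

section proj
variable {A : Type} [CommRing A] (𝒜 : ℕ → AddSubgroup A) [GradedRing 𝒜]

open HomogeneousLocalization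

lemma primeCompl_le {x z : ProjectiveSpectrum 𝒜}
    (h : z.asHomogeneousIdeal ≤ x.asHomogeneousIdeal) :
    x.asHomogeneousIdeal.toIdeal.primeCompl ≤ z.asHomogeneousIdeal.toIdeal.primeCompl :=
  fun _ ha hb => ha (h hb)

theorem specializes_iff (x z : Proj 𝒜) :
    (z ⤳ x) ↔ ((show ProjectiveSpectrum 𝒜 from z).asHomogeneousIdeal ≤
      (show ProjectiveSpectrum 𝒜 from x).asHomogeneousIdeal) := by
  rw [ProjectiveSpectrum.as_ideal_le_as_ideal, ProjectiveSpectrum.le_iff_mem_closure]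
  exact specializes_iff_mem_closure

/-- The ring isomorphism of the stalk with the homogeneous localization. -/
noncomputable def psIso (x : Proj 𝒜) : (Proj 𝒜).presheaf.stalk x ≃+*
    AtPrime 𝒜 (show ProjectiveSpectrum 𝒜 from x).asHomogeneousIdeal.toIdeal :=
  Proj.stalkIso' 𝒜 x

theorem psIso_specializes (x z : Proj 𝒜) (h : z ⤳ x) (s : (Proj 𝒜).presheaf.stalk x) :
    psIso 𝒜 z (((Proj 𝒜).presheaf.stalkSpecializes h).hom s) =
      mapId 𝒜 (primeCompl_le 𝒜 ((specializes_iff 𝒜 x z).mp h)) (psIso 𝒜 x s) := by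
  obtain ⟨y, rfl⟩ := (psIso 𝒜 x).symm.surjective s
  rw [RingEquiv.apply_symm_apply]
  obtain ⟨f, rfl⟩ := mk_surjective y
  have h1 : (psIso 𝒜 x).symm (mk f) = (Proj 𝒜).presheaf.germ
      (ProjectiveSpectrum.basicOpen 𝒜 f.den) x (mem_basicOpen_den _ x f)
      (sectionInBasicOpen _ x f) := rfl
  rw [h1]
  have h2 := (Proj 𝒜).presheaf.germ_stalkSpecializes_apply
    (U := ProjectiveSpectrum.basicOpen 𝒜 f.den) (mem_basicOpen_den _ x f) h
    (sectionInBasicOpen _ x f)
  refine (congrArg (psIso 𝒜 z) h2).trans ?_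
  exact Proj.stalkIso'_germ 𝒜 _ z _ (sectionInBasicOpen _ x f)

theorem isPrincipal_comap_equiv {R S : Type} [CommRing R] [CommRing S] (e : R ≃+* S)
    (J : Ideal S) : (Ideal.comap (e : R →+* S) J).IsPrincipal ↔ J.IsPrincipal := by
  constructor
  · rintro ⟨a, ha⟩
    refine ⟨e a, ?_⟩
    have h1 : Ideal.map (e : R →+* S) (Ideal.comap (e : R →+* S) J) = J :=
      Ideal.map_comap_of_surjective _ e.surjective J
    rw [← h1, ha]
    change Ideal.map (e : R →+* S) (Ideal.span {a}) = Ideal.span {e a}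
    rw [Ideal.map_span, Set.image_singleton]
    rfl
  · rintro ⟨a, ha⟩
    refine ⟨e.symm a, ?_⟩
    have h1 : Ideal.comap (e : R →+* S) J = Ideal.map (e.symm : S →+* R) J :=
      (Ideal.map_symm e).symm
    rw [h1, ha]
    change Ideal.map (e.symm : S →+* R) (Ideal.span {a}) = Ideal.span {e.symm a}
    rw [Ideal.map_span, Set.image_singleton]
    rfl

theorem comap_pow_maximalIdeal {R S : Type} [CommRing R] [CommRing S] [IsLocalRing R]
    [IsLocalRing S] (e : R ≃+* S) (N : ℕ) :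
    Ideal.comap (e : R →+* S) (IsLocalRing.maximalIdeal S ^ N) =
      IsLocalRing.maximalIdeal R ^ N := by
  have hm : ∀ I : Ideal S, Ideal.map (e.symm : S →+* R) I = Ideal.comap (e : R →+* S) I :=
    fun I => Ideal.map_symm e
  have h0 : Ideal.comap (e : R →+* S) (IsLocalRing.maximalIdeal S) =
      IsLocalRing.maximalIdeal R :=
    ((IsLocalRing.local_hom_TFAE (e : R →+* S)).out 0 4).mp
      (inferInstance : IsLocalHom (e : R →+* S))
  rw [← hm, Ideal.map_pow, hm, h0]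

theorem divisorsQCartier_Proj_iff : DivisorsQCartier (Proj 𝒜) ↔
    ∀ z : ProjectiveSpectrum 𝒜, ringKrullDim (AtPrime 𝒜 z.asHomogeneousIdeal.toIdeal) = 1 →
      ∃ N : ℕ, 1 ≤ N ∧ ∀ (x : ProjectiveSpectrum 𝒜)
        (h : z.asHomogeneousIdeal ≤ x.asHomogeneousIdeal),
        (Ideal.comap (mapId 𝒜 (primeCompl_le 𝒜 h))
          (IsLocalRing.maximalIdeal (AtPrime 𝒜 z.asHomogeneousIdeal.toIdeal) ^ N)).IsPrincipal := by
  refine forall_congr' fun z => ?_
  refine imp_congr ?_ ?_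
  · rw [ringKrullDim_eq_of_ringEquiv (psIso 𝒜 z)]
  · refine exists_congr fun N => and_congr Iff.rfl ?_
    refine forall_congr' fun x => ?_
    constructor
    · intro H h
      have h' : (show Proj 𝒜 from z) ⤳ (show Proj 𝒜 from x) := (specializes_iff 𝒜 x z).mpr h
      have H1 := H h'
      rw [← comap_pow_maximalIdeal (psIso 𝒜 z) N, Ideal.comap_comap] at H1
      have h3 : ((psIso 𝒜 z : _ →+* _).comp ((Proj 𝒜).presheaf.stalkSpecializes h').hom) =
          (mapId 𝒜 (primeCompl_le 𝒜 h)).comp (psIso 𝒜 x : _ →+* _) :=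
        RingHom.ext fun s => psIso_specializes 𝒜 x z h' s
      rw [h3, ← Ideal.comap_comap, isPrincipal_comap_equiv] at H1
      exact H1
    · intro H h'
      have h := (specializes_iff 𝒜 x z).mp h'
      have H1 := H h
      rw [← comap_pow_maximalIdeal (psIso 𝒜 z) N, Ideal.comap_comap]
      have h3 : ((psIso 𝒜 z : _ →+* _).comp ((Proj 𝒜).presheaf.stalkSpecializes h').hom) =
          (mapId 𝒜 (primeCompl_le 𝒜 h)).comp (psIso 𝒜 x : _ →+* _) :=
        RingHom.ext fun s => psIso_specializes 𝒜 x z h' s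
      rw [h3, ← Ideal.comap_comap, isPrincipal_comap_equiv]
      exact H1

theorem isDomain_atPrime [IsDomain A] (x : ProjectiveSpectrum 𝒜) :
    IsDomain (AtPrime 𝒜 x.asHomogeneousIdeal.toIdeal) := by
  have h1 : IsDomain (Localization x.asHomogeneousIdeal.toIdeal.primeCompl) :=
    IsLocalization.isDomain_localization (Ideal.primeCompl_le_nonZeroDivisors _)
  have h2 := val_injective (𝒜 := 𝒜) x.asHomogeneousIdeal.toIdeal.primeCompl
  exact Function.Injective.isDomain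
    (algebraMap (AtPrime 𝒜 x.asHomogeneousIdeal.toIdeal)
      (Localization x.asHomogeneousIdeal.toIdeal.primeCompl)) h2

theorem preirreducible_Proj [IsDomain A] : PreirreducibleSpace (Proj 𝒜) := by
  by_cases hne : Nonempty (ProjectiveSpectrum 𝒜)
  · obtain ⟨x₀⟩ := hne
    have hirr : ¬ HomogeneousIdeal.irrelevant 𝒜 ≤ ⊥ := fun h =>
      x₀.not_irrelevant_le (h.trans bot_le)
    let η : ProjectiveSpectrum 𝒜 :=
      ⟨⊥, by
        change (⊥ : Ideal A).IsPrime
        exact Ideal.isPrime_bot, hirr⟩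
    have hη : ∀ x : Proj 𝒜, (show Proj 𝒜 from η) ⤳ x := fun x =>
      (specializes_iff 𝒜 x η).mpr bot_le
    refine ⟨?_⟩
    rintro u v hu hv ⟨x, _, hx⟩ ⟨y, _, hy⟩
    exact ⟨η, trivial, (hη x).mem_open hu hx, (hη y).mem_open hv hy⟩
  · refine ⟨?_⟩
    rintro u v hu hv ⟨x, _, hx⟩ _
    exact absurd ⟨x⟩ hne

theorem isQFactorial_Proj_iff [IsDomain A] : IsQFactorial (Proj 𝒜) ↔
    (∀ x : ProjectiveSpectrum 𝒜, IsIntegrallyClosed (AtPrime 𝒜 x.asHomogeneousIdeal.toIdeal)) ∧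
    ∀ z : ProjectiveSpectrum 𝒜, ringKrullDim (AtPrime 𝒜 z.asHomogeneousIdeal.toIdeal) = 1 →
      ∃ N : ℕ, 1 ≤ N ∧ ∀ (x : ProjectiveSpectrum 𝒜)
        (h : z.asHomogeneousIdeal ≤ x.asHomogeneousIdeal),
        (Ideal.comap (mapId 𝒜 (primeCompl_le 𝒜 h))
          (IsLocalRing.maximalIdeal (AtPrime 𝒜 z.asHomogeneousIdeal.toIdeal) ^ N)).IsPrincipal := by
  unfold IsQFactorial
  rw [divisorsQCartier_Proj_iff]
  constructor
  · rintro ⟨_, h2, h3⟩
    refine ⟨fun x => ?_, h3⟩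
    have h := (h2 x).2
    exact IsIntegrallyClosed.of_equiv (psIso 𝒜 x)
  · rintro ⟨h2, h3⟩
    refine ⟨preirreducible_Proj 𝒜, fun x => ⟨?_, ?_⟩, h3⟩
    · have := isDomain_atPrime 𝒜 x
      exact (psIso 𝒜 x).toMulEquiv.isDomain _
    · have := h2 x
      exact IsIntegrallyClosed.of_equiv (psIso 𝒜 x).symm

end proj

end Pool.Agent.Lib.MP_462b8b_ag
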