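import Pool.Agent.Lib.MP_462b8b_ag.Frac
import Pool.Agent.Lib.MP_462b8b_ag.ProjStalk
import Mathlib.RingTheory.UniqueFactorizationDomain.Basic
import Mathlib.RingTheory.IntegralClosure.IntegrallyClosed
import Mathlib.RingTheory.Polynomial.RationalRoot

/-!
The local rings of the GIT quotient are integrally closed.
-/

open Matrix MvPolynomial AlgebraicGeometry HomogeneousLocalization

set_option linter.unusedSectionVars false

namespace Pool.Agent.Lib.MP_462b8b_ag

variable {n : Type} [Fintype n] [DecidableEq n] {G : Subgroup (GL n ℂ)}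
variable {ι : Type} [Fintype ι] [DecidableEq ι] {ρ : RatRep G ι} {N : Set (ι → ℂ)} {θ : G →* ℂˣ}
variable [IsDomain (polyFun N)]

/-- The denominators at `x`. -/
def denM (x : ProjectiveSpectrum (gitGr ρ N θ)) : Submonoid (polyFun N) where
  carrier := {b | ∃ k, Den x k b.1}
  mul_mem' := by
    rintro a b ⟨k, hk⟩ ⟨l, hl⟩
    exact ⟨k + l, hk.mul hl⟩
  one_mem' := ⟨0, Den.one⟩

lemma denM_le (x : ProjectiveSpectrum (gitGr ρ N θ)) : denM x ≤ nonZeroDivisors (polyFun N) := by
  rintro b ⟨k, hk⟩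
  exact mem_nonZeroDivisors_of_ne_zero fun h => hk.ne_zero (congrArg Subtype.val h)

/-- The map of the local ring to the localization of `ℂ[N]`, as a function. -/
noncomputable def toLocF (x : ProjectiveSpectrum (gitGr ρ N θ))
    (γ : AtPrime (gitGr ρ N θ) x.asHomogeneousIdeal.toIdeal) : Localization (denM x) :=
  IsLocalization.mk' (Localization (denM x))
    (⟨(fr_surj γ).choose_spec.choose,
      (fr_surj γ).choose_spec.choose_spec.choose_spec.choose.1⟩ : polyFun N)
    (⟨⟨(fr_surj γ).choose_spec.choose_spec.choose,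
      (fr_surj γ).choose_spec.choose_spec.choose_spec.choose_spec.choose.1.1⟩,
      ⟨_, (fr_surj γ).choose_spec.choose_spec.choose_spec.choose_spec.choose⟩⟩ : denM x)

lemma toLocF_fr (x : ProjectiveSpectrum (gitGr ρ N θ)) {k : ℕ} {a b : N → ℂ}
    (ha : a ∈ semiInv ρ N (θ ^ k)) (hb : Den x k b) :
    toLocF x (fr x k a b ha hb) = IsLocalization.mk' (Localization (denM x))
      (⟨a, ha.1⟩ : polyFun N) (⟨⟨b, hb.1.1⟩, ⟨k, hb⟩⟩ : denM x) := by
  have hs := (fr_surj (fr x k a b ha hb)).choose_spec.choose_spec.choose_spec.choose_spec.choose_spec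
  rw [fr_eq_iff] at hs
  rw [toLocF, IsLocalization.mk'_eq_iff_eq]
  congr 1
  apply Subtype.ext
  change b * _ = _ * a
  rw [mul_comm b, ← hs, mul_comm]

/-- The map of the local ring to the localization of `ℂ[N]`. -/
noncomputable def toLoc (x : ProjectiveSpectrum (gitGr ρ N θ)) :
    AtPrime (gitGr ρ N θ) x.asHomogeneousIdeal.toIdeal →+* Localization (denM x) where
  toFun := toLocF x
  map_one' := by
    rw [← fr_one (Den.one (x := x)), toLocF_fr]
    exact IsLocalization.mk'_one _ (1 : polyFun N) |>.trans (map_one _)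
  map_zero' := by
    have h0 : (0 : N → ℂ) ∈ semiInv ρ N (θ ^ 0) := Submodule.zero_mem _
    have : (0 : AtPrime (gitGr ρ N θ) x.asHomogeneousIdeal.toIdeal) =
      fr x 0 0 1 h0 Den.one := (fr_zero_iff.mpr rfl).symm
    rw [this, toLocF_fr]
    exact IsLocalization.mk'_zero _
  map_mul' α β := by
    obtain ⟨k, a, b, ha, hb, rfl⟩ := fr_surj α
    obtain ⟨l, a', b', ha', hb', rfl⟩ := fr_surj β
    rw [fr_mul, toLocF_fr, toLocF_fr, toLocF_fr, ← IsLocalization.mk'_mul]
    rfl
  map_add' α β := by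
    obtain ⟨k, a, b, ha, hb, rfl⟩ := fr_surj α
    obtain ⟨l, a', b', ha', hb', rfl⟩ := fr_surj β
    have h : b * a' + b' * a ∈ semiInv ρ N (θ ^ (k + l)) := by
      refine Submodule.add_mem _ (semiInv_mul_mem' hb.1 ha') ?_
      rw [add_comm k l]
      exact semiInv_mul_mem' hb'.1 ha
    rw [fr_add h, toLocF_fr, toLocF_fr, toLocF_fr, ← IsLocalization.mk'_add]
    congr 1
    apply Subtype.ext
    change b * a' + b' * a = a * b' + a' * b
    ring

lemma toLoc_fr (x : ProjectiveSpectrum (gitGr ρ N θ)) {k : ℕ} {a b : N → ℂ}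
    (ha : a ∈ semiInv ρ N (θ ^ k)) (hb : Den x k b) :
    toLoc x (fr x k a b ha hb) = IsLocalization.mk' (Localization (denM x))
      (⟨a, ha.1⟩ : polyFun N) (⟨⟨b, hb.1.1⟩, ⟨k, hb⟩⟩ : denM x) := toLocF_fr x ha hb

lemma toLoc_injective (x : ProjectiveSpectrum (gitGr ρ N θ)) : Function.Injective (toLoc x) := by
  rw [injective_iff_map_eq_zero]
  intro γ hγ
  obtain ⟨k, a, b, ha, hb, rfl⟩ := fr_surj γ
  rw [toLoc_fr, IsLocalization.mk'_eq_zero_iff] at hγ
  obtain ⟨m, hm⟩ := hγ
  rw [fr_zero_iff]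
  rcases mul_eq_zero.mp hm with h | h
  · exact absurd (congrArg Subtype.val h) m.2.choose_spec.ne_zero
  · exact congrArg Subtype.val h

theorem isIntegrallyClosed_atPrime [UniqueFactorizationMonoid (polyFun N)]
    (hst : ∀ g : G, ∀ y ∈ N, ρ.toHom g *ᵥ y ∈ N) (x : ProjectiveSpectrum (gitGr ρ N θ)) :
    IsIntegrallyClosed (AtPrime (gitGr ρ N θ) x.asHomogeneousIdeal.toIdeal) := by
  have hdom : IsDomain (AtPrime (gitGr ρ N θ) x.asHomogeneousIdeal.toIdeal) :=
    isDomain_atPrime _ x
  have hdomL : IsDomain (Localization (denM x)) :=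
    IsLocalization.isDomain_localization (denM_le x)
  have hicL : IsIntegrallyClosed (Localization (denM x)) :=
    isIntegrallyClosed_of_isLocalization _ (denM x) (denM_le x)
  set O := AtPrime (gitGr ρ N θ) x.asHomogeneousIdeal.toIdeal
  set L := Localization (denM x)
  rw [isIntegrallyClosed_iff (FractionRing O)]
  intro q hq
  let g : O →+* FractionRing L := (algebraMap L (FractionRing L)).comp (toLoc x)
  have hg : Function.Injective g :=
    (IsFractionRing.injective L (FractionRing L)).comp (toLoc_injective x)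
  let J : FractionRing O →+* FractionRing L := IsFractionRing.lift hg
  have hJ : ∀ o : O, J (algebraMap O (FractionRing O) o) =
      algebraMap L (FractionRing L) (toLoc x o) := fun o => IsFractionRing.lift_algebraMap hg o
  have hint : IsIntegral L (J q) := IsIntegral.map_of_comp_eq (toLoc x) J (by
    ext o
    exact (hJ o).symm) hq
  obtain ⟨t, ht⟩ := (isIntegrallyClosed_iff (FractionRing L)).mp hicL hint
  obtain ⟨β, δ, hδ, rfl⟩ := IsFractionRing.div_surjective (A := O) q
  have hδ0 : δ ≠ 0 := nonZeroDivisors.ne_zero hδ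
  have hrel : toLoc x β = t * toLoc x δ := by
    apply IsFractionRing.injective L (FractionRing L)
    rw [map_mul, ht, map_div₀, hJ, hJ, div_mul_cancel₀]
    rw [← hJ]
    intro h
    exact hδ0 (hg (((hJ δ).symm.trans h).trans (map_zero g).symm))
  obtain ⟨k, a, b, ha, hb, rfl⟩ := fr_surj β
  obtain ⟨l, a', b', ha', hb', rfl⟩ := fr_surj δ
  obtain ⟨c, d, rfl⟩ := IsLocalization.exists_mk'_eq (denM x) t
  obtain ⟨m, hm⟩ := d.2
  rw [toLoc_fr, toLoc_fr, ← IsLocalization.mk'_mul, IsLocalization.mk'_eq_iff_eq] at hrel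
  have hrel2 := IsLocalization.injective L (denM_le x) hrel
  have hrel3 : (d.1.1 * b') * a = b * (c.1 * a') := congrArg Subtype.val hrel2
  have ha'0 : a' ≠ 0 := fun h => hδ0 (fr_zero_iff.mpr h)
  have hp : b * a' ∈ semiInv ρ N (θ ^ (k + l)) := semiInv_mul_mem' hb.1 ha'
  have hp0 : b * a' ≠ 0 := by
    intro h
    rcases polyFun_mul_eq_zero hb.1.1 ha'.1 h with h | h
    · exact hb.ne_zero h
    · exact ha'0 h
  have hc : c.1 ∈ semiInv ρ N (θ ^ m) := by
    refine semiInv_of_mul (χ := θ ^ (k + l)) (ψ := θ ^ m) hst c.2 hp hp0 ?_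
    have e : c.1 * (b * a') = a * b' * d.1.1 := by
      linear_combination -hrel3
    rw [e, ← char_pow_add]
    exact semiInv_mul_mem' (semiInv_mul_mem' ha hb'.1) hm.1
  refine ⟨fr x m c.1 d.1.1 hc hm, ?_⟩
  rw [eq_div_iff, ← map_mul, fr_mul]
  · congr 1
    rw [fr_eq_iff]
    linear_combination -hrel3
  · intro h
    exact hδ0 (IsFractionRing.injective O (FractionRing O) (h.trans (map_zero _).symm))

end Pool.Agent.Lib.MP_462b8b_ag
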