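import Mathlib.RingTheory.UniqueFactorizationDomain.Basic
import Mathlib.Algebra.Ring.Action.Basic
import Mathlib.Algebra.Ring.Action.Group
import Mathlib.Algebra.BigOperators.GroupWithZero.Action

/-!
# MP_462b8b_ag : divisibility by powers of an orbit product
-/

namespace Pool.Agent.Lib.MP_462b8b_ag

/-- a squarefree element all of whose prime factors `p` satisfy `p ^ k ∣ a` -/
theorem orbdiv_pow_dvd {B : Type} [CommRing B] [IsDomain B] [UniqueFactorizationMonoid B] (k : ℕ)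
    (F : B) : F ≠ 0 → ∀ a : B, (∀ p, Prime p → p ∣ F → p ^ k ∣ a) →
      (∀ p, Prime p → p ∣ F → ¬ p ^ 2 ∣ F) → F ^ k ∣ a := by
  refine UniqueFactorizationMonoid.induction_on_prime F ?_ ?_ ?_
  · intro h; exact absurd rfl h
  · intro x hx _ a _ _
    exact (hx.pow k).dvd
  · intro F' p hF' hp ih _ a h1 h2
    obtain ⟨a', ha'⟩ := h1 p hp (Dvd.intro _ rfl)
    have h3 : F' ^ k ∣ a' := by
      refine ih hF' a' ?_ ?_
      · intro q hq hqF
        have h4 : q ^ k ∣ p ^ k * a' := ha' ▸ h1 q hq (dvd_mul_of_dvd_right hqF p)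
        refine hq.pow_dvd_of_dvd_mul_left k ?_ h4
        intro h5
        have h6 : q ∣ p := hq.dvd_of_dvd_pow h5
        have h7 : Associated q p := (hq.dvd_prime_iff_associated hp).1 h6
        refine h2 p hp (Dvd.intro _ rfl) ?_
        rw [pow_two]
        exact mul_dvd_mul_left p (h7.symm.dvd.trans hqF)
      · intro q hq hqF h4
        exact h2 q hq (dvd_mul_of_dvd_right hqF p) (dvd_mul_of_dvd_right h4 p)
    rw [ha', mul_pow]
    exact mul_dvd_mul_left _ h3

theorem pow_dvd_of_orbit {B : Type} [CommRing B] [IsDomain B] [UniqueFactorizationMonoid B]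
    {Γ : Type} [Group Γ] [MulSemiringAction Γ B] (f F a : B) (hf : Prime f) (hF0 : F ≠ 0)
    (hFinv : ∀ g : Γ, Associated (g • F) F) (hF2 : ¬ f ^ 2 ∣ F)
    (hFp : ∀ p, Prime p → p ∣ F → ∃ g : Γ, Associated p (g • f))
    (ha : ∀ g : Γ, Associated (g • a) a) (k : ℕ) (h : f ^ k ∣ a) : F ^ k ∣ a := by
  have hsm : ∀ (g : Γ) (n : ℕ) (x : B), f ^ n ∣ x → (g • f) ^ n ∣ g • x := by
    intro g n x hx
    obtain ⟨y, rfl⟩ := hx
    rw [smul_mul', smul_pow']
    exact Dvd.intro _ rfl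
  refine orbdiv_pow_dvd k F hF0 a ?_ ?_
  · intro p hp hpF
    obtain ⟨g, hg⟩ := hFp p hp hpF
    exact (hg.pow_pow.dvd).trans ((hsm g k a h).trans (ha g).dvd)
  · intro p hp hpF hp2
    obtain ⟨g, hg⟩ := hFp p hp hpF
    refine hF2 ?_
    have h1 : (g • f) ^ 2 ∣ F := hg.symm.pow_pow.dvd.trans hp2
    obtain ⟨y, hy⟩ := h1
    have h2 : f ^ 2 ∣ g⁻¹ • F := by
      rw [hy, smul_mul', smul_pow', inv_smul_smul]
      exact Dvd.intro _ rfl
    exact h2.trans (hFinv g⁻¹).dvd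

end Pool.Agent.Lib.MP_462b8b_ag
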