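import Mathlib.RingTheory.UniqueFactorizationDomain.Basic
import Mathlib.RingTheory.UniqueFactorizationDomain.FactorSet
import Mathlib.Algebra.Ring.Action.Basic
import Mathlib.Algebra.Ring.Action.Group
import Mathlib.Algebra.BigOperators.GroupWithZero.Action
import Mathlib.Data.Set.Finite.Basic

/-!
# MP_462b8b_ag : product over the orbit of a prime in a UFD
-/

namespace Pool.Agent.Lib.MP_462b8b_ag

theorem orbit_smul_associated {B : Type} [CommRing B] {Γ : Type} [Group Γ]
    [MulSemiringAction Γ B] (g : Γ) {x y : B} (h : Associated x y) :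
    Associated (g • x) (g • y) := by
  obtain ⟨u, rfl⟩ := h
  rw [smul_mul']
  exact ⟨Units.map (MulSemiringAction.toRingHom Γ B g : B →* B) u, rfl⟩

theorem orbit_smul_prime {B : Type} [CommRing B] {Γ : Type} [Group Γ]
    [MulSemiringAction Γ B] (g : Γ) {x : B} (h : Prime x) : Prime (g • x) :=
  (MulEquiv.prime_iff (MulSemiringAction.toRingEquiv Γ B g : B ≃* B)).mpr h

theorem exists_orbit_product {B : Type} [CommRing B] [IsDomain B] [UniqueFactorizationMonoid B]
    {Γ : Type} [Group Γ] [MulSemiringAction Γ B] (a : B) (ha : a ≠ 0)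
    (hinv : ∀ g : Γ, Associated (g • a) a) (f : B) (hf : Prime f) (hfa : f ∣ a) :
    ∃ F : B, F ≠ 0 ∧ (∀ g : Γ, Associated (g • F) F) ∧ f ∣ F ∧ ¬ f ^ 2 ∣ F ∧
      ∀ p, Prime p → p ∣ F → ∃ g : Γ, Associated p (g • f) := by
  classical
  set A : Set (Associates B) := {c | ∃ g : Γ, c = Associates.mk (g • f)} with hA
  have hfin : A.Finite := by
    refine Set.Finite.subset
      (((UniqueFactorizationMonoid.factors a).toFinset.image Associates.mk).finite_toSet) ?_
    rintro c ⟨g, rfl⟩
    have h1 : g • f ∣ g • a := by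
      obtain ⟨b, rfl⟩ := hfa
      exact ⟨g • b, smul_mul' g f b⟩
    have h2 : g • f ∣ a := dvd_trans h1 (hinv g).dvd
    obtain ⟨q, hq, hgq⟩ := UniqueFactorizationMonoid.exists_mem_factors_of_dvd ha
      (orbit_smul_prime g hf).irreducible h2
    rw [Finset.mem_coe, Finset.mem_image]
    exact ⟨q, Multiset.mem_toFinset.mpr hq, (Associates.mk_eq_mk_iff_associated.mpr hgq).symm⟩
  set S : Finset (Associates B) := hfin.toFinset with hS
  have hmemS : ∀ c, c ∈ S ↔ ∃ g : Γ, c = Associates.mk (g • f) := by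
    intro c
    rw [hS, Set.Finite.mem_toFinset]
    rfl
  have hmk : ∀ c : Associates B, Associates.mk (Quot.out c) = c := fun c => Quot.out_eq c
  have hout : ∀ g : Γ, Associated (Quot.out (Associates.mk (g • f))) (g • f) := by
    intro g
    rw [← Associates.mk_eq_mk_iff_associated, hmk]
  have hprime : ∀ c ∈ S, Prime (Quot.out c : B) := by
    intro c hc
    obtain ⟨g, rfl⟩ := (hmemS c).mp hc
    exact (hout g).symm.prime (orbit_smul_prime g hf)
  have hfS : Associates.mk f ∈ S := (hmemS _).mpr ⟨1, by rw [one_smul]⟩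
  have hfout : Associated (Quot.out (Associates.mk f)) f := by
    rw [← Associates.mk_eq_mk_iff_associated, hmk]
  refine ⟨∏ c ∈ S, Quot.out c, ?_, ?_, ?_, ?_, ?_⟩
  · exact Finset.prod_ne_zero_iff.mpr fun c hc => (hprime c hc).ne_zero
  · intro g
    rw [← Associates.mk_eq_mk_iff_associated, Finset.smul_prod', ← Associates.finsetProd_mk,
      ← Associates.finsetProd_mk]
    refine Finset.prod_nbij (fun c => Associates.mk (g • (Quot.out c : B))) ?_ ?_ ?_ ?_
    · intro c hc
      obtain ⟨h, rfl⟩ := (hmemS c).mp hc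
      refine (hmemS _).mpr ⟨g * h, ?_⟩
      rw [Associates.mk_eq_mk_iff_associated, mul_smul]
      exact orbit_smul_associated g (hout h)
    · intro c _ c' _ hcc
      have h1 : Associated (g • (Quot.out c : B)) (g • (Quot.out c' : B)) :=
        Associates.mk_eq_mk_iff_associated.mp hcc
      have h2 := orbit_smul_associated g⁻¹ h1
      rw [inv_smul_smul, inv_smul_smul] at h2
      rw [← hmk c, ← hmk c']
      exact Associates.mk_eq_mk_iff_associated.mpr h2
    · intro c hc
      obtain ⟨h, rfl⟩ := (hmemS c).mp hc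
      refine ⟨Associates.mk ((g⁻¹ * h) • f), (hmemS _).mpr ⟨_, rfl⟩, ?_⟩
      dsimp only
      rw [Associates.mk_eq_mk_iff_associated]
      have h1 := orbit_smul_associated g (hout (g⁻¹ * h))
      rwa [smul_smul, mul_inv_cancel_left] at h1
    · intro c _
      exact (hmk _).symm
  · exact dvd_trans hfout.symm.dvd (Finset.dvd_prod_of_mem _ hfS)
  · intro h
    rw [← Finset.mul_prod_erase S _ hfS] at h
    obtain ⟨w, hw⟩ := hfout
    have h1 : f * f ∣ f * ((w⁻¹ : Bˣ) * ∏ c ∈ S.erase (Associates.mk f), (Quot.out c : B)) := by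
      have h2 : (Quot.out (Associates.mk f) : B) = f * (w⁻¹ : Bˣ) := by
        have h6 : (Quot.out (Associates.mk f) : B) * (w : B) * ((w⁻¹ : Bˣ) : B) =
            f * ((w⁻¹ : Bˣ) : B) := congrArg (fun t : B => t * ((w⁻¹ : Bˣ) : B)) hw
        rwa [mul_assoc, Units.mul_inv, mul_one] at h6
      rw [h2, pow_two, mul_assoc] at h
      exact h
    have h3 := (mul_dvd_mul_iff_left hf.ne_zero).mp h1
    rcases hf.dvd_or_dvd h3 with h4 | h4
    · exact hf.not_isUnit (isUnit_of_dvd_unit h4 (w⁻¹).isUnit)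
    · obtain ⟨c, hc, hfc⟩ := (Prime.dvd_finsetProd_iff hf _).mp h4
      have hcS := Finset.mem_of_mem_erase hc
      have h5 : Associated f (Quot.out c) :=
        hf.irreducible.associated_of_dvd (hprime c hcS).irreducible hfc
      apply Finset.ne_of_mem_erase hc
      rw [← hmk c, Associates.mk_eq_mk_iff_associated]
      exact h5.symm
  · intro p hp hpF
    obtain ⟨c, hc, hpc⟩ := (Prime.dvd_finsetProd_iff hp _).mp hpF
    have h5 : Associated p (Quot.out c) :=
      hp.irreducible.associated_of_dvd (hprime c hc).irreducible hpc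
    obtain ⟨g, rfl⟩ := (hmemS c).mp hc
    exact ⟨g, h5.trans (hout g)⟩

end Pool.Agent.Lib.MP_462b8b_ag
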