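import Pool.Agent.Lib.MP_462b8b_ag.Frac
import Mathlib.Algebra.Polynomial.RingDivision
import Mathlib.Algebra.MvPolynomial.Eval
import Mathlib.Algebra.Polynomial.Roots

/-!
Units of the coordinate ring of a cone are constant.
-/

open Matrix MvPolynomial TensorProduct AlgebraicGeometry

namespace Pool.Agent.Lib.MP_462b8b_ag

namespace UnitConst

/-- Restriction of a polynomial to the line through `y`. -/
noncomputable def lin {ι : Type} (y : ι → ℂ) (p : MvPolynomial ι ℂ) : Polynomial ℂ :=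
  aeval (fun i => Polynomial.X * Polynomial.C (y i)) p

theorem lin_eval {ι : Type} (y : ι → ℂ) (p : MvPolynomial ι ℂ) (t : ℂ) :
    (lin y p).eval t = eval (t • y) p := by
  unfold lin
  induction p using MvPolynomial.induction_on with
  | C a => simp
  | add p q hp hq => simp only [map_add, Polynomial.eval_add, hp, hq]
  | mul_X p i hp => simp only [map_mul, Polynomial.eval_mul, hp, aeval_X, eval_X, Polynomial.eval_X,
      Polynomial.eval_C, Pi.smul_apply, smul_eq_mul]

end UnitConst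

open UnitConst in
theorem unit_const {ι : Type} [Fintype ι] [DecidableEq ι] (N : Set (ι → ℂ))
    (hcone : ∀ t : ℂ, ∀ y ∈ N, t • y ∈ N)
    (u : polyFun N) (hu : IsUnit u) : ∃ c : ℂ, c ≠ 0 ∧ ∀ y, u.1 y = c := by
  obtain ⟨v, hv⟩ := hu.exists_right_inv
  obtain ⟨p, hp⟩ := polyFun_mem_iff.mp u.2
  obtain ⟨q, hq⟩ := polyFun_mem_iff.mp v.2
  have huv : ∀ y : N, u.1 y * v.1 y = 1 := by
    intro y
    have h1 := congrArg (fun f : polyFun N => f.1 y) hv
    simpa using h1
  by_cases hN : ∃ y₀, y₀ ∈ N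
  · obtain ⟨y₀, hy₀⟩ := hN
    have h0 : (0 : ι → ℂ) ∈ N := by
      have := hcone 0 y₀ hy₀
      rwa [zero_smul] at this
    refine ⟨u.1 ⟨0, h0⟩, left_ne_zero_of_mul_eq_one (huv _), ?_⟩
    rintro ⟨y, hy⟩
    have hpq : lin y p * lin y q = 1 := by
      apply Polynomial.funext
      intro t
      rw [Polynomial.eval_mul, lin_eval, lin_eval, Polynomial.eval_one]
      have := huv ⟨t • y, hcone t y hy⟩
      rw [hp, hq] at this
      exact this
    have hunit : IsUnit (lin y p) := IsUnit.of_mul_eq_one _ hpq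
    obtain ⟨c, _, hc⟩ := Polynomial.isUnit_iff.mp hunit
    have e1 : u.1 ⟨y, hy⟩ = (lin y p).eval 1 := by
      rw [lin_eval, hp, one_smul]
    have e0 : u.1 ⟨0, h0⟩ = (lin y p).eval 0 := by
      rw [lin_eval, hp, zero_smul]
    rw [e1, e0, ← hc, Polynomial.eval_C, Polynomial.eval_C]
  · refine ⟨1, one_ne_zero, ?_⟩
    rintro ⟨y, hy⟩
    exact absurd ⟨y, hy⟩ hN

end Pool.Agent.Lib.MP_462b8b_ag
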