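import Pool.Agent.Lib.MP_462b8b_ag.Points
import Pool.Agent.Lib.MP_462b8b_ag.ProjStalk
import Pool.Agent.Lib.MP_462b8b_ag.Orbit
import Pool.Agent.Lib.MP_462b8b_ag.OrbDiv
import Pool.Agent.Lib.MP_462b8b_ag.Normal
import Pool.Agent.Lib.MP_462b8b_ag.Dvrx
import Pool.Agent.Lib.MP_462b8b_ag.UnitConst
import Pool.Agent.Lib.MP_462b8b_ag.CharF
import Mathlib.RingTheory.KrullDimension.LocalRing
import Mathlib.RingTheory.Multiplicity
import Mathlib.RingTheory.UniqueFactorizationDomain.Multiplicity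

/-!
Divisors of `N //_θ G` when `ℂ[N]` is factorial.
-/

open Matrix MvPolynomial AlgebraicGeometry HomogeneousLocalization

set_option linter.unusedSectionVars false

namespace Pool.Agent.Lib.MP_462b8b_ag

variable {n : Type} [Fintype n] [DecidableEq n] {G : Subgroup (GL n ℂ)}
variable {ι : Type} [Fintype ι] [DecidableEq ι]
variable {ρ : RatRep G ι} {N : Set (ι → ℂ)} {θ : G →* ℂˣ}

section den

variable [IsDomain (polyFun N)]

lemma exists_den_pos (x : ProjectiveSpectrum (gitGr ρ N θ)) :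
    ∃ (k : ℕ) (b : N → ℂ), 1 ≤ k ∧ Den x k b := by
  by_contra hcon
  push Not at hcon
  apply x.not_irrelevant_le
  intro P hP
  rw [HomogeneousIdeal.mem_irrelevant_iff, GradedRing.proj_apply, decompose_git] at hP
  have h0 : P.1.coeff 0 = 0 := by
    have := congrArg (fun Q : gitRing ρ N θ => Q.1.coeff 0) hP
    simpa [homog] using this
  have h1 : P = ∑ k ∈ P.1.support, homog k (P.1.coeff k) (P.2 k) := by
    apply Subtype.ext
    rw [AddSubmonoidClass.coe_finsetSum]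
    exact Polynomial.as_sum_support P.1
  rw [h1]
  refine Ideal.sum_mem _ fun k hk => ?_
  by_contra hk'
  rcases Nat.eq_zero_or_pos k with h | h
  · subst h
    exact (Polynomial.mem_support_iff.mp hk) h0
  · exact hcon k _ h ⟨P.2 k, hk'⟩

lemma den_of_dvd (hst : ∀ g : G, ∀ y ∈ N, ρ.toHom g *ᵥ y ∈ N)
    {x : ProjectiveSpectrum (gitGr ρ N θ)} {k l : ℕ} {a b c : N → ℂ}
    (ha : a ∈ semiInv ρ N (θ ^ k)) (hb : Den x l b) (hc : c ∈ polyFun N) (h : c * a = b) :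
    Den x k a := by
  obtain ⟨k0, b0, hk0, hb0⟩ := exists_den_pos x
  have hb' : Den x (k * k0 + l) (b0 ^ k * b) := (hb0.pow k).mul hb
  have ha0 : a ≠ 0 := by
    rintro rfl
    rw [mul_zero] at h
    exact hb.ne_zero h.symm
  obtain ⟨m, hm⟩ : ∃ m, k * k0 + l = k + m := by
    have : k ≤ k * k0 := Nat.le_mul_of_pos_right k hk0
    exact ⟨k * k0 + l - k, by omega⟩
  have hrel : (b0 ^ k * c) * a = b0 ^ k * b := by rw [mul_assoc, h]
  have hb0p : b0 ^ k ∈ polyFun N := Subalgebra.pow_mem _ hb0.1.1 k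
  have hc' : b0 ^ k * c ∈ semiInv ρ N (θ ^ m) := by
    refine semiInv_of_mul (χ := θ ^ k) (ψ := θ ^ m) hst (mul_mem hb0p hc) ha ha0 ?_
    rw [hrel, ← char_pow_add, ← hm]
    exact hb'.1
  refine ⟨ha, fun hmem => ?_⟩
  obtain ⟨h1, h2⟩ := hb'
  apply h2
  have e : homog (k * k0 + l) (b0 ^ k * b) h1 = homog m (b0 ^ k * c) hc' * homog k a ha := by
    rw [homog_mul hc' ha (semiInv_mul_mem' hc' ha)]
    apply Subtype.ext
    simp only [homog]
    rw [hrel, hm, add_comm]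
  rw [e]
  exact Ideal.mul_mem_left _ _ hmem

end den

section alive

variable [IsDomain (polyFun N)] [UniqueFactorizationMonoid (polyFun N)]

/-- `f` divides no denominator at `x`. -/
def Alive (x : ProjectiveSpectrum (gitGr ρ N θ)) (f : polyFun N) : Prop :=
  ∀ (k : ℕ) (b : N → ℂ) (hb : Den x k b), ¬ f ∣ (⟨b, hb.1.1⟩ : polyFun N)

lemma exists_alive (hst : ∀ g : G, ∀ y ∈ N, ρ.toHom g *ᵥ y ∈ N)
    {x : ProjectiveSpectrum (gitGr ρ N θ)} {k : ℕ} {a : N → ℂ}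
    (ha : a ∈ semiInv ρ N (θ ^ k)) (ha0 : a ≠ 0) (h : ¬ Den x k a) :
    ∃ f : polyFun N, Prime f ∧ f ∣ ⟨a, ha.1⟩ ∧ Alive x f := by
  by_contra hcon
  push Not at hcon
  have key : ∀ a' : polyFun N, a' ≠ 0 → (∀ f : polyFun N, Prime f → f ∣ a' → ¬ Alive x f) →
      ∃ (k : ℕ) (b : N → ℂ) (hb : Den x k b), a' ∣ (⟨b, hb.1.1⟩ : polyFun N) := by
    intro a'
    induction a' using UniqueFactorizationMonoid.induction_on_prime with
    | h₁ => intro h; exact absurd rfl h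
    | h₂ u hu => intro _ _; exact ⟨0, 1, Den.one, hu.dvd⟩
    | h₃ a p ha hp ih =>
      intro _ hall
      obtain ⟨k1, b1, hb1, hd1⟩ := ih ha fun f hf hfa => hall f hf (hfa.mul_left _)
      have hpna := hall p hp (dvd_mul_right _ _)
      unfold Alive at hpna
      push Not at hpna
      obtain ⟨k2, b2, hb2, hd2⟩ := hpna
      refine ⟨k2 + k1, b2 * b1, hb2.mul hb1, ?_⟩
      have := mul_dvd_mul hd2 hd1
      exact this
  have hane : (⟨a, ha.1⟩ : polyFun N) ≠ 0 := fun h => ha0 (congrArg Subtype.val h)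
  obtain ⟨l, b, hb, c, hc⟩ := key ⟨a, ha.1⟩ hane hcon
  apply h
  refine den_of_dvd hst ha hb c.2 ?_
  have := congrArg Subtype.val hc
  rw [mul_comm]
  exact this.symm

variable (z : ProjectiveSpectrum (gitGr ρ N θ)) (f : polyFun N)

/-- The order of an element of the local ring at `z` along `f`. -/
noncomputable def ordf (γ : AtPrime (gitGr ρ N θ) z.asHomogeneousIdeal.toIdeal) : ℕ :=
  multiplicity f ⟨(fr_surj γ).choose_spec.choose, (fr_surj γ).choose_spec.choose_spec.choose_spec.choose.1⟩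

variable {z f}

lemma finMult (hf : Prime f) {a : polyFun N} (ha : a ≠ 0) : FiniteMultiplicity f a :=
  FiniteMultiplicity.of_prime_left hf ha

lemma mult_mul (hf : Prime f) {a b : polyFun N} (ha : a ≠ 0) (hb : b ≠ 0) :
    multiplicity f (a * b) = multiplicity f a + multiplicity f b :=
  multiplicity_mul hf (finMult hf (mul_ne_zero ha hb))

lemma ordf_fr (hf : Prime f) (hal : Alive z f) {k : ℕ} {a b : N → ℂ}
    {ha : a ∈ semiInv ρ N (θ ^ k)} {hb : Den z k b} (ha0 : a ≠ 0) :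
    ordf z f (fr z k a b ha hb) = multiplicity f ⟨a, ha.1⟩ := by
  set γ := fr z k a b ha hb with hγ
  have hs := (fr_surj γ).choose_spec.choose_spec.choose_spec.choose_spec.choose_spec
  set a' := (fr_surj γ).choose_spec.choose with ha'
  have hma' := (fr_surj γ).choose_spec.choose_spec.choose_spec.choose
  have hmb' := (fr_surj γ).choose_spec.choose_spec.choose_spec.choose_spec.choose
  set b' := (fr_surj γ).choose_spec.choose_spec.choose with hb'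
  have hs' : fr z k a b ha hb = fr z _ a' b' hma' hmb' := hs
  rw [fr_eq_iff] at hs'
  have e : (⟨a, ha.1⟩ : polyFun N) * ⟨b', hmb'.1.1⟩ = ⟨a', hma'.1⟩ * ⟨b, hb.1.1⟩ :=
    Subtype.ext hs'
  have h1 : (⟨a, ha.1⟩ : polyFun N) ≠ 0 := fun h => ha0 (congrArg Subtype.val h)
  have h2 : (⟨b', hmb'.1.1⟩ : polyFun N) ≠ 0 := fun h => hmb'.ne_zero (congrArg Subtype.val h)
  have h3 : (⟨b, hb.1.1⟩ : polyFun N) ≠ 0 := fun h => hb.ne_zero (congrArg Subtype.val h)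
  have h4 : (⟨a', hma'.1⟩ : polyFun N) ≠ 0 := by
    intro h
    rw [h, zero_mul] at e
    exact mul_ne_zero h1 h2 e
  have e2 := congrArg (multiplicity f) e
  rw [mult_mul hf h1 h2, mult_mul hf h4 h3, multiplicity_eq_zero.mpr (hal _ _ hmb'),
    multiplicity_eq_zero.mpr (hal _ _ hb), add_zero, add_zero] at e2
  rw [e2]
  rfl

lemma ordf_mul (hf : Prime f) (hal : Alive z f)
    (α β : AtPrime (gitGr ρ N θ) z.asHomogeneousIdeal.toIdeal) (hα : α ≠ 0) (hβ : β ≠ 0) :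
    ordf z f (α * β) = ordf z f α + ordf z f β := by
  obtain ⟨k, a, b, ha, hb, rfl⟩ := fr_surj α
  obtain ⟨l, a', b', ha', hb', rfl⟩ := fr_surj β
  have h1 : a ≠ 0 := fun h => hα (fr_zero_iff.mpr h)
  have h2 : a' ≠ 0 := fun h => hβ (fr_zero_iff.mpr h)
  have h1' : (⟨a, ha.1⟩ : polyFun N) ≠ 0 := fun h => h1 (congrArg Subtype.val h)
  have h2' : (⟨a', ha'.1⟩ : polyFun N) ≠ 0 := fun h => h2 (congrArg Subtype.val h)
  have h3 : a * a' ≠ 0 := fun h => mul_ne_zero h1' h2' (Subtype.ext h)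
  rw [fr_mul, ordf_fr hf hal h1, ordf_fr hf hal h2, ordf_fr hf hal h3, ← mult_mul hf h1' h2']
  rfl

lemma ordf_unit (hf : Prime f) (hal : Alive z f)
    (α : AtPrime (gitGr ρ N θ) z.asHomogeneousIdeal.toIdeal) (hα : IsUnit α) :
    ordf z f α = 0 := by
  obtain ⟨k, a, b, ha, hb, rfl⟩ := fr_surj α
  have hd := fr_isUnit_iff.mp hα
  rw [ordf_fr hf hal hd.ne_zero]
  exact multiplicity_eq_zero.mpr (hal _ _ hd)

instance isDomain_O (x : ProjectiveSpectrum (gitGr ρ N θ)) :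
    IsDomain (AtPrime (gitGr ρ N θ) x.asHomogeneousIdeal.toIdeal) :=
  isDomain_atPrime _ x

end alive

section orbit

variable (hst : ∀ g : G, ∀ y ∈ N, ρ.toHom g *ᵥ y ∈ N)

lemma translate_apply (g : G) (f : N → ℂ) (y : N) :
    translate hst g f y = f ⟨ρ.toHom g *ᵥ y.1, hst g y.1 y.2⟩ := rfl

/-- The action of `G` on `ℂ[N]` by translations. -/
@[reducible] noncomputable def actB : MulSemiringAction G (polyFun N) where
  smul g f := ⟨translate hst g⁻¹ f.1, translate_mem hst g⁻¹ f.2⟩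
  one_smul f := by
    apply Subtype.ext
    funext y
    refine congrArg f.1 (Subtype.ext ?_)
    simp
  mul_smul g h f := by
    apply Subtype.ext
    funext y
    refine congrArg f.1 (Subtype.ext ?_)
    simp [mulVec_mulVec]
  smul_zero g := rfl
  smul_add g a b := rfl
  smul_one g := rfl
  smul_mul g a b := rfl

lemma actB_apply (g : G) (f : polyFun N) :
    letI := actB hst
    (g • f).1 = translate hst g⁻¹ f.1 := rfl

variable [IsDomain (polyFun N)] [UniqueFactorizationMonoid (polyFun N)]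

lemma semi_assoc {χ : G →* ℂˣ} {a : N → ℂ} (ha : a ∈ semiInv ρ N χ) (g : G) :
    letI := actB hst
    Associated (g • (⟨a, ha.1⟩ : polyFun N)) ⟨a, ha.1⟩ := by
  letI := actB hst
  have h1 := ((mem_semiInv_iff_translate hst).mp ha).2 g⁻¹
  have h2 : g • (⟨a, ha.1⟩ : polyFun N) = ((χ g⁻¹ : ℂˣ) : ℂ) • (⟨a, ha.1⟩ : polyFun N) :=
    Subtype.ext h1
  rw [h2]
  refine Associated.symm ⟨Units.map (algebraMap ℂ (polyFun N)).toMonoidHom (χ g⁻¹), ?_⟩
  rw [Algebra.smul_def, mul_comm]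
  rfl

include hst in
theorem exists_orbit_semiInv (hcone : ∀ t : ℂ, ∀ y ∈ N, t • y ∈ N) {χ₀ : G →* ℂˣ}
    {a₀ : N → ℂ} (ha₀ : a₀ ∈ semiInv ρ N χ₀) (h0 : a₀ ≠ 0) (f : polyFun N) (hf : Prime f)
    (hfa : f ∣ ⟨a₀, ha₀.1⟩) :
    ∃ (F : N → ℂ) (χ : ratChar G) (hF : F ∈ semiInv ρ N χ), F ≠ 0 ∧
      f ∣ ⟨F, hF.1⟩ ∧ ¬ f ^ 2 ∣ ⟨F, hF.1⟩ ∧
      ∀ (ψ : G →* ℂˣ) (a : N → ℂ) (ha : a ∈ semiInv ρ N ψ) (k : ℕ),
        f ^ k ∣ ⟨a, ha.1⟩ → (⟨F, hF.1⟩ : polyFun N) ^ k ∣ ⟨a, ha.1⟩ := by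
  letI := actB hst
  obtain ⟨F, hF0, hFg, hfF, hf2, hFp⟩ := exists_orbit_product (Γ := G) (⟨a₀, ha₀.1⟩ : polyFun N)
    (fun h => h0 (congrArg Subtype.val h)) (fun g => semi_assoc hst ha₀ g) f hf hfa
  have hF0' : F.1 ≠ 0 := fun h => hF0 (Subtype.ext h)
  have htr : ∀ g : G, ∃ c : ℂ, translate hst g F.1 = c • F.1 := by
    intro g
    obtain ⟨u, hu⟩ := hFg g⁻¹
    obtain ⟨c, hc0, hc⟩ := unit_const N hcone (u⁻¹ : (polyFun N)ˣ) (Units.isUnit _)
    refine ⟨c, ?_⟩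
    have h1 : g⁻¹ • F = F * ((u⁻¹ : (polyFun N)ˣ) : polyFun N) :=
      (Units.eq_mul_inv_iff_mul_eq u).mpr hu
    have h2 := congrArg Subtype.val h1
    rw [actB_apply hst, inv_inv] at h2
    rw [h2]
    funext y
    change F.1 y * _ = c * F.1 y
    rw [hc y, mul_comm]
  obtain ⟨χ, hχ⟩ := exists_ratChar hst F.1 F.2 hF0' htr
  refine ⟨F.1, χ, hχ, hF0', hfF, hf2, fun ψ a ha k hk => ?_⟩
  exact pow_dvd_of_orbit (Γ := G) f F _ hf hF0 hFg hf2 hFp (fun g => semi_assoc hst ha g) k hk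

end orbit

section data

variable [IsDomain (polyFun N)]

lemma char_pow_one (χ : G →* ℂˣ) : χ ^ 1 = χ := by
  ext g
  simp

lemma char_pow_mul (χ : G →* ℂˣ) (k j : ℕ) : (χ ^ k) ^ j = χ ^ (j * k) := by
  ext g
  simp [pow_mul, mul_comm j k]

lemma semiInv_pow {χ : G →* ℂˣ} {a : N → ℂ} (ha : a ∈ semiInv ρ N χ) (j : ℕ) :
    a ^ j ∈ semiInv ρ N (χ ^ j) := by
  induction j with
  | zero => rw [pow_zero, char_pow_zero]; exact semiInv_one_mem ρ N
  | succ j ih =>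
    rw [pow_succ, char_pow_add, char_pow_one]
    exact semiInv_mul_mem ih ha

lemma semiInv_pow' {k : ℕ} {a : N → ℂ} (ha : a ∈ semiInv ρ N (θ ^ k)) (j : ℕ) :
    a ^ j ∈ semiInv ρ N (θ ^ (j * k)) := by
  have := semiInv_pow ha j
  rwa [char_pow_mul] at this

lemma fr_pow' {x : ProjectiveSpectrum (gitGr ρ N θ)} {k : ℕ} {a b : N → ℂ}
    (ha : a ∈ semiInv ρ N (θ ^ k)) (hb : Den x k b) (j : ℕ) :
    fr x k a b ha hb ^ j = fr x (j * k) (a ^ j) (b ^ j) (semiInv_pow' ha j) (hb.pow j) := by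
  induction j with
  | zero =>
    rw [pow_zero, ← fr_one (Den.one (x := x)), fr_eq_iff]
    simp
  | succ j ih =>
    rw [pow_succ, ih, fr_mul, fr_eq_iff]
    ring

/-- There are `c` of weight `θ^l ψ⁻¹` and `d` of weight `θ^l` such that `c` and `d` are units
at `x`. -/
def WData (x : ProjectiveSpectrum (gitGr ρ N θ)) (ψ : G →* ℂˣ) : Prop :=
  ∃ (l l' : ℕ) (c c' d m : N → ℂ), c ∈ semiInv ρ N (θ ^ l * ψ⁻¹) ∧ c' ∈ polyFun N ∧
    Den x l d ∧ Den x l' m ∧ c * c' = m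

end data

section principal

variable [IsDomain (polyFun N)] [UniqueFactorizationMonoid (polyFun N)]

lemma char_cancel (χ ψ : G →* ℂˣ) : χ * (ψ * χ⁻¹) = ψ := by
  ext g
  simp only [MonoidHom.mul_apply, MonoidHom.inv_apply, mul_inv_cancel_comm_assoc]

lemma exists_phi (hst : ∀ g : G, ∀ y ∈ N, ρ.toHom g *ᵥ y ∈ N)
    {x z : ProjectiveSpectrum (gitGr ρ N θ)}
    (hzx : z.asHomogeneousIdeal ≤ x.asHomogeneousIdeal)
    {f : polyFun N} (hf : Prime f) (hal : Alive z f) {F : N → ℂ} {χ : G →* ℂˣ}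
    (hF : F ∈ semiInv ρ N χ) (hF0 : F ≠ 0)
    (hfF : f ∣ ⟨F, hF.1⟩) (hf2 : ¬ f ^ 2 ∣ ⟨F, hF.1⟩)
    (hdiv : ∀ (ψ : G →* ℂˣ) (a : N → ℂ) (ha : a ∈ semiInv ρ N ψ) (k : ℕ),
        f ^ k ∣ ⟨a, ha.1⟩ → (⟨F, hF.1⟩ : polyFun N) ^ k ∣ ⟨a, ha.1⟩)
    {m : ℕ} (hW : WData x (χ ^ m)) :
    ∃ (l : ℕ) (A D : N → ℂ) (hA : A ∈ semiInv ρ N (θ ^ l)) (hD : Den x l D), A ≠ 0 ∧
      multiplicity f (⟨A, hA.1⟩ : polyFun N) = m ∧
      ∀ (j k : ℕ) (a b : N → ℂ) (ha : a ∈ semiInv ρ N (θ ^ k)) (hb : Den x k b),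
        f ^ (j * m) ∣ ⟨a, ha.1⟩ → fr x l A D hA hD ^ j ∣ fr x k a b ha hb := by
  obtain ⟨l, l', c, c', d, M, hc, hc', hd, hM, hcM⟩ := hW
  have hA : F ^ m * c ∈ semiInv ρ N (θ ^ l) := by
    have := semiInv_mul_mem (semiInv_pow hF m) hc
    rwa [char_cancel] at this
  have hFp : (⟨F, hF.1⟩ : polyFun N) ≠ 0 := fun h => hF0 (congrArg Subtype.val h)
  have hMp : (⟨M, hM.1.1⟩ : polyFun N) ≠ 0 := fun h => hM.ne_zero (congrArg Subtype.val h)
  have hcM' : (⟨c, hc.1⟩ : polyFun N) * ⟨c', hc'⟩ = ⟨M, hM.1.1⟩ := Subtype.ext hcM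
  have hcp : (⟨c, hc.1⟩ : polyFun N) ≠ 0 := by
    intro h
    rw [h, zero_mul] at hcM'
    exact hMp hcM'.symm
  have hfc : ¬ f ∣ (⟨c, hc.1⟩ : polyFun N) := by
    intro h
    exact hal l' M (hM.mono hzx) (hcM' ▸ h.mul_right _)
  have hAe : (⟨F ^ m * c, hA.1⟩ : polyFun N) = ⟨F, hF.1⟩ ^ m * ⟨c, hc.1⟩ := rfl
  have hA0 : F ^ m * c ≠ 0 := by
    intro h
    have : (⟨F ^ m * c, hA.1⟩ : polyFun N) = 0 := Subtype.ext h
    rw [hAe] at this
    exact mul_ne_zero (pow_ne_zero m hFp) hcp this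
  refine ⟨l, F ^ m * c, d, hA, hd, hA0, ?_, ?_⟩
  · rw [hAe, mult_mul hf (pow_ne_zero m hFp) hcp, (finMult hf hFp).multiplicity_pow hf,
      multiplicity_eq_zero.mpr hfc, multiplicity_eq_of_dvd_of_not_dvd (k := 1) (by simpa using hfF)
      hf2, mul_one, add_zero]
  · intro j k a b ha hb hfa
    obtain ⟨a'', ha''⟩ := hdiv _ a ha _ hfa
    have hae : a = F ^ (j * m) * a''.1 := congrArg Subtype.val ha''
    have hAj : (F ^ m * c) ^ j ≠ 0 := by
      intro h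
      have : (⟨F ^ m * c, hA.1⟩ : polyFun N) ^ j = 0 := Subtype.ext h
      rw [hAe] at this
      exact pow_ne_zero j (mul_ne_zero (pow_ne_zero m hFp) hcp) this
    have he : a''.1 * d ^ j * c' ^ j ∈ polyFun N :=
      mul_mem (mul_mem a''.2 (pow_mem hd.1.1 j)) (pow_mem hc' j)
    have hrel : a''.1 * d ^ j * c' ^ j * (F ^ m * c) ^ j = a * M ^ j * d ^ j := by
      rw [hae, ← hcM]
      ring
    have hew : a''.1 * d ^ j * c' ^ j ∈ semiInv ρ N (θ ^ (k + j * l')) := by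
      refine semiInv_of_mul (χ := θ ^ (j * l)) (ψ := θ ^ (k + j * l')) hst he (semiInv_pow' hA j)
        hAj ?_
      rw [hrel, ← char_pow_add, add_comm (j * l)]
      exact semiInv_mul_mem' (semiInv_mul_mem' ha (semiInv_pow' hM.1 j)) (semiInv_pow' hd.1 j)
    refine ⟨fr x (k + j * l') (a''.1 * d ^ j * c' ^ j) (b * M ^ j) hew (hb.mul (hM.pow j)), ?_⟩
    rw [fr_pow', fr_mul, fr_eq_iff]
    calc a * (d ^ j * (b * M ^ j)) = (a * M ^ j * d ^ j) * b := by ring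
      _ = _ := by rw [← hrel]; ring

theorem qcartier_at (hst : ∀ g : G, ∀ y ∈ N, ρ.toHom g *ᵥ y ∈ N)
    (hcone : ∀ t : ℂ, ∀ y ∈ N, t • y ∈ N)
    (hW : ∀ χ : ratChar G, ∃ m : ℕ, 1 ≤ m ∧
      ∀ x : ProjectiveSpectrum (gitGr ρ N θ), WData x ((χ : G →* ℂˣ) ^ m))
    (z : ProjectiveSpectrum (gitGr ρ N θ))
    (hz : ringKrullDim (AtPrime (gitGr ρ N θ) z.asHomogeneousIdeal.toIdeal) = 1) :
    ∃ K : ℕ, 1 ≤ K ∧ ∀ (x : ProjectiveSpectrum (gitGr ρ N θ))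
      (h : z.asHomogeneousIdeal ≤ x.asHomogeneousIdeal),
      (Ideal.comap (mapId (gitGr ρ N θ) (primeCompl_le (gitGr ρ N θ) h))
        (IsLocalRing.maximalIdeal (AtPrime (gitGr ρ N θ) z.asHomogeneousIdeal.toIdeal) ^
          K)).IsPrincipal := by
  obtain ⟨hnf, hrad⟩ := ringKrullDim_eq_one_iff_of_isLocalRing_isDomain.mp hz
  obtain ⟨β₀, hβ0, hβu⟩ : ∃ β : AtPrime (gitGr ρ N θ) z.asHomogeneousIdeal.toIdeal,
      β ≠ 0 ∧ ¬ IsUnit β := by
    by_contra hcon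
    push Not at hcon
    exact hnf ⟨⟨0, 1, zero_ne_one⟩, mul_comm, fun {a} ha => (hcon a ha).exists_right_inv⟩
  obtain ⟨k₀, a₀, b₀, ha₀, hb₀, rfl⟩ := fr_surj β₀
  have ha0 : a₀ ≠ 0 := fun h => hβ0 (fr_zero_iff.mpr h)
  obtain ⟨f, hf, hfa, hal⟩ := exists_alive hst ha₀ ha0 (fun h => hβu (fr_isUnit_iff.mpr h))
  obtain ⟨F, χ, hF, hF0, hfF, hf2, hdiv⟩ := exists_orbit_semiInv hst hcone ha₀ ha0 f hf hfa
  obtain ⟨m, hm, hWm⟩ := hW χ
  have hpow : ∀ (γ : AtPrime (gitGr ρ N θ) z.asHomogeneousIdeal.toIdeal) (j : ℕ), γ ≠ 0 →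
      ordf z f (γ ^ j) = j * ordf z f γ := by
    intro γ j hγ
    induction j with
    | zero => rw [pow_zero, ordf_unit hf hal _ isUnit_one, zero_mul]
    | succ j ih => rw [pow_succ, ordf_mul hf hal _ _ (pow_ne_zero j hγ) hγ, ih]; ring
  have hβpos : 1 ≤ ordf z f (fr z k₀ a₀ b₀ ha₀ hb₀) := by
    rw [ordf_fr hf hal ha0]
    exact multiplicity_pos_of_dvd hfa
  have hunit : ∀ a : AtPrime (gitGr ρ N θ) z.asHomogeneousIdeal.toIdeal, a ≠ 0 →
      (ordf z f a = 0 ↔ IsUnit a) := by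
    intro γ hγ
    refine ⟨fun h => ?_, ordf_unit hf hal γ⟩
    by_contra hu
    have h1 := hrad _ hβ0 ((IsLocalRing.mem_maximalIdeal γ).mpr hu)
    obtain ⟨j, hj⟩ := h1
    obtain ⟨δ, hδ⟩ := Ideal.mem_span_singleton'.mp hj
    have hδ0 : δ ≠ 0 := by
      rintro rfl
      rw [zero_mul] at hδ
      exact pow_ne_zero j hγ hδ.symm
    have h2 := hpow γ j hγ
    rw [← hδ, ordf_mul hf hal _ _ hδ0 hβ0, h] at h2
    omega
  have hNz := isIntegrallyClosed_atPrime hst z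
  obtain ⟨l, A, D, hA, hD, hA0, hmult, hd⟩ := exists_phi hst (x := z) le_rfl hf hal hF hF0 hfF hf2
    hdiv (hWm z)
  obtain ⟨K, hK1, hK⟩ := exists_power_of_val (ordf z f) (ordf_mul hf hal) hunit m hm
    (fr z l A D hA hD) (fun h => hA0 (fr_zero_iff.mp h)) (by rw [ordf_fr hf hal hA0, hmult]) (by
      intro j γ hγ hle
      obtain ⟨k, a, b, ha, hb, rfl⟩ := fr_surj γ
      have ha0 : a ≠ 0 := fun h => hγ (fr_zero_iff.mpr h)
      rw [ordf_fr hf hal ha0] at hle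
      exact hd j k a b ha hb (pow_dvd_of_le_multiplicity hle))
  refine ⟨K, hK1, fun x h => ?_⟩
  obtain ⟨l, A, D, hA, hD, hA0, hmult, hd⟩ := exists_phi hst h hf hal hF hF0 hfF hf2
    hdiv (hWm x)
  refine ⟨⟨fr x l A D hA hD, ?_⟩⟩
  ext γ
  obtain ⟨k, a, b, ha, hb, rfl⟩ := fr_surj γ
  rw [Ideal.mem_comap, mapId_fr h]
  by_cases ha0 : a = 0
  · have h1 : fr x k a b ha hb = 0 := fr_zero_iff.mpr ha0
    have h2 : fr z k a b ha (hb.mono h) = 0 := fr_zero_iff.mpr ha0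
    rw [h1, h2]
    exact ⟨fun _ => Submodule.zero_mem _, fun _ => Submodule.zero_mem _⟩
  · have hne : fr z k a b ha (hb.mono h) ≠ 0 := fun h' => ha0 (fr_zero_iff.mp h')
    rw [hK _ hne]
    constructor
    · intro hle
      rw [ordf_fr hf hal ha0] at hle
      have h1 := hd 1 k a b ha hb (pow_dvd_of_le_multiplicity (by rwa [one_mul]))
      rw [pow_one] at h1
      exact Ideal.mem_span_singleton.mpr h1
    · intro hmem
      obtain ⟨δ, hδ⟩ := Ideal.mem_span_singleton'.mp hmem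
      obtain ⟨k', a', b', ha', hb', rfl⟩ := fr_surj δ
      have h1 := congrArg (mapId (gitGr ρ N θ) (primeCompl_le (gitGr ρ N θ) h)) hδ
      rw [map_mul, mapId_fr h, mapId_fr h, mapId_fr h] at h1
      have ha'0 : fr z k' a' b' ha' (hb'.mono h) ≠ 0 := by
        intro h'
        rw [h', zero_mul] at h1
        exact hne h1.symm
      rw [← h1, ordf_mul hf hal _ _ ha'0 (fun h' => hA0 (fr_zero_iff.mp h')),
        ordf_fr hf hal hA0, hmult]
      omega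

end principal

end Pool.Agent.Lib.MP_462b8b_ag
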