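import Mathlib.AlgebraicGeometry.ProjectiveSpectrum.Basic
import Mathlib.RingTheory.Nullstellensatz
import Mathlib.RingTheory.Ideal.Height
import Mathlib.Analysis.Normed.Algebra.MatrixExponential
import Mathlib.Analysis.Calculus.Deriv.Basic
import Mathlib.LinearAlgebra.Matrix.GeneralLinearGroup.Defs
import Mathlib.Topology.Instances.Matrix
import Mathlib.Topology.Connected.Basic
import Mathlib.LinearAlgebra.Matrix.NonsingularInverse
import Mathlib.LinearAlgebra.Dimension.Finrank
import Mathlib.Algebra.Polynomial.AlgebraMap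
import Mathlib.LinearAlgebra.TensorProduct.Basic
import Mathlib.RingTheory.KrullDimension.Basic
import Mathlib.RingTheory.IntegralClosure.IntegrallyClosed

/-!
Definitions for MP_462b8b_ag: reductive groups, `k`-large representations, moment maps,
GIT quotients `N //_θ G` as `Proj` of the ring of semi-invariants, and `ℚ`-factoriality.
-/

open Matrix MvPolynomial TensorProduct AlgebraicGeometry

namespace Pool.Agent.Lib.MP_462b8b_ag

section Groups

variable {n : Type} [Fintype n] [DecidableEq n]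

/-- `G` is a linear algebraic group over `ℂ`: a Zariski closed subgroup of `GL_n(ℂ)`. -/
def IsAlgGroup (G : Subgroup (GL n ℂ)) : Prop :=
  ∃ S : Set (MvPolynomial (n × n) ℂ), ∀ g : GL n ℂ,
    g ∈ G ↔ ∀ p ∈ S, eval (fun ij => (g : Matrix n n ℂ) ij.1 ij.2) p = 0

/-- `f : G → ℂ` is a regular function: a polynomial in the entries of `g` and of `g⁻¹`. -/
def IsRegularFun (G : Subgroup (GL n ℂ)) (f : G → ℂ) : Prop :=
  ∃ p : MvPolynomial ((n × n) ⊕ (n × n)) ℂ, ∀ g : G,
    f g = eval (Sum.elim (fun ij => (g : GL n ℂ).val ij.1 ij.2)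
      (fun ij => ((g : GL n ℂ)⁻¹).val ij.1 ij.2)) p

/-- A rational representation of `G` on `ℂ^ι`: a homomorphism to `ι × ι` matrices whose entries
are regular functions on `G`. -/
structure RatRep (G : Subgroup (GL n ℂ)) (ι : Type) [Fintype ι] [DecidableEq ι] where
  toHom : G →* Matrix ι ι ℂ
  regular : ∀ i j, IsRegularFun G (fun g => toHom g i j)

/-- `G` is (linearly) reductive: every invariant subspace of every rational representation has an
invariant complement. -/
def IsReductive (G : Subgroup (GL n ℂ)) : Prop :=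
  ∀ (m : ℕ) (ρ : RatRep G (Fin m)) (W : Submodule ℂ (Fin m → ℂ)),
    (∀ g, ∀ w ∈ W, ρ.toHom g *ᵥ w ∈ W) →
      ∃ W' : Submodule ℂ (Fin m → ℂ), (∀ g, ∀ w ∈ W', ρ.toHom g *ᵥ w ∈ W') ∧ IsCompl W W'

/-- The Lie algebra of `G`: all `X` with `exp(tX) ∈ G` for all `t ∈ ℂ`. -/
def lieSet (G : Subgroup (GL n ℂ)) : Set (Matrix n n ℂ) :=
  {X | ∀ t : ℂ, ∃ g ∈ G, (g : Matrix n n ℂ) = NormedSpace.exp (t • X)}

/-- The dimension of a linear algebraic group: the dimension of its Lie algebra. -/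
noncomputable def algDim (H : Subgroup (GL n ℂ)) : ℕ :=
  Module.finrank ℂ (Submodule.span ℂ (lieSet H))

/-- The one-parameter group `t ↦ exp(tX)` in `G`. -/
noncomputable def oneParam {G : Subgroup (GL n ℂ)} {X : Matrix n n ℂ} (hX : X ∈ lieSet G)
    (t : ℂ) : G :=
  ⟨(hX t).choose, (hX t).choose_spec.1⟩

lemma oneParam_val {G : Subgroup (GL n ℂ)} {X : Matrix n n ℂ} (hX : X ∈ lieSet G) (t : ℂ) :
    ((oneParam hX t : GL n ℂ) : Matrix n n ℂ) = NormedSpace.exp (t • X) :=
  (hX t).choose_spec.2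

/-- The number of connected components of `H`. -/
noncomputable def numComp (H : Subgroup (GL n ℂ)) : ℕ := Nat.card (ConnectedComponents H)

/-- The group of rational characters of `G`. -/
def ratChar (G : Subgroup (GL n ℂ)) : Subgroup (G →* ℂˣ) where
  carrier := {χ | IsRegularFun G (fun g => (χ g : ℂ))}
  mul_mem' := by
    rintro χ ψ ⟨p, hp⟩ ⟨q, hq⟩
    exact ⟨p * q, fun g => by simp [hp, hq]⟩
  one_mem' := ⟨1, fun g => by simp⟩
  inv_mem' := by
    rintro χ ⟨p, hp⟩
    refine ⟨rename Sum.swap p, fun g => ?_⟩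
    have h := hp g⁻¹
    rw [eval_rename]
    have e : ((χ⁻¹ : G →* ℂˣ) g : ℂ) = (χ g⁻¹ : ℂ) := by simp
    refine e.trans (h.trans ?_)
    congr 2
    funext ij
    rcases ij with ij | ij <;> simp

end Groups

section Reps

variable {n : Type} [Fintype n] [DecidableEq n] {G : Subgroup (GL n ℂ)}
variable {ι : Type} [Fintype ι] [DecidableEq ι]

namespace RatRep

/-- The infinitesimal action `x · v = d/dt ρ(exp(tX)) v` at `t = 0`, as a matrix. -/
noncomputable def diff (ρ : RatRep G ι) {X : Matrix n n ℂ} (hX : X ∈ lieSet G) : Matrix ι ι ℂ :=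
  Matrix.of fun i j => deriv (fun t : ℂ => ρ.toHom (oneParam hX t) i j) 0

/-- The stabiliser of `v`, a subgroup of `GL_n(ℂ)`. -/
def stab (ρ : RatRep G ι) (v : ι → ℂ) : Subgroup (GL n ℂ) where
  carrier := {g | ∃ h : g ∈ G, ρ.toHom ⟨g, h⟩ *ᵥ v = v}
  mul_mem' := by
    rintro a b ⟨ha, ha'⟩ ⟨hb, hb'⟩
    refine ⟨mul_mem ha hb, ?_⟩
    have : (⟨a * b, mul_mem ha hb⟩ : G) = ⟨a, ha⟩ * ⟨b, hb⟩ := rfl
    rw [this, map_mul, ← mulVec_mulVec, hb', ha']
  one_mem' := ⟨one_mem G, by
    have : (⟨1, one_mem G⟩ : G) = 1 := rfl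
    rw [this, map_one, one_mulVec]⟩
  inv_mem' := by
    rintro a ⟨ha, ha'⟩
    refine ⟨inv_mem ha, ?_⟩
    have : (⟨a⁻¹, inv_mem ha⟩ : G) = (⟨a, ha⟩ : G)⁻¹ := rfl
    rw [this]
    nth_rw 1 [← ha']
    rw [mulVec_mulVec, ← map_mul, inv_mul_cancel, map_one, one_mulVec]

/-- The orbit of `v`. -/
def orbit (ρ : RatRep G ι) (v : ι → ℂ) : Set (ι → ℂ) := Set.range fun g : G => ρ.toHom g *ᵥ v

end RatRep

/-- A Zariski closed subset of `ℂ^ι`. -/
def IsZariskiClosed (Z : Set (ι → ℂ)) : Prop :=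
  ∃ S : Set (MvPolynomial ι ℂ), Z = {v | ∀ p ∈ S, eval v p = 0}

/-- The codimension in `ℂ^ι` of (the Zariski closure of) `Z` is at least `c`. -/
def CodimGE (Z : Set (ι → ℂ)) (c : ℕ) : Prop :=
  (c : ℕ∞) ≤ (vanishingIdeal ℂ Z).height

/-- The set `V'` of principal points: closed orbit, and the stabiliser has minimal dimension and,
among those, the minimal number of connected components. -/
def RatRep.principal (ρ : RatRep G ι) : Set (ι → ℂ) :=
  {v | IsZariskiClosed (ρ.orbit v) ∧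
    (∀ w, IsZariskiClosed (ρ.orbit w) → algDim (ρ.stab v) ≤ algDim (ρ.stab w)) ∧
    (∀ w, IsZariskiClosed (ρ.orbit w) → algDim (ρ.stab w) = algDim (ρ.stab v) →
      numComp (ρ.stab v) ≤ numComp (ρ.stab w))}

/-- `V` is `k`-large. -/
def RatRep.IsLarge (ρ : RatRep G ι) (k : ℕ) : Prop :=
  (∃ v, IsZariskiClosed (ρ.orbit v) ∧ algDim (ρ.stab v) = 0) ∧
  CodimGE (ρ.principal)ᶜ k ∧
  ∀ r, 1 ≤ r → r ≤ algDim G → CodimGE {v | algDim (ρ.stab v) = r} (r + k)

/-- The symplectic form `ω(a, b) = aᵀ Ω b` is alternating, nondegenerate and `G`-invariant. -/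
def RatRep.IsSymplectic (ρ : RatRep G ι) (Ω : Matrix ι ι ℂ) : Prop :=
  Ωᵀ = -Ω ∧ IsUnit Ω ∧ ∀ g, (ρ.toHom g)ᵀ * Ω * ρ.toHom g = Ω

/-- The zero fibre of the quadratic moment map `μ(u)(x) = ω(x · u, u) / 2`. -/
def RatRep.zeroFibre (ρ : RatRep G ι) (Ω : Matrix ι ι ℂ) : Set (ι → ℂ) :=
  {u | ∀ (X : Matrix n n ℂ) (hX : X ∈ lieSet G), (ρ.diff hX *ᵥ u) ⬝ᵥ (Ω *ᵥ u) = 0}

/-- The zero fibre of the moment map `μ(v, l)(x) = l (x · v)` on `V × V*`, where `ℂ^(ι ⊕ ι)` is
identified with `V × V*`. -/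
def RatRep.cotangentZeroFibre (ρ : RatRep G ι) : Set (ι ⊕ ι → ℂ) :=
  {u | ∀ (X : Matrix n n ℂ) (hX : X ∈ lieSet G),
    (fun i => u (Sum.inr i)) ⬝ᵥ (ρ.diff hX *ᵥ (fun i => u (Sum.inl i))) = 0}

/-- The representation of `G` on `T*V = V × V*`: `g (v, l) = (g v, l ∘ g⁻¹)`. -/
def RatRep.cotangent (ρ : RatRep G ι) : RatRep G (ι ⊕ ι) where
  toHom :=
    { toFun := fun g => Matrix.fromBlocks (ρ.toHom g) 0 0 (ρ.toHom g⁻¹)ᵀ
      map_one' := by simp
      map_mul' := fun g h => by
        rw [Matrix.fromBlocks_multiply]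
        simp [Matrix.transpose_mul] }
  regular := by
    rintro (i | i) (j | j)
    · obtain ⟨p, hp⟩ := ρ.regular i j
      exact ⟨p, fun g => by simpa using hp g⟩
    · exact ⟨0, fun g => by simp⟩
    · exact ⟨0, fun g => by simp⟩
    · obtain ⟨p, hp⟩ := ρ.regular j i
      refine ⟨rename Sum.swap p, fun g => ?_⟩
      rw [eval_rename]
      have h := hp g⁻¹
      simp only [MonoidHom.coe_mk, OneHom.coe_mk, fromBlocks_apply₂₂, transpose_apply]
      refine h.trans ?_
      congr 2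
      funext ij
      rcases ij with ij | ij <;> simp

/-- The ring `ℂ[N]` of polynomial functions on `N ⊆ ℂ^ι`. -/
noncomputable def polyFun (N : Set (ι → ℂ)) : Subalgebra ℂ (N → ℂ) :=
  (aeval (fun i (y : N) => y.1 i) : MvPolynomial ι ℂ →ₐ[ℂ] (N → ℂ)).range

/-- The space `ℂ[N]^{G,χ}` of `f` with `f (g · y) = χ(g) f(y)`. -/
noncomputable def semiInv (ρ : RatRep G ι) (N : Set (ι → ℂ)) (χ : G →* ℂˣ) :
    Submodule ℂ (N → ℂ) where
  carrier := {f | f ∈ polyFun N ∧
    ∀ (g : G) (y z : N), z.1 = ρ.toHom g *ᵥ y.1 → f z = (χ g : ℂ) * f y}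
  add_mem' := by
    rintro a b ⟨ha', ha⟩ ⟨hb', hb⟩
    refine ⟨add_mem ha' hb', fun g y z h => ?_⟩
    rw [Pi.add_apply, Pi.add_apply, ha g y z h, hb g y z h, mul_add]
  zero_mem' := ⟨zero_mem _, fun g y z h => by simp⟩
  smul_mem' := by
    rintro c a ⟨ha', ha⟩
    refine ⟨Subalgebra.smul_mem _ ha' c, fun g y z h => ?_⟩
    rw [Pi.smul_apply, Pi.smul_apply, ha g y z h, smul_eq_mul, smul_eq_mul]
    ring

lemma mem_semiInv {ρ : RatRep G ι} {N : Set (ι → ℂ)} {χ : G →* ℂˣ} {f : N → ℂ} :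
    f ∈ semiInv ρ N χ ↔ f ∈ polyFun N ∧
      ∀ (g : G) (y z : N), z.1 = ρ.toHom g *ᵥ y.1 → f z = (χ g : ℂ) * f y := Iff.rfl

lemma semiInv_one_mem (ρ : RatRep G ι) (N : Set (ι → ℂ)) :
    (1 : N → ℂ) ∈ semiInv ρ N 1 :=
  ⟨one_mem _, fun g y z h => by simp⟩

lemma semiInv_mul_mem {ρ : RatRep G ι} {N : Set (ι → ℂ)} {χ ψ : G →* ℂˣ} {a b : N → ℂ}
    (ha : a ∈ semiInv ρ N χ) (hb : b ∈ semiInv ρ N ψ) : a * b ∈ semiInv ρ N (χ * ψ) := by
  refine ⟨mul_mem ha.1 hb.1, fun g y z h => ?_⟩
  rw [Pi.mul_apply, Pi.mul_apply, ha.2 g y z h, hb.2 g y z h, MonoidHom.mul_apply, Units.val_mul]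
  ring

lemma char_pow_add (θ : G →* ℂˣ) (a b : ℕ) : θ ^ (a + b) = θ ^ a * θ ^ b := by
  ext g
  simp [pow_add]

lemma char_pow_zero (θ : G →* ℂˣ) : θ ^ 0 = 1 := by
  ext g
  simp

/-- The spaces `ℂ[N]^{G,θ^k}`, `k ≥ 0`. -/
noncomputable def gitM (ρ : RatRep G ι) (N : Set (ι → ℂ)) (θ : G →* ℂˣ) (k : ℕ) :
    AddSubgroup (N → ℂ) := (semiInv ρ N (θ ^ k)).toAddSubgroup

instance gitMonoid (ρ : RatRep G ι) (N : Set (ι → ℂ)) (θ : G →* ℂˣ) :
    SetLike.GradedMonoid (gitM ρ N θ) where
  one_mem := by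
    change (1 : N → ℂ) ∈ semiInv ρ N (θ ^ 0)
    rw [char_pow_zero]; exact semiInv_one_mem ρ N
  mul_mem := by
    intro i j a b ha hb
    change a * b ∈ semiInv ρ N (θ ^ (i + j))
    rw [char_pow_add]; exact semiInv_mul_mem ha hb

end Reps

section SectionRing

variable {R : Type} [CommRing R]

/-- For additive subgroups `M_k` of `R` with `1 ∈ M_0` and `M_i M_j ⊆ M_(i+j)`: the graded ring
`⊕_k M_k`, as the ring of all polynomials `∑ f_k t^k` with `f_k ∈ M_k`. -/
def sectionRing (M : ℕ → AddSubgroup R) [SetLike.GradedMonoid M] : Subring (Polynomial R) where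
  carrier := {P | ∀ k, P.coeff k ∈ M k}
  mul_mem' := by
    intro a b ha hb k
    rw [Polynomial.coeff_mul]
    refine AddSubgroup.sum_mem _ fun x hx => ?_
    rw [← Finset.mem_antidiagonal.mp hx]
    exact SetLike.mul_mem_graded (ha _) (hb _)
  one_mem' := by
    intro k
    rw [Polynomial.coeff_one]
    split_ifs with h
    · subst h; exact SetLike.one_mem_graded M
    · exact zero_mem _
  add_mem' := by
    intro a b ha hb k
    rw [Polynomial.coeff_add]
    exact add_mem (ha k) (hb k)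
  zero_mem' := by
    intro k
    rw [Polynomial.coeff_zero]
    exact zero_mem _
  neg_mem' := by
    intro a ha k
    rw [Polynomial.coeff_neg]
    exact neg_mem (ha k)

/-- The degree `k` part `M_k t^k` of `⊕_k M_k`. -/
def sectionGr (M : ℕ → AddSubgroup R) [SetLike.GradedMonoid M] (k : ℕ) :
    AddSubgroup (sectionRing M) where
  carrier := {P | ∀ j, j ≠ k → P.1.coeff j = 0}
  add_mem' := by
    intro a b ha hb j hj
    change (a.1 + b.1).coeff j = 0
    rw [Polynomial.coeff_add, ha j hj, hb j hj, add_zero]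
  zero_mem' := by
    intro j hj
    rfl
  neg_mem' := by
    intro a ha j hj
    change (- a.1).coeff j = 0
    rw [Polynomial.coeff_neg, ha j hj, neg_zero]

/-- The homogeneous component. -/
noncomputable def sectionComp (M : ℕ → AddSubgroup R) [SetLike.GradedMonoid M]
    (P : sectionRing M) (k : ℕ) : sectionGr M k :=
  ⟨⟨Polynomial.monomial k (P.1.coeff k), fun j => by
      rw [Polynomial.coeff_monomial]
      split_ifs with h
      · subst h; exact P.2 k
      · exact zero_mem _⟩, fun j hj => by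
      simp [Polynomial.coeff_monomial, hj.symm]⟩

lemma sectionComp_sum (M : ℕ → AddSubgroup R) [SetLike.GradedMonoid M] (P : sectionRing M)
    (k : ℕ) : (∑ k ∈ P.1.support,
      DirectSum.of (fun k => sectionGr M k) k (sectionComp M P k)) k = sectionComp M P k := by
  rw [DFinsupp.finsetSum_apply]
  by_cases hk : k ∈ P.1.support
  · rw [Finset.sum_eq_single k]
    · exact DirectSum.of_eq_same _ _
    · intro j _ hj
      exact DirectSum.of_eq_of_ne _ _ _ hj.symm
    · intro h; exact absurd hk h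
  · rw [Finset.sum_eq_zero]
    · apply Subtype.ext
      apply Subtype.ext
      simp [sectionComp, Polynomial.notMem_support_iff.mp hk]
    · intro j hj
      refine DirectSum.of_eq_of_ne _ _ _ ?_
      rintro rfl
      exact hk hj

/-- `⊕_k M_k` is graded by its parts `M_k t^k`. -/
theorem exists_sectionGrading (M : ℕ → AddSubgroup R) [SetLike.GradedMonoid M] :
    Nonempty (GradedRing (sectionGr M)) := ⟨{
  one_mem := by
    intro j hj
    change (1 : Polynomial R).coeff j = 0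
    simp [Polynomial.coeff_one, hj]
  mul_mem := by
    intro i j a b ha hb k hk
    change (a.1 * b.1).coeff k = 0
    rw [Polynomial.coeff_mul]
    refine Finset.sum_eq_zero fun x hx => ?_
    rw [Finset.mem_antidiagonal] at hx
    by_cases h1 : x.1 = i
    · have h2 : x.2 ≠ j := by rintro rfl; exact hk (by rw [← hx, h1])
      rw [hb _ h2, mul_zero]
    · rw [ha _ h1, zero_mul]
  decompose' := fun P =>
    ∑ k ∈ P.1.support, DirectSum.of (fun k => sectionGr M k) k (sectionComp M P k)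
  left_inv := by
    intro P
    rw [map_sum]
    apply Subtype.ext
    rw [AddSubmonoidClass.coe_finsetSum]
    conv_rhs => rw [Polynomial.as_sum_support P.1]
    refine Finset.sum_congr rfl fun k _ => ?_
    rw [DirectSum.coeAddMonoidHom_of]
    rfl
  right_inv := by
    intro x
    refine DFinsupp.ext fun k => ?_
    rw [sectionComp_sum]
    apply Subtype.ext
    apply Subtype.ext
    induction x using DirectSum.induction_on with
    | zero => simp [sectionComp]
    | of i x =>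
      rw [DirectSum.coeAddMonoidHom_of]
      by_cases h : i = k
      · subst h
        rw [DirectSum.of_eq_same]
        ext j : 1
        simp only [sectionComp, Polynomial.coeff_monomial]
        split_ifs with hj
        · exact congrArg x.1.1.coeff hj
        · exact (x.2 j (Ne.symm hj)).symm
      · rw [DirectSum.of_eq_of_ne _ _ _ (Ne.symm h)]
        simp [sectionComp, x.2 k (Ne.symm h)]
    | add x y hx hy =>
      simp only [map_add, sectionComp, DirectSum.add_apply, AddSubgroup.coe_add, Subring.coe_add,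
        Polynomial.coeff_add] at hx hy ⊢
      rw [← hx, ← hy] }⟩

/-- The grading of `⊕_k M_k` (unique, as it is determined by the parts `M_k t^k`). -/
noncomputable instance sectionGraded (M : ℕ → AddSubgroup R) [SetLike.GradedMonoid M] :
    GradedRing (sectionGr M) := Classical.choice (exists_sectionGrading M)

/-- `Proj ⊕_k M_k`. -/
noncomputable def sectionProj (M : ℕ → AddSubgroup R) [SetLike.GradedMonoid M] : Scheme :=
  Proj (sectionGr M)

end SectionRing

section Git

variable {n : Type} [Fintype n] [DecidableEq n] {G : Subgroup (GL n ℂ)}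
variable {ι : Type} [Fintype ι] [DecidableEq ι]

/-- The ring `⊕_k ℂ[N]^{G,θ^k}`. -/
noncomputable abbrev gitRing (ρ : RatRep G ι) (N : Set (ι → ℂ)) (θ : G →* ℂˣ) :
    Subring (Polynomial (N → ℂ)) := sectionRing (gitM ρ N θ)

/-- The degree `k` part of `gitRing`. -/
noncomputable abbrev gitGr (ρ : RatRep G ι) (N : Set (ι → ℂ)) (θ : G →* ℂˣ) (k : ℕ) :
    AddSubgroup (gitRing ρ N θ) := sectionGr (gitM ρ N θ) k

/-- The GIT quotient `N //_θ G = Proj ⊕_k ℂ[N]^{G,θ^k}`. -/
noncomputable def gitQuot (ρ : RatRep G ι) (N : Set (ι → ℂ)) (θ : G →* ℂˣ) : Scheme :=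
  sectionProj (gitM ρ N θ)

end Git


/-- Every prime divisor of `X` has a positive multiple that is Cartier: for every point `z` of
codimension one there is `N ≥ 1` such that at every point `x` of the closure of `z` the ideal of
all `f` in the local ring at `x` that vanish to order at least `N` at `z` is principal. -/
def DivisorsQCartier (X : Scheme) : Prop :=
  ∀ z : X, ringKrullDim (X.presheaf.stalk z) = 1 → ∃ N : ℕ, 1 ≤ N ∧
    ∀ (x : X) (h : z ⤳ x), (Ideal.comap (X.presheaf.stalkSpecializes h).hom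
      (IsLocalRing.maximalIdeal (X.presheaf.stalk z) ^ N)).IsPrincipal

/-- `X` is `ℚ`-factorial: irreducible, normal, and every Weil divisor has a positive multiple that
is Cartier. -/
def IsQFactorial (X : Scheme) : Prop :=
  PreirreducibleSpace X ∧
  (∀ x : X, IsDomain (X.presheaf.stalk x) ∧ IsIntegrallyClosed (X.presheaf.stalk x)) ∧
  DivisorsQCartier X

/-- `P v` holds for all `v` in the abelian group `X` outside some finite union of proper linear
subspaces of `X ⊗ ℝ`. -/
def GenericIn {X : Type} [AddCommGroup X] (P : X → Prop) : Prop :=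
  ∃ F : Set (Submodule ℝ (ℝ ⊗[ℤ] X)), F.Finite ∧ (∀ W ∈ F, W ≠ ⊤) ∧
    ∀ v : X, (∀ W ∈ F, (1 : ℝ) ⊗ₜ[ℤ] v ∉ W) → P v

/-- `P θ` holds for generic `θ`: for every rational character outside some finite union of proper
linear subspaces of `X(G) ⊗ ℝ`. -/
def ForGeneric {n : Type} [Fintype n] [DecidableEq n] (G : Subgroup (GL n ℂ))
    (P : (G →* ℂˣ) → Prop) : Prop :=
  GenericIn fun θ : Additive (ratChar G) => P (Additive.toMul θ : ratChar G)

/-- Q1: the answer is yes. -/
def Q1 : Prop :=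
  ∀ (n : Type) [Fintype n] [DecidableEq n] (G : Subgroup (GL n ℂ)), IsAlgGroup G → IsReductive G →
  ∀ (ι : Type) [Fintype ι] [DecidableEq ι] (ρ : RatRep G ι), ρ.IsLarge 2 →
    ForGeneric G fun θ => IsQFactorial (gitQuot ρ.cotangent ρ.cotangentZeroFibre θ)

/-- Q2. -/
def Q2 : Prop :=
  ∀ (n : Type) [Fintype n] [DecidableEq n] (G : Subgroup (GL n ℂ)), IsAlgGroup G → IsReductive G →
  ∀ (ι : Type) [Fintype ι] [DecidableEq ι] (ρ : RatRep G ι) (Ω : Matrix ι ι ℂ),
    ρ.IsSymplectic Ω → ρ.IsLarge 4 →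
    ForGeneric G fun θ => DivisorsQCartier (gitQuot ρ (ρ.zeroFibre Ω) θ)

end Pool.Agent.Lib.MP_462b8b_ag
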