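import Pool.Agent.Lib.MP_462b8b_ag.Defs
import Mathlib.RingTheory.MvPolynomial.Homogeneous
import Mathlib.RingTheory.GradedAlgebra.Basic
import Mathlib.LinearAlgebra.Dual.Lemmas
import Mathlib.Algebra.Polynomial.Roots
import Mathlib.RingTheory.Polynomial.Basic

/-! MP_462b8b_ag, module HILB: the semi-invariants of all rational characters on a stable cone
are generated by finitely many of them (Hilbert). -/

open Matrix MvPolynomial

namespace Pool.Agent.Lib.MP_462b8b_ag

set_option linter.unusedSectionVars false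

section hilb
variable {n : Type} [Fintype n] [DecidableEq n] {G : Subgroup (GL n ℂ)}
variable {ι : Type} [Fintype ι] [DecidableEq ι]

lemma hilb_aeval_apply {κ X : Type} (F : κ → X → ℂ) (p : MvPolynomial κ ℂ) (x : X) :
    (aeval F p : X → ℂ) x = eval (fun s => F s x) p := by
  have h : (Pi.evalAlgHom ℂ (fun _ : X => ℂ) x).comp (aeval F) =
      (aeval (fun s => F s x) : MvPolynomial κ ℂ →ₐ[ℂ] ℂ) := by
    apply MvPolynomial.algHom_ext
    intro i
    simp
  have h2 := congrArg (fun φ : MvPolynomial κ ℂ →ₐ[ℂ] ℂ => φ p) h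
  simpa [coe_aeval_eq_eval] using h2

/-- algebra of regular functions -/
noncomputable def hilbReg (G : Subgroup (GL n ℂ)) : Subalgebra ℂ (G → ℂ) :=
  (aeval (fun (s : (n × n) ⊕ (n × n)) (g : G) =>
    Sum.elim (fun ij => (g : GL n ℂ).val ij.1 ij.2)
      (fun ij => ((g : GL n ℂ)⁻¹).val ij.1 ij.2) s) :
        MvPolynomial ((n × n) ⊕ (n × n)) ℂ →ₐ[ℂ] (G → ℂ)).range

lemma hilb_mem_reg (f : G → ℂ) : f ∈ hilbReg G ↔ IsRegularFun G f := by
  constructor
  · rintro ⟨p, rfl⟩
    exact ⟨p, fun g => hilb_aeval_apply _ _ _⟩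
  · rintro ⟨p, hp⟩
    refine ⟨p, ?_⟩
    funext g
    rw [hp]
    exact hilb_aeval_apply _ _ _

lemma hilb_reg_inv {f : G → ℂ} (hf : f ∈ hilbReg G) : (fun g => f g⁻¹) ∈ hilbReg G := by
  rw [hilb_mem_reg] at hf ⊢
  obtain ⟨p, hp⟩ := hf
  refine ⟨rename Sum.swap p, fun g => ?_⟩
  rw [eval_rename]
  refine (hp g⁻¹).trans ?_
  congr 2
  funext ij
  rcases ij with ij | ij <;> simp

/-- polynomials in regular functions are regular -/
lemma hilb_reg_aeval {κ : Type} (F : κ → G → ℂ) (hF : ∀ i, F i ∈ hilbReg G)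
    (p : MvPolynomial κ ℂ) : (fun g => eval (fun i => F i g) p) ∈ hilbReg G := by
  have h : (fun g => eval (fun i => F i g) p) = aeval F p := by
    funext g
    rw [hilb_aeval_apply]
  rw [h]
  have h2 : aeval F p = (aeval (fun i => (⟨F i, hF i⟩ : hilbReg G)) p : hilbReg G).1 := by
    have h3 : (hilbReg G).val.comp (aeval (fun i => (⟨F i, hF i⟩ : hilbReg G))) =
        (aeval F : MvPolynomial κ ℂ →ₐ[ℂ] (G → ℂ)) := by
      apply MvPolynomial.algHom_ext
      intro i
      simp
    exact (congrArg (fun φ : MvPolynomial κ ℂ →ₐ[ℂ] (G → ℂ) => φ p) h3).symm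
  rw [h2]
  exact (aeval (fun i => (⟨F i, hF i⟩ : hilbReg G)) p : hilbReg G).2

/-- Step 0: complete reducibility for abstract representations with regular coefficients
(right actions). -/
lemma hilb_compl (hred : IsReductive G) {W : Type} [AddCommGroup W] [Module ℂ W]
    [FiniteDimensional ℂ W] (T : G → (W →ₗ[ℂ] W)) (hT1 : T 1 = LinearMap.id)
    (hT : ∀ g h, T (g * h) = T h ∘ₗ T g) {X : Type} (φ : X → Module.Dual ℂ W)
    (hsep : ∀ w, (∀ x, φ x w = 0) → w = 0)
    (hreg : ∀ x w, (fun g => φ x (T g w)) ∈ hilbReg G)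
    (K : Submodule ℂ W) (hK : ∀ g, ∀ w ∈ K, T g w ∈ K) :
    ∃ K' : Submodule ℂ W, (∀ g, ∀ w ∈ K', T g w ∈ K') ∧ IsCompl K K' := by
  classical
  have hspan : Submodule.span ℂ (Set.range φ) = ⊤ := by
    rw [← Subspace.dualCoannihilator_dualAnnihilator_eq (W := Submodule.span ℂ (Set.range φ))]
    have hb : (Submodule.span ℂ (Set.range φ)).dualCoannihilator = ⊥ := by
      rw [eq_bot_iff]
      intro w hw
      rw [Submodule.mem_dualCoannihilator] at hw
      rw [Submodule.mem_bot]
      exact hsep w fun x => hw (φ x) (Submodule.subset_span ⟨x, rfl⟩)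
    rw [hb, Submodule.dualAnnihilator_bot]
  have hregall : ∀ (L : Module.Dual ℂ W) (w : W), (fun g => L (T g w)) ∈ hilbReg G := by
    intro L w
    have hL : L ∈ Submodule.span ℂ (Set.range φ) := by rw [hspan]; trivial
    induction hL using Submodule.span_induction with
    | mem L hL => obtain ⟨x, rfl⟩ := hL; exact hreg x w
    | zero => exact (hilbReg G).zero_mem
    | add L L' _ _ h h' => exact (hilbReg G).add_mem h h'
    | smul c L _ h => exact (hilbReg G).smul_mem h c
  let b := Module.finBasis ℂ W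
  let M : G →* Matrix (Fin (Module.finrank ℂ W)) (Fin (Module.finrank ℂ W)) ℂ :=
    { toFun := fun g => LinearMap.toMatrix b b (T g⁻¹)
      map_one' := by rw [inv_one, hT1]; exact LinearMap.toMatrix_id b
      map_mul' := fun g h => by
        rw [_root_.mul_inv_rev, hT, LinearMap.toMatrix_comp b b b] }
  have hM : ∀ g w, M g *ᵥ (b.equivFun w) = b.equivFun (T g⁻¹ w) := by
    intro g w
    exact LinearMap.toMatrix_mulVec_repr b b (T g⁻¹) w
  let R : RatRep G (Fin (Module.finrank ℂ W)) :=
    { toHom := M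
      regular := fun i j => by
        rw [← hilb_mem_reg]
        have h1 : (fun g => M g i j) = fun g => b.coord i (T g⁻¹ (b j)) := by
          funext g
          change LinearMap.toMatrix b b (T g⁻¹) i j = _
          rw [LinearMap.toMatrix_apply]
          rfl
        rw [h1]
        exact hilb_reg_inv (hregall (b.coord i) (b j)) }
  obtain ⟨W', hW', hc⟩ := hred _ R (K.map (b.equivFun : W →ₗ[ℂ] _)) (by
    rintro g _ ⟨w, hw, rfl⟩
    exact ⟨T g⁻¹ w, hK _ w hw, (hM g w).symm⟩)
  refine ⟨W'.comap (b.equivFun : W →ₗ[ℂ] _), ?_, ?_⟩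
  · intro g w hw
    have h1 := hW' g⁻¹ _ hw
    have h2 : R.toHom g⁻¹ *ᵥ (b.equivFun w) = b.equivFun (T g⁻¹⁻¹ w) := hM g⁻¹ w
    rw [inv_inv] at h2
    change b.equivFun (T g w) ∈ W'
    rw [← h2]
    exact h1
  · have h1 : W'.comap (b.equivFun : W →ₗ[ℂ] _) = W'.map (b.equivFun.symm : _ →ₗ[ℂ] W) :=
      (Submodule.map_equiv_eq_comap_symm b.equivFun.symm W').symm
    constructor
    · rw [Submodule.disjoint_def]
      intro w hw hw'
      have := (Submodule.disjoint_def.1 hc.disjoint) (b.equivFun w) ⟨w, hw, rfl⟩ hw'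
      exact b.equivFun.map_eq_zero_iff.1 this
    · rw [codisjoint_iff, eq_top_iff]
      intro w _
      have h2 : b.equivFun w ∈ K.map (b.equivFun : W →ₗ[ℂ] _) ⊔ W' := by
        rw [hc.sup_eq_top]; trivial
      obtain ⟨u, ⟨k, hk, rfl⟩, v, hv, huv⟩ := Submodule.mem_sup.1 h2
      rw [Submodule.mem_sup]
      refine ⟨k, hk, w - k, ?_, by abel⟩
      change b.equivFun (w - k) ∈ W'
      have h3 : v = b.equivFun (w - k) := by
        rw [map_sub, ← huv]
        simp
      rw [← h3]
      exact hv

/-- restriction of polynomials to `N` -/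
noncomputable def hilbRes (N : Set (ι → ℂ)) : MvPolynomial ι ℂ →ₐ[ℂ] (N → ℂ) :=
  aeval (fun i (y : N) => y.1 i)

lemma hilbRes_apply (N : Set (ι → ℂ)) (p : MvPolynomial ι ℂ) (y : N) :
    hilbRes N p y = eval y.1 p := hilb_aeval_apply _ _ _

lemma hilb_mem_polyFun {N : Set (ι → ℂ)} {f : N → ℂ} :
    f ∈ polyFun N ↔ ∃ p, hilbRes N p = f := Iff.rfl

/-- functions on `N` given by homogeneous polynomials of degree `e` -/
noncomputable def hilbD (N : Set (ι → ℂ)) (e : ℕ) : Submodule ℂ (N → ℂ) :=
  (homogeneousSubmodule ι ℂ e).map (hilbRes N).toLinearMap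

lemma hilb_mem_D {N : Set (ι → ℂ)} {e : ℕ} {f : N → ℂ} :
    f ∈ hilbD N e ↔ ∃ p : MvPolynomial ι ℂ, p.IsHomogeneous e ∧ hilbRes N p = f := Iff.rfl

/-- composition with the action of `g` on polynomials -/
noncomputable def hilbSub (A : Matrix ι ι ℂ) : MvPolynomial ι ℂ →ₐ[ℂ] MvPolynomial ι ℂ :=
  aeval (fun i => ∑ j, C (A i j) * X j)

lemma hilbSub_eval (A : Matrix ι ι ℂ) (p : MvPolynomial ι ℂ) (y : ι → ℂ) :
    eval y (hilbSub A p) = eval (A *ᵥ y) p := by
  have h : ((aeval y : MvPolynomial ι ℂ →ₐ[ℂ] ℂ)).comp (hilbSub A) = aeval (A *ᵥ y) := by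
    apply MvPolynomial.algHom_ext
    intro i
    simp [hilbSub, Matrix.mulVec, dotProduct]
  have h2 := congrArg (fun φ : MvPolynomial ι ℂ →ₐ[ℂ] ℂ => φ p) h
  simpa [coe_aeval_eq_eval] using h2

lemma hilbSub_homog (A : Matrix ι ι ℂ) {p : MvPolynomial ι ℂ} {e : ℕ} (hp : p.IsHomogeneous e) :
    (hilbSub A p).IsHomogeneous e := by
  have h := hp.aeval (n := 1) (fun i => ∑ j, C (A i j) * X j) (fun i => by
    refine IsHomogeneous.sum _ _ _ fun j _ => ?_
    simpa using (isHomogeneous_C ι (A i j)).mul (isHomogeneous_X ℂ j))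
  simpa [hilbSub] using h

instance hilb_finite_homog (e : ℕ) : FiniteDimensional ℂ (homogeneousSubmodule ι ℂ e) := by
  have h : homogeneousSubmodule ι ℂ e ≤ restrictTotalDegree ι ℂ e := by
    intro p hp
    rw [mem_restrictTotalDegree]
    exact (mem_homogeneousSubmodule e p |>.1 hp).totalDegree_le
  exact Submodule.finiteDimensional_of_le h

instance hilb_finite_D (N : Set (ι → ℂ)) (e : ℕ) : FiniteDimensional ℂ (hilbD N e) := by
  unfold hilbD
  infer_instance

/-- the action on `N` -/
def hilbMv (ρ : RatRep G ι) {N : Set (ι → ℂ)} (hst : ∀ g : G, ∀ y ∈ N, ρ.toHom g *ᵥ y ∈ N)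
    (g : G) (y : N) : N := ⟨ρ.toHom g *ᵥ y.1, hst g y.1 y.2⟩

variable (ρ : RatRep G ι) {N : Set (ι → ℂ)} (hst : ∀ g : G, ∀ y ∈ N, ρ.toHom g *ᵥ y ∈ N)

lemma hilbMv_mul (g h : G) (y : N) :
    hilbMv ρ hst (g * h) y = hilbMv ρ hst g (hilbMv ρ hst h y) := by
  apply Subtype.ext
  simp [hilbMv]

lemma hilbMv_one (y : N) : hilbMv ρ hst 1 y = y := by
  apply Subtype.ext
  simp [hilbMv]

lemma hilb_D_stable {e : ℕ} {f : N → ℂ} (hf : f ∈ hilbD N e) (g : G) :
    (fun y => f (hilbMv ρ hst g y)) ∈ hilbD N e := by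
  obtain ⟨p, hp, rfl⟩ := hilb_mem_D.1 hf
  refine hilb_mem_D.2 ⟨hilbSub (ρ.toHom g) p, hilbSub_homog _ hp, ?_⟩
  funext y
  rw [hilbRes_apply, hilbRes_apply, hilbSub_eval]
  rfl

lemma hilb_D_regular {e : ℕ} {f : N → ℂ} (hf : f ∈ hilbD N e) (y : N) :
    (fun g => f (hilbMv ρ hst g y)) ∈ hilbReg G := by
  obtain ⟨p, hp, rfl⟩ := hilb_mem_D.1 hf
  have h := hilb_reg_aeval (G := G) (fun i g => (ρ.toHom g *ᵥ y.1) i) (fun i => by
    have h1 : (fun g : G => (ρ.toHom g *ᵥ y.1) i) =
        ∑ j, (y.1 j) • (fun g : G => ρ.toHom g i j) := by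
      funext g
      simp [Matrix.mulVec, dotProduct, mul_comm]
    rw [h1]
    exact (hilbReg G).sum_mem fun j _ => (hilbReg G).smul_mem
      ((hilb_mem_reg _).2 (ρ.regular i j)) _) p
  have h2 : (fun g => hilbRes N p (hilbMv ρ hst g y)) =
      fun g => eval (fun i => (ρ.toHom g *ᵥ y.1) i) p := by
    funext g
    rw [hilbRes_apply]
    rfl
  rw [h2]
  exact h

lemma hilb_mem_semiInv {χ : G →* ℂˣ} {f : N → ℂ} : f ∈ semiInv ρ N χ ↔
    f ∈ polyFun N ∧ ∀ (g : G) (y : N), f (hilbMv ρ hst g y) = (χ g : ℂ) * f y := by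
  rw [mem_semiInv]
  refine and_congr_right fun _ => ⟨fun h g y => h g y _ rfl, fun h g y z hz => ?_⟩
  rw [← h g y]
  congr 1
  exact Subtype.ext hz

/-- The key step: lift semi-invariants through `b ↦ ∑ s_i b_i`. -/
lemma hilb_descent (hred : IsReductive G) {m : ℕ} (s : Fin m → (N → ℂ)) (χ : Fin m → ratChar G)
    (hs : ∀ i (g : G) (y : N), s i (hilbMv ρ hst g y) = ((χ i).1 g : ℂ) * s i y)
    (D : Fin m → Submodule ℂ (N → ℂ)) [∀ i, FiniteDimensional ℂ (D i)]
    (hDst : ∀ i, ∀ f ∈ D i, ∀ g : G, (fun y => f (hilbMv ρ hst g y)) ∈ D i)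
    (hDreg : ∀ i, ∀ f ∈ D i, ∀ y : N, (fun g : G => f (hilbMv ρ hst g y)) ∈ hilbReg G)
    (ψ : G →* ℂˣ) (f : N → ℂ) (hf : ∀ (g : G) (y : N), f (hilbMv ρ hst g y) = (ψ g : ℂ) * f y)
    (b : ∀ i, D i) (hb : f = ∑ i, s i * (b i).1) :
    ∃ b' : ∀ i, D i, f = ∑ i, s i * (b' i).1 ∧
      ∀ i (g : G) (y : N), ((χ i).1 g : ℂ) * (b' i).1 (hilbMv ρ hst g y) =
        (ψ g : ℂ) * (b' i).1 y := by
  classical
  let T : G → ((∀ i, D i) →ₗ[ℂ] (∀ i, D i)) := fun g =>
    { toFun := fun c i => ⟨fun y => ((χ i).1 g : ℂ) * (c i).1 (hilbMv ρ hst g y),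
        (D i).smul_mem ((χ i).1 g : ℂ) (hDst i _ (c i).2 g)⟩
      map_add' := fun c d => by
        funext i
        apply Subtype.ext
        funext y
        simp [mul_add]
      map_smul' := fun t c => by
        funext i
        apply Subtype.ext
        funext y
        simp
        ring }
  have hTapp : ∀ g c i y, (T g c i).1 y = ((χ i).1 g : ℂ) * (c i).1 (hilbMv ρ hst g y) :=
    fun _ _ _ _ => rfl
  have hT1 : T 1 = LinearMap.id := by
    refine LinearMap.ext fun c => ?_
    funext i
    apply Subtype.ext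
    funext y
    rw [hTapp, hilbMv_one]
    simp
  have hTm : ∀ g h, T (g * h) = T h ∘ₗ T g := by
    intro g h
    refine LinearMap.ext fun c => ?_
    funext i
    apply Subtype.ext
    funext y
    rw [LinearMap.comp_apply, hTapp, hTapp, hTapp, hilbMv_mul, map_mul, Units.val_mul]
    ring
  let φ : (Fin m × N) → Module.Dual ℂ (∀ i, D i) := fun x =>
    { toFun := fun c => (c x.1).1 x.2
      map_add' := fun c d => by simp
      map_smul' := fun t c => by simp }
  let π : (∀ i, D i) →ₗ[ℂ] (N → ℂ) :=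
    { toFun := fun c => ∑ i, s i * (c i).1
      map_add' := fun c d => by simp [mul_add, Finset.sum_add_distrib]
      map_smul' := fun t c => by
        rw [RingHom.id_apply, Finset.smul_sum]
        refine Finset.sum_congr rfl fun i _ => ?_
        simp }
  have hπapp : ∀ c, π c = ∑ i, s i * (c i).1 := fun _ => rfl
  have hπT : ∀ g c y, π (T g c) y = π c (hilbMv ρ hst g y) := by
    intro g c y
    rw [hπapp, hπapp, Finset.sum_apply, Finset.sum_apply]
    refine Finset.sum_congr rfl fun i _ => ?_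
    rw [Pi.mul_apply, Pi.mul_apply, hTapp, hs]
    ring
  obtain ⟨K', hK', hc⟩ := hilb_compl hred T hT1 hTm φ
    (by
      intro w hw
      funext i
      apply Subtype.ext
      funext y
      exact hw (i, y))
    (by
      rintro ⟨i, y⟩ w
      have h1 := hDreg i (w i).1 (w i).2 y
      have h2 : (fun g : G => (((χ i).1 g : ℂˣ) : ℂ)) ∈ hilbReg G := (hilb_mem_reg _).2 (χ i).2
      exact (hilbReg G).mul_mem h2 h1)
    (LinearMap.ker π)
    (by
      intro g w hw
      rw [LinearMap.mem_ker] at hw ⊢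
      funext y
      rw [hπT, hw]
      rfl)
  have hbtop : b ∈ LinearMap.ker π ⊔ K' := by rw [hc.sup_eq_top]; trivial
  obtain ⟨k, hk, b', hb', hkb⟩ := Submodule.mem_sup.1 hbtop
  have hπb' : π b' = f := by
    have h1 : π b = f := by rw [hπapp, ← hb]
    rw [← hkb, map_add, LinearMap.mem_ker.1 hk, zero_add] at h1
    exact h1
  refine ⟨b', by rw [← hπapp, hπb'], ?_⟩
  intro i g y
  have h1 : T g b' - (ψ g : ℂ) • b' ∈ K' := K'.sub_mem (hK' g b' hb') (K'.smul_mem _ hb')
  have h2 : T g b' - (ψ g : ℂ) • b' ∈ LinearMap.ker π := by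
    rw [LinearMap.mem_ker, map_sub, map_smul, hπb']
    funext z
    rw [Pi.sub_apply, hπT, hπb', hf]
    simp
  have h3 := Submodule.disjoint_def.1 hc.disjoint _ h2 h1
  have h4 : T g b' = (ψ g : ℂ) • b' := sub_eq_zero.1 h3
  have h5 := congrArg (fun c : (∀ i, D i) => (c i).1 y) h4
  exact h5

end hilb

attribute [local instance] MvPolynomial.gradedAlgebra

lemma hilb_homComp_mul {ι : Type} (c q : MvPolynomial ι ℂ) {d e : ℕ} (hq : q.IsHomogeneous d) :
    homogeneousComponent e (c * q) =
      if d ≤ e then homogeneousComponent (e - d) c * q else 0 := by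
  have h := DirectSum.coe_decompose_mul_of_right_mem (𝒜 := homogeneousSubmodule ι ℂ) (a := c) e
    ((mem_homogeneousSubmodule d q).2 hq)
  have h1 : ∀ (r : MvPolynomial ι ℂ) (k : ℕ),
      ((DirectSum.decompose (homogeneousSubmodule ι ℂ) r) k : MvPolynomial ι ℂ) =
        homogeneousComponent k r := fun r k => decomposition.decompose'_apply r k
  rw [h1, h1] at h
  exact h

section hilb2
variable {n : Type} [Fintype n] [DecidableEq n] {G : Subgroup (GL n ℂ)}
variable {ι : Type} [Fintype ι] [DecidableEq ι]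

theorem exists_generators (hred : IsReductive G) (ρ : RatRep G ι) (N : Set (ι → ℂ))
    (hcone : ∀ t : ℂ, ∀ y ∈ N, t • y ∈ N) (hst : ∀ g : G, ∀ y ∈ N, ρ.toHom g *ᵥ y ∈ N) :
    ∃ (m : ℕ) (s : Fin m → (N → ℂ)) (χ : Fin m → ratChar G),
      (∀ i, s i ∈ semiInv ρ N (χ i)) ∧
      ∀ (ψ : ratChar G) (f : N → ℂ), f ∈ semiInv ρ N ψ →
        f ∈ Submodule.span ℂ {F | ∃ a : Fin m → ℕ, F = ∏ i, s i ^ a i ∧ ∏ i, χ i ^ a i = ψ} := by
  classical
  let S : Set (MvPolynomial ι ℂ) :=
    {p | ∃ e : ℕ, 0 < e ∧ p.IsHomogeneous e ∧ ∃ χ : ratChar G, hilbRes N p ∈ semiInv ρ N χ.1}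
  have hfg : (Ideal.span S).FG := IsNoetherian.noetherian _
  obtain ⟨F, hFS, hF⟩ := (Submodule.fg_span_iff_fg_span_finset_subset S).1 hfg
  let P : Fin F.card → MvPolynomial ι ℂ := fun i => (F.equivFin.symm i).1
  have hP : ∀ i, P i ∈ S := fun i => hFS (F.equivFin.symm i).2
  choose e he hPh χ hχ using hP
  have hspanP : Ideal.span S = Ideal.span (Set.range P) := by
    have h1 : Set.range P = (F : Set (MvPolynomial ι ℂ)) := by
      ext q
      constructor
      · rintro ⟨i, rfl⟩
        exact (F.equivFin.symm i).2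
      · intro hq
        exact ⟨F.equivFin ⟨q, hq⟩, by simp [P]⟩
    rw [h1]
    exact hF
  refine ⟨F.card, fun i => hilbRes N (P i), χ, hχ, ?_⟩
  set s : Fin F.card → (N → ℂ) := fun i => hilbRes N (P i) with hs
  let Sp : ratChar G → Submodule ℂ (N → ℂ) := fun ψ =>
    Submodule.span ℂ {H | ∃ a : Fin F.card → ℕ, H = ∏ i, s i ^ a i ∧ ∏ i, χ i ^ a i = ψ}
  have hmul : ∀ i ψ f, f ∈ Sp ψ → s i * f ∈ Sp (χ i * ψ) := by
    intro i ψ f hf
    have h1 : Sp ψ ≤ (Sp (χ i * ψ)).comap (LinearMap.mulLeft ℂ (s i)) := by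
      refine Submodule.span_le.2 ?_
      rintro _ ⟨a, rfl, ha⟩
      refine Submodule.subset_span ⟨a + Pi.single i 1, ?_, ?_⟩
      · rw [LinearMap.mulLeft_apply]
        simp only [Pi.add_apply, pow_add, Finset.prod_mul_distrib]
        rw [mul_comm]
        congr 1
        rw [Finset.prod_eq_single i]
        · simp
        · intro j _ hj
          simp [hj]
        · simp
      · simp only [Pi.add_apply, pow_add, Finset.prod_mul_distrib]
        rw [ha, mul_comm]
        congr 1
        rw [Finset.prod_eq_single i]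
        · simp
        · intro j _ hj
          simp [hj]
        · simp
    exact h1 hf
  have hsinv : ∀ i (g : G) (y : N), s i (hilbMv ρ hst g y) = ((χ i).1 g : ℂ) * s i y :=
    fun i => ((hilb_mem_semiInv ρ hst).1 (hχ i)).2
  have claim : ∀ (k : ℕ) (ψ : ratChar G) (f : N → ℂ), f ∈ hilbD N k →
      (∀ (g : G) (y : N), f (hilbMv ρ hst g y) = (ψ.1 g : ℂ) * f y) → f ∈ Sp ψ := by
    intro k
    induction k using Nat.strong_induction_on with
    | _ k ih =>
      intro ψ f hfD hf
      obtain ⟨p, hp, hpf⟩ := hilb_mem_D.1 hfD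
      rcases Nat.eq_zero_or_pos k with rfl | hk
      · -- degree zero
        have hpc : p = C (coeff 0 p) := (totalDegree_eq_zero_iff_eq_C (p := p)).1
          (Nat.le_zero.1 hp.totalDegree_le)
        have hfc : ∀ y, f y = coeff 0 p := by
          intro y
          rw [← hpf, hilbRes_apply]
          conv_lhs => rw [hpc]
          rw [eval_C]
        by_cases h0 : f = 0
        · rw [h0]; exact Submodule.zero_mem _
        · have hy : ∃ y, f y ≠ 0 := by
            by_contra hcon
            push Not at hcon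
            exact h0 (funext hcon)
          obtain ⟨y, hy⟩ := hy
          have hψ : (1 : ratChar G) = ψ := by
            apply Subtype.ext
            apply MonoidHom.ext
            intro g
            apply Units.ext
            have h1 := hf g y
            rw [hfc, hfc] at h1
            rw [hfc] at hy
            have h2 : ((ψ.1 g : ℂ) - 1) * coeff 0 p = 0 := by rw [sub_mul, ← h1]; ring
            rcases mul_eq_zero.1 h2 with h3 | h3
            · rw [sub_eq_zero.1 h3]; rfl
            · exact absurd h3 hy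
          have h1 : f = coeff 0 p • (∏ i, s i ^ (0 : Fin F.card → ℕ) i) := by
            funext z
            rw [hfc]
            simp
          rw [h1]
          refine Submodule.smul_mem _ _ (Submodule.subset_span ⟨0, rfl, ?_⟩)
          simpa using hψ
      · -- positive degree
        have hpS : p ∈ Ideal.span (Set.range P) := by
          rw [← hspanP]
          refine Ideal.subset_span ⟨k, hk, hp, ψ, ?_⟩
          rw [hpf, hilb_mem_semiInv ρ hst]
          exact ⟨⟨p, hpf⟩, hf⟩
        obtain ⟨c, hc⟩ := (Ideal.mem_span_range_iff_exists_fun).1 hpS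
        let D : Fin F.card → Submodule ℂ (N → ℂ) := fun i =>
          if e i ≤ k then hilbD N (k - e i) else ⊥
        have hDfin : ∀ i, FiniteDimensional ℂ (D i) := by
          intro i
          by_cases h : e i ≤ k
          · have h1 : D i = hilbD N (k - e i) := if_pos h
            rw [h1]; infer_instance
          · have h1 : D i = ⊥ := if_neg h
            rw [h1]; infer_instance
        have hDst : ∀ i, ∀ f ∈ D i, ∀ g : G, (fun y => f (hilbMv ρ hst g y)) ∈ D i := by
          intro i f hf g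
          simp only [D] at hf ⊢
          split_ifs at hf ⊢ with h
          · exact hilb_D_stable ρ hst hf g
          · rw [Submodule.mem_bot] at hf ⊢
            rw [hf]; rfl
        have hDreg : ∀ i, ∀ f ∈ D i, ∀ y : N,
            (fun g : G => f (hilbMv ρ hst g y)) ∈ hilbReg G := by
          intro i f hf y
          simp only [D] at hf
          split_ifs at hf with h
          · exact hilb_D_regular ρ hst hf y
          · rw [Submodule.mem_bot] at hf
            rw [hf]
            exact (hilbReg G).zero_mem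
        let b : ∀ i, D i := fun i =>
          ⟨if e i ≤ k then hilbRes N (homogeneousComponent (k - e i) (c i)) else 0, by
            simp only [D]
            split_ifs with h
            · exact hilb_mem_D.2 ⟨_, homogeneousComponent_isHomogeneous _ _, rfl⟩
            · exact Submodule.zero_mem _⟩
        have hb : f = ∑ i, s i * (b i).1 := by
          have h1 : p = ∑ i, (if e i ≤ k then
              homogeneousComponent (k - e i) (c i) * P i else 0) := by
            have h2 : homogeneousComponent k p = p :=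
              (homogeneousComponent_of_mem ((mem_homogeneousSubmodule k p).2 hp)).trans (by simp)
            conv_lhs => rw [← h2, ← hc, map_sum]
            refine Finset.sum_congr rfl fun i _ => ?_
            rw [hilb_homComp_mul _ _ (hPh i)]
          rw [← hpf]
          conv_lhs => rw [h1, map_sum]
          refine Finset.sum_congr rfl fun i _ => ?_
          simp only [b, hs]
          split_ifs with h
          · rw [map_mul, mul_comm]
          · simp
        obtain ⟨b', hfb', hb'⟩ := hilb_descent ρ hst hred s χ hsinv D hDst hDreg ψ.1 f hf b hb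
        rw [hfb']
        refine Submodule.sum_mem _ fun i _ => ?_
        by_cases hi : e i ≤ k
        · have hbD : (b' i).1 ∈ hilbD N (k - e i) := by
            have := (b' i).2
            simp only [D, if_pos hi] at this
            exact this
          have h1 := ih (k - e i) (by have := he i; omega) ((χ i)⁻¹ * ψ) (b' i).1 hbD (by
            intro g y
            have h2 := hb' i g y
            have h3 : (((χ i).1 g : ℂˣ) : ℂ) ≠ 0 := Units.ne_zero _
            have h4 : ((((χ i)⁻¹ * ψ).1 g : ℂˣ) : ℂ) =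
                (((χ i).1 g : ℂˣ) : ℂ)⁻¹ * ((ψ.1 g : ℂˣ) : ℂ) := by
              simp
            rw [h4]
            field_simp
            rw [← h2, mul_comm])
          have h5 := hmul i _ _ h1
          rwa [mul_inv_cancel_left] at h5
        · have h0 : (b' i).1 = 0 := by
            have := (b' i).2
            simp only [D, if_neg hi] at this
            exact (Submodule.mem_bot ℂ).1 this
          rw [h0, mul_zero]
          exact Submodule.zero_mem _
  intro ψ f hf
  obtain ⟨⟨p, hpf⟩, hinv⟩ := (hilb_mem_semiInv ρ hst).1 hf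
  have hpf' : hilbRes N p = f := hpf
  -- homogeneous components
  have hdec : f = ∑ k ∈ Finset.range (p.totalDegree + 1),
      hilbRes N (homogeneousComponent k p) := by
    rw [← map_sum, sum_homogeneousComponent, hpf']
  rw [hdec]
  refine Submodule.sum_mem _ fun k _ => ?_
  refine claim k ψ _ (hilb_mem_D.2 ⟨_, homogeneousComponent_isHomogeneous _ _, rfl⟩) ?_
  intro g y
  -- the polynomial `t ↦ f (t y)`
  let q : (ι → ℂ) → Polynomial ℂ := fun y =>
    ∑ k ∈ Finset.range (p.totalDegree + 1),
      Polynomial.monomial k (eval y (homogeneousComponent k p))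
  have hq : ∀ y t, (q y).eval t = eval (t • y) p := by
    intro y t
    conv_rhs => rw [← sum_homogeneousComponent p, map_sum]
    simp only [q, Polynomial.eval_finsetSum, Polynomial.eval_monomial]
    refine Finset.sum_congr rfl fun k _ => ?_
    have h1 : ∀ r : MvPolynomial ι ℂ, r.IsHomogeneous k → eval (t • y) r = t ^ k * eval y r := by
      intro r hr
      rw [eval_eq', eval_eq', Finset.mul_sum]
      refine Finset.sum_congr rfl fun d hd => ?_
      have hd2 := hr (mem_support_iff.1 hd)
      rw [Finsupp.weight_apply, Finsupp.sum_fintype _ _ (by simp)] at hd2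
      have hd3 : ∑ i, d i = k := by simpa using hd2
      simp only [Pi.smul_apply, smul_eq_mul, mul_pow, Finset.prod_mul_distrib]
      rw [Finset.prod_pow_eq_pow_sum, hd3]
      ring
    rw [h1 _ (homogeneousComponent_isHomogeneous _ _), mul_comm]
  have hqc : ∀ y k, (q y).coeff k = eval y (homogeneousComponent k p) := by
    intro y k
    simp only [q, Polynomial.finsetSum_coeff, Polynomial.coeff_monomial]
    rw [Finset.sum_ite_eq']
    split_ifs with h
    · rfl
    · rw [homogeneousComponent_eq_zero, map_zero]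
      simpa using h
  have hqeq : q (ρ.toHom g *ᵥ y.1) = Polynomial.C (ψ.1 g : ℂ) * q y.1 := by
    apply Polynomial.funext
    intro t
    rw [Polynomial.eval_mul, Polynomial.eval_C, hq, hq]
    have h1 := hinv g ⟨t • y.1, hcone t y.1 y.2⟩
    rw [← hpf', hilbRes_apply, hilbRes_apply] at h1
    rw [← h1]
    congr 1
    simp [hilbMv, Matrix.mulVec_smul]
  have h2 := congrArg (fun r : Polynomial ℂ => r.coeff k) hqeq
  simp only [Polynomial.coeff_C_mul, hqc] at h2
  rw [hilbRes_apply, hilbRes_apply]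
  exact h2

end hilb2
end Pool.Agent.Lib.MP_462b8b_ag
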