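import Pool.Agent.Lib.MP_462b8b_ag.SL
import Pool.Agent.Lib.MP_462b8b_ag.Codim

/-!
The representation `rep6` of `SL_2(ℂ)` is 4-large.
-/

set_option autoImplicit false

open Matrix MvPolynomial

namespace Pool.Agent.Lib.MP_462b8b_ag

namespace LGaux

theorem toHom_mulVec (g : SL2) (u : Fin 2 × Fin 6 → ℂ) (i : Fin 2) (a : Fin 6) :
    (rep6.toHom g *ᵥ u) (i, a) = (g : GL (Fin 2) ℂ).1 i 0 * u (0, a)
      + (g : GL (Fin 2) ℂ).1 i 1 * u (1, a) := by
  simp only [rep6, MonoidHom.coe_mk, OneHom.coe_mk, Matrix.mulVec, dotProduct,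
    Fintype.sum_prod_type, of_apply, Fin.sum_univ_two]
  simp

theorem ext_of (u w : Fin 2 × Fin 6 → ℂ) (h : ∀ i a, u (i, a) = w (i, a)) : u = w := by
  funext p
  exact h p.1 p.2

theorem fin2 (i : Fin 2) : i = 0 ∨ i = 1 := by
  fin_cases i
  · exact Or.inl rfl
  · exact Or.inr rfl

/-- the Lie algebra of a stabiliser -/
theorem mem_lieSet_stab6 (u : Fin 2 × Fin 6 → ℂ) (X : Matrix (Fin 2) (Fin 2) ℂ) :
    X ∈ lieSet (rep6.stab u) ↔ X.trace = 0 ∧
      ∀ i a, X i 0 * u (0, a) + X i 1 * u (1, a) = 0 := by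
  have hd : ∀ (i : Fin 2) (a : Fin 6) (t : ℂ), HasDerivAt
      (fun s : ℂ => (NormedSpace.exp (s • X)) i 0 * u (0, a)
        + (NormedSpace.exp (s • X)) i 1 * u (1, a))
      ((NormedSpace.exp (t • X)) i 0 * (X 0 0 * u (0, a) + X 0 1 * u (1, a))
        + (NormedSpace.exp (t • X)) i 1 * (X 1 0 * u (0, a) + X 1 1 * u (1, a))) t := by
    intro i a t
    have h := ((SLaux.hasDerivAt_entry X i 0 t).mul_const (u (0, a))).add
      ((SLaux.hasDerivAt_entry X i 1 t).mul_const (u (1, a)))
    refine h.congr_deriv ?_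
    simp only [Matrix.mul_apply, Fin.sum_univ_two]
    ring
  have hz : ∀ (i j : Fin 2), (NormedSpace.exp ((0 : ℂ) • X)) i j
      = (1 : Matrix (Fin 2) (Fin 2) ℂ) i j := by
    intro i j
    rw [zero_smul, NormedSpace.exp_zero]
  constructor
  · intro hX
    have hfix : ∀ (t : ℂ) (i : Fin 2) (a : Fin 6), (NormedSpace.exp (t • X)) i 0 * u (0, a)
        + (NormedSpace.exp (t • X)) i 1 * u (1, a) = u (i, a) := by
      intro t i a
      obtain ⟨g, ⟨hg, hgu⟩, hg'⟩ := hX t
      have h1 := congrFun hgu (i, a)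
      rw [toHom_mulVec] at h1
      rw [← hg']
      exact h1
    refine ⟨(mem_lieSet_SL2 X).1 fun t => ?_, fun i a => ?_⟩
    · obtain ⟨g, ⟨hg, _⟩, hg'⟩ := hX t
      exact ⟨g, hg, hg'⟩
    · have h1 := hd i a 0
      have h2 : (fun s : ℂ => (NormedSpace.exp (s • X)) i 0 * u (0, a)
        + (NormedSpace.exp (s • X)) i 1 * u (1, a)) = fun _ => u (i, a) := by
        funext s
        exact hfix s i a
      rw [h2] at h1
      have h3 := h1.unique (hasDerivAt_const 0 (u (i, a)))
      simp only [hz] at h3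
      obtain rfl | rfl := fin2 i
      · simpa using h3
      · simpa using h3
  · rintro ⟨htr, hX⟩ t
    obtain ⟨g, hg, hg'⟩ := (mem_lieSet_SL2 X).2 htr t
    refine ⟨g, ⟨hg, ?_⟩, hg'⟩
    apply ext_of
    intro i a
    rw [toHom_mulVec]
    show g.1 i 0 * u (0, a) + g.1 i 1 * u (1, a) = u (i, a)
    have h2 : Differentiable ℂ (fun s : ℂ => (NormedSpace.exp (s • X)) i 0 * u (0, a)
        + (NormedSpace.exp (s • X)) i 1 * u (1, a)) := fun s => (hd i a s).differentiableAt
    have h1 : ∀ s, deriv (fun s : ℂ => (NormedSpace.exp (s • X)) i 0 * u (0, a)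
        + (NormedSpace.exp (s • X)) i 1 * u (1, a)) s = 0 := by
      intro s
      rw [(hd i a s).deriv, hX 0 a, hX 1 a]
      ring
    have h3 := is_const_of_deriv_eq_zero h2 h1 t 0
    simp only [hz] at h3
    rw [hg', h3]
    obtain rfl | rfl := fin2 i
    · simp
    · simp

/-- the points of rank two -/
def RankTwo (u : Fin 2 × Fin 6 → ℂ) : Prop := ∃ a b, u (0, a) * u (1, b) ≠ u (0, b) * u (1, a)

theorem stab_eq_bot {u : Fin 2 × Fin 6 → ℂ} (hu : RankTwo u) : rep6.stab u = ⊥ := by
  obtain ⟨a, b, hab⟩ := hu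
  have hab' := sub_ne_zero.2 hab
  rw [Subgroup.eq_bot_iff_forall]
  rintro g ⟨hg, hgu⟩
  have key : ∀ i c, g.1 i 0 * u (0, c) + g.1 i 1 * u (1, c) = u (i, c) := by
    intro i c
    have h1 := congrFun hgu (i, c)
    rw [toHom_mulVec] at h1
    exact h1
  have h00 : g.1 0 0 = 1 := by
    have e1 := key 0 a
    have e2 := key 0 b
    have : (g.1 0 0 - 1) * (u (0, a) * u (1, b) - u (0, b) * u (1, a)) = 0 := by
      linear_combination u (1, b) * e1 - u (1, a) * e2
    rcases mul_eq_zero.1 this with h | h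
    · exact sub_eq_zero.1 h
    · exact absurd h hab'
  have h01 : g.1 0 1 = 0 := by
    have e1 := key 0 a
    have e2 := key 0 b
    have : (g.1 0 1) * (u (0, a) * u (1, b) - u (0, b) * u (1, a)) = 0 := by
      linear_combination u (0, a) * e2 - u (0, b) * e1
    rcases mul_eq_zero.1 this with h | h
    · exact h
    · exact absurd h hab'
  have h10 : g.1 1 0 = 0 := by
    have e1 := key 1 a
    have e2 := key 1 b
    have : (g.1 1 0) * (u (0, a) * u (1, b) - u (0, b) * u (1, a)) = 0 := by
      linear_combination u (1, b) * e1 - u (1, a) * e2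
    rcases mul_eq_zero.1 this with h | h
    · exact h
    · exact absurd h hab'
  have h11 : g.1 1 1 = 1 := by
    have e1 := key 1 a
    have e2 := key 1 b
    have : (g.1 1 1 - 1) * (u (0, a) * u (1, b) - u (0, b) * u (1, a)) = 0 := by
      linear_combination u (0, a) * e2 - u (0, b) * e1
    rcases mul_eq_zero.1 this with h | h
    · exact sub_eq_zero.1 h
    · exact absurd h hab'
  apply Units.ext
  ext i j
  fin_cases i <;> fin_cases j
  · simpa using h00
  · simpa using h01
  · simpa using h10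
  · simpa using h11

theorem algDim_stab {u : Fin 2 × Fin 6 → ℂ} (hu : RankTwo u) : algDim (rep6.stab u) = 0 := by
  obtain ⟨a, b, hab⟩ := hu
  have hab' := sub_ne_zero.2 hab
  have : Submodule.span ℂ (lieSet (rep6.stab u)) = ⊥ := by
    rw [Submodule.span_eq_bot]
    intro X hX
    obtain ⟨_, hX⟩ := (mem_lieSet_stab6 u X).1 hX
    ext i j
    have e1 := hX i a
    have e2 := hX i b
    have f0 : X i 0 * (u (0, a) * u (1, b) - u (0, b) * u (1, a)) = 0 := by
      linear_combination u (1, b) * e1 - u (1, a) * e2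
    have f1 : X i 1 * (u (0, a) * u (1, b) - u (0, b) * u (1, a)) = 0 := by
      linear_combination u (0, a) * e2 - u (0, b) * e1
    have g0 : X i 0 = 0 := (mul_eq_zero.1 f0).resolve_right hab'
    have g1 : X i 1 = 0 := (mul_eq_zero.1 f1).resolve_right hab'
    fin_cases j
    · simpa using g0
    · simpa using g1
  unfold algDim
  rw [this]
  exact finrank_bot ℂ _

theorem numComp_stab {u : Fin 2 × Fin 6 → ℂ} (hu : RankTwo u) : numComp (rep6.stab u) = 1 := by
  unfold numComp
  rw [stab_eq_bot hu]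
  have : Subsingleton (ConnectedComponents (⊥ : Subgroup (GL (Fin 2) ℂ))) := by
    constructor
    intro x y
    obtain ⟨x, rfl⟩ := ConnectedComponents.surjective_coe x
    obtain ⟨y, rfl⟩ := ConnectedComponents.surjective_coe y
    rw [Subsingleton.elim x y]
  have hne : Nonempty (ConnectedComponents (⊥ : Subgroup (GL (Fin 2) ℂ))) :=
    ⟨ConnectedComponents.mk 1⟩
  exact Nat.card_eq_one_iff_unique.2 ⟨this, hne⟩

theorem closed_orbit {u : Fin 2 × Fin 6 → ℂ} (hu : RankTwo u) :
    IsZariskiClosed (rep6.orbit u) := by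
  obtain ⟨a, b, hab⟩ := hu
  have hab' := sub_ne_zero.2 hab
  let S : Set (MvPolynomial (Fin 2 × Fin 6) ℂ) :=
    Set.range fun p : Fin 6 × Fin 6 => (X (0, p.1) * X (1, p.2) - X (0, p.2) * X (1, p.1)
    - C (u (0, p.1) * u (1, p.2) - u (0, p.2) * u (1, p.1)) :
      MvPolynomial (Fin 2 × Fin 6) ℂ)
  have hS : ∀ w : Fin 2 × Fin 6 → ℂ, (∀ p ∈ S, eval w p = 0) ↔
      ∀ c d, w (0, c) * w (1, d) - w (0, d) * w (1, c)
        - (u (0, c) * u (1, d) - u (0, d) * u (1, c)) = 0 := by
    intro w
    constructor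
    · intro h c d
      have := h _ ⟨(c, d), rfl⟩
      simpa only [map_sub, map_mul, eval_X, eval_C] using this
    · rintro h _ ⟨⟨c, d⟩, rfl⟩
      have := h c d
      simpa only [map_sub, map_mul, eval_X, eval_C] using this
  refine ⟨S, ?_⟩
  ext w
  constructor
  · rintro ⟨g, rfl⟩
    refine (hS _).2 fun c d => ?_
    have hg : (g : GL (Fin 2) ℂ).1.det = 1 := (mem_SL2 _).1 g.2
    rw [Matrix.det_fin_two] at hg
    show (rep6.toHom g *ᵥ u) (0, c) * (rep6.toHom g *ᵥ u) (1, d)
      - (rep6.toHom g *ᵥ u) (0, d) * (rep6.toHom g *ᵥ u) (1, c)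
        - (u (0, c) * u (1, d) - u (0, d) * u (1, c)) = 0
    rw [toHom_mulVec, toHom_mulVec, toHom_mulVec, toHom_mulVec]
    linear_combination (u (0, c) * u (1, d) - u (0, d) * u (1, c)) * hg
  · intro hw0
    have hw := (hS w).1 hw0
    set D := u (0, a) * u (1, b) - u (0, b) * u (1, a) with hD
    have hwab := hw a b
    -- g = w_{ab} u_{ab}^{-1}
    let M : Matrix (Fin 2) (Fin 2) ℂ := Matrix.of fun i j =>
      if j = 0 then (w (i, a) * u (1, b) - w (i, b) * u (1, a)) / D
      else (w (i, b) * u (0, a) - w (i, a) * u (0, b)) / D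
    have M0 : ∀ i, M i 0 = (w (i, a) * u (1, b) - w (i, b) * u (1, a)) / D := fun i => by
      simp [M]
    have M1 : ∀ i, M i 1 = (w (i, b) * u (0, a) - w (i, a) * u (0, b)) / D := fun i => by
      simp [M]
    have hdet : M.det = 1 := by
      rw [Matrix.det_fin_two, M0, M0, M1, M1]
      field_simp
      linear_combination D * hwab
    let g : GL (Fin 2) ℂ := Matrix.GeneralLinearGroup.mkOfDetNeZero M (by
      rw [hdet]
      exact one_ne_zero)
    have hgM : g.1 = M := rfl
    have hg : g ∈ SL2 := by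
      rw [mem_SL2]
      exact hdet
    refine ⟨⟨g, hg⟩, ?_⟩
    apply ext_of
    intro i c
    refine (toHom_mulVec ⟨g, hg⟩ u i c).trans ?_
    show g.1 i 0 * u (0, c) + g.1 i 1 * u (1, c) = w (i, c)
    rw [hgM, M0, M1]
    field_simp
    have h1 := hw a c
    have h2 := hw b c
    -- Cramer
    have hi : w (i, a) * (w (0, b) * w (1, c) - w (0, c) * w (1, b))
        - w (i, b) * (w (0, a) * w (1, c) - w (0, c) * w (1, a))
        + w (i, c) * (w (0, a) * w (1, b) - w (0, b) * w (1, a)) = 0 := by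
      obtain rfl | rfl := fin2 i
      · ring
      · ring
    linear_combination - hi + w (i, a) * h2 - w (i, b) * h1 + w (i, c) * hwab

/-- a point of rank at most one -/
theorem exists_lie {u : Fin 2 × Fin 6 → ℂ} (hu : ¬ RankTwo u) :
    1 ≤ algDim (rep6.stab u) := by
  have hu' : ∀ a b, u (0, a) * u (1, b) = u (0, b) * u (1, a) := by
    intro a b
    by_contra h
    exact hu ⟨a, b, h⟩
  obtain ⟨c, d, hcd, hk⟩ : ∃ c d : ℂ, (c ≠ 0 ∨ d ≠ 0) ∧ ∀ a, c * u (0, a) + d * u (1, a) = 0 := by
    by_cases h : ∃ a, u (0, a) ≠ 0 ∨ u (1, a) ≠ 0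
    · obtain ⟨a, ha⟩ := h
      refine ⟨u (1, a), - u (0, a), ?_, fun b => ?_⟩
      · rcases ha with h | h
        · exact Or.inr (neg_ne_zero.2 h)
        · exact Or.inl h
      · linear_combination - hu' a b
    · push Not at h
      refine ⟨1, 0, Or.inl one_ne_zero, fun a => ?_⟩
      rw [(h a).1]
      ring
  let Y : Matrix (Fin 2) (Fin 2) ℂ := !![c * d, d * d; -(c * c), -(c * d)]
  have hY : Y ∈ lieSet (rep6.stab u) := by
    rw [mem_lieSet_stab6]
    refine ⟨?_, fun i a => ?_⟩
    · rw [Matrix.trace_fin_two]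
      simp [Y]
    · have := hk a
      fin_cases i
      · simp only [Y, Fin.zero_eta, Fin.isValue, of_apply, cons_val', cons_val_zero,
          cons_val_fin_one, cons_val_one]
        linear_combination d * this
      · simp only [Y, Fin.mk_one, Fin.isValue, of_apply, cons_val', cons_val_zero,
          cons_val_fin_one, cons_val_one]
        linear_combination - c * this
  have hY0 : Y ≠ 0 := by
    intro h
    rcases hcd with h1 | h1
    · have := congrFun (congrFun h 1) 0
      simp [Y] at this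
      exact h1 this
    · have := congrFun (congrFun h 0) 1
      simp [Y] at this
      exact h1 this
  unfold algDim
  rw [Submodule.one_le_finrank_iff]
  intro h
  have h1 : Y ∈ Submodule.span ℂ (lieSet (rep6.stab u)) := Submodule.subset_span hY
  rw [h, Submodule.mem_bot] at h1
  exact hY0 h1

theorem algDim_le_one {u : Fin 2 × Fin 6 → ℂ} (hu : u ≠ 0) :
    algDim (rep6.stab u) ≤ 1 := by
  obtain ⟨a, ha⟩ : ∃ a, u (0, a) ≠ 0 ∨ u (1, a) ≠ 0 := by
    by_contra h
    push Not at h
    apply hu
    apply ext_of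
    intro i a
    fin_cases i
    · exact (h a).1
    · exact (h a).2
  set p := u (0, a) with hp
  set q := u (1, a) with hq
  let M : Matrix (Fin 2) (Fin 2) ℂ := !![-(p * q), p * p; -(q * q), p * q]
  have hle : Submodule.span ℂ (lieSet (rep6.stab u)) ≤ Submodule.span ℂ {M} := by
    rw [Submodule.span_le]
    intro X hX
    obtain ⟨htr, hX⟩ := (mem_lieSet_stab6 u X).1 hX
    rw [Matrix.trace_fin_two] at htr
    have e0 := hX 0 a
    have e1 := hX 1 a
    rw [← hp, ← hq] at e0 e1
    rw [SetLike.mem_coe, Submodule.mem_span_singleton]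
    have h11 : X 1 1 = - X 0 0 := by linear_combination htr
    rw [h11] at e1
    rcases ha with h | h
    · refine ⟨X 0 1 / (p * p), ?_⟩
      have f00 : X 0 0 = - (X 0 1 * q / p) := by
        field_simp
        linear_combination e0
      have f10 : X 1 0 = - (X 0 1 * (q * q) / (p * p)) := by
        field_simp
        rw [f00] at e1
        field_simp at e1
        linear_combination e1
      ext i j
      fin_cases i <;> fin_cases j
      · simp [M]
        rw [f00]
        field_simp
      · simp [M]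
        field_simp
      · simp [M]
        rw [f10]
        field_simp
      · simp [M]
        rw [h11, f00]
        field_simp
    · refine ⟨- X 1 0 / (q * q), ?_⟩
      have f00 : X 0 0 = X 1 0 * p / q := by
        field_simp
        linear_combination - e1
      have f01 : X 0 1 = - (X 1 0 * (p * p) / (q * q)) := by
        field_simp
        rw [f00] at e0
        field_simp at e0
        linear_combination e0
      ext i j
      fin_cases i <;> fin_cases j
      · simp [M]
        rw [f00]
        field_simp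
      · simp [M]
        rw [f01]
        field_simp
      · simp [M]
        field_simp
      · simp [M]
        rw [h11, f00]
        field_simp
  calc algDim (rep6.stab u) ≤ Module.finrank ℂ (Submodule.span ℂ ({M} : Set _)) :=
        Submodule.finrank_mono hle
    _ ≤ 1 := by
        refine (finrank_span_le_card _).trans ?_
        simp

theorem principal_of {u : Fin 2 × Fin 6 → ℂ} (hu : RankTwo u) : u ∈ rep6.principal := by
  refine ⟨closed_orbit hu, fun w _ => ?_, fun w _ hw => ?_⟩
  · rw [algDim_stab hu]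
    exact Nat.zero_le _
  · have hw2 : RankTwo w := by
      by_contra h
      have := exists_lie h
      rw [hw, algDim_stab hu] at this
      omega
    rw [numComp_stab hu, numComp_stab hw2]

theorem CodimGE_mono {Z Z' : Set (Fin 2 × Fin 6 → ℂ)} (h : Z ⊆ Z') {c c' : ℕ} (hc : c ≤ c')
    (hZ : CodimGE Z' c') : CodimGE Z c := by
  unfold CodimGE at *
  refine le_trans ?_ (hZ.trans (Ideal.height_mono ?_))
  · exact_mod_cast hc
  · exact vanishingIdeal_anti_mono h

theorem algDim_SL2_le : algDim SL2 ≤ 4 := by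
  unfold algDim
  refine (Submodule.finrank_le _).trans ?_
  rw [Module.finrank_matrix]
  simp

theorem isLarge_of
    (h1 : CodimGE {u : Fin 2 × Fin 6 → ℂ | ∀ a b, u (0, a) * u (1, b) = u (0, b) * u (1, a)} 5)
    (h2 : CodimGE ({0} : Set (Fin 2 × Fin 6 → ℂ)) 8) : rep6.IsLarge 4 := by
  have hsub : ∀ u : Fin 2 × Fin 6 → ℂ, ¬ RankTwo u → u ∈
      {u : Fin 2 × Fin 6 → ℂ | ∀ a b, u (0, a) * u (1, b) = u (0, b) * u (1, a)} := by
    intro u hu a b
    by_contra h
    exact hu ⟨a, b, h⟩
  refine ⟨?_, ?_, ?_⟩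
  · let v : Fin 2 × Fin 6 → ℂ := fun p =>
      if p = (0, 0) then 1 else if p = (1, 1) then 1 else 0
    have hv : RankTwo v := ⟨0, 1, by simp [v]⟩
    exact ⟨v, closed_orbit hv, algDim_stab hv⟩
  · refine CodimGE_mono (fun u hu => hsub u fun h => ?_) (by norm_num) h1
    have hu' : u ∉ rep6.principal := hu
    exact hu' (principal_of h)
  · intro r hr hr'
    by_cases hr2 : r = 1
    · subst hr2
      refine CodimGE_mono (fun u hu => hsub u fun h => ?_) (le_refl 5) h1
      have h3 : algDim (rep6.stab u) = 1 := hu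
      rw [algDim_stab h] at h3
      omega
    · have hr4 : r ≤ 4 := hr'.trans algDim_SL2_le
      refine CodimGE_mono (fun u hu => ?_) (by omega) h2
      have h3 : algDim (rep6.stab u) = r := hu
      by_contra h
      have h4 := algDim_le_one (u := u) h
      omega

end LGaux

/-- The representation of `SL_2(ℂ)` on six copies of `ℂ²` is 4-large. -/
theorem isLarge_rep6 : rep6.IsLarge 4 := LGaux.isLarge_of codim_rankOne codim_zero

end Pool.Agent.Lib.MP_462b8b_ag
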