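import Mathlib

/-! MP_462b8b_ag, module TENS: rational dependence from a real span. -/

open TensorProduct

namespace Pool.Agent.Lib.MP_462b8b_ag

theorem exists_nsmul_mem_closure {X : Type} [AddCommGroup X] {κ : Type} (w : κ → X) (v : X)
    (h : (1 : ℝ) ⊗ₜ[ℤ] v ∈ Submodule.span ℝ (Set.range fun i => (1 : ℝ) ⊗ₜ[ℤ] w i)) :
    ∃ n : ℕ, 1 ≤ n ∧ n • v ∈ AddSubgroup.closure (Set.range w) := by
  by_contra hcon
  push Not at hcon
  set K : Submodule ℤ X := Submodule.span ℤ (Set.range w) with hK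
  have hKc : ∀ x : X, x ∈ K → x ∈ AddSubgroup.closure (Set.range w) := by
    intro x hx
    rw [hK, ← Submodule.mem_toAddSubgroup, Submodule.span_int_eq_addSubgroupClosure] at hx
    exact hx
  set q : X →ₗ[ℤ] X ⧸ K := K.mkQ with hq
  have hinj : Function.Injective (LinearMap.toSpanSingleton ℤ (X ⧸ K) (q v)) := by
    rw [injective_iff_map_eq_zero]
    intro a ha
    rw [LinearMap.toSpanSingleton_apply, ← map_smul, hq, Submodule.mkQ_apply,
      Submodule.Quotient.mk_eq_zero] at ha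
    by_contra ha0
    have h1 : a.natAbs • v ∈ K := by
      rcases Int.natAbs_eq a with h2 | h2
      · rw [h2] at ha
        rwa [natCast_zsmul] at ha
      · rw [h2, neg_smul, Submodule.neg_mem_iff, natCast_zsmul] at ha
        exact ha
    exact hcon a.natAbs (Int.natAbs_pos.2 ha0) (hKc _ h1)
  have hflat : Module.Flat ℤ ℝ := inferInstance
  have hinj2 := Module.Flat.lTensor_preserves_injective_linearMap (M := ℝ)
    (LinearMap.toSpanSingleton ℤ (X ⧸ K) (q v)) hinj
  have hker : (1 : ℝ) ⊗ₜ[ℤ] v ∈ LinearMap.ker (q.baseChange ℝ) := by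
    refine (Submodule.span_le.2 ?_) h
    rintro _ ⟨i, rfl⟩
    rw [SetLike.mem_coe, LinearMap.mem_ker, LinearMap.baseChange_tmul]
    have h3 : q (w i) = 0 := by
      rw [hq, Submodule.mkQ_apply, Submodule.Quotient.mk_eq_zero]
      exact Submodule.subset_span ⟨i, rfl⟩
    rw [h3, TensorProduct.tmul_zero]
  rw [LinearMap.mem_ker, LinearMap.baseChange_tmul] at hker
  have h4 : LinearMap.lTensor ℝ (LinearMap.toSpanSingleton ℤ (X ⧸ K) (q v))
      ((1 : ℝ) ⊗ₜ[ℤ] (1 : ℤ)) = 0 := by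
    rw [LinearMap.lTensor_tmul, LinearMap.toSpanSingleton_apply, one_smul]
    exact hker
  have h5 : ((1 : ℝ) ⊗ₜ[ℤ] (1 : ℤ)) = 0 := by
    apply hinj2
    rw [h4, map_zero]
  have h6 := congrArg (TensorProduct.rid ℤ ℝ) h5
  rw [TensorProduct.rid_tmul, map_zero, one_smul] at h6
  exact one_ne_zero h6

end Pool.Agent.Lib.MP_462b8b_ag
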