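import Pool.Agent.Lib.MP_462b8b_ag.Core
import Pool.Agent.Lib.MP_462b8b_ag.Hilbert
import Pool.Agent.Lib.MP_462b8b_ag.Tens

/-!
If `N` is a `G`-stable cone with `ℂ[N]` factorial then `N //_θ G` is `ℚ`-factorial for generic
`θ`.
-/

open Matrix MvPolynomial TensorProduct AlgebraicGeometry HomogeneousLocalization

set_option linter.unusedSectionVars false

namespace Pool.Agent.Lib.MP_462b8b_ag

variable {n : Type} [Fintype n] [DecidableEq n] {G : Subgroup (GL n ℂ)}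
variable {ι : Type} [Fintype ι] [DecidableEq ι]
variable {ρ : RatRep G ι} {N : Set (ι → ℂ)} {θ : G →* ℂˣ}

section weights

variable [IsDomain (polyFun N)] {x : ProjectiveSpectrum (gitGr ρ N θ)}

lemma WData.one : WData x 1 := by
  refine ⟨0, 0, 1, 1, 1, 1, ?_, one_mem _, Den.one, Den.one, mul_one _⟩
  have : (θ ^ 0 * 1⁻¹ : G →* ℂˣ) = 1 := by ext g; simp
  rw [this]
  exact semiInv_one_mem ρ N

lemma WData.mul {ψ φ : G →* ℂˣ} (h1 : WData x ψ) (h2 : WData x φ) : WData x (ψ * φ) := by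
  obtain ⟨l, l', c, c', d, M, hc, hc', hd, hM, hcM⟩ := h1
  obtain ⟨k, k', e, e', g, K, he, he', hg, hK, heK⟩ := h2
  refine ⟨l + k, l' + k', c * e, c' * e', d * g, M * K, ?_, mul_mem hc' he', hd.mul hg,
    hM.mul hK, ?_⟩
  · have h := semiInv_mul_mem hc he
    have e : (θ ^ l * ψ⁻¹) * (θ ^ k * φ⁻¹) = θ ^ (l + k) * (ψ * φ)⁻¹ := by
      rw [char_pow_add]
      ext g
      simp only [MonoidHom.mul_apply, MonoidHom.inv_apply, mul_inv]
      rw [mul_mul_mul_comm]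
    rwa [e] at h
  · rw [← hcM, ← heK]; ring

lemma WData.inv (hst : ∀ g : G, ∀ y ∈ N, ρ.toHom g *ᵥ y ∈ N) {ψ : G →* ℂˣ} (h1 : WData x ψ) :
    WData x ψ⁻¹ := by
  obtain ⟨l, l', c, c', d, M, hc, hc', hd, hM, hcM⟩ := h1
  have hc0 : c ≠ 0 := by
    rintro rfl
    rw [zero_mul] at hcM
    exact hM.ne_zero hcM.symm
  refine ⟨l', l' + l, c' * d, c, M, M * d, ?_, hc.1, hM, hM.mul hd, ?_⟩
  · refine semiInv_of_mul (χ := θ ^ l * ψ⁻¹) (ψ := θ ^ l' * ψ⁻¹⁻¹) hst (mul_mem hc' hd.1.1) hc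
      hc0 ?_
    have e : (θ ^ l * ψ⁻¹) * (θ ^ l' * ψ⁻¹⁻¹) = θ ^ (l' + l) := by
      rw [char_pow_add]
      ext g
      simp only [MonoidHom.mul_apply, MonoidHom.inv_apply]
      rw [mul_mul_mul_comm]
      simp [mul_comm]
    rw [e, mul_right_comm, mul_comm c', hcM]
    exact (hM.mul hd).1
  · rw [← hcM]; ring

lemma WData.of_dvd (hst : ∀ g : G, ∀ y ∈ N, ρ.toHom g *ᵥ y ∈ N) {χ : G →* ℂˣ} {s c : N → ℂ}
    {k : ℕ} {M : N → ℂ} (hs : s ∈ semiInv ρ N χ) (hc : c ∈ polyFun N) (hM : Den x k M)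
    (h : s * c = M) : WData x χ := by
  have hs0 : s ≠ 0 := by
    rintro rfl
    rw [zero_mul] at h
    exact hM.ne_zero h.symm
  refine ⟨k, k, c, s, M, M, ?_, hs.1, hM, hM, by rw [mul_comm, h]⟩
  refine semiInv_of_mul (χ := χ) (ψ := θ ^ k * χ⁻¹) hst hc hs hs0 ?_
  rw [char_cancel, mul_comm, h]
  exact hM.1

/-- The characters that have `WData` at `x`. -/
def wSub (hst : ∀ g : G, ∀ y ∈ N, ρ.toHom g *ᵥ y ∈ N) (x : ProjectiveSpectrum (gitGr ρ N θ)) :
    AddSubgroup (Additive (ratChar G)) where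
  carrier := {v | WData x ((Additive.toMul v : ratChar G) : G →* ℂˣ)}
  zero_mem' := WData.one
  add_mem' := fun ha hb => WData.mul ha hb
  neg_mem' := fun ha => WData.inv hst ha

lemma exists_monomial_den {m : ℕ} (s : Fin m → (N → ℂ)) (χ : Fin m → ratChar G)
    (hs : ∀ i, s i ∈ semiInv ρ N (χ i)) {ψ : ratChar G} {k : ℕ} (hψ : (ψ : G →* ℂˣ) = θ ^ k)
    {b : N → ℂ} (hb : Den x k b)
    (h : b ∈ Submodule.span ℂ {F | ∃ a : Fin m → ℕ, F = ∏ i, s i ^ a i ∧ ∏ i, χ i ^ a i = ψ}) :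
    ∃ a : Fin m → ℕ, Den x k (∏ i, s i ^ a i) ∧ ∏ i, χ i ^ a i = ψ := by
  by_contra hcon
  push Not at hcon
  have hmem : ∀ a : Fin m → ℕ, ∏ i, χ i ^ a i = ψ → ∏ i, s i ^ a i ∈ semiInv ρ N (θ ^ k) := by
    intro a ha
    rw [← hψ, ← ha]
    have : ∀ T : Finset (Fin m), ∏ i ∈ T, s i ^ a i ∈
        semiInv ρ N ((∏ i ∈ T, χ i ^ a i : ratChar G) : G →* ℂˣ) := by
      intro T
      induction T using Finset.induction_on with
      | empty => simpa using semiInv_one_mem ρ N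
      | insert i T hi ih =>
        rw [Finset.prod_insert hi, Finset.prod_insert hi]
        exact semiInv_mul_mem (semiInv_pow (hs i) _) ih
    exact this Finset.univ
  have key : ∀ c ∈ Submodule.span ℂ {F | ∃ a : Fin m → ℕ, F = ∏ i, s i ^ a i ∧
      ∏ i, χ i ^ a i = ψ}, ∃ hc : c ∈ semiInv ρ N (θ ^ k), homog k c hc ∈ x.asHomogeneousIdeal := by
    intro c hc
    induction hc using Submodule.span_induction with
    | mem F hF =>
      obtain ⟨a, rfl, ha⟩ := hF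
      refine ⟨hmem a ha, ?_⟩
      by_contra h'
      exact hcon a ⟨hmem a ha, h'⟩ ha
    | zero =>
      refine ⟨Submodule.zero_mem _, ?_⟩
      rw [homog_eq_zero.mpr rfl]
      exact zero_mem _
    | add c c' _ _ ih ih' =>
      obtain ⟨h1, h2⟩ := ih
      obtain ⟨h1', h2'⟩ := ih'
      refine ⟨Submodule.add_mem _ h1 h1', ?_⟩
      have e : homog k (c + c') (Submodule.add_mem _ h1 h1') = homog k c h1 + homog k c' h1' := by
        apply Subtype.ext
        simp [homog]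
      rw [e]
      exact add_mem h2 h2'
    | smul r c _ ih =>
      obtain ⟨h1, h2⟩ := ih
      refine ⟨Submodule.smul_mem _ r h1, ?_⟩
      have hr : (fun _ => r : N → ℂ) ∈ semiInv ρ N (θ ^ 0) := by
        rw [char_pow_zero]
        have := Submodule.smul_mem _ r (semiInv_one_mem ρ N)
        convert this using 1
        funext y
        simp
      have e : homog k (r • c) (Submodule.smul_mem _ r h1) =
          homog 0 (fun _ => r) hr * homog k c h1 := by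
        apply Subtype.ext
        simp only [homog, Subring.coe_mul, Polynomial.monomial_mul_monomial, zero_add]
        rfl
      rw [e]
      exact Ideal.mul_mem_left _ _ h2
  obtain ⟨h1, h2⟩ := key b h
  exact hb.2 h2

end weights

section main

variable [IsDomain (polyFun N)]

/-- There is a power of `θ` in the monoid of the characters of the generators that are units
at `x`. -/
lemma exists_theta_sum (hst : ∀ g : G, ∀ y ∈ N, ρ.toHom g *ᵥ y ∈ N)
    {m : ℕ} (s : Fin m → (N → ℂ)) (χ : Fin m → ratChar G)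
    (hs : ∀ i, s i ∈ semiInv ρ N (χ i))
    (hgen : ∀ (ψ : ratChar G) (f : N → ℂ), f ∈ semiInv ρ N ψ →
        f ∈ Submodule.span ℂ {F | ∃ a : Fin m → ℕ, F = ∏ i, s i ^ a i ∧ ∏ i, χ i ^ a i = ψ})
    (θ : ratChar G) (x : ProjectiveSpectrum (gitGr ρ N (θ : G →* ℂˣ))) :
    ∃ (k : ℕ) (a : Fin m → ℕ), 1 ≤ k ∧ ∏ i, χ i ^ a i = θ ^ k ∧
      ∀ i, a i ≠ 0 → WData x (χ i : G →* ℂˣ) := by
  obtain ⟨k, b, hk, hb⟩ := exists_den_pos x
  have hcoe : ((θ ^ k : ratChar G) : G →* ℂˣ) = (θ : G →* ℂˣ) ^ k := rfl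
  obtain ⟨a, ha, haψ⟩ := exists_monomial_den s χ hs (ψ := θ ^ k) hcoe hb
    (hgen (θ ^ k) b (hcoe ▸ hb.1))
  refine ⟨k, a, hk, haψ, fun i hi => ?_⟩
  have hp : s i ^ (a i - 1) * ∏ j ∈ Finset.univ.erase i, s j ^ a j ∈ polyFun N := by
    refine mul_mem (pow_mem (hs i).1 _) (prod_mem fun j _ => pow_mem (hs j).1 _)
  refine WData.of_dvd hst (hs i) hp ha ?_
  rw [← Finset.mul_prod_erase _ _ (Finset.mem_univ i), ← mul_assoc, ← pow_succ',
    Nat.sub_add_cancel (Nat.one_le_iff_ne_zero.mpr hi)]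

lemma tens_nsmul {X : Type} [AddCommGroup X] (k : ℕ) (v : X) :
    (1 : ℝ) ⊗ₜ[ℤ] (k • v) = k • ((1 : ℝ) ⊗ₜ[ℤ] v) := map_nsmul (TensorProduct.mk ℤ ℝ X 1) k v

/-- The main theorem for cones with a factorial coordinate ring. -/
theorem forGeneric_isQFactorial (hred : IsReductive G) (ρ : RatRep G ι) (N : Set (ι → ℂ))
    (hcone : ∀ t : ℂ, ∀ y ∈ N, t • y ∈ N) (hst : ∀ g : G, ∀ y ∈ N, ρ.toHom g *ᵥ y ∈ N)
    [IsDomain (polyFun N)] [UniqueFactorizationMonoid (polyFun N)] :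
    ForGeneric G fun θ => IsQFactorial (gitQuot ρ N θ) := by
  classical
  obtain ⟨m, s, χ, hs, hgen⟩ := exists_generators hred ρ N hcone hst
  set w : Fin m → Additive (ratChar G) := fun i => Additive.ofMul (χ i) with hw
  set W : Set (Fin m) → Submodule ℝ (ℝ ⊗[ℤ] Additive (ratChar G)) := fun T =>
    Submodule.span ℝ (Set.range fun i : T => (1 : ℝ) ⊗ₜ[ℤ] w i) with hW
  refine ⟨{V | V ≠ ⊤ ∧ ∃ T, W T = V}, ?_, fun V hV => hV.1, ?_⟩
  · exact (Set.finite_range W).subset fun V hV => hV.2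
  intro v hv
  set θ : ratChar G := Additive.toMul v with hθ
  change IsQFactorial (gitQuot ρ N (θ : G →* ℂˣ))
  unfold gitQuot sectionProj
  rw [isQFactorial_Proj_iff (A := gitRing ρ N (θ : G →* ℂˣ))]
  refine ⟨fun x => isIntegrallyClosed_atPrime hst x, fun z hz => ?_⟩
  refine qcartier_at hst hcone ?_ z hz
  intro ψ
  have htens : ∀ T : Set (Fin m), ∃ k : ℕ, 1 ≤ k ∧ (W T = ⊤ →
      k • Additive.ofMul ψ ∈ AddSubgroup.closure (Set.range fun i : T => w i)) := by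
    intro T
    by_cases hT : W T = ⊤
    · obtain ⟨k, hk, h⟩ := exists_nsmul_mem_closure (fun i : T => w i) (Additive.ofMul ψ)
        (by
          have : (1 : ℝ) ⊗ₜ[ℤ] Additive.ofMul ψ ∈ W T := by rw [hT]; trivial
          exact this)
      exact ⟨k, hk, fun _ => h⟩
    · exact ⟨1, le_rfl, fun h => absurd h hT⟩
  choose K hK1 hK using htens
  refine ⟨∏ T, K T, Finset.one_le_prod'' fun T => hK1 T, fun x => ?_⟩
  set T : Set (Fin m) := {i | WData x (χ i : G →* ℂˣ)} with hT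
  have htop : W T = ⊤ := by
    by_contra hne
    apply hv (W T) ⟨hne, T, rfl⟩
    obtain ⟨k, a, hk, hak, haT⟩ := exists_theta_sum hst s χ hs hgen θ x
    have h1 : k • v = ∑ i, a i • w i := by
      have := congrArg Additive.ofMul hak
      rw [ofMul_pow, ofMul_prod] at this
      rw [hθ, ofMul_toMul] at this
      rw [← this]
      simp only [hw, ofMul_pow]
    have h2 : (1 : ℝ) ⊗ₜ[ℤ] (k • v) ∈ W T := by
      rw [h1, tmul_sum]
      refine Submodule.sum_mem _ fun i _ => ?_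
      by_cases hi : a i = 0
      · rw [hi, zero_smul, tmul_zero]; exact Submodule.zero_mem _
      · rw [tens_nsmul]
        have hmem : (1 : ℝ) ⊗ₜ[ℤ] w i ∈ W T := Submodule.subset_span ⟨⟨i, haT i hi⟩, rfl⟩
        exact nsmul_mem hmem _
    rw [tens_nsmul] at h2
    have h3 : ((k : ℝ)⁻¹) • (k • ((1 : ℝ) ⊗ₜ[ℤ] v)) ∈ W T := Submodule.smul_mem _ _ h2
    have h4 : ((k : ℝ)⁻¹) • (k • ((1 : ℝ) ⊗ₜ[ℤ] v)) = (1 : ℝ) ⊗ₜ[ℤ] v := by
      rw [← Nat.cast_smul_eq_nsmul ℝ, smul_smul, inv_mul_cancel₀, one_smul]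
      exact Nat.cast_ne_zero.mpr (by omega)
    rwa [h4] at h3
  have h5 : K T • Additive.ofMul ψ ∈ wSub hst x := by
    refine (AddSubgroup.closure_le _).mpr ?_ (hK T htop)
    rintro _ ⟨i, rfl⟩
    exact i.2
  have h6 : (∏ T, K T) • Additive.ofMul ψ ∈ wSub hst x := by
    rw [← Finset.mul_prod_erase _ _ (Finset.mem_univ T), mul_comm, mul_smul]
    exact nsmul_mem h5 _
  exact h6

end main

end Pool.Agent.Lib.MP_462b8b_ag
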