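import Pool.Agent.Lib.MP_462b8b_ag.Defs

/-!
The example for Q2: `SL_2(ℂ)` acting on six copies of `ℂ²`, i.e. on `2 × 6` matrices
(two vectors `r_0, r_1` of `∧²ℂ⁴ = ℂ⁶`, with coordinates `12, 13, 14, 23, 24, 34`).
-/

open Matrix MvPolynomial

namespace Pool.Agent.Lib.MP_462b8b_ag

/-- `SL_2(ℂ)` as a subgroup of `GL_2(ℂ)`. -/
def SL2 : Subgroup (GL (Fin 2) ℂ) := (Matrix.GeneralLinearGroup.det : GL (Fin 2) ℂ →* ℂˣ).ker

lemma mem_SL2 (g : GL (Fin 2) ℂ) : g ∈ SL2 ↔ (g : Matrix (Fin 2) (Fin 2) ℂ).det = 1 := by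
  rw [SL2, MonoidHom.mem_ker, Units.ext_iff]
  rfl

/-- Six copies of the standard representation of `SL_2(ℂ)`. -/
noncomputable def rep6 : RatRep SL2 (Fin 2 × Fin 6) where
  toHom :=
    { toFun := fun g => Matrix.of fun p q =>
        if p.2 = q.2 then ((g : GL (Fin 2) ℂ) : Matrix (Fin 2) (Fin 2) ℂ) p.1 q.1 else 0
      map_one' := by
        ext p q
        rcases p with ⟨i, a⟩
        rcases q with ⟨j, b⟩
        by_cases h : a = b
        · subst h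
          simp [Matrix.one_apply]
        · simp [Matrix.one_apply, h]
      map_mul' := fun g h => by
        ext p q
        rcases p with ⟨i, a⟩
        rcases q with ⟨j, b⟩
        simp only [of_apply, Matrix.mul_apply, Fintype.sum_prod_type]
        by_cases hab : a = b
        · subst hab
          simp [Matrix.mul_apply]
        · simp [hab, Ne.symm hab] }
  regular := by
    rintro ⟨i, a⟩ ⟨j, b⟩
    by_cases h : a = b
    · refine ⟨X (Sum.inl (i, j)), fun g => ?_⟩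
      simp [h]
    · exact ⟨0, fun g => by simp [h]⟩

/-- The symmetric form on `∧²ℂ⁴` given by the wedge product. -/
def wedge (r s : Fin 6 → ℂ) : ℂ :=
  r 0 * s 5 - r 1 * s 4 + r 2 * s 3 + r 3 * s 2 - r 4 * s 1 + r 5 * s 0

/-- The Gram matrix of `wedge`. -/
def wedgeMat : Matrix (Fin 6) (Fin 6) ℂ :=
  !![0, 0, 0, 0, 0, 1; 0, 0, 0, 0, -1, 0; 0, 0, 0, 1, 0, 0;
     0, 0, 1, 0, 0, 0; 0, -1, 0, 0, 0, 0; 1, 0, 0, 0, 0, 0]

/-- The symplectic form `ω(e_i ⊗ r, e_j ⊗ s) = ε_ij (r ∧ s)` on `ℂ² ⊗ ∧²ℂ⁴`. -/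
def Omega : Matrix (Fin 2 × Fin 6) (Fin 2 × Fin 6) ℂ :=
  Matrix.of fun p q => (!![0, 1; -1, 0] : Matrix (Fin 2) (Fin 2) ℂ) p.1 q.1 * wedgeMat p.2 q.2

/-- The zero fibre of the moment map of the example. -/
def N6 : Set (Fin 2 × Fin 6 → ℂ) := rep6.zeroFibre Omega

/-- The chart `ℂ⁹ → N6`: with `(1, x0, x1, x2) ∈ ℂ⁴` and `q_i = (0, q_i2, q_i3, q_i4)` the row `r_i`
is `(1, x0, x1, x2) ∧ q_i`. -/
def chart (e : Fin 9 → ℂ) : Fin 2 × Fin 6 → ℂ := fun p =>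
  if p.1 = 0 then
    ![e 3, e 4, e 5, e 0 * e 4 - e 1 * e 3, e 0 * e 5 - e 2 * e 3, e 1 * e 5 - e 2 * e 4] p.2
  else
    ![e 6, e 7, e 8, e 0 * e 7 - e 1 * e 6, e 0 * e 8 - e 2 * e 6, e 1 * e 8 - e 2 * e 7] p.2

end Pool.Agent.Lib.MP_462b8b_ag
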