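import Pool.Agent.Lib.MP_462b8b_ag.Points
import Pool.Agent.Lib.MP_462b8b_ag.Q2Defs
import Pool.Agent.Lib.MP_462b8b_ag.Fibre
import Pool.Agent.Lib.MP_462b8b_ag.Chart
import Pool.Agent.Lib.MP_462b8b_ag.ProjStalk
import Mathlib.RingTheory.KrullDimension.LocalRing
import Mathlib.RingTheory.KrullDimension.Basic
import Mathlib.Algebra.MvPolynomial.Division
import Mathlib.RingTheory.Polynomial.UniqueFactorization
import Mathlib.Algebra.MvPolynomial.Funext
import Mathlib.Tactic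

/-!
The affine quotient `N6 // SL_2` (the closure of the minimal nilpotent orbit of `sl_4`)
has a prime divisor no multiple of which is Cartier.
-/

open Matrix MvPolynomial AlgebraicGeometry HomogeneousLocalization

set_option linter.unusedSectionVars false

namespace Pool.Agent.Lib.MP_462b8b_ag


namespace NQ

abbrev E := MvPolynomial (Fin 9) ℂ

noncomputable def chartPoly (p : Fin 2 × Fin 6) : E :=
  if p.1 = 0 then
    ![X 3, X 4, X 5, X 0 * X 4 - X 1 * X 3, X 0 * X 5 - X 2 * X 3, X 1 * X 5 - X 2 * X 4] p.2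
  else
    ![X 6, X 7, X 8, X 0 * X 7 - X 1 * X 6, X 0 * X 8 - X 2 * X 6, X 1 * X 8 - X 2 * X 7] p.2

lemma eval_chartPoly (e : Fin 9 → ℂ) (p : Fin 2 × Fin 6) :
    eval e (chartPoly p) = chart e p := by
  rcases p with ⟨i, a⟩
  fin_cases i <;> fin_cases a <;> simp [chartPoly, chart]

noncomputable def cq : MvPolynomial (Fin 2 × Fin 6) ℂ →ₐ[ℂ] E := aeval chartPoly

lemma eval_cq (e : Fin 9 → ℂ) (p : MvPolynomial (Fin 2 × Fin 6) ℂ) :
    eval e (cq p) = eval (chart e) p := by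
  have : (aeval e : E →ₐ[ℂ] ℂ).comp cq = aeval (chart e) := by
    apply MvPolynomial.algHom_ext
    intro i
    simp [cq, MvPolynomial.aeval_eq_eval, eval_chartPoly]
  have h2 := DFunLike.congr_fun this p
  simpa [MvPolynomial.aeval_eq_eval] using h2

/-- a point of the chart as a point of N6 -/
noncomputable def ch (e : Fin 9 → ℂ) : N6 := ⟨chart e, chart_mem e⟩

noncomputable def cF (f : polyFun N6) : E := cq (polyFun_mem_iff.mp f.2).choose

lemma eval_cF (f : polyFun N6) (e : Fin 9 → ℂ) : eval e (cF f) = f.1 (ch e) := by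
  rw [cF, eval_cq]
  exact ((polyFun_mem_iff.mp f.2).choose_spec (ch e)).symm

/-- pull back to the chart -/
noncomputable def cB : polyFun N6 →+* E where
  toFun := cF
  map_zero' := by
    apply MvPolynomial.funext; intro e; rw [eval_cF]; simp
  map_one' := by
    apply MvPolynomial.funext; intro e; rw [eval_cF]; simp
  map_add' f g := by
    apply MvPolynomial.funext; intro e; rw [map_add, eval_cF, eval_cF, eval_cF]; rfl
  map_mul' f g := by
    apply MvPolynomial.funext; intro e; rw [map_mul, eval_cF, eval_cF, eval_cF]; rfl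

lemma eval_cB (f : polyFun N6) (e : Fin 9 → ℂ) : eval e (cB f) = f.1 (ch e) := eval_cF f e

lemma cB_injective : Function.Injective cB := by
  rw [injective_iff_map_eq_zero]
  intro f hf
  obtain ⟨p, hp⟩ := polyFun_mem_iff.mp f.2
  apply Subtype.ext
  funext y
  rw [hp y]
  apply eq_zero_of_chart p _ y.1 y.2
  intro e
  have h := eval_cB f e
  rw [hf, map_zero, hp] at h
  exact h.symm

instance : IsDomain (polyFun N6) := cB_injective.isDomain cB

lemma cB_ext {a b : N6 → ℂ} (ha : a ∈ polyFun N6) (hb : b ∈ polyFun N6)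
    (h : cB ⟨a, ha⟩ = cB ⟨b, hb⟩) : a = b := congrArg Subtype.val (cB_injective h)

/-- N6 is stable -/
lemma stable6 (g : SL2) (y : Fin 2 × Fin 6 → ℂ) (hy : y ∈ N6) : rep6.toHom g *ᵥ y ∈ N6 := by
  rw [mem_N6] at hy ⊢
  have e : ∀ i a, (rep6.toHom g *ᵥ y) (i, a) =
      ((g : GL (Fin 2) ℂ) : Matrix (Fin 2) (Fin 2) ℂ) i 0 * y (0, a) +
      ((g : GL (Fin 2) ℂ) : Matrix (Fin 2) (Fin 2) ℂ) i 1 * y (1, a) := by
    intro i a
    simp [rep6, Matrix.mulVec, dotProduct, Fintype.sum_prod_type, Fin.sum_univ_two]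
  have h00 := hy 0 0
  have h01 := hy 0 1
  have h11 := hy 1 1
  intro i j
  simp only [wedge, e] at *
  set G' := ((g : GL (Fin 2) ℂ) : Matrix (Fin 2) (Fin 2) ℂ)
  linear_combination (G' i 0 * G' j 0) * h00 + (G' i 0 * G' j 1 + G' i 1 * G' j 0) * h01 +
    (G' i 1 * G' j 1) * h11

lemma rep6_mulVec (g : SL2) (y : Fin 2 × Fin 6 → ℂ) (i : Fin 2) (a : Fin 6) :
    (rep6.toHom g *ᵥ y) (i, a) =
      ((g : GL (Fin 2) ℂ) : Matrix (Fin 2) (Fin 2) ℂ) i 0 * y (0, a) +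
      ((g : GL (Fin 2) ℂ) : Matrix (Fin 2) (Fin 2) ℂ) i 1 * y (1, a) := by
  simp [rep6, Matrix.mulVec, dotProduct, Fintype.sum_prod_type, Fin.sum_univ_two]

/-- the 2 x 2 minor of columns a, b -/
def minor (a b : Fin 6) : N6 → ℂ := fun y => y.1 (0, a) * y.1 (1, b) - y.1 (0, b) * y.1 (1, a)

lemma minor_mem (a b : Fin 6) : minor a b ∈ polyFun N6 := by
  rw [polyFun_mem_iff]
  exact ⟨X (0, a) * X (1, b) - X (0, b) * X (1, a), fun y => by simp [minor]⟩

lemma one_char_pow (k : ℕ) : (1 : SL2 →* ℂˣ) ^ k = 1 := by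
  ext g
  simp

lemma minor_inv (a b : Fin 6) (k : ℕ) : minor a b ∈ semiInv rep6 N6 (1 ^ k) := by
  rw [one_char_pow]
  refine ⟨minor_mem a b, fun g y z hz => ?_⟩
  have hdet := (mem_SL2 g.1).mp g.2
  rw [Matrix.det_fin_two] at hdet
  simp only [minor, hz, rep6_mulVec, MonoidHom.one_apply, Units.val_one, one_mul]
  linear_combination (y.1 (0, a) * y.1 (1, b) - y.1 (0, b) * y.1 (1, a)) * hdet

lemma cB_minor (a b : Fin 6) : cB ⟨minor a b, minor_mem a b⟩ =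
    chartPoly (0, a) * chartPoly (1, b) - chartPoly (0, b) * chartPoly (1, a) := by
  apply MvPolynomial.funext
  intro e
  rw [eval_cB]
  simp [minor, ch, eval_chartPoly]

/-- coordinates -/
def coordF (p : Fin 2 × Fin 6) : N6 → ℂ := fun y => y.1 p

lemma coordF_mem (p : Fin 2 × Fin 6) : coordF p ∈ polyFun N6 :=
  polyFun_mem_iff.mpr ⟨X p, fun y => by simp [coordF]⟩

lemma cB_coordF (p : Fin 2 × Fin 6) : cB ⟨coordF p, coordF_mem p⟩ = chartPoly p := by
  apply MvPolynomial.funext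
  intro e
  rw [eval_cB]
  simp [coordF, ch, eval_chartPoly]

noncomputable def mB : polyFun N6 := ⟨minor 1 2, minor_mem 1 2⟩

lemma cB_mB : cB mB = X 4 * X 8 - X 5 * X 7 := by
  rw [mB, cB_minor]; simp [chartPoly]

lemma cB_u : cB ⟨minor 2 5, minor_mem 2 5⟩ = X 2 * cB mB := by
  rw [cB_mB, cB_minor]; simp [chartPoly]; ring

lemma clear_denominators (F : E) : ∃ (k : ℕ) (w : polyFun N6), cB w = cB mB ^ k * F := by
  induction F using MvPolynomial.induction_on with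
  | C c => exact ⟨0, algebraMap ℂ _ c, by
      apply MvPolynomial.funext; intro e; rw [eval_cB]; simp⟩
  | add F F' h h' =>
    obtain ⟨k, w, hw⟩ := h
    obtain ⟨k', w', hw'⟩ := h'
    refine ⟨k + k', mB ^ k' * w + mB ^ k * w', ?_⟩
    rw [map_add, map_mul, map_mul, map_pow, map_pow, hw, hw']
    ring
  | mul_X F i h =>
    obtain ⟨k, w, hw⟩ := h
    have key : ∃ v : polyFun N6, cB v = cB mB * X i := by
      rw [cB_mB]
      fin_cases i
      · refine ⟨⟨(1 / 2 : ℂ) • (minor 3 2 - minor 5 0 - minor 4 1), ?_⟩, ?_⟩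
        · exact Subalgebra.smul_mem _ (sub_mem (sub_mem (minor_mem _ _) (minor_mem _ _))
            (minor_mem _ _)) _
        · apply MvPolynomial.funext; intro e; rw [eval_cB]
          simp [minor, ch, chart]; ring
      · refine ⟨⟨minor 1 5, minor_mem 1 5⟩, ?_⟩
        rw [cB_minor]; simp [chartPoly]; ring
      · refine ⟨⟨minor 2 5, minor_mem 2 5⟩, ?_⟩
        rw [cB_minor]; simp [chartPoly]; ring
      · refine ⟨mB * ⟨coordF (0, 0), coordF_mem _⟩, ?_⟩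
        rw [map_mul, cB_mB, cB_coordF]; simp [chartPoly]
      · refine ⟨mB * ⟨coordF (0, 1), coordF_mem _⟩, ?_⟩
        rw [map_mul, cB_mB, cB_coordF]; simp [chartPoly]
      · refine ⟨mB * ⟨coordF (0, 2), coordF_mem _⟩, ?_⟩
        rw [map_mul, cB_mB, cB_coordF]; simp [chartPoly]
      · refine ⟨mB * ⟨coordF (1, 0), coordF_mem _⟩, ?_⟩
        rw [map_mul, cB_mB, cB_coordF]; simp [chartPoly]
      · refine ⟨mB * ⟨coordF (1, 1), coordF_mem _⟩, ?_⟩
        rw [map_mul, cB_mB, cB_coordF]; simp [chartPoly]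
      · refine ⟨mB * ⟨coordF (1, 2), coordF_mem _⟩, ?_⟩
        rw [map_mul, cB_mB, cB_coordF]; simp [chartPoly]
    obtain ⟨v, hv⟩ := key
    refine ⟨k + 1, w * v, ?_⟩
    rw [map_mul, hw, hv]; ring

lemma poly2_contra (N : ℕ) (F G G' A A' : MvPolynomial (Fin 2) ℂ)
    (h1 : X 0 ^ N * G = F * A) (h2 : X 1 ^ N * G' = F * A')
    (hG : eval 0 G ≠ 0) (hG' : eval 0 G' ≠ 0) (hF : eval 0 F = 0) : False := by
  have hF0 : F ≠ 0 := by
    rintro rfl
    rw [zero_mul, mul_eq_zero] at h1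
    rcases h1 with h1 | h1
    · exact pow_ne_zero N (X_ne_zero 0) h1
    · rw [h1] at hG; simp at hG
  -- a prime factor vanishing at 0
  have key : ∀ P : MvPolynomial (Fin 2) ℂ, P ≠ 0 → eval 0 P = 0 →
      ∃ q, Prime q ∧ q ∣ P ∧ eval 0 q = 0 := by
    intro P
    induction P using UniqueFactorizationMonoid.induction_on_prime with
    | h₁ => intro h; exact absurd rfl h
    | h₂ u hu => intro _ h; exact absurd h (hu.map (eval (0 : Fin 2 → ℂ))).ne_zero
    | h₃ a p ha hp ih =>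
      intro _ h
      rw [map_mul, mul_eq_zero] at h
      rcases h with h | h
      · exact ⟨p, hp, dvd_mul_right _ _, h⟩
      · obtain ⟨q, hq, hqa, hq0⟩ := ih ha h
        exact ⟨q, hq, hqa.mul_left _, hq0⟩
  obtain ⟨q, hq, hqF, hq0⟩ := key F hF0 hF
  have hd : ∀ (i : Fin 2) (K B : MvPolynomial (Fin 2) ℂ), X i ^ N * K = F * B →
      eval 0 K ≠ 0 → q ∣ X i := by
    intro i K B hK h0
    have : q ∣ X i ^ N * K := by rw [hK]; exact hqF.mul_right _
    rcases hq.dvd_or_dvd this with h | h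
    · exact hq.dvd_of_dvd_pow h
    · exfalso
      obtain ⟨c, rfl⟩ := h
      rw [map_mul, hq0, zero_mul] at h0
      exact h0 rfl
  have hq0' := hd 0 G A h1 hG
  obtain ⟨c', hc'⟩ := hd 1 G' A' h2 hG'
  have hX : Irreducible (X 0 : MvPolynomial (Fin 2) ℂ) := X_prime.irreducible
  have hass : Associated q (X 0) := hq.irreducible.associated_of_dvd hX hq0'
  obtain ⟨d, hd⟩ := hass.symm.dvd
  rw [hd] at hc'
  have := congrArg (eval (fun i : Fin 2 => if i = 1 then (1 : ℂ) else 0)) hc'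
  simp at this

/-- dimension one from a uniformiser -/
lemma ringKrullDim_eq_one_of_uniformiser {O : Type*} [CommRing O] [IsDomain O] [IsLocalRing O]
    (ϖ : O) (h0 : ϖ ≠ 0) (hu : ¬ IsUnit ϖ)
    (h : ∀ β : O, β ≠ 0 → ∃ (j : ℕ) (W : O), IsUnit W ∧ β = ϖ ^ j * W) : ringKrullDim O = 1 := by
  rw [ringKrullDim_eq_one_iff_of_isLocalRing_isDomain]
  refine ⟨fun hf => ?_, fun x hx => ?_⟩
  · obtain ⟨b, hb⟩ := hf.mul_inv_cancel h0
    exact hu (IsUnit.of_mul_eq_one b hb)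
  intro γ hγ
  by_cases hγ0 : γ = 0
  · subst hγ0; exact zero_mem _
  obtain ⟨i, W', hW', rfl⟩ := h γ hγ0
  obtain ⟨j, W, hW, rfl⟩ := h x hx
  rcases Nat.eq_zero_or_pos i with hi | hi
  · subst hi
    rw [pow_zero, one_mul] at hγ
    exact absurd hW' ((IsLocalRing.mem_maximalIdeal _).mp hγ)
  · obtain ⟨V, hV⟩ := hW
    refine ⟨j, Ideal.mem_span_singleton.mpr ?_⟩
    obtain ⟨i', rfl⟩ := Nat.exists_eq_add_of_lt hi
    refine ⟨(ϖ ^ (i' * j)) * W' ^ j * (V⁻¹ : Oˣ), ?_⟩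
    rw [← hV]
    have : (V : O) * ((V⁻¹ : Oˣ) : O) = 1 := V.mul_inv
    calc (ϖ ^ (0 + i' + 1) * W') ^ j = ϖ ^ j * ϖ ^ (i' * j) * W' ^ j * 1 := by ring
      _ = _ := by rw [← this]; ring

/-! ### The generic point of the divisor -/

lemma X2_prime : Prime (X 2 : E) := X_prime

instance : (Ideal.span {(X 2 : E)}).IsPrime :=
  (Ideal.span_singleton_prime (X_ne_zero _)).mpr X2_prime

abbrev Dz := E ⧸ Ideal.span {(X 2 : E)}

instance : IsDomain Dz := Ideal.Quotient.isDomain _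

noncomputable def φz : polyFun N6 →+* Dz := (Ideal.Quotient.mk (Ideal.span {(X 2 : E)})).comp cB

lemma φz_eq_zero (f : polyFun N6) : φz f = 0 ↔ X 2 ∣ cB f := by
  rw [φz, RingHom.comp_apply, Ideal.Quotient.eq_zero_iff_dvd]

lemma one_inv (k : ℕ) : (1 : N6 → ℂ) ∈ semiInv rep6 N6 (1 ^ k) := by
  rw [one_char_pow]; exact semiInv_one_mem rep6 N6

noncomputable def zp : ProjectiveSpectrum (gitGr rep6 N6 1) :=
  pt φz rep6 1 1 one_pos 1 (one_inv 1) (by
    have : (⟨1, (one_inv 1).1⟩ : polyFun N6) = 1 := rfl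
    rw [this, map_one]; exact one_ne_zero)

lemma den_zp {l : ℕ} {c : N6 → ℂ} :
    Den zp l c ↔ ∃ hc : c ∈ semiInv rep6 N6 (1 ^ l), ¬ X 2 ∣ cB ⟨c, hc.1⟩ := by
  rw [zp, den_pt]
  simp only [φz_eq_zero, ne_eq]

lemma zero_mem_N6 : (0 : Fin 2 × Fin 6 → ℂ) ∈ N6 := by
  rw [mem_N6]; intro i j; simp [wedge]

noncomputable def O6 : N6 := ⟨0, zero_mem_N6⟩

noncomputable def φx : polyFun N6 →+* ℂ where
  toFun f := f.1 O6
  map_zero' := rfl
  map_one' := rfl
  map_add' _ _ := rfl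
  map_mul' _ _ := rfl

noncomputable def xp : ProjectiveSpectrum (gitGr rep6 N6 1) :=
  pt φx rep6 1 1 one_pos 1 (one_inv 1) (by
    have : (⟨1, (one_inv 1).1⟩ : polyFun N6) = 1 := rfl
    rw [this, map_one]; exact one_ne_zero)

lemma den_xp {l : ℕ} {c : N6 → ℂ} :
    Den xp l c ↔ ∃ _ : c ∈ semiInv rep6 N6 (1 ^ l), c O6 ≠ 0 := by
  rw [xp, den_pt]
  rfl

lemma ch_zero : ch 0 = O6 := by
  apply Subtype.ext
  funext ⟨i, a⟩
  fin_cases i <;> fin_cases a <;> simp [ch, chart, O6]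

lemma φz_φx (f : polyFun N6) (h : φz f = 0) : φx f = 0 := by
  rw [φz_eq_zero] at h
  obtain ⟨c, hc⟩ := h
  have := eval_cB f 0
  rw [hc, ch_zero] at this
  change f.1 O6 = 0
  rw [← this]; simp

lemma zp_le_xp : zp.asHomogeneousIdeal ≤ xp.asHomogeneousIdeal := by
  intro P hP
  have h1 := (mem_ptIdeal φz P).mp hP
  exact (mem_ptIdeal φx P).mpr fun k => φz_φx _ (h1 k)

lemma mB_not_dvd : ¬ X 2 ∣ cB mB := by
  rintro ⟨c, hc⟩
  rw [cB_mB] at hc
  have := congrArg (eval (fun i : Fin 9 => if i = 4 ∨ i = 8 then (1 : ℂ) else 0)) hc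
  simp at this

lemma mB_den (k : ℕ) : Den zp k mB.1 :=
  den_zp.mpr ⟨minor_inv 1 2 k, mB_not_dvd⟩

noncomputable def uB : polyFun N6 := ⟨minor 2 5, minor_mem 2 5⟩
noncomputable def vB : polyFun N6 := ⟨minor 4 5, minor_mem 4 5⟩

noncomputable def ϖ : AtPrime (gitGr rep6 N6 1) zp.asHomogeneousIdeal.toIdeal :=
  fr zp 0 (minor 2 5) mB.1 (minor_inv 2 5 0) (mB_den 0)

instance : IsDomain (AtPrime (gitGr rep6 N6 1) zp.asHomogeneousIdeal.toIdeal) :=
  isDomain_atPrime _ zp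

lemma uB_ne : minor 2 5 ≠ 0 := by
  intro h
  have h1 : uB = 0 := Subtype.ext h
  have := cB_u
  rw [show (⟨minor 2 5, minor_mem 2 5⟩ : polyFun N6) = uB from rfl, h1, map_zero] at this
  have h2 : (X 2 * cB mB : E) ≠ 0 := mul_ne_zero (X_ne_zero (2 : Fin 9))
    (fun h : cB mB = 0 => mB_not_dvd (h ▸ dvd_zero _))
  exact h2 this.symm

lemma ϖ_ne : ϖ ≠ 0 := fun h => uB_ne (fr_zero_iff.mp h)

lemma ϖ_not_unit : ¬ IsUnit ϖ := by
  intro h
  obtain ⟨h1, h2⟩ := den_zp.mp (fr_isUnit_iff.mp h)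
  exact h2 (by rw [cB_u]; exact dvd_mul_right _ _)

lemma one_mul_char : (1 : SL2 →* ℂˣ) * 1 = 1 := by
  ext g
  simp

lemma inv_mul {a b : N6 → ℂ} (ha : a ∈ semiInv rep6 N6 1) (hb : b ∈ semiInv rep6 N6 1) :
    a * b ∈ semiInv rep6 N6 1 := by
  have := semiInv_mul_mem ha hb
  rwa [one_mul_char] at this

lemma inv_pow {a : N6 → ℂ} (ha : a ∈ semiInv rep6 N6 1) (m : ℕ) :
    a ^ m ∈ semiInv rep6 N6 1 := by
  induction m with
  | zero => simpa using semiInv_one_mem rep6 N6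
  | succ m ih => rw [pow_succ]; exact inv_mul ih ha

lemma fr_pow {x : ProjectiveSpectrum (gitGr rep6 N6 1)} {a b : N6 → ℂ}
    (ha : a ∈ semiInv rep6 N6 (1 ^ 0)) (hb : Den x 0 b) (j : ℕ)
    (haj : a ^ j ∈ semiInv rep6 N6 (1 ^ 0)) (hbj : Den x 0 (b ^ j)) :
    fr x 0 a b ha hb ^ j = fr x 0 (a ^ j) (b ^ j) haj hbj := by
  induction j with
  | zero =>
    rw [pow_zero, ← fr_one (Den.one (x := x)), fr_eq_iff]
    simp
  | succ j ih =>
    have h1 : a ^ j ∈ semiInv rep6 N6 (1 ^ 0) := by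
      rw [one_char_pow] at ha ⊢
      exact inv_pow ha j
    have h2 : Den x 0 (b ^ j) := by simpa using hb.pow j
    rw [pow_succ, ih h1 h2, fr_mul, fr_eq_iff]
    ring

lemma uniformiser (β : AtPrime (gitGr rep6 N6 1) zp.asHomogeneousIdeal.toIdeal) (hβ : β ≠ 0) :
    ∃ (j : ℕ) (W : AtPrime (gitGr rep6 N6 1) zp.asHomogeneousIdeal.toIdeal),
      IsUnit W ∧ β = ϖ ^ j * W := by
  obtain ⟨k, a, b, ha, hb, rfl⟩ := fr_surj β
  have ha0 : a ≠ 0 := fun h => hβ (fr_zero_iff.mpr h)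
  have hc0 : cB ⟨a, ha.1⟩ ≠ 0 := by
    intro h
    apply ha0
    have h1 := cB_injective (h.trans (map_zero cB).symm)
    exact congrArg Subtype.val h1
  obtain ⟨j, F, hF, hjF⟩ := WfDvdMonoid.max_power_factor hc0 X2_prime.irreducible
  obtain ⟨l, w, hw⟩ := clear_denominators F
  have hrel : uB ^ j * w = mB ^ (j + l) * ⟨a, ha.1⟩ := by
    apply cB_injective
    rw [map_mul, map_mul, map_pow, map_pow, hw, hjF]
    change cB ⟨minor 2 5, minor_mem 2 5⟩ ^ j * _ = _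
    rw [cB_u]
    ring
  have hrel' : minor 2 5 ^ j * w.1 = mB.1 ^ (j + l) * a := congrArg Subtype.val hrel
  have hu1 : minor 2 5 ∈ semiInv rep6 N6 1 := by simpa [one_char_pow] using minor_inv 2 5 0
  have hm1 : mB.1 ∈ semiInv rep6 N6 1 := by
    have h := minor_inv 1 2 0
    rw [one_char_pow] at h
    exact h
  have ha1 : a ∈ semiInv rep6 N6 1 := by simpa [one_char_pow] using ha
  have hw1 : w.1 ∈ semiInv rep6 N6 1 := by
    refine semiInv_of_mul (χ := 1) (ψ := 1) stable6 w.2 (inv_pow hu1 j) ?_ ?_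
    · intro h
      have : uB ^ j = 0 := Subtype.ext h
      exact pow_ne_zero j (fun h : uB = 0 => uB_ne (congrArg Subtype.val h)) this
    · rw [mul_comm, hrel']
      rw [one_mul_char]
      exact inv_mul (inv_pow hm1 _) ha1
  have hwk : ∀ k : ℕ, w.1 ∈ semiInv rep6 N6 (1 ^ k) := by
    intro k; rw [one_char_pow]; exact hw1
  have hmk : Den zp k (mB.1 ^ l * b) := by
    have h1 : Den zp (l * 0 + k) (mB.1 ^ l * b) := ((mB_den 0).pow l).mul hb
    simpa using h1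
  refine ⟨j, fr zp k w.1 (mB.1 ^ l * b) (hwk k) hmk, ?_, ?_⟩
  · rw [fr_isUnit_iff, den_zp]
    refine ⟨hwk k, ?_⟩
    intro h
    have h' : X 2 ∣ cB w := h
    rw [hw] at h'
    rcases X2_prime.dvd_or_dvd h' with h1 | h1
    · exact mB_not_dvd (X2_prime.dvd_of_dvd_pow h1)
    · exact hF h1
  · have h0 : ∀ m : ℕ, minor 2 5 ^ m ∈ semiInv rep6 N6 (1 ^ 0) := by
      intro m; rw [one_char_pow]; exact inv_pow hu1 m
    have h2 : Den zp 0 (mB.1 ^ j) := by simpa using (mB_den 0).pow j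
    rw [ϖ, fr_pow _ _ j (h0 j) h2, fr_mul, fr_eq_iff]
    rw [hrel', pow_add]
    ring

lemma dim_zp :
    ringKrullDim (AtPrime (gitGr rep6 N6 1) zp.asHomogeneousIdeal.toIdeal) = 1 :=
  ringKrullDim_eq_one_of_uniformiser ϖ ϖ_ne ϖ_not_unit uniformiser

/-! ### The surface through the origin -/

/-- the surface with rows `(0,0,s,0,t,0)` and `(0,0,0,0,0,1)` -/
def surf (e : Fin 2 → ℂ) : Fin 2 × Fin 6 → ℂ := fun p =>
  if p.1 = 0 then ![0, 0, e 0, 0, e 1, 0] p.2 else ![0, 0, 0, 0, 0, 1] p.2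

lemma surf_mem (e : Fin 2 → ℂ) : surf e ∈ N6 := by
  rw [mem_N6]
  intro i j
  fin_cases i <;> fin_cases j <;> simp [wedge, surf]

noncomputable def sf (e : Fin 2 → ℂ) : N6 := ⟨surf e, surf_mem e⟩

noncomputable def surfPoly (p : Fin 2 × Fin 6) : MvPolynomial (Fin 2) ℂ :=
  if p.1 = 0 then ![0, 0, X 0, 0, X 1, 0] p.2 else ![0, 0, 0, 0, 0, 1] p.2

lemma eval_surfPoly (e : Fin 2 → ℂ) (p : Fin 2 × Fin 6) :
    eval e (surfPoly p) = surf e p := by
  rcases p with ⟨i, a⟩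
  fin_cases i <;> fin_cases a <;> simp [surfPoly, surf]

noncomputable def sq : MvPolynomial (Fin 2 × Fin 6) ℂ →ₐ[ℂ] MvPolynomial (Fin 2) ℂ :=
  aeval surfPoly

lemma eval_sq (e : Fin 2 → ℂ) (p : MvPolynomial (Fin 2 × Fin 6) ℂ) :
    eval e (sq p) = eval (surf e) p := by
  have : (aeval e : MvPolynomial (Fin 2) ℂ →ₐ[ℂ] ℂ).comp sq = aeval (surf e) := by
    apply MvPolynomial.algHom_ext
    intro i
    simp [sq, MvPolynomial.aeval_eq_eval, eval_surfPoly]
  have h2 := DFunLike.congr_fun this p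
  simpa [MvPolynomial.aeval_eq_eval] using h2

noncomputable def sF (f : polyFun N6) : MvPolynomial (Fin 2) ℂ :=
  sq (polyFun_mem_iff.mp f.2).choose

lemma eval_sF (f : polyFun N6) (e : Fin 2 → ℂ) : eval e (sF f) = f.1 (sf e) := by
  rw [sF, eval_sq]
  exact ((polyFun_mem_iff.mp f.2).choose_spec (sf e)).symm

noncomputable def sB : polyFun N6 →+* MvPolynomial (Fin 2) ℂ where
  toFun := sF
  map_zero' := by
    apply MvPolynomial.funext; intro e; rw [eval_sF]; simp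
  map_one' := by
    apply MvPolynomial.funext; intro e; rw [eval_sF]; simp
  map_add' f g := by
    apply MvPolynomial.funext; intro e; rw [map_add, eval_sF, eval_sF, eval_sF]; rfl
  map_mul' f g := by
    apply MvPolynomial.funext; intro e; rw [map_mul, eval_sF, eval_sF, eval_sF]; rfl

lemma eval_sB (f : polyFun N6) (e : Fin 2 → ℂ) : eval e (sB f) = f.1 (sf e) := eval_sF f e

lemma sB_u : sB uB = X 0 := by
  apply MvPolynomial.funext; intro e; rw [eval_sB]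
  simp [uB, minor, sf, surf]

lemma sB_v : sB vB = X 1 := by
  apply MvPolynomial.funext; intro e; rw [eval_sB]
  simp [vB, minor, sf, surf]

/-- the line through `surf 0` and the origin -/
def line (c : ℂ) : Fin 2 × Fin 6 → ℂ := fun p =>
  if p.1 = 0 then 0 else ![0, 0, 0, 0, 0, c] p.2

lemma line_mem (c : ℂ) : line c ∈ N6 := by
  rw [mem_N6]
  intro i j
  fin_cases i <;> fin_cases j <;> simp [wedge, line]

noncomputable def torus (c : ℂˣ) : GL (Fin 2) ℂ :=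
  ⟨!![(c : ℂ)⁻¹, 0; 0, c], !![(c : ℂ), 0; 0, (c : ℂ)⁻¹], by
    ext i j; fin_cases i <;> fin_cases j <;> simp [Matrix.mul_apply, Fin.sum_univ_two], by
    ext i j; fin_cases i <;> fin_cases j <;> simp [Matrix.mul_apply, Fin.sum_univ_two]⟩

lemma torus_mem (c : ℂˣ) : torus c ∈ SL2 := by
  rw [mem_SL2]
  simp [torus, Matrix.det_fin_two]

/-- invariants take the same value at `surf 0` and at the origin -/
lemma inv_surf {f : N6 → ℂ} (hf : f ∈ semiInv rep6 N6 1) : f (sf 0) = f O6 := by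
  obtain ⟨p, hp⟩ := polyFun_mem_iff.mp hf.1
  have h1 : ∀ c : ℂ, c ≠ 0 → eval (line c) p = eval (line 1) p := by
    intro c hc
    have h2 := hf.2 ⟨torus (Units.mk0 c hc), torus_mem _⟩ ⟨line 1, line_mem 1⟩
      ⟨line c, line_mem c⟩ (by
        funext ⟨i, a⟩
        rw [rep6_mulVec]
        fin_cases i <;> fin_cases a <;> simp [line, torus])
    rw [hp, hp] at h2
    simpa using h2
  have hcont : Continuous fun c : ℂ => eval (line c) p := by
    apply (MvPolynomial.continuous_eval p).comp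
    refine continuous_pi fun y => ?_
    rcases y with ⟨i, a⟩
    fin_cases i <;> fin_cases a <;> simp [line] <;> fun_prop
  have h3 : (fun c : ℂ => eval (line c) p) = fun _ => eval (line 1) p := by
    refine Continuous.ext_on (dense_compl_singleton (0 : ℂ)) hcont continuous_const ?_
    intro c hc
    exact h1 c hc
  have h4 : eval (line 0) p = eval (line 1) p := congrFun h3 0
  rw [hp, hp]
  have e0 : (O6 : Fin 2 × Fin 6 → ℂ) = line 0 := by
    funext ⟨i, a⟩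
    fin_cases i <;> fin_cases a <;> simp [line, O6]
  have e1 : (sf 0 : Fin 2 × Fin 6 → ℂ) = line 1 := by
    funext ⟨i, a⟩
    fin_cases i <;> fin_cases a <;> simp [line, sf, surf]
  rw [e0, e1, h4]

lemma cB_v : X 2 ∣ cB ⟨minor 4 5, minor_mem 4 5⟩ := by
  rw [cB_minor]
  refine ⟨X 0 * (X 4 * X 8 - X 5 * X 7) + X 1 * (X 5 * X 6 - X 3 * X 8) +
    X 2 * (X 3 * X 7 - X 4 * X 6), ?_⟩
  simp [chartPoly]
  ring

lemma mem_max_of_dvd {a : N6 → ℂ} (ha : a ∈ semiInv rep6 N6 (1 ^ 0))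
    (h : X 2 ∣ cB ⟨a, ha.1⟩) :
    fr zp 0 a 1 ha Den.one ∈ IsLocalRing.maximalIdeal
      (AtPrime (gitGr rep6 N6 1) zp.asHomogeneousIdeal.toIdeal) := by
  rw [IsLocalRing.mem_maximalIdeal]
  intro hu
  obtain ⟨h1, h2⟩ := den_zp.mp (fr_isUnit_iff.mp hu)
  exact h2 h

lemma mem_comap_pow (N : ℕ) {a : N6 → ℂ} (ha1 : a ∈ semiInv rep6 N6 (1 ^ 0))
    (haN : a ^ N ∈ semiInv rep6 N6 (1 ^ 0)) (h : X 2 ∣ cB ⟨a, ha1.1⟩) :
    fr xp 0 (a ^ N) 1 haN Den.one ∈
      Ideal.comap (mapId (gitGr rep6 N6 1) (primeCompl_le (gitGr rep6 N6 1) zp_le_xp))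
      (IsLocalRing.maximalIdeal
        (AtPrime (gitGr rep6 N6 1) zp.asHomogeneousIdeal.toIdeal) ^ N) := by
  rw [Ideal.mem_comap, mapId_fr zp_le_xp]
  have h2 : fr zp 0 (a ^ N) 1 haN Den.one = fr zp 0 a 1 ha1 Den.one ^ N := by
    have h3 : Den zp 0 (1 ^ N : N6 → ℂ) := by simpa using Den.one (x := zp)
    rw [fr_pow ha1 Den.one N haN h3, fr_eq_iff]
    simp
  rw [h2]
  exact Ideal.pow_mem_pow (mem_max_of_dvd ha1 h) N

lemma of_mem_span {k : ℕ} {c f1 g1 : N6 → ℂ} {hc : c ∈ semiInv rep6 N6 (1 ^ 0)}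
    {hf1 : f1 ∈ semiInv rep6 N6 (1 ^ k)} {hg1 : Den xp k g1}
    (h : fr xp 0 c 1 hc Den.one ∈ Ideal.span {fr xp k f1 g1 hf1 hg1}) :
    ∃ (a' b' : N6 → ℂ) (_ : a' ∈ polyFun N6)
      (_ : b' ∈ semiInv rep6 N6 1), b' O6 ≠ 0 ∧ c * b' = f1 * a' := by
  obtain ⟨C, hC⟩ := Ideal.mem_span_singleton'.mp h
  obtain ⟨l, a', b', ha', hb', rfl⟩ := fr_surj C
  rw [fr_mul, fr_eq_iff, mul_one] at hC
  obtain ⟨hg, hg0⟩ := den_xp.mp (hb'.mul hg1)
  refine ⟨a', b' * g1, ha'.1, ?_, hg0, ?_⟩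
  · rw [one_char_pow] at hg
    exact hg
  · rw [← hC, mul_comm]

lemma vanish_of_span {N k : ℕ} (hN : 1 ≤ N) {f1 g1 : N6 → ℂ}
    {hf1 : f1 ∈ semiInv rep6 N6 (1 ^ k)} {hg1 : Den xp k g1}
    (hF : Ideal.comap (mapId (gitGr rep6 N6 1) (primeCompl_le (gitGr rep6 N6 1) zp_le_xp))
      (IsLocalRing.maximalIdeal
        (AtPrime (gitGr rep6 N6 1) zp.asHomogeneousIdeal.toIdeal) ^ N) =
        Ideal.span {fr xp k f1 g1 hf1 hg1}) : f1 O6 = 0 := by
  by_contra hne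
  have hu : IsUnit (fr xp k f1 g1 hf1 hg1) := by
    rw [fr_isUnit_iff, den_xp]
    exact ⟨hf1, hne⟩
  have h1 : (1 : AtPrime (gitGr rep6 N6 1) xp.asHomogeneousIdeal.toIdeal) ∈
      Ideal.span {fr xp k f1 g1 hf1 hg1} := by
    rw [Ideal.span_singleton_eq_top.mpr hu]; trivial
  rw [← hF, Ideal.mem_comap, map_one] at h1
  have h2 := Ideal.pow_le_self (Nat.one_le_iff_ne_zero.mp hN) h1
  exact (Ideal.ne_top_iff_one _).mp (IsLocalRing.maximalIdeal.isMaximal _).ne_top h2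

lemma inv_one_pow {a : N6 → ℂ} (k : ℕ) : a ∈ semiInv rep6 N6 (1 ^ k) ↔ a ∈ semiInv rep6 N6 1 := by
  rw [one_char_pow]

theorem final_contra (N : ℕ) {f1 : N6 → ℂ} (hf1 : f1 ∈ semiInv rep6 N6 1) (hf0 : f1 O6 = 0)
    (H : ∀ a : N6 → ℂ, ∀ ha : a ∈ semiInv rep6 N6 1, X 2 ∣ cB ⟨a, ha.1⟩ →
      ∃ (a' b' : N6 → ℂ) (_ : a' ∈ polyFun N6)
      (_ : b' ∈ semiInv rep6 N6 1), b' O6 ≠ 0 ∧ a ^ N * b' = f1 * a') : False := by
  obtain ⟨a1, b1, ha1, hb1, hb10, h1⟩ := H (minor 2 5)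
    ((inv_one_pow 0).mp (minor_inv 2 5 0)) (by
      rw [cB_u]; exact dvd_mul_right _ _)
  obtain ⟨a2, b2, ha2, hb2, hb20, h2⟩ := H (minor 4 5)
    ((inv_one_pow 0).mp (minor_inv 4 5 0)) cB_v
  have h1' : uB ^ N * ⟨b1, hb1.1⟩ = (⟨f1, hf1.1⟩ : polyFun N6) * ⟨a1, ha1⟩ := Subtype.ext h1
  have h2' : vB ^ N * ⟨b2, hb2.1⟩ = (⟨f1, hf1.1⟩ : polyFun N6) * ⟨a2, ha2⟩ := Subtype.ext h2
  have h1'' := congrArg sB h1'
  have h2'' := congrArg sB h2'
  rw [map_mul, map_mul, map_pow, sB_u] at h1''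
  rw [map_mul, map_mul, map_pow, sB_v] at h2''
  refine poly2_contra N _ _ _ _ _ h1'' h2'' ?_ ?_ ?_
  · rw [eval_sB]; change b1 (sf 0) ≠ 0; rwa [inv_surf hb1]
  · rw [eval_sB]; change b2 (sf 0) ≠ 0; rwa [inv_surf hb2]
  · rw [eval_sB]; change f1 (sf 0) = 0
    rwa [inv_surf hf1]

theorem not_principal (N : ℕ) (hN : 1 ≤ N) :
    ¬ (Ideal.comap (mapId (gitGr rep6 N6 1) (primeCompl_le (gitGr rep6 N6 1) zp_le_xp))
      (IsLocalRing.maximalIdeal
        (AtPrime (gitGr rep6 N6 1) zp.asHomogeneousIdeal.toIdeal) ^ N)).IsPrincipal := by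
  rintro ⟨Fel, hF⟩
  obtain ⟨k, f1, g1, hf1, hg1, rfl⟩ := fr_surj Fel
  have hF' : Ideal.comap (mapId (gitGr rep6 N6 1) (primeCompl_le (gitGr rep6 N6 1) zp_le_xp))
      (IsLocalRing.maximalIdeal
        (AtPrime (gitGr rep6 N6 1) zp.asHomogeneousIdeal.toIdeal) ^ N) =
        Ideal.span {fr xp k f1 g1 hf1 hg1} := hF
  refine final_contra N ((inv_one_pow k).mp hf1) (vanish_of_span hN hF') fun a ha h => ?_
  have h1 := mem_comap_pow N ((inv_one_pow 0).mpr ha) ((inv_one_pow 0).mpr (inv_pow ha N)) h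
  rw [hF'] at h1
  exact of_mem_span h1

/-- No multiple of the divisor of `zp` is Cartier. -/
theorem not_qcartier : ¬ DivisorsQCartier (gitQuot rep6 N6 1) := by
  intro h
  unfold gitQuot at h
  have h' := (divisorsQCartier_Proj_iff (A := gitRing rep6 N6 1) (gitGr rep6 N6 1)).mp h
  obtain ⟨N, hN, hx⟩ := h' zp dim_zp
  exact not_principal N hN (hx xp zp_le_xp)


end NQ

end Pool.Agent.Lib.MP_462b8b_ag
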