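import Pool.Agent.Lib.MP_462b8b_ag.Frac

/-!
Points of `N //_θ G` defined by homomorphisms from `ℂ[N]` to a domain.
-/

open Matrix MvPolynomial AlgebraicGeometry HomogeneousLocalization

set_option linter.unusedSectionVars false

namespace Pool.Agent.Lib.MP_462b8b_ag

variable {n : Type} [Fintype n] [DecidableEq n] {G : Subgroup (GL n ℂ)}
variable {ι : Type} [Fintype ι] [DecidableEq ι]
variable {ρ : RatRep G ι} {N : Set (ι → ℂ)} {θ : G →* ℂˣ}

lemma decompose_git (P : gitRing ρ N θ) (k : ℕ) :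
    ((DirectSum.decompose (gitGr ρ N θ) P k : gitGr ρ N θ k) : gitRing ρ N θ) =
      homog k (P.1.coeff k) (P.2 k) := by
  have h1 : DirectSum.decompose (gitGr ρ N θ) P = ∑ k ∈ P.1.support,
      DirectSum.of (fun k => sectionGr (gitM ρ N θ) k) k (sectionComp (gitM ρ N θ) P k) := by
    apply (DirectSum.decompose (gitGr ρ N θ)).symm.injective
    rw [Equiv.symm_apply_apply, DirectSum.decompose_symm_sum]
    apply Subtype.ext
    rw [AddSubmonoidClass.coe_finsetSum]
    conv_lhs => rw [Polynomial.as_sum_support P.1]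
    refine Finset.sum_congr rfl fun k _ => ?_
    rw [DirectSum.decompose_symm_of]
    rfl
  rw [h1, sectionComp_sum]
  rfl

section

variable {D : Type} [CommRing D] [IsDomain D] (φ : polyFun N →+* D)

/-- The prime ideal of `gitRing` of a homomorphism to a domain. -/
noncomputable def ptIdeal (ρ : RatRep G ι) (θ : G →* ℂˣ) : Ideal (gitRing ρ N θ) :=
  RingHom.ker ((Polynomial.mapRingHom φ).comp toPolyB)

lemma mem_ptIdeal (P : gitRing ρ N θ) :
    P ∈ ptIdeal φ ρ θ ↔ ∀ k, φ ⟨P.1.coeff k, gitRing_coeff_mem P k⟩ = 0 := by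
  rw [ptIdeal, RingHom.mem_ker, Polynomial.ext_iff]
  refine forall_congr' fun k => ?_
  simp [toPolyB_coeff]

lemma homog_mem_ptIdeal {k : ℕ} {b : N → ℂ} (hb : b ∈ semiInv ρ N (θ ^ k)) :
    homog k b hb ∈ ptIdeal φ ρ θ ↔ φ ⟨b, hb.1⟩ = 0 := by
  rw [mem_ptIdeal]
  constructor
  · intro h
    have := h k
    simpa [homog] using this
  · intro h j
    by_cases hj : k = j
    · subst hj
      simpa [homog] using h
    · have : (⟨(homog k b hb).1.coeff j, gitRing_coeff_mem _ j⟩ : polyFun N) = 0 := by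
        apply Subtype.ext
        simp [homog, Polynomial.coeff_monomial, hj]
      rw [this, map_zero]

/-- The point of `Proj` of a homomorphism `φ` to a domain that does not kill all semi-invariants
of positive degree. -/
noncomputable def pt (ρ : RatRep G ι) (θ : G →* ℂˣ) (k : ℕ) (hk : 0 < k) (b : N → ℂ)
    (hb : b ∈ semiInv ρ N (θ ^ k)) (h0 : φ ⟨b, hb.1⟩ ≠ 0) :
    ProjectiveSpectrum (gitGr ρ N θ) where
  asHomogeneousIdeal :=
    ⟨ptIdeal φ ρ θ, by
      intro i P hP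
      rw [decompose_git, homog_mem_ptIdeal]
      exact (mem_ptIdeal φ P).mp hP i⟩
  isPrime := RingHom.ker_isPrime _
  not_irrelevant_le := by
    intro h
    apply h0
    rw [← homog_mem_ptIdeal φ hb]
    apply h
    rw [HomogeneousIdeal.mem_irrelevant_iff, GradedRing.proj_apply, decompose_git]
    apply Subtype.ext
    simp [homog, Polynomial.coeff_monomial, hk.ne']

lemma den_pt {k : ℕ} {hk : 0 < k} {b : N → ℂ}
    {hb : b ∈ semiInv ρ N (θ ^ k)} {h0 : φ ⟨b, hb.1⟩ ≠ 0} {l : ℕ} {c : N → ℂ} :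
    Den (pt φ ρ θ k hk b hb h0) l c ↔ ∃ hc : c ∈ semiInv ρ N (θ ^ l), φ ⟨c, hc.1⟩ ≠ 0 := by
  constructor
  · rintro ⟨h1, h2⟩
    exact ⟨h1, fun h => h2 ((homog_mem_ptIdeal φ h1).mpr h)⟩
  · rintro ⟨h1, h2⟩
    exact ⟨h1, fun h => h2 ((homog_mem_ptIdeal φ h1).mp h)⟩

end

end Pool.Agent.Lib.MP_462b8b_ag
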