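import Pool.Agent.Lib.MP_462b8b_ag.Q2Defs
import Mathlib

open Matrix MvPolynomial

namespace Pool.Agent.Lib.MP_462b8b_ag

/-! ### `SL_2(ℂ)` is linearly reductive (unitary trick) -/

/-- An element of `SL2` from a matrix of determinant one. -/
noncomputable def slrMk (M : Matrix (Fin 2) (Fin 2) ℂ) (h : M.det = 1) : SL2 :=
  ⟨Matrix.GeneralLinearGroup.mk'' M (by rw [h]; exact isUnit_one), (mem_SL2 _).2 h⟩

lemma slrMk_val (M : Matrix (Fin 2) (Fin 2) ℂ) (h : M.det = 1) :
    ((slrMk M h : SL2) : GL (Fin 2) ℂ).val = M := rfl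

lemma slr_ext {g h : SL2} (e : (g : GL (Fin 2) ℂ).val = (h : GL (Fin 2) ℂ).val) : g = h := by
  apply Subtype.ext
  apply Units.ext
  exact e

lemma slrMk_eq (g : SL2) : slrMk (g : GL (Fin 2) ℂ).val ((mem_SL2 _).1 g.2) = g :=
  slr_ext rfl

lemma slrMk_mul (A B : Matrix (Fin 2) (Fin 2) ℂ) (hA : A.det = 1) (hB : B.det = 1)
    (hAB : (A * B).det = 1) : slrMk (A * B) hAB = slrMk A hA * slrMk B hB :=
  slr_ext rfl

lemma slr_inv (g : SL2) : ((g : GL (Fin 2) ℂ)⁻¹).val =
    !![(g : GL (Fin 2) ℂ).val 1 1, -(g : GL (Fin 2) ℂ).val 0 1;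
       -(g : GL (Fin 2) ℂ).val 1 0, (g : GL (Fin 2) ℂ).val 0 0] := by
  have hdet : (g : GL (Fin 2) ℂ).val.det = 1 := (mem_SL2 _).1 g.2
  have h1 : ((g : GL (Fin 2) ℂ)⁻¹).val = ((g : GL (Fin 2) ℂ).val)⁻¹ :=
    Matrix.coe_units_inv _
  rw [h1, Matrix.inv_def, hdet, Ring.inverse_one, one_smul, Matrix.adjugate_fin_two]

/-- The substitution expressing the entries of the inverse. -/
noncomputable def slrSub : (Fin 2 × Fin 2) ⊕ (Fin 2 × Fin 2) → MvPolynomial (Fin 2 × Fin 2) ℂ :=
  Sum.elim (fun ij => X ij)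
    (fun ij => if ij.1 = 0 then (if ij.2 = 0 then X (1, 1) else - X (0, 1)) else
      (if ij.2 = 0 then - X (1, 0) else X (0, 0)))

/-- The entries of a rational representation of `SL2` are polynomials in the four entries. -/
lemma slr_poly {m : ℕ} (ρ : RatRep SL2 (Fin m)) (i j : Fin m) :
    ∃ p : MvPolynomial (Fin 2 × Fin 2) ℂ, ∀ g : SL2,
      ρ.toHom g i j = eval (fun ij => (g : GL (Fin 2) ℂ).val ij.1 ij.2) p := by
  obtain ⟨p, hp⟩ := ρ.regular i j
  refine ⟨aeval slrSub p, ?_⟩
  intro g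
  refine (hp g).trans ?_
  have h1 : ∀ q : MvPolynomial (Fin 2 × Fin 2) ℂ,
      eval (fun ij => (g : GL (Fin 2) ℂ).val ij.1 ij.2) q =
      aeval (fun ij => (g : GL (Fin 2) ℂ).val ij.1 ij.2) q := by
    intro q
    rw [MvPolynomial.aeval_eq_eval]
  rw [h1, ← AlgHom.comp_apply, MvPolynomial.comp_aeval, MvPolynomial.aeval_eq_eval]
  congr 2
  funext ij
  rcases ij with ij | ij
  · simp [slrSub]
  · rcases ij with ⟨a, b⟩
    simp only [Sum.elim_inr, slrSub]
    rw [slr_inv]
    fin_cases a <;> fin_cases b <;> simp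

/-- The unit quaternions. -/
abbrev SlrS : Type := Metric.sphere (0 : Quaternion ℝ) 1

/-- The complex matrix of a quaternion. -/
noncomputable def slrMat (q : Quaternion ℝ) : Matrix (Fin 2) (Fin 2) ℂ :=
  !![⟨q.re, q.imI⟩, ⟨q.imJ, q.imK⟩; ⟨-q.imJ, q.imK⟩, ⟨q.re, -q.imI⟩]

lemma slrMat_one : slrMat 1 = 1 := by
  have e1 : (1 : Quaternion ℝ).re = 1 := rfl
  have e2 : (1 : Quaternion ℝ).imI = 0 := rfl
  have e3 : (1 : Quaternion ℝ).imJ = 0 := rfl
  have e4 : (1 : Quaternion ℝ).imK = 0 := rfl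
  unfold slrMat
  rw [e1, e2, e3, e4]
  ext i j
  fin_cases i <;> fin_cases j <;>
  · apply Complex.ext <;> simp

lemma slrMat_mul (p q : Quaternion ℝ) : slrMat (p * q) = slrMat p * slrMat q := by
  ext i j
  fin_cases i <;> fin_cases j <;>
  · apply Complex.ext <;> simp [slrMat, Matrix.mul_apply, Fin.sum_univ_two] <;> ring

lemma slrMat_det (q : Quaternion ℝ) (h : ‖q‖ = 1) : (slrMat q).det = 1 := by
  have h1 := Quaternion.normSq_eq_norm_mul_self q
  rw [h, Quaternion.normSq_def'] at h1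
  rw [slrMat, Matrix.det_fin_two_of]
  apply Complex.ext
  · simp
    nlinarith
  · simp
    ring

lemma slrMat_det' (q : SlrS) : (slrMat q).det = 1 := slrMat_det _ (by simp)

/-- The homomorphism from the unit quaternions to `SL2`. -/
noncomputable def slrHom : SlrS →* SL2 where
  toFun q := slrMk (slrMat q) (slrMat_det' q)
  map_one' := by
    apply slr_ext
    rw [slrMk_val]
    exact slrMat_one
  map_mul' p q := by
    apply slr_ext
    rw [slrMk_val]
    exact slrMat_mul _ _

lemma slr_cont {m : ℕ} (ρ : RatRep SL2 (Fin m)) (i j : Fin m) :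
    Continuous fun q : SlrS => ρ.toHom (slrHom q) i j := by
  obtain ⟨p, hp⟩ := slr_poly ρ i j
  have h1 : (fun q : SlrS => ρ.toHom (slrHom q) i j) =
      fun q : SlrS => eval (fun ij : Fin 2 × Fin 2 => slrMat q ij.1 ij.2) p := by
    funext q
    rw [hp]
    rfl
  rw [h1]
  have h2 : Continuous fun q : SlrS => (fun ij : Fin 2 × Fin 2 => slrMat q ij.1 ij.2) := by
    apply continuous_pi
    rintro ⟨a, b⟩
    have hre : Continuous fun q : SlrS => (q : Quaternion ℝ).re :=
      Quaternion.continuous_re.comp continuous_subtype_val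
    have hi : Continuous fun q : SlrS => (q : Quaternion ℝ).imI :=
      Quaternion.continuous_imI.comp continuous_subtype_val
    have hj : Continuous fun q : SlrS => (q : Quaternion ℝ).imJ :=
      Quaternion.continuous_imJ.comp continuous_subtype_val
    have hk : Continuous fun q : SlrS => (q : Quaternion ℝ).imK :=
      Quaternion.continuous_imK.comp continuous_subtype_val
    have key : ∀ u v : SlrS → ℝ, Continuous u → Continuous v →
        Continuous fun q : SlrS => (⟨u q, v q⟩ : ℂ) := by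
      intro u v hu hv
      have : (fun q : SlrS => (⟨u q, v q⟩ : ℂ)) = fun q => (u q : ℂ) + (v q : ℂ) * Complex.I := by
        funext q
        apply Complex.ext <;> simp
      rw [this]
      exact (Complex.continuous_ofReal.comp hu).add
        ((Complex.continuous_ofReal.comp hv).mul continuous_const)
    fin_cases a <;> fin_cases b
    · exact key _ _ hre hi
    · exact key _ _ hj hk
    · exact key _ _ hj.neg hk
    · exact key _ _ hre hi.neg
  exact (MvPolynomial.continuous_eval p).comp h2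

lemma slr_average {m : ℕ} (ρ : RatRep SL2 (Fin m)) (W : Submodule ℂ (Fin m → ℂ))
    (hW : ∀ g, ∀ w ∈ W, ρ.toHom g *ᵥ w ∈ W) :
    ∃ P : Matrix (Fin m) (Fin m) ℂ, (∀ v, P *ᵥ v ∈ W) ∧ (∀ w ∈ W, P *ᵥ w = w) ∧
      ∀ q : SlrS, ρ.toHom (slrHom q) * P = P * ρ.toHom (slrHom q) := by
  obtain ⟨f, hf⟩ := W.subtype.exists_leftInverse_of_injective W.ker_subtype
  set P0 : Matrix (Fin m) (Fin m) ℂ := LinearMap.toMatrix' (W.subtype ∘ₗ f) with hP0
  have hP0v : ∀ v, P0 *ᵥ v = (f v : Fin m → ℂ) := by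
    intro v
    rw [hP0, LinearMap.toMatrix'_mulVec]
    rfl
  have hP0a : ∀ v, P0 *ᵥ v ∈ W := fun v => by rw [hP0v]; exact (f v).2
  have hP0b : ∀ w ∈ W, P0 *ᵥ w = w := by
    intro w hw
    rw [hP0v]
    have := congrArg Subtype.val (LinearMap.congr_fun hf ⟨w, hw⟩)
    exact this
  let _ : MeasurableSpace SlrS := borel SlrS
  have : BorelSpace SlrS := ⟨rfl⟩
  have : ProperSpace (Quaternion ℝ) := FiniteDimensional.proper ℝ _
  have : CompactSpace SlrS := inferInstance
  set μ : MeasureTheory.Measure SlrS := MeasureTheory.Measure.haarMeasure ⊤ with hμ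
  have : MeasureTheory.IsProbabilityMeasure μ := ⟨by
    have := MeasureTheory.Measure.haarMeasure_self (K₀ := (⊤ : TopologicalSpace.PositiveCompacts SlrS))
    simpa using this⟩
  set F : SlrS → Matrix (Fin m) (Fin m) ℂ := fun q =>
    ρ.toHom (slrHom q) * P0 * ρ.toHom (slrHom q⁻¹) with hF
  have hFc : ∀ i j, Continuous fun q => F q i j := by
    intro i j
    have h1 : (fun q => F q i j) = fun q => ∑ b, (∑ a, ρ.toHom (slrHom q) i a * P0 a b) *
        ρ.toHom (slrHom q⁻¹) b j := by
      funext q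
      rw [hF]
      simp only [Matrix.mul_apply]
    rw [h1]
    apply continuous_finsetSum
    intro b _
    apply Continuous.mul
    · apply continuous_finsetSum
      intro a _
      exact (slr_cont ρ i a).mul continuous_const
    · exact (slr_cont ρ b j).comp continuous_inv
  have hFi : ∀ i j, MeasureTheory.Integrable (fun q => F q i j) μ := by
    intro i j
    exact (hFc i j).integrable_of_hasCompactSupport (HasCompactSupport.of_compactSpace _)
  set Pb : Matrix (Fin m) (Fin m) ℂ := Matrix.of fun i j => ∫ q, F q i j ∂μ with hPb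
  have hlin : ∀ (A B : Matrix (Fin m) (Fin m) ℂ) (i j : Fin m),
      (A * Pb * B) i j = ∫ q, (A * F q * B) i j ∂μ := by
    intro A B i j
    simp only [Matrix.mul_apply]
    rw [MeasureTheory.integral_finsetSum]
    · apply Finset.sum_congr rfl
      intro b _
      rw [MeasureTheory.integral_mul_const]
      congr 1
      rw [MeasureTheory.integral_finsetSum]
      · apply Finset.sum_congr rfl
        intro a _
        rw [MeasureTheory.integral_const_mul]
        rfl
      · intro a _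
        exact (hFi a b).const_mul _
    · intro b _
      apply MeasureTheory.Integrable.mul_const
      apply MeasureTheory.integrable_finsetSum
      intro a _
      exact (hFi a b).const_mul _
  have hvec : ∀ (A : Matrix (Fin m) (Fin m) ℂ) (v : Fin m → ℂ) (i : Fin m),
      (A *ᵥ (Pb *ᵥ v)) i = ∫ q, (A *ᵥ (F q *ᵥ v)) i ∂μ := by
    intro A v i
    simp only [Matrix.mulVec, dotProduct]
    rw [MeasureTheory.integral_finsetSum]
    · apply Finset.sum_congr rfl
      intro a _
      rw [MeasureTheory.integral_const_mul]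
      congr 1
      rw [MeasureTheory.integral_finsetSum]
      · apply Finset.sum_congr rfl
        intro b _
        rw [MeasureTheory.integral_mul_const]
        rfl
      · intro b _
        exact (hFi a b).mul_const _
    · intro a _
      apply MeasureTheory.Integrable.const_mul
      apply MeasureTheory.integrable_finsetSum
      intro b _
      exact (hFi a b).mul_const _
  have hinv : ∀ q : SlrS, ρ.toHom (slrHom q) * ρ.toHom (slrHom q⁻¹) = 1 := by
    intro q
    rw [← map_mul, ← map_mul, mul_inv_cancel, map_one, map_one]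
  have hinv' : ∀ q : SlrS, ρ.toHom (slrHom q⁻¹) * ρ.toHom (slrHom q) = 1 := by
    intro q
    rw [← map_mul, ← map_mul, inv_mul_cancel, map_one, map_one]
  have hFW : ∀ q v, F q *ᵥ v ∈ W := by
    intro q v
    rw [hF]
    simp only
    rw [← Matrix.mulVec_mulVec, ← Matrix.mulVec_mulVec]
    exact hW _ _ (hP0a _)
  have hFw : ∀ q, ∀ w ∈ W, F q *ᵥ w = w := by
    intro q w hw
    rw [hF]
    simp only
    rw [← Matrix.mulVec_mulVec, ← Matrix.mulVec_mulVec, hP0b _ (hW _ _ hw), Matrix.mulVec_mulVec,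
      hinv, Matrix.one_mulVec]
  refine ⟨Pb, ?_, ?_, ?_⟩
  · intro v
    have h1 : P0 *ᵥ (Pb *ᵥ v) = Pb *ᵥ v := by
      funext i
      rw [hvec]
      have h2 := hvec 1 v i
      rw [Matrix.one_mulVec] at h2
      rw [h2]
      congr 1
      funext q
      rw [hP0b _ (hFW q v), Matrix.one_mulVec]
    rw [← h1]
    exact hP0a _
  · intro w hw
    funext i
    have h2 := hvec 1 w i
    rw [Matrix.one_mulVec] at h2
    rw [h2]
    have h3 : (fun q => ((1 : Matrix (Fin m) (Fin m) ℂ) *ᵥ (F q *ᵥ w)) i) = fun _ => w i := by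
      funext q
      rw [Matrix.one_mulVec, hFw q w hw]
    rw [h3, MeasureTheory.integral_const]
    simp
  · intro k
    have h1 : ρ.toHom (slrHom k) * Pb * ρ.toHom (slrHom k⁻¹) = Pb := by
      ext i j
      rw [hlin]
      have h2 : (fun q => (ρ.toHom (slrHom k) * F q * ρ.toHom (slrHom k⁻¹)) i j) =
          fun q => (fun q => F q i j) (k * q) := by
        funext q
        simp only
        rw [hF]
        simp only
        rw [_root_.mul_inv_rev, map_mul slrHom, map_mul slrHom, map_mul, map_mul]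
        simp only [Matrix.mul_assoc]
      rw [h2]
      exact MeasureTheory.integral_mul_left_eq_self (μ := μ) (fun q => F q i j) k
    calc ρ.toHom (slrHom k) * Pb = ρ.toHom (slrHom k) * Pb *
          (ρ.toHom (slrHom k⁻¹) * ρ.toHom (slrHom k)) := by rw [hinv', Matrix.mul_one]
      _ = (ρ.toHom (slrHom k) * Pb * ρ.toHom (slrHom k⁻¹)) * ρ.toHom (slrHom k) := by
          simp only [Matrix.mul_assoc]
      _ = Pb * ρ.toHom (slrHom k) := by rw [h1]

/-- The complex torus as a family of matrices. -/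
noncomputable def slrT (z : ℂ) : Matrix (Fin 2) (Fin 2) ℂ :=
  !![Complex.exp (Complex.I * z), 0; 0, Complex.exp (-(Complex.I * z))]

lemma slrT_det (z : ℂ) : (slrT z).det = 1 := by
  rw [slrT, Matrix.det_fin_two_of, ← Complex.exp_add]
  simp

lemma slr_diff (p : MvPolynomial (Fin 2 × Fin 2) ℂ) :
    Differentiable ℂ fun z : ℂ => eval (fun ij : Fin 2 × Fin 2 => slrT z ij.1 ij.2) p := by
  have hX : ∀ a b : Fin 2, Differentiable ℂ fun z : ℂ => slrT z a b := by
    intro a b
    have h1 : Differentiable ℂ fun z : ℂ => Complex.exp (Complex.I * z) :=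
      (differentiable_id.const_mul _).cexp
    have h2 : Differentiable ℂ fun z : ℂ => Complex.exp (-(Complex.I * z)) :=
      (differentiable_id.const_mul _).neg.cexp
    fin_cases a <;> fin_cases b
    · exact h1
    · exact differentiable_const _
    · exact differentiable_const _
    · exact h2
  induction p using MvPolynomial.induction_on with
  | C a =>
    simp only [eval_C]
    exact differentiable_const _
  | add p q hp hq =>
    simp only [map_add]
    exact hp.add hq
  | mul_X p i hp =>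
    simp only [map_mul, eval_X]
    exact hp.mul (hX i.1 i.2)

/-- Commuting with `P` extends from the unit quaternions to the complex torus. -/
lemma slr_torus {m : ℕ} (ρ : RatRep SL2 (Fin m)) (P : Matrix (Fin m) (Fin m) ℂ)
    (hP : ∀ q : SlrS, ρ.toHom (slrHom q) * P = P * ρ.toHom (slrHom q)) (z : ℂ) :
    ρ.toHom (slrMk (slrT z) (slrT_det z)) * P = P * ρ.toHom (slrMk (slrT z) (slrT_det z)) := by
  have hd : ∀ a b, Differentiable ℂ fun z : ℂ => ρ.toHom (slrMk (slrT z) (slrT_det z)) a b := by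
    intro a b
    obtain ⟨p, hp⟩ := slr_poly ρ a b
    have : (fun z : ℂ => ρ.toHom (slrMk (slrT z) (slrT_det z)) a b) =
        fun z : ℂ => eval (fun ij : Fin 2 × Fin 2 => slrT z ij.1 ij.2) p := by
      funext z
      rw [hp]
      rfl
    rw [this]
    exact slr_diff p
  ext i j
  have h1 : Differentiable ℂ fun z : ℂ => (ρ.toHom (slrMk (slrT z) (slrT_det z)) * P) i j := by
    simp only [Matrix.mul_apply]
    apply Differentiable.fun_sum
    intro a _
    exact (hd i a).mul_const _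
  have h2 : Differentiable ℂ fun z : ℂ => (P * ρ.toHom (slrMk (slrT z) (slrT_det z))) i j := by
    simp only [Matrix.mul_apply]
    apply Differentiable.fun_sum
    intro a _
    exact (hd a j).const_mul _
  have hreal : ∀ x : ℝ, ρ.toHom (slrMk (slrT x) (slrT_det x)) * P =
      P * ρ.toHom (slrMk (slrT x) (slrT_det x)) := by
    intro x
    set q : Quaternion ℝ := ⟨Real.cos x, Real.sin x, 0, 0⟩ with hq
    have hq1 : ‖q‖ = 1 := by
      have h3 := Quaternion.normSq_eq_norm_mul_self q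
      rw [Quaternion.normSq_def'] at h3
      have h4 : Real.cos x ^ 2 + Real.sin x ^ 2 = 1 := Real.cos_sq_add_sin_sq x
      have h5 : ‖q‖ * ‖q‖ = 1 := by
        rw [← h3, hq]
        simp only
        linarith
      nlinarith [norm_nonneg q]
    have hqs : q ∈ Metric.sphere (0 : Quaternion ℝ) 1 := by simp [hq1]
    have h3 : slrMk (slrT x) (slrT_det x) = slrHom ⟨q, hqs⟩ := by
      apply slr_ext
      change slrT x = slrMat q
      unfold slrT slrMat
      ext a b
      have e1 : Complex.exp (Complex.I * x) = ⟨Real.cos x, Real.sin x⟩ := by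
        rw [mul_comm, Complex.exp_mul_I]
        apply Complex.ext <;> simp [Complex.cos_ofReal_re, Complex.sin_ofReal_re]
      have e2 : Complex.exp (-(Complex.I * x)) = ⟨Real.cos x, -Real.sin x⟩ := by
        have : -(Complex.I * x) = ((-x : ℝ) : ℂ) * Complex.I := by
          push_cast
          ring
        rw [this, Complex.exp_mul_I]
        apply Complex.ext <;> simp [Complex.cos_ofReal_re, Complex.sin_ofReal_re]
      fin_cases a <;> fin_cases b
      · exact e1
      · apply Complex.ext <;> simp [hq]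
      · apply Complex.ext <;> simp [hq]
      · exact e2
    rw [h3]
    exact hP _
  have hfreq : ∃ᶠ w in nhdsWithin (0 : ℂ) {0}ᶜ,
      (fun z : ℂ => (ρ.toHom (slrMk (slrT z) (slrT_det z)) * P) i j) w =
      (fun z : ℂ => (P * ρ.toHom (slrMk (slrT z) (slrT_det z))) i j) w := by
    have ht : Filter.Tendsto (fun n : ℕ => (((1 : ℝ) / ((n : ℝ) + 1) : ℝ) : ℂ)) Filter.atTop
        (nhdsWithin (0 : ℂ) {0}ᶜ) := by
      rw [tendsto_nhdsWithin_iff]
      constructor
      · have := tendsto_one_div_add_atTop_nhds_zero_nat (𝕜 := ℝ)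
        have h3 := (Complex.continuous_ofReal.tendsto 0).comp this
        rw [Complex.ofReal_zero] at h3
        exact h3
      · refine Filter.Eventually.of_forall fun n => ?_
        simp only [Set.mem_compl_iff, Set.mem_singleton_iff]
        have : (1 : ℝ) / ((n : ℝ) + 1) ≠ 0 := by positivity
        exact_mod_cast this
    refine ht.frequently (Filter.Frequently.of_forall fun n => ?_)
    simp only
    rw [hreal]
  have := AnalyticOnNhd.eq_of_frequently_eq (z₀ := (0 : ℂ))
    (Complex.analyticOnNhd_univ_iff_differentiable.2 h1)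
    (Complex.analyticOnNhd_univ_iff_differentiable.2 h2) hfreq
  exact congrFun this z

theorem isReductive_SL2 : IsReductive SL2 := by
  intro m ρ W hW
  obtain ⟨P, hP1, hP2, hP3⟩ := slr_average ρ W hW
  set Cm : Matrix (Fin 2) (Fin 2) ℂ → Prop := fun M => ∀ h : M.det = 1,
    ρ.toHom (slrMk M h) * P = P * ρ.toHom (slrMk M h) with hCm
  have hmul : ∀ A B, A.det = 1 → B.det = 1 → Cm A → Cm B → Cm (A * B) := by
    intro A B hA hB hCA hCB h
    rw [slrMk_mul A B hA hB h, map_mul, Matrix.mul_assoc, hCB hB, ← Matrix.mul_assoc, hCA hA,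
      Matrix.mul_assoc]
  have hrot : ∀ c s : ℝ, c ^ 2 + s ^ 2 = 1 → Cm !![(c : ℂ), (s : ℂ); -(s : ℂ), (c : ℂ)] := by
    intro c s hcs h
    set q : Quaternion ℝ := ⟨c, 0, s, 0⟩ with hq
    have hq1 : ‖q‖ = 1 := by
      have h3 := Quaternion.normSq_eq_norm_mul_self q
      rw [Quaternion.normSq_def'] at h3
      have h5 : ‖q‖ * ‖q‖ = 1 := by
        rw [← h3, hq]
        simp only
        linarith
      nlinarith [norm_nonneg q]
    have hqs : q ∈ Metric.sphere (0 : Quaternion ℝ) 1 := by simp [hq1]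
    have h3 : slrMk !![(c : ℂ), (s : ℂ); -(s : ℂ), (c : ℂ)] h = slrHom ⟨q, hqs⟩ := by
      apply slr_ext
      change !![(c : ℂ), (s : ℂ); -(s : ℂ), (c : ℂ)] = slrMat q
      unfold slrMat
      ext a b
      fin_cases a <;> fin_cases b <;>
      · apply Complex.ext <;> simp [hq]
    rw [h3]
    exact hP3 _
  have hdiag : ∀ l : ℂ, l ≠ 0 → Cm !![l, 0; 0, l⁻¹] := by
    intro l hl h
    have h1 : (!![l, 0; 0, l⁻¹] : Matrix (Fin 2) (Fin 2) ℂ) = slrT (-(Complex.I * Complex.log l)) := by
      have e1 : Complex.I * (-(Complex.I * Complex.log l)) = Complex.log l := by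
        linear_combination (-Complex.log l) * Complex.I_sq
      unfold slrT
      rw [e1, Complex.exp_neg, Complex.exp_log hl]
    have h2 := slr_torus ρ P hP3 (-(Complex.I * Complex.log l))
    have h3 : slrMk !![l, 0; 0, l⁻¹] h = slrMk (slrT (-(Complex.I * Complex.log l)))
        (slrT_det _) := by
      apply slr_ext
      exact h1
    rw [h3]
    exact h2
  have hdetd : ∀ l : ℂ, l ≠ 0 → (!![l, 0; 0, l⁻¹] : Matrix (Fin 2) (Fin 2) ℂ).det = 1 := by
    intro l hl
    rw [Matrix.det_fin_two_of, mul_inv_cancel₀ hl]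
    ring
  have hdetu : ∀ x : ℂ, (!![1, x; 0, 1] : Matrix (Fin 2) (Fin 2) ℂ).det = 1 := by
    intro x
    rw [Matrix.det_fin_two_of]
    ring
  have hdetl : ∀ x : ℂ, (!![1, 0; x, 1] : Matrix (Fin 2) (Fin 2) ℂ).det = 1 := by
    intro x
    rw [Matrix.det_fin_two_of]
    ring
  have hu0 : Cm !![1, -7 / 12; 0, 1] := by
    have e : (!![1, -7 / 12; 0, 1] : Matrix (Fin 2) (Fin 2) ℂ) =
        !![((4 / 5 : ℝ) : ℂ), ((3 / 5 : ℝ) : ℂ); -((3 / 5 : ℝ) : ℂ), ((4 / 5 : ℝ) : ℂ)] *
        !![(4 / 3 : ℂ), 0; 0, (4 / 3 : ℂ)⁻¹] *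
        !![((3 / 5 : ℝ) : ℂ), ((-(4 / 5) : ℝ) : ℂ); -((-(4 / 5) : ℝ) : ℂ), ((3 / 5 : ℝ) : ℂ)] := by
      ext a b
      fin_cases a <;> fin_cases b <;>
      · simp [Matrix.mul_apply, Fin.sum_univ_two]
        try norm_num
    rw [e]
    have d1 : (!![((4 / 5 : ℝ) : ℂ), ((3 / 5 : ℝ) : ℂ); -((3 / 5 : ℝ) : ℂ), ((4 / 5 : ℝ) : ℂ)] :
        Matrix (Fin 2) (Fin 2) ℂ).det = 1 := by
      rw [Matrix.det_fin_two_of]
      push_cast
      norm_num
    have d2 : (!![(4 / 3 : ℂ), 0; 0, (4 / 3 : ℂ)⁻¹] : Matrix (Fin 2) (Fin 2) ℂ).det = 1 :=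
      hdetd _ (by norm_num)
    have d3 : (!![((3 / 5 : ℝ) : ℂ), ((-(4 / 5) : ℝ) : ℂ); -((-(4 / 5) : ℝ) : ℂ),
        ((3 / 5 : ℝ) : ℂ)] : Matrix (Fin 2) (Fin 2) ℂ).det = 1 := by
      rw [Matrix.det_fin_two_of]
      push_cast
      norm_num
    apply hmul _ _ (by rw [Matrix.det_mul, d1, d2, one_mul]) d3
    · exact hmul _ _ d1 d2 (hrot _ _ (by norm_num)) (hdiag _ (by norm_num))
    · exact hrot _ _ (by norm_num)
  have hu : ∀ x : ℂ, Cm !![1, x; 0, 1] := by
    intro x
    by_cases hx : x = 0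
    · subst hx
      intro h
      have h1 : slrMk !![1, 0; 0, 1] h = 1 := by
        apply slr_ext
        change !![1, 0; 0, 1] = (1 : Matrix (Fin 2) (Fin 2) ℂ)
        exact Matrix.one_fin_two.symm
      rw [h1, map_one, Matrix.one_mul, Matrix.mul_one]
    · obtain ⟨l, hl⟩ := IsAlgClosed.exists_pow_nat_eq (x / (-7 / 12)) (n := 2) (by norm_num)
      have hl0 : l ≠ 0 := by
        intro h
        rw [h, zero_pow (by norm_num)] at hl
        have h7 : x / (-7 / 12) ≠ 0 := div_ne_zero hx (by norm_num)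
        exact h7 hl.symm
      have e : (!![1, x; 0, 1] : Matrix (Fin 2) (Fin 2) ℂ) =
          !![l, 0; 0, l⁻¹] * !![1, -7 / 12; 0, 1] * !![l⁻¹, 0; 0, l⁻¹⁻¹] := by
        ext a b
        have hx' : x = l * (-7 / 12) * l := by
          have : l ^ 2 * (-7 / 12) = x := by
            rw [hl]
            field_simp
          rw [← this]
          ring
        fin_cases a <;> fin_cases b <;>
          simp [Matrix.mul_apply, Fin.sum_univ_two, hl0]
        exact hx'
      rw [e]
      apply hmul _ _ (by rw [Matrix.det_mul, hdetd l hl0, hdetu, one_mul])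
        (hdetd l⁻¹ (inv_ne_zero hl0))
      · exact hmul _ _ (hdetd l hl0) (hdetu _) (hdiag l hl0) hu0
      · exact hdiag _ (inv_ne_zero hl0)
  have dw : (!![((0 : ℝ) : ℂ), ((1 : ℝ) : ℂ); -((1 : ℝ) : ℂ), ((0 : ℝ) : ℂ)] :
      Matrix (Fin 2) (Fin 2) ℂ).det = 1 := by
    rw [Matrix.det_fin_two_of]
    push_cast
    norm_num
  have dw' : (!![((0 : ℝ) : ℂ), ((-1 : ℝ) : ℂ); -((-1 : ℝ) : ℂ), ((0 : ℝ) : ℂ)] :
      Matrix (Fin 2) (Fin 2) ℂ).det = 1 := by
    rw [Matrix.det_fin_two_of]
    push_cast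
    norm_num
  have hl : ∀ x : ℂ, Cm !![1, 0; x, 1] := by
    intro x
    have e : (!![1, 0; x, 1] : Matrix (Fin 2) (Fin 2) ℂ) =
        !![((0 : ℝ) : ℂ), ((1 : ℝ) : ℂ); -((1 : ℝ) : ℂ), ((0 : ℝ) : ℂ)] * !![1, -x; 0, 1] *
        !![((0 : ℝ) : ℂ), ((-1 : ℝ) : ℂ); -((-1 : ℝ) : ℂ), ((0 : ℝ) : ℂ)] := by
      ext a b
      fin_cases a <;> fin_cases b <;> simp [Matrix.mul_apply, Fin.sum_univ_two]
    rw [e]
    apply hmul _ _ (by rw [Matrix.det_mul, dw, hdetu, one_mul]) dw'
    · exact hmul _ _ dw (hdetu _) (hrot _ _ (by norm_num)) (hu _)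
    · exact hrot _ _ (by norm_num)
  have hgen1 : ∀ M : Matrix (Fin 2) (Fin 2) ℂ, M.det = 1 → M 1 0 ≠ 0 → Cm M := by
    intro M hM hc
    have hdet := hM
    rw [Matrix.det_fin_two] at hdet
    have e : M = !![1, (M 0 0 - 1) / M 1 0; 0, 1] * !![1, 0; M 1 0, 1] *
        !![1, (M 1 1 - 1) / M 1 0; 0, 1] := by
      ext a b
      fin_cases a <;> fin_cases b
      · simp [Matrix.mul_apply, Fin.sum_univ_two]
        field_simp
        ring
      · simp [Matrix.mul_apply, Fin.sum_univ_two]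
        field_simp
        linear_combination -hdet
      · simp [Matrix.mul_apply, Fin.sum_univ_two]
      · simp [Matrix.mul_apply, Fin.sum_univ_two]
        field_simp
        ring
    rw [e]
    apply hmul _ _ (by rw [Matrix.det_mul, hdetu, hdetl, one_mul]) (hdetu _)
    · exact hmul _ _ (hdetu _) (hdetl _) (hu _) (hl _)
    · exact hu _
  have hgen : ∀ M : Matrix (Fin 2) (Fin 2) ℂ, M.det = 1 → Cm M := by
    intro M hM
    by_cases hc : M 1 0 = 0
    · have hdet := hM
      rw [Matrix.det_fin_two, hc] at hdet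
      have ha : M 0 0 ≠ 0 := by
        intro h
        rw [h] at hdet
        simp at hdet
      set N : Matrix (Fin 2) (Fin 2) ℂ :=
        !![((0 : ℝ) : ℂ), ((1 : ℝ) : ℂ); -((1 : ℝ) : ℂ), ((0 : ℝ) : ℂ)] * M with hN
      have e : M = !![((0 : ℝ) : ℂ), ((-1 : ℝ) : ℂ); -((-1 : ℝ) : ℂ), ((0 : ℝ) : ℂ)] * N := by
        rw [hN, ← Matrix.mul_assoc]
        have h1 : (!![((0 : ℝ) : ℂ), ((-1 : ℝ) : ℂ); -((-1 : ℝ) : ℂ), ((0 : ℝ) : ℂ)] *
            !![((0 : ℝ) : ℂ), ((1 : ℝ) : ℂ); -((1 : ℝ) : ℂ), ((0 : ℝ) : ℂ)] :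
            Matrix (Fin 2) (Fin 2) ℂ) = 1 := by
          ext a b
          fin_cases a <;> fin_cases b <;> simp [Matrix.mul_apply, Fin.sum_univ_two]
        rw [h1, Matrix.one_mul]
      have hNd : N.det = 1 := by rw [hN, Matrix.det_mul, dw, hM, one_mul]
      have hNc : N 1 0 ≠ 0 := by
        rw [hN]
        simp [Matrix.mul_apply, Fin.sum_univ_two, ha]
      rw [e]
      exact hmul _ _ dw' hNd (hrot _ _ (by norm_num)) (hgen1 N hNd hNc)
    · exact hgen1 M hM hc
  have hcomm : ∀ g : SL2, ρ.toHom g * P = P * ρ.toHom g := by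
    intro g
    have h1 := hgen (g : GL (Fin 2) ℂ).val ((mem_SL2 _).1 g.2) ((mem_SL2 _).1 g.2)
    rwa [slrMk_eq] at h1
  refine ⟨LinearMap.ker (Matrix.mulVecLin P), ?_, ?_⟩
  · intro g w hw
    rw [LinearMap.mem_ker, Matrix.mulVecLin_apply] at hw ⊢
    rw [Matrix.mulVec_mulVec, ← hcomm g, ← Matrix.mulVec_mulVec, hw, Matrix.mulVec_zero]
  · constructor
    · rw [Submodule.disjoint_def]
      intro w hw hk
      rw [LinearMap.mem_ker, Matrix.mulVecLin_apply, hP2 w hw] at hk
      exact hk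
    · rw [codisjoint_iff, Submodule.eq_top_iff']
      intro v
      rw [Submodule.mem_sup]
      refine ⟨P *ᵥ v, hP1 v, v - P *ᵥ v, ?_, by abel⟩
      rw [LinearMap.mem_ker, Matrix.mulVecLin_apply, Matrix.mulVec_sub, hP2 _ (hP1 v), sub_self]

end Pool.Agent.Lib.MP_462b8b_ag
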